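import Pool.Agent.T2h52.FC.Stm

/-! Task BAS: basic facts on `Z`, `nu`, `mn`. -/

set_option autoImplicit false
set_option linter.all false

namespace Pool.Agent.T2h52.FC

open MeasureTheory Set Filter Topology ProbabilityTheory
open scoped ENNReal InnerProductSpace Pointwise
open Pool.Agent.R755.KF (PB)
open Pool.Agent.T2h52.SP

namespace BAS

variable {d : ℕ} {B : ℝ} {μ : Measure (E d)} {s : ℝ} {p : E d →L[ℝ] E d}

theorem ex_cont (s : ℝ) (p : E d →L[ℝ] E d) (w : E d) : Continuous (ex s p w) := by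
  unfold ex
  fun_prop

theorem ex_cont' (s : ℝ) (p : E d →L[ℝ] E d) (x : E d) : Continuous fun w => ex s p w x := by
  unfold ex
  fun_prop

theorem ex_le (hB : 0 ≤ B) (hs : 0 ≤ s) (hp : ∀ x, ‖p x‖ ≤ ‖x‖) (w x : E d) (hx : ‖x‖ ≤ B) :
    ex s p w x ≤ Real.sqrt s * B * ‖w‖ := by
  have h1 : ⟪p x, w⟫_ℝ ≤ B * ‖w‖ := (real_inner_le_norm _ _).trans
    (mul_le_mul_of_nonneg_right ((hp x).trans hx) (norm_nonneg _))
  have h2 : Real.sqrt s * ⟪p x, w⟫_ℝ ≤ Real.sqrt s * (B * ‖w‖) :=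
    mul_le_mul_of_nonneg_left h1 (Real.sqrt_nonneg _)
  have h3 : 0 ≤ s / 2 * ‖p x‖ ^ 2 := by positivity
  unfold ex
  nlinarith

theorem le_ex (hB : 0 ≤ B) (hs : 0 ≤ s) (hp : ∀ x, ‖p x‖ ≤ ‖x‖) (w x : E d) (hx : ‖x‖ ≤ B) :
    -(Real.sqrt s * B * ‖w‖ + s / 2 * B ^ 2) ≤ ex s p w x := by
  have h1 : -(B * ‖w‖) ≤ ⟪p x, w⟫_ℝ := by
    have h := abs_real_inner_le_norm (p x) w
    have h' : ‖p x‖ * ‖w‖ ≤ B * ‖w‖ :=
      mul_le_mul_of_nonneg_right ((hp x).trans hx) (norm_nonneg _)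
    exact (abs_le.1 (h.trans h')).1
  have h2 : Real.sqrt s * -(B * ‖w‖) ≤ Real.sqrt s * ⟪p x, w⟫_ℝ :=
    mul_le_mul_of_nonneg_left h1 (Real.sqrt_nonneg _)
  have h3 : s / 2 * ‖p x‖ ^ 2 ≤ s / 2 * B ^ 2 :=
    mul_le_mul_of_nonneg_left (pow_le_pow_left₀ (norm_nonneg _) ((hp x).trans hx) 2) (by positivity)
  unfold ex
  nlinarith

theorem exp_int (hB : 0 ≤ B) (hμ : PB B μ) (hs : 0 ≤ s) (hp : ∀ x, ‖p x‖ ≤ ‖x‖) (w : E d) :
    Integrable (fun x => Real.exp (ex s p w x)) μ := by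
  haveI := hμ.prob
  refine Integrable.of_bound (Real.continuous_exp.comp (ex_cont s p w)).aestronglyMeasurable
    (Real.exp (Real.sqrt s * B * ‖w‖)) (hμ.bdd.mono fun x hx => ?_)
  rw [Real.norm_eq_abs, Real.abs_exp]
  exact Real.exp_le_exp.2 (ex_le hB hs hp w x hx)

/-- exponential integrals are continuous -/
theorem cont {G : Type} [NormedAddCommGroup G] [NormedSpace ℝ G] (hB : 0 ≤ B)
    (hμ : PB B μ) (hs : 0 ≤ s) (hp : ∀ x, ‖p x‖ ≤ ‖x‖) (f : E d → G)
    (hf : AEStronglyMeasurable f μ) (M : ℝ) (hM : ∀ᵐ x ∂μ, ‖f x‖ ≤ M) :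
    Continuous fun w => ∫ x, Real.exp (ex s p w x) • f x ∂μ := by
  haveI := hμ.prob
  rw [continuous_iff_continuousAt]
  intro w₀
  refine continuousAt_of_dominated (bound := fun _ => Real.exp (Real.sqrt s * B * (‖w₀‖ + 1)) * M)
    ?_ ?_ (integrable_const _) ?_
  · exact Eventually.of_forall fun w =>
      (Real.continuous_exp.comp (ex_cont s p w)).aestronglyMeasurable.smul hf
  · filter_upwards [Metric.ball_mem_nhds w₀ one_pos] with w hw
    filter_upwards [hμ.bdd, hM] with x hx hfx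
    rw [norm_smul, Real.norm_eq_abs, Real.abs_exp]
    have hw' : ‖w‖ ≤ ‖w₀‖ + 1 := by
      rw [mem_ball_iff_norm] at hw
      have := norm_le_norm_add_norm_sub' w w₀
      linarith
    refine mul_le_mul (Real.exp_le_exp.2 ((ex_le hB hs hp w x hx).trans ?_)) hfx (norm_nonneg _)
      (Real.exp_pos _).le
    exact mul_le_mul_of_nonneg_left hw' (mul_nonneg (Real.sqrt_nonneg _) hB)
  · exact ae_of_all _ fun x =>
      ((Real.continuous_exp.comp (ex_cont' s p x)).smul continuous_const).continuousAt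

end BAS

open BAS in
theorem bas : X_BAS := by
  intro d B μ s p hB hμ hs hp
  haveI := hμ.prob
  have hle : ∀ w, Real.exp (-(Real.sqrt s * B * ‖w‖ + s / 2 * B ^ 2)) ≤ Z μ s p w := by
    intro w
    have h1 : ∫ x, Real.exp (-(Real.sqrt s * B * ‖w‖ + s / 2 * B ^ 2)) ∂μ ≤
        ∫ x, Real.exp (ex s p w x) ∂μ :=
      integral_mono_ae (integrable_const _) (exp_int hB hμ hs hp w)
        (hμ.bdd.mono fun x hx => Real.exp_le_exp.2 (le_ex hB hs hp w x hx))
    rw [integral_const, probReal_univ, one_smul] at h1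
    exact h1
  have hub : ∀ w, Z μ s p w ≤ Real.exp (Real.sqrt s * B * ‖w‖) := by
    intro w
    have h1 : ∫ x, Real.exp (ex s p w x) ∂μ ≤ ∫ x, Real.exp (Real.sqrt s * B * ‖w‖) ∂μ :=
      integral_mono_ae (exp_int hB hμ hs hp w) (integrable_const _)
        (hμ.bdd.mono fun x hx => Real.exp_le_exp.2 (ex_le hB hs hp w x hx))
    rw [integral_const, probReal_univ, one_smul] at h1
    exact h1
  have hZ : ∀ w, 0 < Z μ s p w := fun w => (Real.exp_pos _).trans_le (hle w)
  have hZc : Continuous (Z μ s p) := by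
    have h1 := cont (G := ℝ) hB hμ hs hp (fun _ => 1) aestronglyMeasurable_const 1
      (ae_of_all _ fun _ => by simp)
    have h2 : Z μ s p = fun w => ∫ x, Real.exp (ex s p w x) • (1 : ℝ) ∂μ := by
      funext w
      unfold Z
      simp
    rw [h2]
    exact h1
  have hid : AEStronglyMeasurable (fun x : E d => x) μ := continuous_id.aestronglyMeasurable
  have hmn : ∀ w, mn μ s p w = (Z μ s p w)⁻¹ • ∫ x, Real.exp (ex s p w x) • x ∂μ := by
    intro w
    unfold mn nu
    rw [integral_tilted, ← integral_smul]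
    refine integral_congr_ae (ae_of_all _ fun x => ?_)
    show (Real.exp (ex s p w x) / Z μ s p w) • x =
      (Z μ s p w)⁻¹ • Real.exp (ex s p w x) • x
    rw [smul_smul, div_eq_inv_mul]
  have hmc : Continuous (mn μ s p) := by
    have h1 := cont (G := E d) hB hμ hs hp (fun x => x) hid B hμ.bdd
    have h2 : mn μ s p = fun w => (Z μ s p w)⁻¹ • ∫ x, Real.exp (ex s p w x) • x ∂μ :=
      funext hmn
    rw [h2]
    exact (hZc.inv₀ fun w => (hZ w).ne').smul h1
  have hPB : ∀ w, PB B (nu μ s p w) := by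
    intro w
    refine ⟨isProbabilityMeasure_tilted (exp_int hB hμ hs hp w), ?_⟩
    exact (tilted_absolutelyContinuous μ (ex s p w)).ae_le hμ.bdd
  have hint : ∀ w, Integrable (fun x : E d => x) (nu μ s p w) := by
    intro w
    haveI := (hPB w).prob
    exact Integrable.of_bound continuous_id.aestronglyMeasurable B (hPB w).bdd
  have hF : ∀ w, ∀ F : E d → ℝ, Z μ s p w * ∫ x, F x ∂(nu μ s p w) =
      ∫ x, F x * Real.exp (ex s p w x) ∂μ := by
    intro w F
    unfold nu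
    rw [integral_tilted, ← integral_const_mul]
    refine integral_congr_ae (ae_of_all _ fun x => ?_)
    show Z μ s p w * ((Real.exp (ex s p w x) / Z μ s p w) • F x) = F x * Real.exp (ex s p w x)
    have := (hZ w).ne'
    rw [smul_eq_mul]
    field_simp
  refine ⟨hle, hub, hZc, hmc, hPB, fun w => ?_, hF, fun w v => ?_⟩
  · haveI := (hPB w).prob
    have h1 := norm_integral_le_of_norm_le_const (hPB w).bdd
    rw [probReal_univ, mul_one] at h1
    exact h1
  · rw [← hF w fun x => ⟪x, v⟫_ℝ]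
    congr 1
    unfold mn
    rw [real_inner_comm, ← integral_inner (hint w) v]
    exact integral_congr_ae (ae_of_all _ fun x => real_inner_comm _ _)

end Pool.Agent.T2h52.FC
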