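import Pool.Agent.T2h52.FC.Stm

/-! The rotation of two Gaussian vectors and the bound for Bm (BCO). -/

set_option autoImplicit false

namespace Pool.Agent.T2h52.FC

open MeasureTheory Set Filter Topology ProbabilityTheory
open scoped ENNReal InnerProductSpace Pointwise
open Pool.Agent.R755.KF (PB)
open Pool.Agent.N555.RZ (mP Spr)
open Pool.Agent.T2h52.SP
open Pool.Agent.T2h52.SQ
open Pool.Agent.T2h52.SO

namespace BCOh

theorem map_rot (d : ℕ) (ρ : ℝ) (hρ : |ρ| ≤ 1) :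
    ((ga d).prod (ga d)).map (fun z : E d × E d => ρ • z.1 + Real.sqrt (1 - ρ ^ 2) • z.2) =
      ga d := by
  have hm : Measurable fun z : E d × E d => ρ • z.1 + Real.sqrt (1 - ρ ^ 2) • z.2 := by fun_prop
  have : IsProbabilityMeasure (((ga d).prod (ga d)).map
      (fun z : E d × E d => ρ • z.1 + Real.sqrt (1 - ρ ^ 2) • z.2)) :=
    Measure.isProbabilityMeasure_map hm.aemeasurable
  refine Measure.ext_of_charFun ?_
  funext t
  rw [charFun_apply, integral_map hm.aemeasurable (by fun_prop)]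
  have h1 : ∀ z : E d × E d, Complex.exp (⟪ρ • z.1 + Real.sqrt (1 - ρ ^ 2) • z.2, t⟫_ℝ * Complex.I) =
      Complex.exp (⟪z.1, ρ • t⟫_ℝ * Complex.I) *
        Complex.exp (⟪z.2, Real.sqrt (1 - ρ ^ 2) • t⟫_ℝ * Complex.I) := by
    intro z
    rw [← Complex.exp_add, inner_add_left, real_inner_smul_left, real_inner_smul_left,
      real_inner_smul_right, real_inner_smul_right]
    congr 1
    push_cast
    ring
  simp_rw [h1]
  rw [integral_prod_mul (fun w : E d => Complex.exp (⟪w, ρ • t⟫_ℝ * Complex.I))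
    (fun w : E d => Complex.exp (⟪w, Real.sqrt (1 - ρ ^ 2) • t⟫_ℝ * Complex.I)),
    ← charFun_apply, ← charFun_apply, charFun_stdGaussian, charFun_stdGaussian,
    charFun_stdGaussian, ← Complex.exp_add]
  congr 1
  rw [norm_smul, norm_smul]
  have h2 : Real.sqrt (1 - ρ ^ 2) ^ 2 = 1 - ρ ^ 2 := Real.sq_sqrt (by
    have := (sq_le_one_iff_abs_le_one ρ).2 hρ
    linarith)
  have h3 : (‖ρ‖ * ‖t‖) ^ 2 + (‖Real.sqrt (1 - ρ ^ 2)‖ * ‖t‖) ^ 2 = ‖t‖ ^ 2 := by
    rw [mul_pow, mul_pow, Real.norm_eq_abs, Real.norm_eq_abs, sq_abs, sq_abs, h2]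
    ring
  have h4 : (((‖ρ‖ * ‖t‖ : ℝ) : ℂ)) ^ 2 + (((‖Real.sqrt (1 - ρ ^ 2)‖ * ‖t‖ : ℝ) : ℂ)) ^ 2 =
      ((‖t‖ : ℝ) : ℂ) ^ 2 := by
    exact_mod_cast h3
  linear_combination (-1 / 2 : ℂ) * h4

theorem cs {Ω : Type*} [MeasurableSpace Ω] (μ : Measure Ω) (F G : Ω → ℝ) (hF : MemLp F 2 μ)
    (hG : MemLp G 2 μ) :
    |∫ x, F x * G x ∂μ| ≤ Real.sqrt (∫ x, F x ^ 2 ∂μ) * Real.sqrt (∫ x, G x ^ 2 ∂μ) := by
  have h := integral_mul_norm_le_Lp_mul_Lq (p := 2) (q := 2) (f := F) (g := G) (μ := μ)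
    Real.HolderConjugate.two_two (by simpa using hF) (by simpa using hG)
  refine (abs_integral_le_integral_abs).trans ?_
  have e1 : ∀ x, |F x * G x| = ‖F x‖ * ‖G x‖ := fun x => by
    rw [abs_mul, Real.norm_eq_abs, Real.norm_eq_abs]
  simp_rw [e1]
  refine h.trans (le_of_eq ?_)
  rw [Real.sqrt_eq_rpow, Real.sqrt_eq_rpow]
  have e2 : ∀ x, ‖F x‖ ^ (2 : ℝ) = F x ^ 2 := fun x => by
    rw [Real.rpow_two, Real.norm_eq_abs, sq_abs]
  have e3 : ∀ x, ‖G x‖ ^ (2 : ℝ) = G x ^ 2 := fun x => by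
    rw [Real.rpow_two, Real.norm_eq_abs, sq_abs]
  simp_rw [e2, e3]

end BCOh

open BCOh

theorem bco : X_BCO := by
  intro d ρ f g hρ hf hg
  have hmap := map_rot d ρ hρ
  have hm : Measurable fun z : E d × E d => ρ • z.1 + Real.sqrt (1 - ρ ^ 2) • z.2 := by fun_prop
  have hmp : MeasurePreserving (fun z : E d × E d => ρ • z.1 + Real.sqrt (1 - ρ ^ 2) • z.2)
      ((ga d).prod (ga d)) (ga d) := ⟨hm, hmap⟩
  have hfst : MeasurePreserving (Prod.fst : E d × E d → E d) ((ga d).prod (ga d)) (ga d) :=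
    measurePreserving_fst
  have hF : MemLp (fun z : E d × E d => f z.1) 2 ((ga d).prod (ga d)) :=
    hf.comp_measurePreserving hfst
  have hG : MemLp (fun z : E d × E d => g (ρ • z.1 + Real.sqrt (1 - ρ ^ 2) • z.2)) 2
      ((ga d).prod (ga d)) := hg.comp_measurePreserving hmp
  have hint : Integrable (fun z : E d × E d => f z.1 * g (ρ • z.1 + Real.sqrt (1 - ρ ^ 2) • z.2))
    ((ga d).prod (ga d)) := hF.integrable_mul hG
  refine ⟨hmap, hint, ?_⟩
  have e1 : Bm ρ f g = ∫ z, f z.1 * g (ρ • z.1 + Real.sqrt (1 - ρ ^ 2) • z.2)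
      ∂((ga d).prod (ga d)) := by
    rw [integral_prod _ hint]
    rfl
  rw [e1]
  refine (cs _ _ _ hF hG).trans (le_of_eq ?_)
  have e2 : ∫ z : E d × E d, f z.1 ^ 2 ∂((ga d).prod (ga d)) = ∫ w, f w ^ 2 ∂(ga d) := by
    have h5 : AEStronglyMeasurable (fun w => f w ^ 2) (((ga d).prod (ga d)).map Prod.fst) := by
      rw [hfst.map_eq]
      exact hf.1.pow 2
    rw [← hfst.map_eq, integral_map hfst.measurable.aemeasurable h5, hfst.map_eq]
  have e3 : ∫ z : E d × E d, g (ρ • z.1 + Real.sqrt (1 - ρ ^ 2) • z.2) ^ 2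
      ∂((ga d).prod (ga d)) = ∫ w, g w ^ 2 ∂(ga d) := by
    have h5 : AEStronglyMeasurable (fun w => g w ^ 2) (((ga d).prod (ga d)).map
        (fun z : E d × E d => ρ • z.1 + Real.sqrt (1 - ρ ^ 2) • z.2)) := by
      rw [hmap]
      exact hg.1.pow 2
    have h6 := integral_map hm.aemeasurable h5
    rw [hmap] at h6
    exact h6.symm
  rw [e2, e3]

end Pool.Agent.T2h52.FC
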