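import Pool.Agent.T2h52.FC.Stm

/-! # BEX: the bilinear form on exponentials (task BEX of project FC) -/

set_option autoImplicit false

namespace Pool.Agent.T2h52.FC

open MeasureTheory Set Filter Topology ProbabilityTheory
open scoped ENNReal InnerProductSpace Pointwise
open Pool.Agent.R755.KF (PB)
open Pool.Agent.N555.RZ (mP Spr)
open Pool.Agent.T2h52.SP
open Pool.Agent.T2h52.SQ
open Pool.Agent.T2h52.SO

theorem bex (hg : X_GEX) : X_BEX := by
  intro d ρ t u hρ
  obtain ⟨g1, g2⟩ := hg d
  constructor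
  · rw [memLp_two_iff_integrable_sq (by fun_prop)]
    refine (g1 (2 * ‖t‖)).mono' (by fun_prop) (Eventually.of_forall fun w => ?_)
    rw [Real.norm_of_nonneg (sq_nonneg _), sq, ← Real.exp_add]
    refine Real.exp_le_exp.2 ?_
    have := real_inner_le_norm t w
    linarith
  · unfold Bm
    have h1 : ∀ w : E d, ∫ w', Real.exp ⟪t, w⟫_ℝ *
        Real.exp ⟪u, ρ • w + Real.sqrt (1 - ρ ^ 2) • w'⟫_ℝ ∂(ga d) =
        Real.exp ⟪t + ρ • u, w⟫_ℝ * Real.exp (‖Real.sqrt (1 - ρ ^ 2) • u‖ ^ 2 / 2) := by
      intro w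
      rw [← g2 (Real.sqrt (1 - ρ ^ 2) • u), ← integral_const_mul]
      refine integral_congr_ae (Eventually.of_forall fun w' => ?_)
      simp only
      rw [← Real.exp_add, ← Real.exp_add]
      congr 1
      simp only [inner_add_right, inner_add_left, real_inner_smul_left, real_inner_smul_right]
      ring
    simp only [h1]
    rw [integral_mul_const, g2, ← Real.exp_add]
    congr 1
    have hr : 0 ≤ 1 - ρ ^ 2 := by
      have := (sq_le_one_iff_abs_le_one ρ).2 hρ
      linarith
    rw [norm_smul, mul_pow, Real.norm_eq_abs, sq_abs, Real.sq_sqrt hr,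
      norm_add_sq_real, norm_smul, mul_pow, Real.norm_eq_abs, sq_abs, real_inner_smul_right]
    ring

end Pool.Agent.T2h52.FC
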