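import Pool.Agent.T2h52.SO.Stm
import Mathlib.Probability.Distributions.Gaussian.Multivariate

/-!
# The Gaussian mean of an isotropic convex body: statements

Each `X_XXX : Prop` is proved in a file `Pool/Agent/T2h52/FC/XXX.lean` as
`theorem xxx (hypotheses, other X_'s, or library theorems) : X_XXX`.

`P` is an isotropic convex body with barycentre `0` in a symmetric body `Q`, `γ = ga d` is the standard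
Gaussian measure. The final bound (`X_MB`): the mean of the gauge of `Q` is at most
`10^14 log(d+1)^{3/2} d^{15/64}`. Notation in the docstrings: `μ = mP P`, `L = log (d+1)`, `Z = Z μ s p w`,
`ν = nu μ s p w` the tilted measure, `a = mn μ s p w` its mean, `A` its covariance.
-/

set_option autoImplicit false

namespace Pool.Agent.T2h52.FC

open MeasureTheory Set Filter Topology ProbabilityTheory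
open scoped ENNReal InnerProductSpace Pointwise
open Pool.Agent.R755.KF (PB)
open Pool.Agent.N555.RZ (mP Spr)
open Pool.Agent.T2h52.SP
open Pool.Agent.T2h52.SQ
open Pool.Agent.T2h52.SO

/-- the standard Gaussian measure on `E d` -/
noncomputable abbrev ga (d : ℕ) : Measure (E d) := stdGaussian (E d)

/-- orthogonal projections of rank `k` -/
def Pj {d : ℕ} (p : E d →L[ℝ] E d) (k : ℕ) : Prop :=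
  ∃ (b : OrthonormalBasis (Fin d) ℝ (E d)) (S : Finset (Fin d)), S.card = k ∧
    ∀ x, p x = ∑ i ∈ S, ⟪b i, x⟫_ℝ • b i

/-- the exponent -/
noncomputable def ex {d : ℕ} (s : ℝ) (p : E d →L[ℝ] E d) (w x : E d) : ℝ :=
  Real.sqrt s * ⟪p x, w⟫_ℝ - s / 2 * ‖p x‖ ^ 2

/-- the partition function -/
noncomputable def Z {d : ℕ} (μ : Measure (E d)) (s : ℝ) (p : E d →L[ℝ] E d) (w : E d) : ℝ :=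
  ∫ x, Real.exp (ex s p w x) ∂μ

/-- the tilted measure -/
noncomputable def nu {d : ℕ} (μ : Measure (E d)) (s : ℝ) (p : E d →L[ℝ] E d) (w : E d) :
    Measure (E d) := μ.tilted (ex s p w)

/-- its mean -/
noncomputable def mn {d : ℕ} (μ : Measure (E d)) (s : ℝ) (p : E d →L[ℝ] E d) (w : E d) : E d :=
  ∫ x, x ∂(nu μ s p w)

/-- `E Z ⟪a, u⟫ ⟪a, v⟫` -/
noncomputable def Sb {d : ℕ} (μ : Measure (E d)) (s : ℝ) (p : E d →L[ℝ] E d) (u v : E d) : ℝ :=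
  ∫ w, Z μ s p w * (⟪mn μ s p w, u⟫_ℝ * ⟪mn μ s p w, v⟫_ℝ) ∂(ga d)

/-- `E Z |a|²` -/
noncomputable def ff {d : ℕ} (μ : Measure (E d)) (s : ℝ) (p : E d →L[ℝ] E d) : ℝ :=
  ∫ w, Z μ s p w * ‖mn μ s p w‖ ^ 2 ∂(ga d)

/-! ### Gaussian measure -/

/-- GMG. Proof. `stdGaussian` is the image of the product measure (`map_pi_eq_stdGaussian`) with the
density `c exp (-‖y‖²/2)`; `c` is determined by `g = 1`. -/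
def X_GMG : Prop := ∀ (d : ℕ) (g : E d → ℝ), gm g = ∫ y, g y ∂(ga d)

/-- GEX. Exponential moments. Proof. `ga d` is Gaussian; `‖w‖ ≤ ∑ |w i|`, independence. The second part:
moment generating function of a Gaussian. -/
def X_GEX : Prop := ∀ (d : ℕ), (∀ c : ℝ, Integrable (fun w : E d => Real.exp (c * ‖w‖)) (ga d)) ∧
  ∀ h : E d, ∫ w, Real.exp ⟪h, w⟫_ℝ ∂(ga d) = Real.exp (‖h‖ ^ 2 / 2)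

/-- GIR. Shifts. Proof. Density of `ga d`, translation invariance of `volume`. -/
def X_GIR : Prop := ∀ (d : ℕ) (g : E d → ℝ) (h : E d), Measurable g →
  (∃ C c : ℝ, ∀ w, |g w| ≤ C * Real.exp (c * ‖w‖)) →
  ∫ w, g (w + h) ∂(ga d) = ∫ w, g w * Real.exp (⟪h, w⟫_ℝ - ‖h‖ ^ 2 / 2) ∂(ga d)

/-- IBP. Integration by parts. Proof. Differentiate `X_GIR` with `t h`, or `integral_mul_fderiv_eq`. -/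
def X_IBP : Prop := ∀ (d : ℕ) (g : E d → ℝ) (v : E d) (C c : ℝ), ContDiff ℝ 1 g →
  (∀ w, |g w| ≤ C * Real.exp (c * ‖w‖)) → (∀ w, ‖fderiv ℝ g w‖ ≤ C * Real.exp (c * ‖w‖)) →
  ∫ w, g w * ⟪w, v⟫_ℝ ∂(ga d) = ∫ w, fderiv ℝ g w v ∂(ga d)

/-- PLE. Prékopa-Leindler in `E d`. Proof. `Helper392/Mey/PL.lean` (`pln`, in `Fin n → ℝ`), or
`H902R3/ZA`, `R755/KF/L3*.lean`. -/
def X_PLE : Prop := ∀ (d : ℕ) (u v h : E d → ℝ≥0∞), Measurable u → Measurable v → Measurable h →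
  (∀ x y, u x * v y ≤ h ((1 / 2 : ℝ) • (x + y)) ^ 2) →
  (∫⁻ x, u x) * (∫⁻ x, v x) ≤ (∫⁻ x, h x) ^ 2

/-- GPL. The Gaussian measure is log-concave. Proof. `X_PLE`, density of `ga d`. -/
def X_GPL : Prop := ∀ (d : ℕ) (A B C : Set (E d)), MeasurableSet A → MeasurableSet B →
  MeasurableSet C → (∀ x ∈ A, ∀ y ∈ B, (1 / 2 : ℝ) • (x + y) ∈ C) →
  ga d A * ga d B ≤ ga d C ^ 2

/-- CMP. Contractions decrease the mean of a convex function.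
Proof. `S = 1 - C Cᵀ` (matrix of `C`) is positive semidefinite; `C G + G'` with `G'` of law
`multivariateGaussian 0 S` independent of `G` has the law `ga d` (`Measure.ext_of_charFun`,
`charFun_multivariateGaussian`), and by Jensen (`N` is convex, `G'` has mean `0`)
`N (C G) ≤ E' N (C G + G')`. -/
def X_CMP : Prop := ∀ (d : ℕ) (N : E d → ℝ) (C : E d →L[ℝ] E d), Continuous N →
  (∀ x y, N (x + y) ≤ N x + N y) → (∀ (c : ℝ) (x : E d), N (c • x) = |c| * N x) →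
  (∀ x, ‖C x‖ ≤ ‖x‖) → ∫ w, N (C w) ∂(ga d) ≤ ∫ w, N w ∂(ga d)

/-! ### Linear channels -/

/-- BAS. Basic facts on `Z`, `nu`, `mn`. Proof. `|⟪p x, w⟫| ≤ B ‖w‖`; `integral_tilted`; dominated
convergence for the continuity (`Z • mn = ∫ exp (ex ..) • x`). -/
def X_BAS : Prop := ∀ (d : ℕ) (B : ℝ) (μ : Measure (E d)) (s : ℝ) (p : E d →L[ℝ] E d), 0 ≤ B →
  PB B μ → 0 ≤ s → (∀ x, ‖p x‖ ≤ ‖x‖) →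
  (∀ w, Real.exp (-(Real.sqrt s * B * ‖w‖ + s / 2 * B ^ 2)) ≤ Z μ s p w) ∧
  (∀ w, Z μ s p w ≤ Real.exp (Real.sqrt s * B * ‖w‖)) ∧
  Continuous (Z μ s p) ∧ Continuous (mn μ s p) ∧ (∀ w, PB B (nu μ s p w)) ∧
  (∀ w, ‖mn μ s p w‖ ≤ B) ∧
  (∀ w, ∀ F : E d → ℝ, Z μ s p w * ∫ x, F x ∂(nu μ s p w) = ∫ x, F x * Real.exp (ex s p w x) ∂μ) ∧
  ∀ w v, Z μ s p w * ⟪mn μ s p w, v⟫_ℝ = ∫ x, ⟪x, v⟫_ℝ * Real.exp (ex s p w x) ∂μ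

/-- INT. Averages over `γ`. Proof. Fubini and `X_GEX`: `∫ exp (ex s p w x) dγ(w) = 1`. -/
def X_INT : Prop := ∀ (d : ℕ) (B : ℝ) (μ : Measure (E d)) (s : ℝ) (p : E d →L[ℝ] E d), 0 ≤ B →
  PB B μ → 0 ≤ s → (∀ x, ‖p x‖ ≤ ‖x‖) → ∀ F : E d → ℝ, Continuous F →
  Integrable (fun w => ∫ x, F x * Real.exp (ex s p w x) ∂μ) (ga d) ∧
  ∫ w, ∫ x, F x * Real.exp (ex s p w x) ∂μ ∂(ga d) = ∫ x, F x ∂μ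

/-- LIN. The linear part of `ψ(w) = ∫ a(w + √s p x₀) dμ(x₀)`.
Proof. `ψ(w) ∈ P` as `P` is convex and closed. By `X_GIR` (Fubini) for a function `g` of moderate growth
`∫∫ g(w + √s p x₀) dμ dγ = ∫ g Z dγ`. (1) `∫ ‖ψ‖² ≤ ∫ ‖a‖² Z dγ ≤ ∫∫ ‖x‖² W dμ dγ = ∫ ‖x‖² dμ = d` (`Iso`,
`X_INT`). (2) `E ⟪ψ, u⟫⟪w, v⟫ = ∫ E ⟪a(w), u⟫ ⟪w - √s p x₀, v⟫ W(w, x₀) dμ(x₀) =
E ⟪a, u⟫⟪w, v⟫ Z - √s E Z ⟪a, u⟫ ⟪p a, v⟫`; with `m_u = Z ⟪a, u⟫ = ∫ ⟪x, u⟫ W dμ` (smooth in `w`) `X_IBP`: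
`E m_u ⟪w, v⟫ = √s E ∫ ⟪x, u⟫⟪p x, v⟫ W dμ = √s ∫ ⟪x, u⟫⟪p x, v⟫ dμ = √s ⟪p v, u⟫`
(`p` is symmetric, polarization of `Iso`). -/
def X_LIN : Prop := ∀ (d k : ℕ) (P : Set (E d)) (a s : ℝ) (p : E d →L[ℝ] E d), Bn P a → Iso P →
  Pj p k → 0 < s → ∃ ψ : E d → E d, Measurable ψ ∧ (∀ w, ψ w ∈ P) ∧
    ∫ w, ‖ψ w‖ ^ 2 ∂(ga d) ≤ d ∧
    ∀ u v : E d, ∫ w, ⟪ψ w, u⟫_ℝ * ⟪w, v⟫_ℝ ∂(ga d) =
      Real.sqrt s * (⟪p v, u⟫_ℝ - Sb (mP P) s p (p v) u)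

/-- SOP. The operator of `Sb`.
Proof. `Sb` is bilinear, symmetric, `0 ≤ Sb u u ≤ E ∫ ⟪x, u⟫² W = ∫ ⟪x, u⟫² dμ = ‖u‖²`; the trace. -/
def X_SOP : Prop := ∀ (d k : ℕ) (P : Set (E d)) (a s : ℝ) (p : E d →L[ℝ] E d), Bn P a → Iso P →
  Pj p k → 0 < s → ∃ S : E d →L[ℝ] E d, (∀ u v, ⟪S u, v⟫_ℝ = Sb (mP P) s p u v) ∧
    (∀ u v, ⟪S u, v⟫_ℝ = ⟪u, S v⟫_ℝ) ∧ (∀ u, 0 ≤ ⟪S u, u⟫_ℝ) ∧ (∀ u, ⟪S u, u⟫_ℝ ≤ ‖u‖ ^ 2) ∧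
    ∀ b : OrthonormalBasis (Fin d) ℝ (E d), ∑ i, ⟪S (b i), b i⟫_ℝ = ff (mP P) s p

/-! ### Truncation -/

/-- the truncated body -/
def Bt {d : ℕ} (P : Set (E d)) (p : E d →L[ℝ] E d) (k : ℕ) : Set (E d) :=
  {x | x ∈ P ∧ ‖x‖ ≤ 400 * Real.log (d + 1) * Real.sqrt d ∧
    ‖p x‖ ≤ 400 * Real.log (d + 1) * Real.sqrt k}

/-- the partition function restricted to a set -/
noncomputable def ZB {d : ℕ} (μ : Measure (E d)) (A : Set (E d)) (s : ℝ) (p : E d →L[ℝ] E d)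
    (w : E d) : ℝ := ∫ x in A, Real.exp (ex s p w x) ∂μ

/-- EXP. Proof. See `SQ/EXM.lean`, `SP/EXPM.lean` (`N555.RZ.exp_one_side`): for `‖w‖ ≤ 1`
`E exp (⟪x, w⟫ / 20) ≤ 2`. -/
def X_EXP : Prop := ∀ (d : ℕ) (P : Set (E d)) (a : ℝ), Bn P a → Iso P → ∀ w : E d, ‖w‖ ≤ 1 →
  ∫ x, Real.exp (|⟪x, w⟫_ℝ| / 20) ∂(mP P) ≤ 4

/-- M4. Proof. Cauchy-Schwarz, `E ⟪x, θ⟫⁴ ≤ 160⁴ ‖θ‖⁴` (`N555.RZ.mom_inner` with `p = 2`). -/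
def X_M4 : Prop := ∀ (d : ℕ) (P : Set (E d)) (a : ℝ), Bn P a → Iso P → ∀ (θ : E d) (A : Set (E d)),
  MeasurableSet A → ∫ x in A, ⟪x, θ⟫_ℝ ^ 2 ∂(mP P) ≤
    160 ^ 2 * ‖θ‖ ^ 2 * Real.sqrt ((mP P) A).toReal

/-- TRU. Proof. If `‖p x‖ > 400 L √k` then `|⟪x, b i⟫| > 400 L` for some `i ∈ S`, of probability at most
`4 exp (-20 L) = 4 (d+1)^(-20)` (`X_EXP`, Markov); the same with `univ`. The sum is at most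
`8 d (d+1)^(-20) ≤ (d+1)^(-18)`. -/
def X_TRU : Prop := ∀ (d k : ℕ) (P : Set (E d)) (a : ℝ) (p : E d →L[ℝ] E d), 10 ^ 50 ≤ d →
  Bn P a → Iso P → Pj p k → 1 ≤ k →
  MeasurableSet (Bt P p k) ∧ ((mP P) (Bt P p k)ᶜ).toReal ≤ 1 / ((d : ℝ) + 1) ^ 18

/-- LOC. Lower tails by log-concavity.
Proof. `F t = γ (G ≤ t)`; `F (e^t)² ≥ F (e^{t-δ}) F (e^{t+δ})` by `X_GPL` (midpoints: `G ((x+y)/2)² ≤ G x G y`).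
By Chebyshev `F (m - 2σ) ≤ 1/4`, `F (m + 2σ) ≥ 3/4`. With `t_* = log (m - 2σ)` and
`δ = log ((m+2σ)/(m-2σ)) ≤ 5σ`: `F (e^{t_* - jδ}) ≤ 3^(-j) / 4`. Take `j = ⌊log (2 (m - 2σ)) / δ⌋`, so
`j ≥ 0.13/σ - 1`, `3^(-j)/4 ≤ exp (-1/(20σ))`. -/
def X_LOC : Prop := ∀ (d : ℕ) (G : E d → ℝ) (m σ : ℝ), Continuous G → (∀ w, 0 < G w) →
  (∀ x y, G ((1 / 2 : ℝ) • (x + y)) ^ 2 ≤ G x * G y) → |m - 1| ≤ 1 / 100 → 0 < σ → σ ≤ 1 / 1000 →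
  Integrable (fun w => (G w - m) ^ 2) (ga d) → ∫ w, (G w - m) ^ 2 ∂(ga d) ≤ σ ^ 2 →
  (ga d {w | G w < 1 / 2}).toReal ≤ Real.exp (-(1 / (20 * σ)))

/-- VAR. The variance of `Z_B`, `B = Bt P p k`.
Proof. Fubini, `X_GEX`: the left side is `∬_{B×B} (exp T - 1)`, `T = s ⟪p x, p x'⟫`. Let
`τ = 8000 s L √k ≤ 8/(10^11 L²)`, `u = ⟪p x, x'⟫ / (20 * 400 L √k)`, `T = τ u` (`⟪p x, p x'⟫ = ⟪p x, x'⟫`),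
`E_{x'} exp |u| ≤ 4` for `x ∈ B` (`X_EXP`). `exp T - 1 - T ≤ T² exp |T| / 2 ≤ 4 τ² exp |u|`
(`u² ≤ 8 exp (|u|/2)`, `τ ≤ 1/2`), and
`∬ T = s ‖∫_B p x‖²`, `‖∫_B p x‖ = ‖∫_{Bᶜ} p x‖ ≤ μ(Bᶜ)^{1/2}` (barycentre `0`, `Iso`, Cauchy-Schwarz). So the left
side is at most `16 τ² + s (d+1)^(-18)` (`X_TRU`). -/
def X_VAR : Prop := ∀ (d k : ℕ) (P : Set (E d)) (a s : ℝ) (p : E d →L[ℝ] E d), 10 ^ 50 ≤ d →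
  Bn P a → Iso P → Pj p k → 1 ≤ k → 0 < s →
  s ≤ 1 / (10 ^ 14 * Real.log (d + 1) ^ 3 * Real.sqrt k) →
  ∫ w, (ZB (mP P) (Bt P p k) s p w - ((mP P) (Bt P p k)).toReal) ^ 2 ∂(ga d) ≤
    (1 / (10 ^ 9 * Real.log (d + 1))) ^ 2

/-- LTL. Lower tail of `Z_B`.
Proof. `X_VAR`, `X_LOC` with `G = Z_B` (log-convex by Cauchy-Schwarz: `ex` is affine in `w`), `m = μ(B)`,
`σ = 1/(10^9 L)`; `exp (-(10^9 L/20)) ≤ exp (-100 L)`. -/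
def X_LTL : Prop := ∀ (d k : ℕ) (P : Set (E d)) (a s : ℝ) (p : E d →L[ℝ] E d), 10 ^ 50 ≤ d →
  Bn P a → Iso P → Pj p k → 1 ≤ k → 0 < s →
  s ≤ 1 / (10 ^ 14 * Real.log (d + 1) ^ 3 * Real.sqrt k) →
  (ga d {w | ZB (mP P) (Bt P p k) s p w < 1 / 2}).toReal ≤ 1 / ((d : ℝ) + 1) ^ 100

/-- SPL. Splitting. `V_A = ∫_A ⟪x, θ⟫ W dμ`, `Z = Z_A + Z_{Aᶜ}`.
Proof. `Z ⟪a, θ⟫² = (V_A + V_{Aᶜ})²/(Z_A + Z_{Aᶜ}) ≤ V_A²/Z_A + V_{Aᶜ}²/Z_{Aᶜ}` (if `μ A > 0`, `μ Aᶜ > 0`; else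
trivial) and `V²/Z ≤ ∫ ⟪x, θ⟫² W` (Cauchy-Schwarz), so the second part has the mean at most
`∫_{Aᶜ} ⟪x, θ⟫² dμ` (`X_INT` for restricted measures). If `Z_A ≥ 1/2`: `V_A²/Z_A ≤ 2 V_A²`; if
`Z_A < 1/2`: `V_A²/Z_A ≤ ∫_A ⟪x, θ⟫² W ≤ R² ‖θ‖² Z_A ≤ R² ‖θ‖²`. Finally
`E V_A² = ∬_{A×A} ⟪x, θ⟫⟪x', θ⟫ exp (s ⟪p x, p x'⟫)` by Fubini and `X_GEX`. -/
def X_SPL : Prop := ∀ (d : ℕ) (B R s : ℝ) (μ : Measure (E d)) (p : E d →L[ℝ] E d), 0 ≤ B →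
  PB B μ → 0 < s → (∀ x, ‖p x‖ ≤ ‖x‖) → ∀ A : Set (E d), MeasurableSet A → (∀ x ∈ A, ‖x‖ ≤ R) →
  ∀ θ : E d, Sb μ s p θ θ ≤
    2 * (∫ x in A, ∫ x' in A, ⟪x, θ⟫_ℝ * ⟪x', θ⟫_ℝ * Real.exp (s * ⟪p x, p x'⟫_ℝ) ∂μ ∂μ) +
    R ^ 2 * ‖θ‖ ^ 2 * (ga d {w | ZB μ A s p w < 1 / 2}).toReal + ∫ x in Aᶜ, ⟪x, θ⟫_ℝ ^ 2 ∂μ

/-- MX1. Notation of `X_VAR`. Proof. `∬ ⟪x, θ⟫⟪x', θ⟫ = (∫_{Bᶜ} ⟪x, θ⟫)² ≤ μ(Bᶜ)`;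
`|exp T - 1| ≤ |T| exp |T|`, `E_{x'} (exp T - 1)² ≤ τ² E u² exp (2τ|u|) ≤ 32 τ²`, so the rest is at most
`E |⟪x, θ⟫| * 6 τ ≤ 6 τ`. -/
def X_MX1 : Prop := ∀ (d k : ℕ) (P : Set (E d)) (a s : ℝ) (p : E d →L[ℝ] E d), 10 ^ 50 ≤ d →
  Bn P a → Iso P → Pj p k → 1 ≤ k → 0 < s →
  s ≤ 1 / (10 ^ 14 * Real.log (d + 1) ^ 3 * Real.sqrt k) → ∀ θ : E d, ‖θ‖ ≤ 1 →
  ∫ x in Bt P p k, ∫ x' in Bt P p k, ⟪x, θ⟫_ℝ * ⟪x', θ⟫_ℝ * Real.exp (s * ⟪p x, p x'⟫_ℝ)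
    ∂(mP P) ∂(mP P) ≤ 1 / 100

/-- MX2. Here `p = 1`, `k = d`. Proof. `‖∫_B x‖² ≤ μ(Bᶜ)`; with `T = s ⟪x, x'⟫ = τ u`,
`T (exp T - 1) ≤ T² exp |T| ≤ T² + |T|³ exp |T|`, `E T² ≤ s² d` (`Iso`),
`E |T|³ exp |T| ≤ τ³ * 48 * 4 ≤ s² d` (`|u|³ ≤ 48 exp (|u|/2)`, `192 * 8000³ L³ s √d ≤ 1`). -/
def X_MX2 : Prop := ∀ (d : ℕ) (P : Set (E d)) (a s : ℝ), 10 ^ 50 ≤ d → Bn P a → Iso P → 0 < s →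
  s ≤ 1 / (10 ^ 14 * Real.log (d + 1) ^ 3 * Real.sqrt d) →
  ∫ x in Bt P (ContinuousLinearMap.id ℝ (E d)) d, ∫ x' in Bt P (ContinuousLinearMap.id ℝ (E d)) d,
    ⟪x, x'⟫_ℝ * Real.exp (s * ⟪x, x'⟫_ℝ) ∂(mP P) ∂(mP P) ≤ 2 * s * d + 1 / ((d : ℝ) + 1) ^ 18

/-- ST1. Proof. `X_SPL` with `A = Bt P p k`, `R = 400 L √d`, `X_MX1`, `X_LTL`, `X_M4`, `X_TRU`:
`2/100 + 160000 L² d (d+1)^(-100) + 160² (d+1)^(-9) ≤ 1/2`. -/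
def X_ST1 : Prop := ∀ (d k : ℕ) (P : Set (E d)) (a s : ℝ) (p : E d →L[ℝ] E d), 10 ^ 50 ≤ d →
  Bn P a → Iso P → Pj p k → 1 ≤ k → 0 < s →
  s ≤ 1 / (10 ^ 14 * Real.log (d + 1) ^ 3 * Real.sqrt k) →
  ∀ θ : E d, Sb (mP P) s p θ θ ≤ 1 / 2 * ‖θ‖ ^ 2

/-- ST2. Proof. Sum of `X_SPL` over the standard basis (`p = 1`, `k = d`), `X_MX2`, `X_LTL`, `X_M4`,
`X_TRU`: `4 s d + 2 (d+1)^(-18) + 160000 L² d² (d+1)^(-100) + 160² d (d+1)^(-9) ≤ 5 s d`, as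
`s d = √d/(10^14 L³) ≥ 1`. -/
def X_ST2 : Prop := ∀ (d : ℕ) (P : Set (E d)) (a s : ℝ), 10 ^ 50 ≤ d → Bn P a → Iso P →
  s = 1 / (10 ^ 14 * Real.log (d + 1) ^ 3 * Real.sqrt d) →
  ff (mP P) s (ContinuousLinearMap.id ℝ (E d)) ≤ 5 * s * d

/-! ### Growth -/

/-- the identity -/
noncomputable abbrev I1 (d : ℕ) : E d →L[ℝ] E d := ContinuousLinearMap.id ℝ (E d)

/-- the sum of `⟪x a - m, x b - m⟫` over the pairs -/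
noncomputable def pr {d n : ℕ} (m : E d) (x : Fin n → E d) : ℝ :=
  ∑ a : Fin n, ∑ b : Fin n, if a < b then ⟪x a - m, x b - m⟫_ℝ else 0

/-- `E Z ⟨F⟩`, `n` replicas -/
noncomputable def En {d : ℕ} (μ : Measure (E d)) (n : ℕ) (F : (Fin n → E d) → ℝ) (s : ℝ) : ℝ :=
  ∫ w, Z μ s (I1 d) w * ∫ x, F x ∂(Measure.pi fun _ : Fin n => nu μ s (I1 d) w) ∂(ga d)

/-- `E Z ⟨F Σ_{a<b} ⟪x̃ a, x̃ b⟫⟩` -/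
noncomputable def Ed {d : ℕ} (μ : Measure (E d)) (n : ℕ) (F : (Fin n → E d) → ℝ) (s : ℝ) : ℝ :=
  ∫ w, Z μ s (I1 d) w * ∫ x, F x * pr (mn μ s (I1 d) w) x
    ∂(Measure.pi fun _ : Fin n => nu μ s (I1 d) w) ∂(ga d)

/-- exponential integrals -/
noncomputable def KN {d : ℕ} (μ : Measure (E d)) (n : ℕ) (F : (Fin n → E d) → ℝ) (q : ℝ × E d) : ℝ :=
  ∫ x : Fin n → E d, F x * Real.exp (∑ a, (⟪x a, q.2⟫_ℝ - q.1 / 2 * ‖x a‖ ^ 2))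
    ∂(Measure.pi fun _ => μ)

/-- exponential integral, one replica -/
noncomputable def KZ {d : ℕ} (μ : Measure (E d)) (q : ℝ × E d) : ℝ :=
  ∫ x, Real.exp (⟪x, q.2⟫_ℝ - q.1 / 2 * ‖x‖ ^ 2) ∂μ

/-- `∂_s + Δ/2` -/
noncomputable def hea {d : ℕ} (G : ℝ × E d → ℝ) (q : ℝ × E d) : ℝ :=
  fderiv ℝ G q (1, 0) + 1 / 2 * ∑ j : Fin d,
    fderiv ℝ (fderiv ℝ G) q (0, EuclideanSpace.single j 1) (0, EuclideanSpace.single j 1)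

/-- HT. The heat formula.
Proof. Differentiation under the integral (`hasDerivAt_integral_of_dominated_loc_of_deriv_le`,
`√s' ≤ 1 + 2s`, ...): the derivative is `∫ ∂_s G + (2√s)⁻¹ ⟪∇G(s, √s w), w⟫ dγ`, and `X_IBP` for each
coordinate: `∫ ∂_j G(s, √s w) w_j dγ = √s ∫ ∂_jj G(s, √s w) dγ`. -/
def X_HT : Prop := ∀ (d : ℕ) (G : ℝ × E d → ℝ) (s : ℝ), 0 < s → ContDiffOn ℝ 2 G (Ioi 0 ×ˢ univ) →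
  (∃ ε C c : ℝ, 0 < ε ∧ ε < s ∧ ∀ s' y, |s' - s| ≤ ε → |G (s', y)| ≤ C * Real.exp (c * ‖y‖) ∧
    ‖fderiv ℝ G (s', y)‖ ≤ C * Real.exp (c * ‖y‖) ∧
    ‖fderiv ℝ (fderiv ℝ G) (s', y)‖ ≤ C * Real.exp (c * ‖y‖)) →
  HasDerivAt (fun s' => ∫ w, G (s', Real.sqrt s' • w) ∂(ga d))
    (∫ w, hea G (s, Real.sqrt s • w) ∂(ga d)) s

/-- EXI. Exponential integrals are smooth.
Proof. `hasFDerivAt_integral_of_dominated_of_fderiv_le`; the derivative in a fixed direction is again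
an exponential integral. -/
def X_EXI : Prop := ∀ (d : ℕ) (Ω : Type) [MeasurableSpace Ω] (m : Measure Ω) [IsFiniteMeasure m]
  (B : ℝ) (f ψ : Ω → ℝ) (φ : Ω → E d), Measurable f → Measurable ψ → Measurable φ →
  (∀ᵐ x ∂m, |f x| ≤ B ∧ |ψ x| ≤ B ∧ ‖φ x‖ ≤ B) →
  ContDiff ℝ 2 (fun q : ℝ × E d => ∫ x, f x * Real.exp (⟪φ x, q.2⟫_ℝ - q.1 / 2 * ψ x) ∂m) ∧
  ∀ (q : ℝ × E d) (σ : ℝ) (η : E d),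
    fderiv ℝ (fun q : ℝ × E d => ∫ x, f x * Real.exp (⟪φ x, q.2⟫_ℝ - q.1 / 2 * ψ x) ∂m) q (σ, η) =
      ∫ x, f x * (⟪φ x, η⟫_ℝ - σ / 2 * ψ x) * Real.exp (⟪φ x, q.2⟫_ℝ - q.1 / 2 * ψ x) ∂m

/-- KND. Derivatives of `KN`. Proof. `X_EXI` with `Ω = Fin n → E d`, `φ x = ∑ x a`, `ψ x = ∑ ‖x a‖²`;
`‖∑ x a‖² = ∑ ‖x a‖² + 2 ∑_{a<b} ⟪x a, x b⟫`. -/
def X_KND : Prop := ∀ (d n : ℕ) (B : ℝ) (μ : Measure (E d)) (F : (Fin n → E d) → ℝ), 0 ≤ B →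
  PB B μ → Continuous F → ContDiff ℝ 2 (KN μ n F) ∧
  (∀ q η, fderiv ℝ (KN μ n F) q (0, η) = KN μ n (fun x => F x * ⟪∑ a, x a, η⟫_ℝ) q) ∧
  ∀ q, hea (KN μ n F) q = KN μ n (fun x => F x * pr 0 x) q

/-- KNB. Bounds for `KN` and its derivatives. Proof. `‖x a‖ ≤ B` almost everywhere, `F` is bounded on
a compact set; formula for the derivatives from `X_EXI`. The lower bound for `KZ`. -/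
def X_KNB : Prop := ∀ (d n : ℕ) (B T : ℝ) (μ : Measure (E d)) (F : (Fin n → E d) → ℝ), 0 ≤ B →
  PB B μ → Continuous F → ContDiff ℝ 2 (KZ μ) ∧ ∃ C c : ℝ, 0 < C ∧ 0 < c ∧ ∀ s y, |s| ≤ T →
    |KN μ n F (s, y)| ≤ C * Real.exp (c * ‖y‖) ∧
    ‖fderiv ℝ (KN μ n F) (s, y)‖ ≤ C * Real.exp (c * ‖y‖) ∧
    ‖fderiv ℝ (fderiv ℝ (KN μ n F)) (s, y)‖ ≤ C * Real.exp (c * ‖y‖) ∧
    C⁻¹ * Real.exp (-(c * ‖y‖)) ≤ KZ μ (s, y) ∧ KZ μ (s, y) ≤ C * Real.exp (c * ‖y‖) ∧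
    ‖fderiv ℝ (KZ μ) (s, y)‖ ≤ C * Real.exp (c * ‖y‖) ∧
    ‖fderiv ℝ (fderiv ℝ (KZ μ)) (s, y)‖ ≤ C * Real.exp (c * ‖y‖)

/-- QUO. Calculus of a quotient. Proof. Product and chain rule. -/
def X_QUO : Prop := ∀ (d m : ℕ) (N K : ℝ × E d → ℝ), ContDiff ℝ 2 N → ContDiff ℝ 2 K →
  (∀ q, 0 < K q) → ContDiff ℝ 2 (fun q => N q / K q ^ m) ∧
  (∀ q, hea (fun q => N q / K q ^ m) q = hea N q / K q ^ m - m * N q * hea K q / K q ^ (m + 1) -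
    m * (∑ j : Fin d, fderiv ℝ N q (0, EuclideanSpace.single j 1) *
      fderiv ℝ K q (0, EuclideanSpace.single j 1)) / K q ^ (m + 1) +
    m * (m + 1) / 2 * N q * (∑ j : Fin d, fderiv ℝ K q (0, EuclideanSpace.single j 1) ^ 2) /
      K q ^ (m + 2)) ∧
  ∀ (T C c : ℝ), 0 < C → 0 < c → (∀ s y, |s| ≤ T → |N (s, y)| ≤ C * Real.exp (c * ‖y‖) ∧
    ‖fderiv ℝ N (s, y)‖ ≤ C * Real.exp (c * ‖y‖) ∧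
    ‖fderiv ℝ (fderiv ℝ N) (s, y)‖ ≤ C * Real.exp (c * ‖y‖) ∧
    C⁻¹ * Real.exp (-(c * ‖y‖)) ≤ K (s, y) ∧ K (s, y) ≤ C * Real.exp (c * ‖y‖) ∧
    ‖fderiv ℝ K (s, y)‖ ≤ C * Real.exp (c * ‖y‖) ∧
    ‖fderiv ℝ (fderiv ℝ K) (s, y)‖ ≤ C * Real.exp (c * ‖y‖)) →
  ∃ C' c' : ℝ, ∀ s y, |s| ≤ T → |N (s, y) / K (s, y) ^ m| ≤ C' * Real.exp (c' * ‖y‖) ∧
    ‖fderiv ℝ (fun q => N q / K q ^ m) (s, y)‖ ≤ C' * Real.exp (c' * ‖y‖) ∧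
    ‖fderiv ℝ (fderiv ℝ fun q => N q / K q ^ m) (s, y)‖ ≤ C' * Real.exp (c' * ‖y‖)

/-- RPC. The replica algebra.
Proof. `Z = KZ (s, √s w)`, and `Z^n ∫ F dν^n = KN n F (s, √s w)` (tilted product measure). By `X_QUO`
(`m = n - 1`), `X_KND` and `hea KZ = 0` (`X_KND` with `n = 1`, or directly), with `⟨·⟩` the mean over `ν^n`:
`hea = Z (⟨F Σ_{a<b} ⟪x a, x b⟫⟩ - (n-1) ⟨F ⟪Σ x a, a⟫⟩ + n(n-1)/2 ⟨F⟩ ‖a‖²) = Z ⟨F pr a⟩`. -/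
def X_RPC : Prop := ∀ (d n : ℕ) (B : ℝ) (μ : Measure (E d)) (F : (Fin n → E d) → ℝ), 1 ≤ n →
  0 ≤ B → PB B μ → Continuous F → ∀ (s : ℝ) (w : E d), 0 < s →
  Z μ s (I1 d) w * ∫ x, F x ∂(Measure.pi fun _ : Fin n => nu μ s (I1 d) w) =
    KN μ n F (s, Real.sqrt s • w) / KZ μ (s, Real.sqrt s • w) ^ (n - 1) ∧
  Z μ s (I1 d) w * ∫ x, F x * pr (mn μ s (I1 d) w) x
    ∂(Measure.pi fun _ : Fin n => nu μ s (I1 d) w) =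
    hea (fun q => KN μ n F q / KZ μ q ^ (n - 1)) (s, Real.sqrt s • w)

/-- REP. The derivative of `En`. Proof. `X_HT` for `G = KN μ n F / KZ μ ^ (n-1)`, `X_KNB`, `X_QUO`,
`X_RPC`. -/
def X_REP : Prop := ∀ (d n : ℕ) (B : ℝ) (μ : Measure (E d)) (F : (Fin n → E d) → ℝ), 1 ≤ n →
  0 ≤ B → PB B μ → Continuous F → ∀ s : ℝ, 0 < s → HasDerivAt (En μ n F) (Ed μ n F s) s

/-- `tr A²` of the covariance -/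
noncomputable def S2 {d : ℕ} (ν : Measure (E d)) : ℝ :=
  ∫ x, ∫ x', ⟪x - ∫ z, z ∂ν, x' - ∫ z, z ∂ν⟫_ℝ ^ 2 ∂ν ∂ν

/-- the square of the norm of the third moment tensor -/
noncomputable def S3 {d : ℕ} (ν : Measure (E d)) : ℝ :=
  ∫ x, ∫ x', ⟪x - ∫ z, z ∂ν, x' - ∫ z, z ∂ν⟫_ℝ ^ 3 ∂ν ∂ν

/-- TR2. Two replicas. Proof. Independence (`x̃ = x - m` has mean `0`), expand. -/
def X_TR2 : Prop := ∀ (d : ℕ) (B : ℝ) (ν : Measure (E d)), 0 ≤ B → PB B ν →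
  ∫ x : Fin 2 → E d, ⟪x 0, x 1⟫_ℝ ∂(Measure.pi fun _ => ν) = ‖∫ z, z ∂ν‖ ^ 2 ∧
  ∫ x : Fin 2 → E d, ⟪x 0, x 1⟫_ℝ * pr (∫ z, z ∂ν) x ∂(Measure.pi fun _ => ν) = S2 ν

/-- TR4. Four replicas. Proof. With `u = x̃ 0 - x̃ 1`, `v = x̃ 2 - x̃ 3`: `E ⟪u, v⟫² = 4 tr A²`. For the second
part the pairs `(0,1)` and `(2,3)` give `- tr A³ ≤ 0` each (`A` is positive semidefinite), the four mixed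
pairs give `⟪x̃ 0 + x̃ 1, x̃ 2 + x̃ 3⟫` and `E u_i u_j (x̃ 0 + x̃ 1)_k = 2 T_ijk`, so `(1/4) * 4 |T|² = S3 ν`. -/
def X_TR4 : Prop := ∀ (d : ℕ) (B : ℝ) (ν : Measure (E d)), 0 ≤ B → PB B ν →
  ∫ x : Fin 4 → E d, 1 / 4 * ⟪x 0 - x 1, x 2 - x 3⟫_ℝ ^ 2 ∂(Measure.pi fun _ => ν) = S2 ν ∧
  ∫ x : Fin 4 → E d, 1 / 4 * ⟪x 0 - x 1, x 2 - x 3⟫_ℝ ^ 2 * pr (∫ z, z ∂ν) x
    ∂(Measure.pi fun _ => ν) ≤ S3 ν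

/-- BLP. Prékopa-Leindler for quadratic functions, `ν = nu (mP P) s 1 w`, `f x = ⟪x - m, H (x - m)⟫`.
Proof. The density of `ν` is `ρ(x) = c exp (√s⟪x, w⟫ - s ‖x‖²/2)` on `P`. For `x = z + e`, `x' = z - e` in `P`:
`f x - f x' = 4 ⟪e, H (z - m)⟫`, `ρ x ρ x' = ρ(z)² exp (-s ‖e‖²)`, and
`4 δ ⟪e, H(z-m)⟫ - s ‖e‖² ≤ 4 δ² ‖H(z - m)‖²/s`. `X_PLE` with `u = exp (δ f) ρ`, `v = exp (-δ f) ρ`,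
`h = exp (2δ²/s ‖H(z-m)‖²) ρ`. -/
def X_BLP : Prop := ∀ (d : ℕ) (P : Set (E d)) (a s : ℝ) (w m : E d) (H : E d →L[ℝ] E d), Bn P a →
  0 < s → (∀ x y, ⟪H x, y⟫_ℝ = ⟪x, H y⟫_ℝ) → ∀ δ : ℝ,
  (∫ x, Real.exp (δ * ⟪x - m, H (x - m)⟫_ℝ) ∂(nu (mP P) s (I1 d) w)) *
    (∫ x, Real.exp (-(δ * ⟪x - m, H (x - m)⟫_ℝ)) ∂(nu (mP P) s (I1 d) w)) ≤
    (∫ x, Real.exp (δ ^ 2 * (2 / s * ‖H (x - m)‖ ^ 2)) ∂(nu (mP P) s (I1 d) w)) ^ 2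

/-- VLM. Second order expansion. Proof. `δ → 0`. -/
def X_VLM : Prop := ∀ (d : ℕ) (B : ℝ) (ν : Measure (E d)) (f g : E d → ℝ), 0 ≤ B → PB B ν →
  Continuous f → Continuous g → (∀ δ : ℝ, (∫ x, Real.exp (δ * f x) ∂ν) *
    (∫ x, Real.exp (-(δ * f x)) ∂ν) ≤ (∫ x, Real.exp (δ ^ 2 * g x) ∂ν) ^ 2) →
  ∫ x, f x ^ 2 ∂ν - (∫ x, f x ∂ν) ^ 2 ≤ 2 * ∫ x, g x ∂ν

/-- NES. Linear algebra.
Proof. Let `b` be an orthonormal eigenbasis of the covariance `A` of `ν` with the eigenvalues `λ_i ≥ 0`,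
`T_ijk = E x̃_i x̃_j x̃_k` in this basis. Let `H = Σ T_ijk/(λ_j + λ_k) b_j ⊗ b_k` for fixed `i` (`0` if
`λ_j + λ_k = 0`; then `T_ijk = 0`). `(Σ_jk T_ijk H_jk)² = (E x̃_i ⟪x̃, H x̃⟫)² ≤ λ_i Var ⟪x̃, H x̃⟫ ≤
λ_i c E ‖H x̃‖² = λ_i c Σ_jk H_jk² (λ_j + λ_k)/2`, so `Σ_jk T_ijk²/(λ_j + λ_k) ≤ c λ_i / 2`. Multiply by
`λ_i` and sum; by symmetry of `T` and Nesbitt's inequality
`x/(y+z) + y/(z+x) + z/(x+y) ≥ 3/2` the left side is at least `Σ T_ijk² / 2 = S3 ν / 2`. -/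
def X_NES : Prop := ∀ (d : ℕ) (B c : ℝ) (ν : Measure (E d)), 0 ≤ B → PB B ν → 0 ≤ c →
  (∀ H : E d →L[ℝ] E d, (∀ x y, ⟪H x, y⟫_ℝ = ⟪x, H y⟫_ℝ) →
    ∫ x, ⟪x - ∫ z, z ∂ν, H (x - ∫ z, z ∂ν)⟫_ℝ ^ 2 ∂ν -
      (∫ x, ⟪x - ∫ z, z ∂ν, H (x - ∫ z, z ∂ν)⟫_ℝ ∂ν) ^ 2 ≤
      c * ∫ x, ‖H (x - ∫ z, z ∂ν)‖ ^ 2 ∂ν) → S3 ν ≤ c * S2 ν

/-- CAL. Calculus. Proof. `s ↦ Φ s / s⁴` is nonincreasing, so `s Φ s ≤ 5 f s` (`f s ≥ ∫_ε^s Φ`, `ε → 0`) and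
`f (R s) ≤ f s + s Φ s (R⁵ - 1)/5`. Or: `h = s Φ - 5 f` is nonincreasing, ... -/
def X_CAL : Prop := ∀ f Φ Ψ : ℝ → ℝ, (∀ s, 0 < s → 0 ≤ f s ∧ 0 ≤ Φ s) →
  (∀ s, 0 < s → HasDerivAt f (Φ s) s) → (∀ s, 0 < s → HasDerivAt Φ (Ψ s) s) →
  (∀ s, 0 < s → Ψ s ≤ 4 / s * Φ s) → ∀ s R : ℝ, 0 < s → 1 ≤ R → f (R * s) ≤ R ^ 5 * f s

/-- GRO. Growth. Proof. `f s = ff (mP P) s 1 = En μ 2 ⟪x 0, x 1⟫` (`X_TR2` for `ν = nu μ s 1 w`),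
`f' = Φ = En μ 4 (1/4 ⟪x 0 - x 1, x 2 - x 3⟫²) = E Z S2 ν` (`X_REP`, `X_TR2`, `X_TR4`),
`Φ' ≤ E Z S3 ν ≤ (4/s) Φ` (`X_REP`, `X_TR4`, `X_NES` with `c = 4/s`, `X_VLM`, `X_BLP`); `X_CAL`, `X_BAS`. -/
def X_GRO : Prop := ∀ (d : ℕ) (P : Set (E d)) (a s R : ℝ), Bn P a → 0 < s → 1 ≤ R →
  ff (mP P) (R * s) (I1 d) ≤ R ^ 5 * ff (mP P) s (I1 d)

/-! ### The linear part of a bounded function -/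

/-- `E f(w) g(ρ w + √(1-ρ²) w')` -/
noncomputable def Bm {d : ℕ} (ρ : ℝ) (f g : E d → ℝ) : ℝ :=
  ∫ w, ∫ w', f w * g (ρ • w + Real.sqrt (1 - ρ ^ 2) • w') ∂(ga d) ∂(ga d)

/-- DEN. Exponentials are total in `L²`.
Proof. `f⁺ γ` and `f⁻ γ` are finite measures with the same finite moment generating function in each
direction (`Measure.ext_of_mgf_eq` or the complex mgf), so the same characteristic function. -/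
def X_DEN : Prop := ∀ (d : ℕ) (f : E d → ℝ), MemLp f 2 (ga d) →
  (∀ t : E d, ∫ w, f w * Real.exp ⟪t, w⟫_ℝ ∂(ga d) = 0) → f =ᵐ[ga d] 0

/-- SCH. Proof. Induction on `k`: `⟪t a, t b⟫^(k+1) = Σ_i t_a i t_b i ⟪t a, t b⟫^k`. -/
def X_SCH : Prop := ∀ (d n k : ℕ) (t : Fin n → E d) (α : Fin n → ℝ),
  0 ≤ ∑ a, ∑ b, α a * α b * ⟪t a, t b⟫_ℝ ^ k

/-- BCO. Proof. `(w, w') ↦ ρ w + √(1-ρ²) w'` maps `γ × γ` to `γ` (`Measure.ext_of_charFun`); Cauchy-Schwarz. -/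
def X_BCO : Prop := ∀ (d : ℕ) (ρ : ℝ) (f g : E d → ℝ), |ρ| ≤ 1 → MemLp f 2 (ga d) →
  MemLp g 2 (ga d) →
  ((ga d).prod (ga d)).map (fun z : E d × E d => ρ • z.1 + Real.sqrt (1 - ρ ^ 2) • z.2) = ga d ∧
  Integrable (fun z : E d × E d => f z.1 * g (ρ • z.1 + Real.sqrt (1 - ρ ^ 2) • z.2))
    ((ga d).prod (ga d)) ∧
  |Bm ρ f g| ≤ Real.sqrt (∫ w, f w ^ 2 ∂(ga d)) * Real.sqrt (∫ w, g w ^ 2 ∂(ga d))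

/-- BEX. Proof. `X_GEX` twice. -/
def X_BEX : Prop := ∀ (d : ℕ) (ρ : ℝ) (t u : E d), |ρ| ≤ 1 →
  MemLp (fun w : E d => Real.exp ⟪t, w⟫_ℝ) 2 (ga d) ∧
  Bm ρ (fun w => Real.exp ⟪t, w⟫_ℝ) (fun w => Real.exp ⟪u, w⟫_ℝ) =
    Real.exp (‖t‖ ^ 2 / 2 + ‖u‖ ^ 2 / 2 + ρ * ⟪t, u⟫_ℝ)

/-- MEH. Mehler's expansion.
Proof. Let `e_t(w) = exp (⟪t, w⟫ - ‖t‖²/2)`; for `f = Σ α_a e_{t a}`, `g = Σ β_b e_{u b}` (`X_BEX`)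
`Bm ρ f g = Σ α_a β_b exp (ρ ⟪t a, u b⟫)`, `b_k(f, g) = Σ α_a β_b ⟪t a, u b⟫^k / k!`. The forms `b_k` are
positive semidefinite (`X_SCH`) and `Σ_k b_k(f, f) = ‖f‖²`, so `|b_k(f, g)| ≤ ‖f‖ ‖g‖`. In general approximate
`f`, `g` in `L²` by `f_n`, `g_n` of this form (`X_DEN`: the orthogonal complement of the span is `0`);
`b_k(f_n, g_n)` converges, `Bm ρ f_n g_n → Bm ρ f g` (`X_BCO`), and the sums converge (dominated by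
`const |ρ|^k`). `b_1(f, g) = ∬ ⟪w, w'⟫ f g` for all `f, g`. -/
def X_MEH : Prop := ∀ (d : ℕ) (f g : E d → ℝ), MemLp f 2 (ga d) → MemLp g 2 (ga d) →
  ∃ b : ℕ → ℝ, (∀ k, |b k| ≤
    Real.sqrt (∫ w, f w ^ 2 ∂(ga d)) * Real.sqrt (∫ w, g w ^ 2 ∂(ga d))) ∧
  b 1 = ∫ w, ∫ w', ⟪w, w'⟫_ℝ * f w * g w' ∂(ga d) ∂(ga d) ∧
  ∀ ρ : ℝ, |ρ| < 1 → HasSum (fun k => b k * ρ ^ k) (Bm ρ f g)

/-- RIC. Richardson extrapolation.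
Proof. `g(r) = (h(r) - h(-r))/(2r) = Σ_j b_{2j+1} r^{2j}`, `|g(r)| ≤ 1/r`. `R_0 = g`,
`R_{i+1}(r) = (4^{i+1} R_i(r/2) - R_i(r))/(4^{i+1} - 1)`: `R_i(r) = b_1 + Σ_{j>i} c_{ij} b_{2j+1} r^{2j}` with
`|c_ij| ≤ 1`, and `|R_{i+1}(r)| ≤ (2 * 4^{i+1} + 1)/(4^{i+1} - 1) G_i/r` if `|R_i(r')| ≤ G_i/r'` for `r' ≤ r`. For
`i = 15` the product is at most `10^5`, and the tail is at most `β r^32/(1 - r²) ≤ 2 β r^32`. -/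
def X_RIC : Prop := ∀ (b : ℕ → ℝ) (h : ℝ → ℝ) (β r : ℝ), (∀ k, |b k| ≤ β) →
  (∀ ρ : ℝ, |ρ| < 1 → HasSum (fun k => b k * ρ ^ k) (h ρ)) → (∀ ρ : ℝ, |ρ| < 1 → |h ρ| ≤ 1) →
  0 < r → 2 * r ^ 2 ≤ 1 → |b 1| ≤ 10 ^ 5 / r + 2 * β * r ^ 32

/-- NET. Finitely many functionals. Proof. Compactness of the sphere, Hahn-Banach. -/
def X_NET : Prop := ∀ (d : ℕ) (Q : Set (E d)), Bd Q → ∃ Y : Finset (E d), Y.Nonempty ∧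
  (∀ y ∈ Y, ∀ x ∈ Q, |⟪x, y⟫_ℝ| ≤ 1) ∧ ∀ v : E d, ∃ y ∈ Y, gauge Q v ≤ 3 / 2 * ⟪v, y⟫_ℝ

/-- KCO. The linear part of a function with values in `Q`.
Proof. Let `φ(w) ∈ Y` (`X_NET`) be a measurable choice with `gauge Q (T w) ≤ 3/2 ⟪T w, φ w⟫`. For
`h(ρ) = Σ_i Bm ρ (ψ_i) (φ_i) = E ⟪ψ(w), φ(ρ w + √(1-ρ²) w')⟫`: `|h| ≤ 1`, and by `X_MEH` and Cauchy-Schwarz
`|b_k| ≤ ‖ψ‖ ‖φ‖ ≤ √d`, `b_1 = E ⟪T w', φ(w')⟫`. If `d ≥ 2^32`: `X_RIC` with `r = d^(-1/64)`: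
`b_1 ≤ 10^5 d^{1/64} + 2`. If `d < 2^32`: `b_1 ≤ √d ≤ 10^5`. -/
def X_KCO : Prop := ∀ (d : ℕ) (Q : Set (E d)) (ψ : E d → E d) (T : E d →L[ℝ] E d), 1 ≤ d → Bd Q →
  (∀ y : E d, (∀ x ∈ Q, |⟪x, y⟫_ℝ| ≤ 1) → ‖y‖ ≤ 1) → Measurable ψ → (∀ w, ψ w ∈ Q) →
  ∫ w, ‖ψ w‖ ^ 2 ∂(ga d) ≤ d →
  (∀ u v : E d, ∫ w, ⟪ψ w, u⟫_ℝ * ⟪w, v⟫_ℝ ∂(ga d) = ⟪T v, u⟫_ℝ) →
  ∫ w, gauge Q (T w) ∂(ga d) ≤ 2 * 10 ^ 5 * (d : ℝ) ^ ((1 : ℝ) / 64)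

/-! ### Assembly -/

/-- KCL. Proof. `X_LIN`, `X_KCO` with `T = √s (1 - S) p` (`P ⊆ Q`; if `|⟪x, y⟫| ≤ 1` on `Q ⊇ P` then
`‖y‖² = ∫ ⟪x, y⟫² dμ ≤ 1` by `Iso`). -/
def X_KCL : Prop := ∀ (d k : ℕ) (P Q : Set (E d)) (a s : ℝ) (p S : E d →L[ℝ] E d), 1 ≤ d →
  Bn P a → Iso P → Bd Q → (∀ u, gauge Q u ≤ gauge P u) → Pj p k → 0 < s →
  (∀ u v, ⟪S u, v⟫_ℝ = Sb (mP P) s p u v) →
  ∫ w, gauge Q (p w - S (p w)) ∂(ga d) ≤ 2 * 10 ^ 5 * (d : ℝ) ^ ((1 : ℝ) / 64) / Real.sqrt s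

/-- SPC. Spectral projection.
Proof. Eigenbasis `b` of `S`, `T = {i | λ_i > 1/2}`, `k = #T ≤ 2 tr S`, `p` the projection on the span. With the
contraction `C = Σ_{i ∉ T} (2(1-λ_i))⁻¹ b_i ⊗ b_i`: `w - p w = 2 (1 - S) (C w)`, so `X_CMP` for
`N(x) = gauge Q (2 (x - S x))` gives the bound. -/
def X_SPC : Prop := ∀ (d : ℕ) (Q : Set (E d)) (S : E d →L[ℝ] E d) (t : ℝ), Bd Q →
  (∀ u v, ⟪S u, v⟫_ℝ = ⟪u, S v⟫_ℝ) → (∀ u, 0 ≤ ⟪S u, u⟫_ℝ) → (∀ u, ⟪S u, u⟫_ℝ ≤ ‖u‖ ^ 2) →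
  (∀ b : OrthonormalBasis (Fin d) ℝ (E d), ∑ i, ⟪S (b i), b i⟫_ℝ ≤ t) →
  ∃ (k : ℕ) (p : E d →L[ℝ] E d), (k : ℝ) ≤ 2 * t ∧ Pj p k ∧
    ∫ w, gauge Q (w - p w) ∂(ga d) ≤ 2 * ∫ w, gauge Q (w - S w) ∂(ga d)

/-- FIB. The mean over the range of a projection.
Proof. Let `M = (1 - S) p` (a contraction as `0 ≤ S ≤ 1`), `D = p (1 - S) p`: `⟪D θ, θ⟫ ≥ ‖p θ‖²/2`, `D`
symmetric; in an orthonormal eigenbasis of `D` there is a contraction `C` with `p = 2 D C`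
(`C = Σ (2δ_j)⁻¹ b_j ⊗ b_j` over `δ_j ≠ 0`; then `δ_j ≥ 1/2`, and these `b_j` span the range of `p`). `X_CMP`:
`E gauge Q (p w) ≤ 2 E gauge Q (D w)`, and `D w = M w - (1 - p) M w`,
`E gauge Q ((1-p) M w) ≤ E gauge Q ((1-p) w)` by `X_CMP` with `N = gauge Q ∘ (1 - p)`, `C = M`. -/
def X_FIB : Prop := ∀ (d k : ℕ) (Q : Set (E d)) (S p : E d →L[ℝ] E d), Bd Q → Pj p k →
  (∀ u v, ⟪S u, v⟫_ℝ = ⟪u, S v⟫_ℝ) → (∀ u, 0 ≤ ⟪S u, u⟫_ℝ) → (∀ u, ⟪S u, u⟫_ℝ ≤ 1 / 2 * ‖u‖ ^ 2) →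
  ∫ w, gauge Q (p w) ∂(ga d) ≤
    2 * ((∫ w, gauge Q (p w - S (p w)) ∂(ga d)) + ∫ w, gauge Q (w - p w) ∂(ga d))

/-- SMA. The trivial bound. Proof. `gauge Q v = ⟪v, y⟫` for some `y` with `|⟪x, y⟫| ≤ 1` on `Q ⊇ P`, `‖y‖ ≤ 1`, so
`gauge Q v ≤ ‖v‖`, and `E ‖w‖ ≤ (E ‖w‖²)^{1/2} = √d`. -/
def X_SMA : Prop := ∀ (d : ℕ) (P Q : Set (E d)) (a : ℝ), Bn P a → Iso P → Bd Q →
  (∀ u, gauge Q u ≤ gauge P u) → ∫ w, gauge Q w ∂(ga d) ≤ Real.sqrt d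

/-- NU1. Numbers: with `s₀ = 1/(10^14 L³ √d)`, `R = d^{1/16}`, `k ≤ 10 R⁵ s₀ d` and
`K = 2 * 10^5 d^{1/64}`: `k ≤ d^{13/16}` (`10^14 L³ ≥ 10`), `1/√(s_F) = 10^7 L^{3/2} k^{1/4}`,
`1/√(R s₀) = 10^7 L^{3/2} d^{7/32}`. -/
def X_NU1 : Prop := ∀ (d k : ℕ) (K s0 s1 sF L : ℝ), 10 ^ 50 ≤ d → L = Real.log (d + 1) →
  K = 2 * 10 ^ 5 * (d : ℝ) ^ ((1 : ℝ) / 64) → s0 = 1 / (10 ^ 14 * L ^ 3 * Real.sqrt d) →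
  s1 = (d : ℝ) ^ ((1 : ℝ) / 16) * s0 → sF = 1 / (10 ^ 14 * L ^ 3 * Real.sqrt k) → 1 ≤ k →
  (k : ℝ) ≤ 2 * (((d : ℝ) ^ ((1 : ℝ) / 16)) ^ 5 * (5 * s0 * d)) →
  2 * K / Real.sqrt sF + 6 * K / Real.sqrt s1 ≤
    10 ^ 14 * L ^ ((3 : ℝ) / 2) * (d : ℝ) ^ ((15 : ℝ) / 64)

/-- MB. **The Gaussian mean.**
Proof. `X_GMG`. For `d < 10^50` `X_SMA` (`d^{17/64} ≤ 10^14`, `L ≥ 1`; `d ≥ 2`). For `d ≥ 10^50`: `s₀`, `s₁`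
as in `X_NU1`, `S` from `X_SOP` for `p = 1`, `s = s₁`; its trace is at most `R⁵ * 5 s₀ d` (`X_GRO`, `X_ST2`).
`X_SPC` and `X_KCL`: `u = E gauge Q (w - p w) ≤ 2 K/√s₁`. If `k = 0` then `p = 0`. Else `X_FIB` for `S'` from
`X_SOP` for `p`, `s = s_F` (`X_ST1`), `X_KCL`: `E gauge Q (p w) ≤ 2 (K/√s_F + u)`. Sum: `X_NU1`. -/
def X_MB : Prop := ∀ (d : ℕ) (P Q : Set (E d)) (a : ℝ), 2 ≤ d → Bn P a → Iso P → Bd Q →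
  (∀ u, gauge Q u ≤ gauge P u) →
  gm (gauge Q) ≤ 10 ^ 14 * Real.log (d + 1) ^ ((3 : ℝ) / 2) * (d : ℝ) ^ ((15 : ℝ) / 64)

/-- MBT. For bodies with another barycentre. Proof. `V_TRB`, `V_TWO`, `X_MB` for `tr P b` and `2 • Q`. -/
def X_MBT : Prop := ∀ (d : ℕ) (P Q : Set (E d)) (a : ℝ) (b : E d), 2 ≤ d → Bo P a → Bc P b →
  Ic P b → Bd Q → (∀ u, gauge Q u ≤ gauge P u) →
  gm (gauge Q) ≤ 2 * (10 ^ 14 * Real.log (d + 1) ^ ((3 : ℝ) / 2) * (d : ℝ) ^ ((15 : ℝ) / 64))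

/-- NU2. Numbers: `X = 10^14 B C² L³`, `X^{2000 q} ≤ d`, `l = 2 * 10^14 L^{3/2} d^{15/64}`.
(1) `10^280 (C l)⁴ ≤ d` as `X^{480} ≤ d`; (2) the left side is at most `X^{11q} * X^6 * d^{15/128}`, `X^{14q * 128} ≤ d`. -/
def X_NU2 : Prop := ∀ (d : ℕ) (q B C l : ℝ), 2 ≤ d → 2 ≤ q → 1 ≤ B → 1 ≤ C →
  l = 2 * (10 ^ 14 * Real.log (d + 1) ^ ((3 : ℝ) / 2) * (d : ℝ) ^ ((15 : ℝ) / 64)) →
  (10 ^ 14 * B * C ^ 2 * Real.log (d + 1) ^ 3) ^ (2000 * q) ≤ (d : ℝ) →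
  1 ≤ l ∧ 10 ^ 280 * (C * l) ^ 4 ≤ (d : ℝ) ∧
  (10 ^ 12 * B * (2 * C) ^ 2 * Real.log (d + 1) ^ 3) ^ (11 * q) *
    (10 ^ 47 * C * (C * l) ^ ((1 : ℝ) / 2)) ≤ (d : ℝ) ^ ((1 : ℝ) / 8)

end Pool.Agent.T2h52.FC
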