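import Mathlib
import Pool.Agent.T2h52.FC.Stm

/-!
# Project FC, task CAL
-/

set_option autoImplicit false

namespace Pool.Agent.T2h52.FC

open MeasureTheory Set Filter Topology ProbabilityTheory
open scoped ENNReal InnerProductSpace Pointwise
open Pool.Agent.R755.KF (PB)
open Pool.Agent.N555.RZ (mP Spr)
open Pool.Agent.T2h52.SP
open Pool.Agent.T2h52.SQ
open Pool.Agent.T2h52.SO

theorem cal_anti {h h' : ℝ → ℝ} (hd : ∀ s, 0 < s → HasDerivAt h (h' s) s)
    (hn : ∀ s, 0 < s → h' s ≤ 0) {s t : ℝ} (hs : 0 < s) (hst : s ≤ t) : h t ≤ h s := by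
  have h1 : AntitoneOn h (Ioi 0) := by
    refine antitoneOn_of_deriv_nonpos (convex_Ioi 0)
      (fun x hx => (hd x hx).continuousAt.continuousWithinAt) ?_ ?_
    · intro x hx
      rw [interior_Ioi] at hx
      exact (hd x hx).differentiableAt.differentiableWithinAt
    · intro x hx
      rw [interior_Ioi] at hx
      rw [(hd x hx).deriv]
      exact hn x hx
  exact h1 hs (hs.trans_le hst) hst

theorem cal_aux (f Φ Ψ : ℝ → ℝ) (h0 : ∀ s, 0 < s → 0 ≤ f s ∧ 0 ≤ Φ s)
    (hf : ∀ s, 0 < s → HasDerivAt f (Φ s) s) (hΦ : ∀ s, 0 < s → HasDerivAt Φ (Ψ s) s)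
    (hΨ : ∀ s, 0 < s → Ψ s ≤ 4 / s * Φ s) (s₀ : ℝ) (hs₀ : 0 < s₀) :
    s₀ * Φ s₀ - 5 * f s₀ ≤ 0 := by
  by_contra hc
  push Not at hc
  set c : ℝ := s₀ * Φ s₀ - 5 * f s₀ with hcdef
  -- `s Φ - 5 f` is nonincreasing
  have hmono : ∀ s, 0 < s → s ≤ s₀ → c ≤ s * Φ s - 5 * f s := by
    intro s hs hss
    refine cal_anti (h := fun s => s * Φ s - 5 * f s)
      (h' := fun s => (1 * Φ s + s * Ψ s) - 5 * Φ s) (fun t ht =>
        (((hasDerivAt_id t).mul (hΦ t ht)).sub ((hf t ht).const_mul 5))) ?_ hs hss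
    intro t ht
    have h1 := hΨ t ht
    have h2 : t * Ψ t ≤ 4 * Φ t := by
      calc t * Ψ t ≤ t * (4 / t * Φ t) := mul_le_mul_of_nonneg_left h1 ht.le
        _ = 4 * Φ t := by field_simp
    linarith
  -- `f - c log` is nondecreasing on `(0, s₀]`
  have hlog : ∀ s, 0 < s → s ≤ s₀ → f s - c * Real.log s ≤ f s₀ - c * Real.log s₀ := by
    intro s hs hss
    have h1 : MonotoneOn (fun s => f s - c * Real.log s) (Icc s s₀) := by
      refine monotoneOn_of_deriv_nonneg (convex_Icc _ _) ?_ ?_ ?_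
      · intro x hx
        have hx0 : 0 < x := hs.trans_le hx.1
        exact ((hf x hx0).sub ((Real.hasDerivAt_log hx0.ne').const_mul c)).continuousAt.continuousWithinAt
      · intro x hx
        rw [interior_Icc] at hx
        have hx0 : 0 < x := hs.trans hx.1
        exact ((hf x hx0).sub ((Real.hasDerivAt_log hx0.ne').const_mul
          c)).differentiableAt.differentiableWithinAt
      · intro x hx
        rw [interior_Icc] at hx
        have hx0 : 0 < x := hs.trans hx.1
        have hd := ((hf x hx0).sub ((Real.hasDerivAt_log hx0.ne').const_mul c)).deriv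
        rw [show deriv (fun s => f s - c * Real.log s) x = Φ x - c * x⁻¹ from hd]
        have h3 := hmono x hx0 hx.2.le
        have h4 := (h0 x hx0).1
        have h5 : c ≤ x * Φ x := by linarith
        have h6 : c * x⁻¹ ≤ Φ x := by
          rw [← div_eq_mul_inv, div_le_iff₀ hx0, mul_comm]
          exact h5
        linarith
    exact h1 (left_mem_Icc.2 hss) (right_mem_Icc.2 hss) hss
  have hc' : 0 < c := hc
  have hfs := (h0 s₀ hs₀).1
  set s : ℝ := s₀ * Real.exp (-((f s₀ + 1) / c)) with hsdef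
  have hspos : 0 < s := by positivity
  have hsle : s ≤ s₀ := by
    rw [hsdef]
    have h1 : Real.exp (-((f s₀ + 1) / c)) ≤ 1 := by
      rw [Real.exp_le_one_iff]
      have : 0 ≤ (f s₀ + 1) / c := by positivity
      linarith
    exact mul_le_of_le_one_right hs₀.le h1
  have h1 := hlog s hspos hsle
  have h2 : Real.log s = Real.log s₀ - (f s₀ + 1) / c := by
    rw [hsdef, Real.log_mul hs₀.ne' (Real.exp_pos _).ne', Real.log_exp]
    ring
  have h3 := (h0 s hspos).1
  have h4 : c * ((f s₀ + 1) / c) = f s₀ + 1 := by field_simp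
  rw [h2] at h1
  nlinarith

theorem cal : X_CAL := by
  intro f Φ Ψ h0 hf hΦ hΨ s R hs hR
  have hR0 : 0 < R := by linarith
  have key : f (R * s) / (R * s) ^ 5 ≤ f s / s ^ 5 := by
    refine cal_anti (h := fun s => f s / s ^ 5)
      (h' := fun s => (Φ s * s ^ 5 - f s * (5 * s ^ 4)) / (s ^ 5) ^ 2) (fun t ht => ?_) ?_ hs
      (le_mul_of_one_le_left hs.le hR)
    · have h1 : HasDerivAt (fun s : ℝ => s ^ 5) (5 * t ^ 4) t := by
        simpa using hasDerivAt_pow 5 t
      exact (hf t ht).div h1 (pow_ne_zero _ ht.ne')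
    · intro t ht
      have h1 := cal_aux f Φ Ψ h0 hf hΦ hΨ t ht
      refine div_nonpos_of_nonpos_of_nonneg ?_ (by positivity)
      have h2 : Φ t * t ^ 5 - f t * (5 * t ^ 4) = t ^ 4 * (t * Φ t - 5 * f t) := by ring
      rw [h2]
      exact mul_nonpos_of_nonneg_of_nonpos (by positivity) h1
  rw [div_le_div_iff₀ (by positivity) (by positivity)] at key
  have h5 : 0 < s ^ 5 := by positivity
  refine le_of_mul_le_mul_right ?_ h5
  calc f (R * s) * s ^ 5 ≤ f s * (R * s) ^ 5 := key
    _ = R ^ 5 * f s * s ^ 5 := by ring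

end Pool.Agent.T2h52.FC
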