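import Pool.Agent.T2h52.FC.Stm

/-! Task CMP: contractions decrease the mean of a convex function. -/

set_option autoImplicit false
set_option linter.all false

open MeasureTheory Set Filter Topology ProbabilityTheory
open scoped ENNReal InnerProductSpace Matrix

namespace Pool.Agent.T2h52.FC

open Pool.Agent.T2h52.SP

namespace CMP

/-- a positively homogeneous continuous function is bounded by a multiple of the norm -/
theorem N_bd {d : ℕ} {N : E d → ℝ} (hc : Continuous N)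
    (hh : ∀ (c : ℝ) (x : E d), N (c • x) = |c| * N x) : ∃ K : ℝ, 0 ≤ K ∧ ∀ x, |N x| ≤ K * ‖x‖ := by
  obtain ⟨K, hK⟩ := (isCompact_closedBall (0 : E d) 1).exists_bound_of_continuousOn hc.continuousOn
  have hK0 : 0 ≤ K := (norm_nonneg _).trans (hK 0 (by simp))
  refine ⟨K, hK0, fun x => ?_⟩
  by_cases hx : x = 0
  · have h0 := hh 0 x
    rw [zero_smul, abs_zero, zero_mul] at h0
    rw [hx, h0]
    simp
  · have hn : 0 < ‖x‖ := norm_pos_iff.2 hx
    have h1 := hK (‖x‖⁻¹ • x) (by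
      rw [mem_closedBall_zero_iff, norm_smul, norm_inv, norm_norm, inv_mul_cancel₀ hn.ne'])
    have h2 : N x = ‖x‖ * N (‖x‖⁻¹ • x) := by
      have h3 := hh ‖x‖ (‖x‖⁻¹ • x)
      rw [smul_smul, mul_inv_cancel₀ hn.ne', one_smul, abs_norm] at h3
      exact h3
    rw [h2, abs_mul, abs_norm, mul_comm]
    exact mul_le_mul_of_nonneg_right h1 (norm_nonneg _)

/-- the law of `C G + σ G'` -/
theorem law {d : ℕ} (C : E d →L[ℝ] E d) (ν : Measure (E d)) [IsProbabilityMeasure ν]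
    (hν : ∀ t : E d, charFun ν t = Complex.exp (-((‖t‖ ^ 2 - ‖C.adjoint t‖ ^ 2 : ℝ) : ℂ) / 2))
    (σ : ℝ) (hσ : σ ^ 2 = 1) :
    ((ga d).prod ν).map (fun z => C z.1 + σ • z.2) = ga d := by
  have hm : Measurable (fun z : E d × E d => C z.1 + σ • z.2) := by fun_prop
  haveI : IsProbabilityMeasure (((ga d).prod ν).map (fun z => C z.1 + σ • z.2)) :=
    Measure.isProbabilityMeasure_map hm.aemeasurable
  refine Measure.ext_of_charFun ?_
  funext t
  rw [charFun_apply, integral_map hm.aemeasurable (by fun_prop)]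
  have h1 : ∀ z : E d × E d, Complex.exp ((⟪C z.1 + σ • z.2, t⟫_ℝ : ℂ) * Complex.I) =
      Complex.exp ((⟪z.1, C.adjoint t⟫_ℝ : ℂ) * Complex.I) *
        Complex.exp ((⟪z.2, σ • t⟫_ℝ : ℂ) * Complex.I) := by
    intro z
    rw [← Complex.exp_add, ← add_mul, inner_add_left, ContinuousLinearMap.adjoint_inner_right,
      real_inner_smul_left, real_inner_smul_right]
    push_cast
    rfl
  simp_rw [h1]
  rw [integral_prod_mul (f := fun x : E d => Complex.exp ((⟪x, C.adjoint t⟫_ℝ : ℂ) * Complex.I))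
    (g := fun y : E d => Complex.exp ((⟪y, σ • t⟫_ℝ : ℂ) * Complex.I)), ← charFun_apply,
    ← charFun_apply, charFun_stdGaussian, charFun_stdGaussian, hν, ← Complex.exp_add]
  congr 1
  have h2 : ‖σ • t‖ ^ 2 = ‖t‖ ^ 2 := by
    rw [norm_smul, mul_pow, Real.norm_eq_abs, sq_abs, hσ, one_mul]
  have h3 : ‖C.adjoint (σ • t)‖ ^ 2 = ‖C.adjoint t‖ ^ 2 := by
    rw [map_smul, norm_smul, mul_pow, Real.norm_eq_abs, sq_abs, hσ, one_mul]
  rw [h2, h3]
  push_cast
  ring

theorem exists_nu {d : ℕ} (C : E d →L[ℝ] E d) (hC : ∀ x, ‖C x‖ ≤ ‖x‖) :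
    ∃ ν : Measure (E d), IsGaussian ν ∧
      ∀ t : E d, charFun ν t = Complex.exp (-((‖t‖ ^ 2 - ‖C.adjoint t‖ ^ 2 : ℝ) : ℂ) / 2) := by
  have hA : ∀ x, ‖C.adjoint x‖ ≤ ‖x‖ := by
    have h1 : ‖C‖ ≤ 1 := C.opNorm_le_bound zero_le_one fun x => by rw [one_mul]; exact hC x
    have h2 : ‖C.adjoint‖ ≤ 1 := by
      rw [ContinuousLinearMap.adjoint.norm_map]
      exact h1
    intro x
    calc ‖C.adjoint x‖ ≤ ‖C.adjoint‖ * ‖x‖ := C.adjoint.le_opNorm x
      _ ≤ 1 * ‖x‖ := mul_le_mul_of_nonneg_right h2 (norm_nonneg _)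
      _ = ‖x‖ := one_mul _
  set T : E d →L[ℝ] E d := 1 - C * star C with hT
  set S : Matrix (Fin d) (Fin d) ℝ := (Matrix.toEuclideanCLM (n := Fin d) (𝕜 := ℝ)).symm T with hS
  have hTS : Matrix.toEuclideanCLM (n := Fin d) (𝕜 := ℝ) S = T := by
    rw [hS]
    exact StarAlgEquiv.apply_symm_apply _ _
  have hq : ∀ t : E d, t.ofLp ⬝ᵥ S *ᵥ t.ofLp = ‖t‖ ^ 2 - ‖C.adjoint t‖ ^ 2 := by
    intro t
    rw [← Matrix.inner_toEuclideanCLM, hTS, hT, ContinuousLinearMap.sub_apply,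
      ContinuousLinearMap.one_apply, ContinuousLinearMap.mul_apply,
      ContinuousLinearMap.star_eq_adjoint, inner_sub_right, real_inner_self_eq_norm_sq,
      ← ContinuousLinearMap.adjoint_inner_left, real_inner_self_eq_norm_sq]
  have hsa : ∀ x y : E d, ⟪x, T y⟫_ℝ = ⟪y, T x⟫_ℝ := by
    intro x y
    have h1 : ∀ u v : E d, ⟪u, T v⟫_ℝ = ⟪u, v⟫_ℝ - ⟪C.adjoint u, C.adjoint v⟫_ℝ := by
      intro u v
      rw [hT, ContinuousLinearMap.sub_apply, ContinuousLinearMap.one_apply,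
        ContinuousLinearMap.mul_apply, ContinuousLinearMap.star_eq_adjoint, inner_sub_right,
        ← ContinuousLinearMap.adjoint_inner_left]
    rw [h1, h1, real_inner_comm x y, real_inner_comm (C.adjoint x) (C.adjoint y)]
  have hP : S.PosSemidef := by
    refine Matrix.PosSemidef.of_dotProduct_mulVec_nonneg ?_ ?_
    · have h0 : ∀ i j, S i j = ⟪(EuclideanSpace.single i 1 : E d), T (EuclideanSpace.single j 1)⟫_ℝ := by
        intro i j
        rw [← hTS, Matrix.inner_toEuclideanCLM]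
        simp
      refine Matrix.IsHermitian.ext fun i j => ?_
      rw [star_trivial, h0, h0, hsa]
    · intro x
      have h1 := hq (WithLp.toLp 2 x)
      have h2 : x ⬝ᵥ S *ᵥ x = ‖(WithLp.toLp 2 x : E d)‖ ^ 2 - ‖C.adjoint (WithLp.toLp 2 x)‖ ^ 2 := h1
      rw [star_trivial, h2, sub_nonneg]
      exact pow_le_pow_left₀ (norm_nonneg _) (hA _) 2
  refine ⟨multivariateGaussian 0 S, inferInstance, fun t => ?_⟩
  rw [charFun_multivariateGaussian hP, hq t]
  congr 1
  simp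
  ring

end CMP

open CMP in
theorem cmp : X_CMP := by
  intro d N C hc hs hh hC
  obtain ⟨K, hK0, hK⟩ := N_bd hc hh
  obtain ⟨ν, hνg, hν⟩ := exists_nu C hC
  haveI := hνg
  have hi : Integrable N (ga d) := by
    refine (IsGaussian.integrable_id (μ := ga d)).norm.const_mul K |>.mono'
      hc.aestronglyMeasurable (ae_of_all _ fun x => ?_)
    exact hK x
  have hpres : ∀ σ : ℝ, σ ^ 2 = 1 →
      MeasurePreserving (fun z : E d × E d => C z.1 + σ • z.2) ((ga d).prod ν) (ga d) :=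
    fun σ hσ => ⟨by fun_prop, law C ν hν σ hσ⟩
  have hi' : ∀ σ : ℝ, σ ^ 2 = 1 →
      Integrable (fun z : E d × E d => N (C z.1 + σ • z.2)) ((ga d).prod ν) := fun σ hσ =>
    (hpres σ hσ).integrable_comp_of_integrable hi
  have he : ∀ σ : ℝ, σ ^ 2 = 1 →
      ∫ z : E d × E d, N (C z.1 + σ • z.2) ∂((ga d).prod ν) = ∫ w, N w ∂(ga d) := by
    intro σ hσ
    rw [← (hpres σ hσ).map_eq, integral_map (hpres σ hσ).measurable.aemeasurable
      hc.aestronglyMeasurable, (hpres σ hσ).map_eq]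
  have hiC : Integrable (fun w => N (C w)) (ga d) := by
    refine (IsGaussian.integrable_id (μ := ga d)).norm.const_mul K |>.mono'
      (hc.comp C.continuous).aestronglyMeasurable (ae_of_all _ fun x => ?_)
    exact (hK (C x)).trans (mul_le_mul_of_nonneg_left (hC x) hK0)
  have h1 : ∫ z : E d × E d, N (C z.1) ∂((ga d).prod ν) = ∫ w, N (C w) ∂(ga d) := by
    rw [integral_fun_fst (μ := ga d) (ν := ν) (fun w => N (C w))]
    simp
  have h2 : ∫ z : E d × E d, 2 * N (C z.1) ∂((ga d).prod ν) ≤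
      ∫ z : E d × E d, (N (C z.1 + (1 : ℝ) • z.2) + N (C z.1 + (-1 : ℝ) • z.2)) ∂((ga d).prod ν) := by
    refine integral_mono ((hiC.comp_fst ν).const_mul 2) ((hi' 1 (by norm_num)).add
      (hi' (-1) (by norm_num))) fun z => ?_
    have h3 := hs (C z.1 + (1 : ℝ) • z.2) (C z.1 + (-1 : ℝ) • z.2)
    have h4 : C z.1 + (1 : ℝ) • z.2 + (C z.1 + (-1 : ℝ) • z.2) = (2 : ℝ) • C z.1 := by
      rw [one_smul, neg_one_smul, two_smul]
      abel
    rw [h4, hh, abs_two] at h3
    exact h3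
  rw [integral_const_mul, h1, integral_add (hi' 1 (by norm_num)) (hi' (-1) (by norm_num)),
    he 1 (by norm_num), he (-1) (by norm_num)] at h2
  linarith

end Pool.Agent.T2h52.FC
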