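import Pool.Agent.T2h52.FC.Stm

/-! Exponentials are total in L² (DEN). -/

set_option autoImplicit false

namespace Pool.Agent.T2h52.FC

open MeasureTheory Set Filter Topology ProbabilityTheory
open scoped ENNReal InnerProductSpace Pointwise
open Pool.Agent.R755.KF (PB)
open Pool.Agent.N555.RZ (mP Spr)
open Pool.Agent.T2h52.SP
open Pool.Agent.T2h52.SQ
open Pool.Agent.T2h52.SO

namespace DENh

theorem exp_memLp (h : X_GEX) (d : ℕ) (t : E d) :
    MemLp (fun w : E d => Real.exp ⟪t, w⟫_ℝ) 2 (ga d) := by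
  have h1 : Integrable (fun w : E d => Real.exp ⟪t, w⟫_ℝ ^ 2) (ga d) := by
    refine ((h d).1 (2 * ‖t‖)).mono' (by fun_prop) (ae_of_all _ fun w => ?_)
    rw [Real.norm_eq_abs, abs_of_nonneg (by positivity), ← Real.exp_nat_mul]
    refine Real.exp_le_exp.2 ?_
    have := real_inner_le_norm t w
    push_cast
    nlinarith
  exact (memLp_two_iff_integrable_sq (by fun_prop)).2 h1

theorem den_int (hG : X_GEX) (d : ℕ) (f : E d → ℝ) (hf : MemLp f 2 (ga d)) (t : E d) :
    Integrable (fun w => Real.exp ⟪t, w⟫_ℝ) ((ga d).withDensity fun w => ENNReal.ofReal (f w)) ∧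
    ∫ w, Real.exp ⟪t, w⟫_ℝ ∂((ga d).withDensity fun w => ENNReal.ofReal (f w)) =
      ∫ w, max (f w) 0 * Real.exp ⟪t, w⟫_ℝ ∂(ga d) := by
  have hme : AEMeasurable (fun w => ENNReal.ofReal (f w)) (ga d) :=
    hf.1.aemeasurable.ennreal_ofReal
  have hlt : ∀ᵐ w ∂(ga d), ENNReal.ofReal (f w) < ∞ := ae_of_all _ fun w => ENNReal.ofReal_lt_top
  have e : ∀ w : E d, (ENNReal.ofReal (f w)).toReal • Real.exp ⟪t, w⟫_ℝ =
      max (f w) 0 * Real.exp ⟪t, w⟫_ℝ := fun w => by
    rw [ENNReal.toReal_ofReal', smul_eq_mul]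
  constructor
  · rw [integrable_withDensity_iff_integrable_smul₀' hme hlt]
    simp_rw [e]
    exact hf.pos_part.integrable_mul (exp_memLp hG d t)
  · rw [integral_withDensity_eq_integral_toReal_smul₀ hme hlt]
    simp_rw [e]

end DENh

open DENh

theorem den (hG : X_GEX) : X_DEN := by
  intro d f hf h0
  have hfn : MemLp (fun w => -f w) 2 (ga d) := hf.neg
  have hi : Integrable f (ga d) := hf.integrable (by norm_num)
  set μp := (ga d).withDensity fun w => ENNReal.ofReal (f w) with hμp
  set μn := (ga d).withDensity fun w => ENNReal.ofReal (-f w) with hμn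
  have f1 : IsFiniteMeasure μp := isFiniteMeasure_withDensity_ofReal hi.2
  have f2 : IsFiniteMeasure μn := isFiniteMeasure_withDensity_ofReal hi.neg.2
  have hm : ∀ t : E d, ∫ w, Real.exp ⟪t, w⟫_ℝ ∂μp = ∫ w, Real.exp ⟪t, w⟫_ℝ ∂μn := by
    intro t
    rw [hμp, hμn, (den_int hG d f hf t).2, (den_int hG d (fun w => -f w) hfn t).2]
    rw [← sub_eq_zero, ← integral_sub]
    · refine Eq.trans ?_ (h0 t)
      refine integral_congr_ae (ae_of_all _ fun w => ?_)
      dsimp only
      rcases le_total 0 (f w) with h | h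
      · rw [max_eq_left h, max_eq_right (by linarith)]; ring
      · rw [max_eq_right h, max_eq_left (by linarith)]; ring
    · exact hf.pos_part.integrable_mul (exp_memLp hG d t)
    · exact hfn.pos_part.integrable_mul (exp_memLp hG d t)
  have hz : μp = 0 ↔ μn = 0 := by
    have h1 := hm 0
    simp only [inner_zero_left, Real.exp_zero, integral_const, smul_eq_mul, mul_one] at h1
    rw [← Measure.measure_univ_eq_zero, ← Measure.measure_univ_eq_zero,
      ← measureReal_eq_zero_iff, ← measureReal_eq_zero_iff, h1]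
  have heq : μp = μn := by
    refine Measure.ext_of_charFun ?_
    funext t
    have h2 : mgf (fun w : E d => ⟪t, w⟫_ℝ) μp = mgf (fun w : E d => ⟪t, w⟫_ℝ) μn := by
      funext s
      have := hm (s • t)
      simp only [mgf]
      simpa only [real_inner_smul_left] using this
    have h3 := eqOn_complexMGF_of_mgf' h2 hz
    have h4 : integrableExpSet (fun w : E d => ⟪t, w⟫_ℝ) μp = Set.univ := by
      refine Set.eq_univ_of_forall fun s => ?_
      have := (den_int hG d f hf (s • t)).1
      simp only [real_inner_smul_left] at this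
      exact this
    rw [h4] at h3
    have h5 := h3 (x := Complex.I) (by simp)
    rw [charFun_apply, charFun_apply]
    simp only [complexMGF] at h5
    have h6 : ∀ w : E d, Complex.exp (⟪w, t⟫_ℝ * Complex.I) =
        Complex.exp (Complex.I * (⟪t, w⟫_ℝ : ℝ)) := fun w => by
      rw [real_inner_comm, mul_comm]
    simp_rw [h6]
    exact h5
  have h7 := (withDensity_eq_iff_of_sigmaFinite (μ := ga d)
    hf.1.aemeasurable.ennreal_ofReal hfn.1.aemeasurable.ennreal_ofReal).1 heq
  filter_upwards [h7] with w hw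
  rcases le_total 0 (f w) with h | h
  · have : ENNReal.ofReal (-f w) = 0 := ENNReal.ofReal_eq_zero.2 (by linarith)
    rw [this, ENNReal.ofReal_eq_zero] at hw
    simp only [Pi.zero_apply]
    linarith
  · have : ENNReal.ofReal (f w) = 0 := ENNReal.ofReal_eq_zero.2 h
    rw [this, eq_comm, ENNReal.ofReal_eq_zero] at hw
    simp only [Pi.zero_apply]
    linarith

end Pool.Agent.T2h52.FC
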