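import Pool.Agent.T2h52.FC.Stm
set_option autoImplicit false
namespace Pool.Agent.T2h52.FC.EXIaux
open MeasureTheory Set Filter Topology ProbabilityTheory
open scoped ENNReal InnerProductSpace Pointwise

/-- exponential integral with vector coefficients -/
noncomputable def H {V F Ω : Type} [NormedAddCommGroup V] [NormedSpace ℝ V] [NormedAddCommGroup F]
    [NormedSpace ℝ F] [MeasurableSpace Ω] (m : Measure Ω) (l : Ω → V →L[ℝ] ℝ) (g : Ω → F) (q : V) : F :=
  ∫ x, Real.exp (l x q) • g x ∂m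

theorem hasFD {V F Ω : Type} [NormedAddCommGroup V] [NormedSpace ℝ V] [NormedAddCommGroup F]
    [NormedSpace ℝ F] [MeasurableSpace Ω] (m : Measure Ω) [IsFiniteMeasure m] (B C : ℝ)
    (l : Ω → V →L[ℝ] ℝ) (g : Ω → F) (hl : AEStronglyMeasurable l m) (hg : AEStronglyMeasurable g m)
    (hB : ∀ᵐ x ∂m, ‖l x‖ ≤ B) (hC : ∀ᵐ x ∂m, ‖g x‖ ≤ C) (q : V) :
    HasFDerivAt (H m l g) (H m l (fun x => (l x).smulRight (g x)) q) q := by
  have hexp : ∀ q : V, AEStronglyMeasurable (fun x => Real.exp (l x q)) m := fun q =>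
    Real.continuous_exp.comp_aestronglyMeasurable (hl.apply_continuousLinearMap q)
  have hF : ∀ q : V, AEStronglyMeasurable (fun x => Real.exp (l x q) • g x) m := fun q =>
    (hexp q).smul hg
  have hsr : AEStronglyMeasurable (fun x => (l x).smulRight (g x)) m := by
    have hc : Continuous (fun z : (V →L[ℝ] ℝ) × F => z.1.smulRight z.2) := by
      exact (ContinuousLinearMap.smulRightL ℝ V F).continuous₂
    exact hc.comp_aestronglyMeasurable (hl.prodMk hg)
  have hF' : AEStronglyMeasurable (fun x => Real.exp (l x q) • (l x).smulRight (g x)) m :=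
    (hexp q).smul hsr
  have hint : Integrable (fun x => Real.exp (l x q) • g x) m := by
    refine Integrable.of_bound (hF q) (Real.exp (B * ‖q‖) * C) ?_
    filter_upwards [hB, hC] with x h1 h2
    rw [norm_smul, Real.norm_eq_abs, Real.abs_exp]
    have h3 : l x q ≤ B * ‖q‖ := (le_abs_self _).trans (((l x).le_opNorm q).trans (by gcongr))
    gcongr
  refine hasFDerivAt_integral_of_dominated_of_fderiv_le (s := Metric.ball q 1)
    (F := fun q x => Real.exp (l x q) • g x)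
    (F' := fun q x => Real.exp (l x q) • (l x).smulRight (g x))
    (bound := fun _ => Real.exp (B * (‖q‖ + 1)) * (B * C)) (Metric.ball_mem_nhds q one_pos)
    (Eventually.of_forall hF) hint hF' ?_ (integrable_const _) ?_
  · filter_upwards [hB, hC] with x h1 h2 y hy
    have hy' : ‖y‖ ≤ ‖q‖ + 1 := by
      have : ‖y - q‖ < 1 := by simpa [dist_eq_norm] using hy
      calc ‖y‖ = ‖(y - q) + q‖ := by abel_nf
        _ ≤ ‖y - q‖ + ‖q‖ := norm_add_le _ _
        _ ≤ ‖q‖ + 1 := by linarith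
    have hB0 : 0 ≤ B := (norm_nonneg _).trans h1
    rw [norm_smul, Real.norm_eq_abs, Real.abs_exp, ContinuousLinearMap.norm_smulRight_apply]
    have h3 : l x y ≤ B * (‖q‖ + 1) :=
      (le_abs_self _).trans (((l x).le_opNorm y).trans (by gcongr))
    gcongr
  · filter_upwards with x y _
    have h1 : HasFDerivAt (fun z : V => Real.exp (l x z)) (Real.exp (l x y) • (l x)) y :=
      (l x).hasFDerivAt.exp
    have h2 := h1.smul_const (g x)
    convert h2 using 1
    ext z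
    simp [smul_smul]

theorem contDiffH {V Ω : Type} [NormedAddCommGroup V] [NormedSpace ℝ V] [MeasurableSpace Ω]
    (m : Measure Ω) [IsFiniteMeasure m] (B : ℝ) (l : Ω → V →L[ℝ] ℝ)
    (hl : AEStronglyMeasurable l m) (hB : ∀ᵐ x ∂m, ‖l x‖ ≤ B) (n : ℕ) :
    ∀ (F : Type) [NormedAddCommGroup F] [NormedSpace ℝ F] (C : ℝ) (g : Ω → F),
      AEStronglyMeasurable g m → (∀ᵐ x ∂m, ‖g x‖ ≤ C) → ContDiff ℝ n (H m l g) := by
  induction n with
  | zero =>
    intro F _ _ C g hg hC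
    have : Continuous (H m l g) := by
      rw [continuous_iff_continuousAt]
      exact fun q => (hasFD m B C l g hl hg hB hC q).continuousAt
    simpa [contDiff_zero] using this
  | succ n ih =>
    intro F _ _ C g hg hC
    have hsr : AEStronglyMeasurable (fun x => (l x).smulRight (g x)) m := by
      have hc : Continuous (fun z : (V →L[ℝ] ℝ) × F => z.1.smulRight z.2) := by
        exact (ContinuousLinearMap.smulRightL ℝ V F).continuous₂
      exact hc.comp_aestronglyMeasurable (hl.prodMk hg)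
    have hb : ∀ᵐ x ∂m, ‖(l x).smulRight (g x)‖ ≤ B * C := by
      filter_upwards [hB, hC] with x h1 h2
      have hB0 : 0 ≤ B := (norm_nonneg _).trans h1
      rw [ContinuousLinearMap.norm_smulRight_apply]
      gcongr
    have h := ih (V →L[ℝ] F) (B * C) (fun x => (l x).smulRight (g x)) hsr hb
    have hfd : fderiv ℝ (H m l g) = H m l (fun x => (l x).smulRight (g x)) := by
      funext q
      exact (hasFD m B C l g hl hg hB hC q).fderiv
    rw [show ((n + 1 : ℕ) : WithTop ℕ∞) = (n : WithTop ℕ∞) + 1 by push_cast; rfl,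
      contDiff_succ_iff_fderiv]
    refine ⟨fun q => (hasFD m B C l g hl hg hB hC q).differentiableAt, ?_, ?_⟩
    · intro hω; simp at hω
    · rw [hfd]; exact h


theorem H_apply {V Ω : Type} [NormedAddCommGroup V] [NormedSpace ℝ V] [MeasurableSpace Ω]
    (m : Measure Ω) [IsFiniteMeasure m] (B C : ℝ) (l : Ω → V →L[ℝ] ℝ) (g : Ω → ℝ)
    (hl : AEStronglyMeasurable l m) (hg : AEStronglyMeasurable g m)
    (hB : ∀ᵐ x ∂m, ‖l x‖ ≤ B) (hC : ∀ᵐ x ∂m, ‖g x‖ ≤ C) (q v : V) :
    (H m l (fun x => (l x).smulRight (g x)) q) v = ∫ x, Real.exp (l x q) * (l x v * g x) ∂m := by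
  have hexp : AEStronglyMeasurable (fun x => Real.exp (l x q)) m :=
    Real.continuous_exp.comp_aestronglyMeasurable (hl.apply_continuousLinearMap q)
  have hsr : AEStronglyMeasurable (fun x => (l x).smulRight (g x)) m := by
    have hc : Continuous (fun z : (V →L[ℝ] ℝ) × ℝ => z.1.smulRight z.2) := by
      exact (ContinuousLinearMap.smulRightL ℝ V ℝ).continuous₂
    exact hc.comp_aestronglyMeasurable (hl.prodMk hg)
  have hint : Integrable (fun x => Real.exp (l x q) • (l x).smulRight (g x)) m := by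
    refine Integrable.of_bound (hexp.smul hsr) (Real.exp (B * ‖q‖) * (B * C)) ?_
    filter_upwards [hB, hC] with x h1 h2
    have hB0 : 0 ≤ B := (norm_nonneg _).trans h1
    rw [norm_smul, Real.norm_eq_abs, Real.abs_exp, ContinuousLinearMap.norm_smulRight_apply]
    have h3 : l x q ≤ B * ‖q‖ := (le_abs_self _).trans (((l x).le_opNorm q).trans (by gcongr))
    gcongr
  unfold H
  rw [ContinuousLinearMap.integral_apply hint]
  rfl

/-- the linear functional `(σ, η) ↦ ⟪v, η⟫ - σ / 2 * t` -/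
noncomputable def lin {V : Type} [NormedAddCommGroup V] [InnerProductSpace ℝ V] (z : V × ℝ) :
    (ℝ × V) →L[ℝ] ℝ :=
  (innerSL ℝ z.1).comp (ContinuousLinearMap.snd ℝ ℝ V) - (z.2 / 2) • ContinuousLinearMap.fst ℝ ℝ V

theorem lin_apply {V : Type} [NormedAddCommGroup V] [InnerProductSpace ℝ V] (z : V × ℝ)
    (q : ℝ × V) : lin z q = ⟪z.1, q.2⟫_ℝ - q.1 / 2 * z.2 := by
  unfold lin
  change ⟪z.1, q.2⟫_ℝ - (z.2 / 2) * q.1 = _
  ring

theorem lin_cont {V : Type} [NormedAddCommGroup V] [InnerProductSpace ℝ V] :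
    Continuous (lin : V × ℝ → ((ℝ × V) →L[ℝ] ℝ)) := by
  have h1 : Continuous (fun z : V × ℝ => innerSL ℝ z.1) :=
    (innerSL ℝ).continuous.comp continuous_fst
  have h2 : Continuous (fun z : V × ℝ =>
      (innerSL ℝ z.1).comp (ContinuousLinearMap.snd ℝ ℝ V)) := h1.clm_comp continuous_const
  have h3 : Continuous (fun z : V × ℝ => (z.2 / 2) • ContinuousLinearMap.fst ℝ ℝ V) :=
    (continuous_snd.div_const 2).smul continuous_const
  exact h2.sub h3

theorem lin_norm {V : Type} [NormedAddCommGroup V] [InnerProductSpace ℝ V] (z : V × ℝ) (B : ℝ)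
    (h1 : ‖z.1‖ ≤ B) (h2 : |z.2| ≤ B) : ‖lin z‖ ≤ B + B / 2 := by
  have hB : 0 ≤ B := (abs_nonneg _).trans h2
  refine ContinuousLinearMap.opNorm_le_bound _ (by linarith) fun q => ?_
  rw [lin_apply, Real.norm_eq_abs]
  have h3 : |⟪z.1, q.2⟫_ℝ| ≤ B * ‖q‖ := (abs_real_inner_le_norm _ _).trans
    (mul_le_mul h1 (norm_snd_le q) (norm_nonneg _) hB)
  have h4 : |q.1 / 2 * z.2| ≤ B / 2 * ‖q‖ := by
    rw [abs_mul, abs_div, abs_two]
    have h5 : |q.1| ≤ ‖q‖ := norm_fst_le q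
    have h6 : |q.1| * |z.2| ≤ ‖q‖ * B := mul_le_mul h5 h2 (abs_nonneg _) (norm_nonneg _)
    linarith
  calc |⟪z.1, q.2⟫_ℝ - q.1 / 2 * z.2| ≤ |⟪z.1, q.2⟫_ℝ| + |q.1 / 2 * z.2| := abs_sub _ _
    _ ≤ B * ‖q‖ + B / 2 * ‖q‖ := add_le_add h3 h4
    _ = (B + B / 2) * ‖q‖ := by ring

theorem exiV {V Ω : Type} [NormedAddCommGroup V] [InnerProductSpace ℝ V] [MeasurableSpace Ω]
    (m : Measure Ω) [IsFiniteMeasure m] (B : ℝ) (f ψ : Ω → ℝ) (φ : Ω → V)
    (hf : AEStronglyMeasurable f m) (hψ : AEStronglyMeasurable ψ m)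
    (hφ : AEStronglyMeasurable φ m)
    (hB : ∀ᵐ x ∂m, |f x| ≤ B ∧ |ψ x| ≤ B ∧ ‖φ x‖ ≤ B) :
    ContDiff ℝ 2 (fun q : ℝ × V => ∫ x, f x * Real.exp (⟪φ x, q.2⟫_ℝ - q.1 / 2 * ψ x) ∂m) ∧
    ∀ (q : ℝ × V) (σ : ℝ) (η : V),
      fderiv ℝ (fun q : ℝ × V => ∫ x, f x * Real.exp (⟪φ x, q.2⟫_ℝ - q.1 / 2 * ψ x) ∂m) q (σ, η) =
        ∫ x, f x * (⟪φ x, η⟫_ℝ - σ / 2 * ψ x) * Real.exp (⟪φ x, q.2⟫_ℝ - q.1 / 2 * ψ x) ∂m := by
  have hl : AEStronglyMeasurable (fun x => lin (φ x, ψ x)) m :=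
    lin_cont.comp_aestronglyMeasurable (hφ.prodMk hψ)
  have hlB : ∀ᵐ x ∂m, ‖lin (φ x, ψ x)‖ ≤ B + B / 2 := by
    filter_upwards [hB] with x hx
    exact lin_norm _ B hx.2.2 hx.2.1
  have hfB : ∀ᵐ x ∂m, ‖f x‖ ≤ B := by
    filter_upwards [hB] with x hx using hx.1
  have hG : (fun q : ℝ × V => ∫ x, f x * Real.exp (⟪φ x, q.2⟫_ℝ - q.1 / 2 * ψ x) ∂m) =
      H m (fun x => lin (φ x, ψ x)) f := by
    funext q
    unfold H
    refine integral_congr_ae (Eventually.of_forall fun x => ?_)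
    simp only [lin_apply, smul_eq_mul]
    ring
  rw [hG]
  refine ⟨contDiffH m (B + B / 2) _ hl hlB 2 ℝ B f hf hfB, ?_⟩
  intro q σ η
  rw [(hasFD m (B + B / 2) B _ f hl hf hlB hfB q).fderiv,
    H_apply m (B + B / 2) B _ f hl hf hlB hfB q]
  refine integral_congr_ae (Eventually.of_forall fun x => ?_)
  simp only [lin_apply]
  ring

end Pool.Agent.T2h52.FC.EXIaux

namespace Pool.Agent.T2h52.FC

open MeasureTheory Set Filter Topology ProbabilityTheory
open scoped ENNReal InnerProductSpace Pointwise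
open Pool.Agent.T2h52.SP

theorem exi : X_EXI := by
  intro d Ω _ m _ B f ψ φ hf hψ hφ hB
  exact EXIaux.exiV m B f ψ φ hf.aestronglyMeasurable hψ.aestronglyMeasurable
    hφ.aestronglyMeasurable hB

end Pool.Agent.T2h52.FC
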