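import Pool.Agent.T2h52.FC.Stm
import Pool.Agent.T2h52.SQ.EXM

/-! # EXP: exponential moments of linear functionals -/

set_option autoImplicit false

namespace Pool.Agent.T2h52.FC

open MeasureTheory Set Filter Topology
open scoped ENNReal InnerProductSpace Pointwise
open Pool.Agent.N555.RZ Pool.Agent.TH591.Ns Pool.Agent.T2h52.SP Pool.Agent.T2h52.SQ

theorem exp : X_EXP := by
  intro d P a hP hI w hw
  have hP0 : P ∈ 𝓝 (0 : E d) := mem_interior_iff_mem_nhds.1 hP.int
  have h0 : volume P ≠ 0 := (Measure.measure_pos_of_mem_nhds volume hP0).ne'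
  have hfin : volume P ≠ ⊤ := hP.comp.measure_lt_top.ne
  have := mP_prob h0 hfin
  have i1 : Integrable (fun z : E d => Real.exp (|⟪z, w⟫_ℝ| / 20)) (mP P) :=
    int_K hP.comp h0 (by fun_prop)
  have h1 : ∫⁻ z, ENNReal.ofReal (Real.exp (|⟪z, w⟫_ℝ| / 20)) ∂(mP P) ≤ ENNReal.ofReal 4 := by
    rw [mP, lintegral_smul_measure, smul_eq_mul]
    calc (volume P)⁻¹ * ∫⁻ z in P, ENNReal.ofReal (Real.exp (|⟪z, w⟫_ℝ| / 20))
        ≤ (volume P)⁻¹ * (4 * volume P) := by
          gcongr
          exact EXMaux.both hP hI w hw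
      _ = 4 * ((volume P)⁻¹ * volume P) := by ring
      _ = ENNReal.ofReal 4 := by
          rw [ENNReal.inv_mul_cancel h0 hfin, mul_one]
          norm_num
  rw [← ofReal_integral_eq_lintegral_ofReal i1
    (Eventually.of_forall fun z => (Real.exp_pos _).le)] at h1
  exact (ENNReal.ofReal_le_ofReal_iff (by norm_num)).1 h1

end Pool.Agent.T2h52.FC
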