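import Pool.Agent.T2h52.FC.Stm

/-!
# FIB: the mean over the range of a projection
-/

set_option autoImplicit false

namespace Pool.Agent.T2h52.FC

open MeasureTheory Set Filter Topology ProbabilityTheory
open scoped ENNReal InnerProductSpace Pointwise
open Pool.Agent.T2h52.SP

namespace FIB

variable {d : ℕ} {Q : Set (E d)}

lemma g_cont (hQ : Bd Q) : Continuous (gauge Q) :=
  continuous_gauge hQ.conv (mem_interior_iff_mem_nhds.1 hQ.int)

lemma g_add (hQ : Bd Q) (x y : E d) : gauge Q (x + y) ≤ gauge Q x + gauge Q y :=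
  gauge_add_le hQ.conv (absorbent_nhds_zero (mem_interior_iff_mem_nhds.1 hQ.int)) x y

lemma g_neg (hQ : Bd Q) (x : E d) : gauge Q (-x) = gauge Q x := gauge_neg (fun x hx => hQ.sym x hx) x

lemma g_smul (hQ : Bd Q) (c : ℝ) (x : E d) : gauge Q (c • x) = |c| * gauge Q x := by
  rcases le_total 0 c with h | h
  · rw [gauge_smul_of_nonneg h, abs_of_nonneg h, smul_eq_mul]
  · have e : c • x = -((-c) • x) := by simp
    rw [e, g_neg hQ, gauge_smul_of_nonneg (by linarith), abs_of_nonpos h, smul_eq_mul]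

lemma g_le (hQ : Bd Q) : ∃ C : ℝ, ∀ x : E d, gauge Q x ≤ C * ‖x‖ := by
  obtain ⟨r, hr, h⟩ := Metric.mem_nhds_iff.1 (mem_interior_iff_mem_nhds.1 hQ.int)
  refine ⟨r⁻¹, fun x => ?_⟩
  have h1 := mul_gauge_le_norm (x := x) h
  rw [inv_mul_eq_div, le_div_iff₀ hr, mul_comm]
  exact h1

lemma g_int (hQ : Bd Q) (A : E d →L[ℝ] E d) : Integrable (fun w => gauge Q (A w)) (ga d) := by
  obtain ⟨C, h⟩ := g_le hQ
  have h1 : Integrable (fun w : E d => w) (ga d) :=
    memLp_one_iff_integrable.1 (IsGaussian.memLp_id (ga d) 1 (by simp))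
  have h2 : Integrable (fun w : E d => A w) (ga d) := A.integrable_comp h1
  refine (h2.norm.const_mul C).mono' ((g_cont hQ).comp A.continuous).aestronglyMeasurable
    (ae_of_all _ fun w => ?_)
  rw [Real.norm_eq_abs, abs_of_nonneg (gauge_nonneg _)]
  exact h (A w)

section proj

variable {p : E d →L[ℝ] E d} {k : ℕ}

lemma p_sym (hp : Pj p k) (x y : E d) : ⟪p x, y⟫_ℝ = ⟪x, p y⟫_ℝ := by
  obtain ⟨b, T, -, h⟩ := hp
  rw [h, h, sum_inner, inner_sum]
  refine Finset.sum_congr rfl fun i _ => ?_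
  rw [real_inner_smul_left, real_inner_smul_right, real_inner_comm x (b i)]
  ring

lemma p_idem (hp : Pj p k) (x : E d) : p (p x) = p x := by
  obtain ⟨b, T, -, h⟩ := hp
  have h1 : ∀ i ∈ T, p (b i) = b i := by
    intro i hi
    rw [h, Finset.sum_eq_single i]
    · rw [b.inner_eq_one, one_smul]
    · intro j _ hj
      rw [b.inner_eq_zero hj, zero_smul]
    · exact fun hn => absurd hi hn
  conv_lhs => rw [h x, map_sum]
  rw [h x]
  refine Finset.sum_congr rfl fun i hi => ?_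
  rw [map_smul, h1 i hi]

lemma p_sq (hp : Pj p k) (x : E d) : ⟪p x, x⟫_ℝ = ‖p x‖ ^ 2 := by
  rw [← real_inner_self_eq_norm_sq, p_sym hp, p_sym hp, p_idem hp]

lemma p_le (hp : Pj p k) (x : E d) : ‖p x‖ ≤ ‖x‖ := by
  have h1 := p_sq hp x
  have h2 := real_inner_le_norm (p x) x
  rw [h1] at h2
  by_contra hcon
  push Not at hcon
  have h3 : 0 < ‖p x‖ := lt_of_le_of_lt (norm_nonneg _) hcon
  nlinarith

end proj

/-- `1 - S` is a contraction -/
lemma contr {S : E d →L[ℝ] E d} (h1 : ∀ u v, ⟪S u, v⟫_ℝ = ⟪u, S v⟫_ℝ) (h2 : ∀ u, 0 ≤ ⟪S u, u⟫_ℝ)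
    (h3 : ∀ u, ⟪S u, u⟫_ℝ ≤ 1 / 2 * ‖u‖ ^ 2) (x : E d) : ‖x - S x‖ ≤ ‖x‖ := by
  have h4 := h2 (x - S x)
  have h5 := h3 (S x)
  have e1 : ⟪S (x - S x), x - S x⟫_ℝ = ⟪S x, x⟫_ℝ - 2 * ‖S x‖ ^ 2 + ⟪S (S x), S x⟫_ℝ := by
    rw [map_sub, inner_sub_left, inner_sub_right, inner_sub_right, real_inner_self_eq_norm_sq,
      h1 (S x) x, real_inner_self_eq_norm_sq]
    ring
  rw [e1] at h4
  have h6 := h2 x
  have h7 : ‖x - S x‖ ^ 2 ≤ ‖x‖ ^ 2 := by
    rw [norm_sub_sq_real, real_inner_comm]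
    nlinarith [sq_nonneg ‖S x‖]
  exact (sq_le_sq₀ (norm_nonneg _) (norm_nonneg _)).1 h7

end FIB

open FIB

theorem fib (hcmp : X_CMP) : X_FIB := by
  intro d k Q S p hQ hp h1 h2 h3
  -- the operators
  let M : E d →L[ℝ] E d := p - S.comp p
  have hM : ∀ x, M x = p x - S (p x) := fun x => rfl
  let D : E d →L[ℝ] E d := p.comp M
  have hD : ∀ x, D x = p (M x) := fun x => rfl
  let D' : E d →L[ℝ] E d := D + (ContinuousLinearMap.id ℝ (E d) - p)
  have hD' : ∀ x, D' x = D x + (x - p x) := fun x => rfl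
  have hlow : ∀ x, ‖x‖ ≤ 2 * ‖D' x‖ := by
    intro x
    have e1 : ⟪D' x, x⟫_ℝ = ‖x‖ ^ 2 - ⟪S (p x), p x⟫_ℝ := by
      rw [hD', hD, hM, inner_add_left, inner_sub_left, p_sym hp, inner_sub_left, p_sq hp,
        real_inner_self_eq_norm_sq, real_inner_self_eq_norm_sq]
      ring
    have e2 := h3 (p x)
    have e3 := p_le hp x
    have e4 := real_inner_le_norm (D' x) x
    have e5 : ‖p x‖ ^ 2 ≤ ‖x‖ ^ 2 := pow_le_pow_left₀ (norm_nonneg _) e3 2
    rw [e1] at e4
    have e6 : ‖x‖ * ‖x‖ ≤ 2 * ‖D' x‖ * ‖x‖ := by nlinarith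
    rcases (norm_nonneg x).eq_or_lt with h0 | h0
    · rw [← h0]
      positivity
    · exact le_of_mul_le_mul_right e6 h0
  have hinj : Function.Injective (D' : E d →ₗ[ℝ] E d) := by
    rw [injective_iff_map_eq_zero]
    intro x hx
    have h0 := hlow x
    have hx' : D' x = 0 := hx
    rw [hx', norm_zero, mul_zero] at h0
    exact norm_le_zero_iff.1 h0
  let e := LinearEquiv.ofInjectiveEndo (D' : E d →ₗ[ℝ] E d) hinj
  have he : ∀ x, D' (e.symm x) = x := fun x => e.apply_symm_apply x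
  let C : E d →L[ℝ] E d := (1 / 2 : ℝ) • ((LinearMap.toContinuousLinearMap (e.symm : E d →ₗ[ℝ] E d)).comp p)
  have hC : ∀ x, C x = (1 / 2 : ℝ) • e.symm (p x) := fun x => rfl
  have hCn : ∀ x, ‖C x‖ ≤ ‖x‖ := by
    intro x
    have h0 := hlow (e.symm (p x))
    rw [he] at h0
    rw [hC, norm_smul, Real.norm_eq_abs, abs_of_pos (by norm_num)]
    have := p_le hp x
    linarith
  have hDC : ∀ x, (2 : ℝ) • D (C x) = p x := by
    intro x
    have h0 := he (p x)
    have h4 : D (e.symm (p x)) = p x := by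
      have h5 := congrArg p h0
      rw [hD', map_add, map_sub, p_idem hp, p_idem hp, sub_self, add_zero, hD, p_idem hp] at h5
      exact h5
    rw [hC, map_smul, h4, smul_smul]
    norm_num
  -- first comparison
  have c1 := hcmp d (fun x => gauge Q ((2 : ℝ) • D x)) C ((g_cont hQ).comp (by fun_prop))
    (fun x y => by
      rw [map_add, smul_add]
      exact g_add hQ _ _)
    (fun c x => by
      rw [map_smul, smul_comm]
      exact g_smul hQ _ _) hCn
  simp only [hDC] at c1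
  have hMn : ∀ x, ‖M x‖ ≤ ‖x‖ := fun x => (contr h1 h2 h3 (p x)).trans (p_le hp x)
  have c2 := hcmp d (fun x => gauge Q (x - p x)) M ((g_cont hQ).comp (by fun_prop))
    (fun x y => by
      rw [map_add, add_sub_add_comm]
      exact g_add hQ _ _)
    (fun c x => by
      rw [map_smul, ← smul_sub]
      exact g_smul hQ _ _) hMn
  have c3 : ∫ w, gauge Q ((2 : ℝ) • D w) ∂(ga d) = 2 * ∫ w, gauge Q (D w) ∂(ga d) := by
    rw [← integral_const_mul]
    refine integral_congr_ae (ae_of_all _ fun w => ?_)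
    change gauge Q ((2 : ℝ) • D w) = 2 * gauge Q (D w)
    rw [g_smul hQ, abs_of_pos (by norm_num)]
  have i1 : Integrable (fun w => gauge Q (M w)) (ga d) := g_int hQ M
  have i2 : Integrable (fun w => gauge Q (M w - p (M w))) (ga d) := g_int hQ (M - p.comp M)
  have c4 : ∫ w, gauge Q (D w) ∂(ga d) ≤
      ∫ w, (gauge Q (M w) + gauge Q (M w - p (M w))) ∂(ga d) := by
    refine integral_mono (g_int hQ D) (i1.add i2) fun w => ?_
    change gauge Q (D w) ≤ gauge Q (M w) + gauge Q (M w - p (M w))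
    have e1 : D w = M w + -(M w - p (M w)) := by
      rw [hD]
      abel
    rw [e1, ← g_neg hQ (M w - p (M w))]
    exact g_add hQ _ _
  rw [integral_add i1 i2] at c4
  have c5 : ∫ w, gauge Q (p w - S (p w)) ∂(ga d) = ∫ w, gauge Q (M w) ∂(ga d) := rfl
  rw [c5]
  linarith

end Pool.Agent.T2h52.FC
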