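import Pool.Agent.T2h52.FC.Stm

/-!
# Project FC, task GEX (helper62): exponential moments of the standard Gaussian measure
-/

set_option autoImplicit false

namespace Pool.Agent.T2h52.FC

open MeasureTheory Set Filter Topology ProbabilityTheory
open scoped ENNReal InnerProductSpace Pointwise
open Pool.Agent.T2h52.SP

theorem gex : X_GEX := by
  intro d
  constructor
  · intro c
    obtain ⟨C, hC0, hC⟩ := IsGaussian.exists_integrable_exp_sq (ga d)
    refine (hC.const_mul (Real.exp (c ^ 2 / (4 * C)))).mono' (by fun_prop) ?_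
    filter_upwards with w
    rw [Real.norm_eq_abs, abs_of_pos (Real.exp_pos _), ← Real.exp_add]
    apply Real.exp_le_exp.2
    have h1 : c ^ 2 / (4 * C) + C * ‖w‖ ^ 2 - c * ‖w‖ = (2 * C * ‖w‖ - c) ^ 2 / (4 * C) := by
      field_simp
      ring
    have h2 : 0 ≤ (2 * C * ‖w‖ - c) ^ 2 / (4 * C) := by positivity
    linarith
  · intro h
    have h1 := IsGaussian.map_eq_gaussianReal (μ := ga d) (innerSL ℝ h)
    rw [integral_strongDual_stdGaussian, variance_dual_stdGaussian] at h1
    have h2 := mgf_gaussianReal h1 1
    rw [mgf] at h2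
    simp only [innerSL_apply_apply, one_mul, innerSL_apply_norm, zero_mul, zero_add, one_pow,
      mul_one] at h2
    rw [h2]
    congr 1
    rw [Real.coe_toNNReal _ (by positivity)]

end Pool.Agent.T2h52.FC
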