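import Pool.Agent.T2h52.FC.Stm

/-!
# Project FC: task GIR (shifts)
-/

set_option autoImplicit false

namespace Pool.Agent.T2h52.FC

open MeasureTheory Set Filter Topology ProbabilityTheory
open scoped ENNReal InnerProductSpace Pointwise
open Pool.Agent.T2h52.SP

theorem gir (hg : X_GMG) : X_GIR := by
  intro d g h _ _
  rw [← hg d (fun w => g (w + h)), ← hg d (fun w => g w * Real.exp (⟪h, w⟫_ℝ - ‖h‖ ^ 2 / 2))]
  unfold gm
  congr 1
  rw [← integral_sub_right_eq_self (fun y : E d => g (y + h) * Real.exp (-(‖y‖ ^ 2 / 2))) h]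
  refine integral_congr_ae (Eventually.of_forall fun y => ?_)
  simp only
  rw [sub_add_cancel, mul_assoc, ← Real.exp_add]
  congr 2
  rw [norm_sub_sq_real, real_inner_comm]
  ring

end Pool.Agent.T2h52.FC
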