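import Pool.Agent.T2h52.FC.GMG

/-! # The Gaussian measure is log-concave (`X_GPL`) -/

set_option autoImplicit false

namespace Pool.Agent.T2h52.FC

open MeasureTheory Set Filter Topology ProbabilityTheory
open scoped ENNReal InnerProductSpace Pointwise
open Pool.Agent.T2h52.SP

namespace GPL

theorem mid_norm {d : ℕ} (x y : E d) :
    ‖(1 / 2 : ℝ) • (x + y)‖ ^ 2 ≤ (‖x‖ ^ 2 + ‖y‖ ^ 2) / 2 := by
  rw [norm_smul, mul_pow]
  have h1 := norm_add_le x y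
  have h2 : ‖x + y‖ ^ 2 ≤ (‖x‖ + ‖y‖) ^ 2 := pow_le_pow_left₀ (norm_nonneg _) h1 2
  have h3 : ‖(1 / 2 : ℝ)‖ ^ 2 = 1 / 4 := by norm_num
  rw [h3]
  nlinarith [sq_nonneg (‖x‖ - ‖y‖)]

theorem de_mid {d : ℕ} (x y : E d) :
    GMG.de x * GMG.de y ≤ GMG.de ((1 / 2 : ℝ) • (x + y)) ^ 2 := by
  unfold GMG.de
  have h1 : 0 ≤ (GMG.cc d)⁻¹ := inv_nonneg.2 (GMG.cc_pos d).le
  have h2 : Real.exp (-(‖x‖ ^ 2 / 2)) * Real.exp (-(‖y‖ ^ 2 / 2)) ≤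
      Real.exp (-(‖(1 / 2 : ℝ) • (x + y)‖ ^ 2 / 2)) ^ 2 := by
    rw [← Real.exp_add, ← Real.exp_nat_mul]
    refine Real.exp_le_exp.2 ?_
    have := mid_norm x y
    push_cast
    linarith
  calc (GMG.cc d)⁻¹ * Real.exp (-(‖x‖ ^ 2 / 2)) * ((GMG.cc d)⁻¹ * Real.exp (-(‖y‖ ^ 2 / 2)))
      = ((GMG.cc d)⁻¹) ^ 2 * (Real.exp (-(‖x‖ ^ 2 / 2)) * Real.exp (-(‖y‖ ^ 2 / 2))) := by ring
    _ ≤ ((GMG.cc d)⁻¹) ^ 2 * Real.exp (-(‖(1 / 2 : ℝ) • (x + y)‖ ^ 2 / 2)) ^ 2 :=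
        mul_le_mul_of_nonneg_left h2 (sq_nonneg _)
    _ = ((GMG.cc d)⁻¹ * Real.exp (-(‖(1 / 2 : ℝ) • (x + y)‖ ^ 2 / 2))) ^ 2 := by ring

theorem ga_apply {d : ℕ} {A : Set (E d)} (hA : MeasurableSet A) :
    ga d A = ∫⁻ x, A.indicator (fun y => ENNReal.ofReal (GMG.de y)) x := by
  rw [← GMG.nd_eq, lintegral_indicator hA]
  unfold GMG.nd
  rw [withDensity_apply _ hA]

end GPL

theorem gpl (h1 : X_PLE) : X_GPL := by
  intro d A B C hA hB hC H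
  rw [GPL.ga_apply hA, GPL.ga_apply hB, GPL.ga_apply hC]
  have hf : Measurable (fun y : E d => ENNReal.ofReal (GMG.de y)) :=
    (GMG.de_cont d).measurable.ennreal_ofReal
  refine h1 d _ _ _ (hf.indicator hA) (hf.indicator hB) (hf.indicator hC) fun x y => ?_
  by_cases hx : x ∈ A
  · by_cases hy : y ∈ B
    · rw [indicator_of_mem hx, indicator_of_mem hy, indicator_of_mem (H x hx y hy),
        ← ENNReal.ofReal_mul (GMG.de_nonneg x), ← ENNReal.ofReal_pow (GMG.de_nonneg _)]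
      exact ENNReal.ofReal_le_ofReal (GPL.de_mid x y)
    · rw [indicator_of_notMem hy, mul_zero]
      exact zero_le
  · rw [indicator_of_notMem hx, zero_mul]
    exact zero_le

end Pool.Agent.T2h52.FC
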