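import Pool.Agent.T2h52.FC.Stm

/-!
# Project FC, GRO: growth of `E Z |a|²`
-/

set_option autoImplicit false

namespace Pool.Agent.T2h52.FC

open MeasureTheory Set Filter Topology ProbabilityTheory
open scoped ENNReal InnerProductSpace Pointwise
open Pool.Agent.R755.KF (PB)
open Pool.Agent.N555.RZ (mP Spr mP_prob mP_ae)
open Pool.Agent.T2h52.SP
open Pool.Agent.T2h52.SQ
open Pool.Agent.T2h52.SO

namespace GROh

variable {d : ℕ}

theorem exists_pb {P : Set (E d)} {a : ℝ} (hP : Bn P a) : ∃ B : ℝ, 0 ≤ B ∧ PB B (mP P) := by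
  have h1 : (interior P).Nonempty := ⟨0, hP.int⟩
  have h2 : 0 < volume (interior P) := isOpen_interior.measure_pos volume h1
  have h3 : volume P ≠ 0 := (h2.trans_le (measure_mono interior_subset)).ne'
  have h4 : IsProbabilityMeasure (mP P) := mP_prob h3 hP.comp.measure_lt_top.ne
  obtain ⟨B, hB⟩ := hP.comp.isBounded.exists_norm_le
  refine ⟨max B 0, le_max_right _ _, h4, ?_⟩
  have h5 : ∀ᵐ z ∂(mP P), z ∈ P := mP_ae hP.comp.isClosed.measurableSet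
  filter_upwards [h5] with z hz
  exact (hB z hz).trans (le_max_left _ _)

theorem s2_nonneg (ν : Measure (E d)) : 0 ≤ S2 ν :=
  integral_nonneg fun _ => integral_nonneg fun _ => sq_nonneg _

theorem s2_bound {B : ℝ} (hB : 0 ≤ B) {ν : Measure (E d)} (hν : PB B ν) : S2 ν ≤ 16 * B ^ 4 := by
  have hp := hν.prob
  have hm : ‖∫ z, z ∂ν‖ ≤ B := by
    have h1 := norm_integral_le_of_norm_le_const hν.bdd
    simpa using h1
  have h1 : ∀ x : E d, ‖x‖ ≤ B → ‖x - ∫ z, z ∂ν‖ ≤ 2 * B := by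
    intro x hx
    have := norm_sub_le x (∫ z, z ∂ν)
    linarith
  have h2 : ∀ x x' : E d, ‖x‖ ≤ B → ‖x'‖ ≤ B →
      ⟪x - ∫ z, z ∂ν, x' - ∫ z, z ∂ν⟫_ℝ ^ 2 ≤ 16 * B ^ 4 := by
    intro x x' hx hx'
    have k1 := abs_real_inner_le_norm (x - ∫ z, z ∂ν) (x' - ∫ z, z ∂ν)
    have k2 : ‖x - ∫ z, z ∂ν‖ * ‖x' - ∫ z, z ∂ν‖ ≤ (2 * B) * (2 * B) :=
      mul_le_mul (h1 x hx) (h1 x' hx') (norm_nonneg _) (by positivity)
    have k3 : |⟪x - ∫ z, z ∂ν, x' - ∫ z, z ∂ν⟫_ℝ| ≤ 4 * B ^ 2 := by linarith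
    rw [← sq_abs]
    calc |⟪x - ∫ z, z ∂ν, x' - ∫ z, z ∂ν⟫_ℝ| ^ 2 ≤ (4 * B ^ 2) ^ 2 :=
          pow_le_pow_left₀ (abs_nonneg _) k3 2
      _ = 16 * B ^ 4 := by ring
  have h3 : ∀ x : E d, ‖x‖ ≤ B →
      ∫ x', ⟪x - ∫ z, z ∂ν, x' - ∫ z, z ∂ν⟫_ℝ ^ 2 ∂ν ≤ 16 * B ^ 4 := by
    intro x hx
    have k1 : ∫ x', ⟪x - ∫ z, z ∂ν, x' - ∫ z, z ∂ν⟫_ℝ ^ 2 ∂ν ≤ ∫ _x', 16 * B ^ 4 ∂ν := by
      refine integral_mono_of_nonneg (Eventually.of_forall fun _ => sq_nonneg _)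
        (integrable_const _) ?_
      filter_upwards [hν.bdd] with x' hx'
      exact h2 x x' hx hx'
    simpa using k1
  have h4 : S2 ν ≤ ∫ _x, 16 * B ^ 4 ∂ν := by
    unfold S2
    refine integral_mono_of_nonneg (Eventually.of_forall fun _ => integral_nonneg fun _ =>
      sq_nonneg _) (integrable_const _) ?_
    filter_upwards [hν.bdd] with x hx
    exact h3 x hx
  simpa using h4

/-- `S2` of the tilted measure is a measurable function of `w` -/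
theorem s2_meas {μ : Measure (E d)} [SFinite μ] {s : ℝ} {p : E d →L[ℝ] E d}
    (hZ : Continuous (Z μ s p)) (hm : Continuous (mn μ s p)) :
    Measurable fun w => S2 (nu μ s p w) := by
  have e1 : (fun w => S2 (nu μ s p w)) = fun w => ∫ x, ∫ x',
      (Real.exp (ex s p w x) / Z μ s p w) * ((Real.exp (ex s p w x') / Z μ s p w) *
        ⟪x - mn μ s p w, x' - mn μ s p w⟫_ℝ ^ 2) ∂μ ∂μ := by
    funext w
    unfold S2
    change ∫ x, ∫ x', ⟪x - mn μ s p w, x' - mn μ s p w⟫_ℝ ^ 2 ∂(nu μ s p w) ∂(nu μ s p w) = _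
    unfold nu
    rw [integral_tilted]
    refine integral_congr_ae (Eventually.of_forall fun x => ?_)
    simp only [smul_eq_mul]
    rw [integral_tilted]
    simp only [smul_eq_mul]
    rw [← integral_const_mul]
    rfl
  rw [e1]
  have c1 : Measurable fun q : (E d × E d) × E d =>
      (Real.exp (ex s p q.1.1 q.1.2) / Z μ s p q.1.1) *
        ((Real.exp (ex s p q.1.1 q.2) / Z μ s p q.1.1) *
        ⟪q.1.2 - mn μ s p q.1.1, q.2 - mn μ s p q.1.1⟫_ℝ ^ 2) := by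
    have k1 : Continuous fun q : (E d × E d) × E d => Real.exp (ex s p q.1.1 q.1.2) := by
      unfold ex
      fun_prop
    have k2 : Continuous fun q : (E d × E d) × E d => Real.exp (ex s p q.1.1 q.2) := by
      unfold ex
      fun_prop
    have k3 : Continuous fun q : (E d × E d) × E d => Z μ s p q.1.1 := by fun_prop
    have k4 : Continuous fun q : (E d × E d) × E d =>
        ⟪q.1.2 - mn μ s p q.1.1, q.2 - mn μ s p q.1.1⟫_ℝ ^ 2 := by fun_prop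
    exact (k1.measurable.div k3.measurable).mul ((k2.measurable.div k3.measurable).mul
      k4.measurable)
  have c2 := (c1.stronglyMeasurable.integral_prod_right' (ν := μ))
  have c3 := (c2.integral_prod_right' (ν := μ))
  exact c3.measurable

end GROh

open GROh in
theorem gro (hGEX : X_GEX) (hBAS : X_BAS) (hTR2 : X_TR2) (hTR4 : X_TR4) (hREP : X_REP)
    (hNES : X_NES) (hVLM : X_VLM) (hBLP : X_BLP) (hCAL : X_CAL) : X_GRO := by
  intro d P a s R hP hs hR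
  obtain ⟨B, hB, hμ⟩ := exists_pb hP
  have hprob := hμ.prob
  obtain ⟨μ, hμd⟩ : ∃ μ, μ = mP P := ⟨_, rfl⟩
  rw [← hμd] at hμ hprob ⊢
  have bas := fun (s : ℝ) (hs : 0 ≤ s) => hBAS d B μ s (I1 d) hB hμ hs (fun x => le_refl _)
  have hPB : ∀ s : ℝ, 0 < s → ∀ w, PB B (nu μ s (I1 d) w) := fun s hs w =>
    (bas s hs.le).2.2.2.2.1 w
  have hZ0 : ∀ s : ℝ, 0 < s → ∀ w, 0 ≤ Z μ s (I1 d) w := fun s hs w =>
    (Real.exp_pos _).le.trans ((bas s hs.le).1 w)
  have cF2 : Continuous fun x : Fin 2 → E d => ⟪x 0, x 1⟫_ℝ := by fun_prop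
  have cF4 : Continuous fun x : Fin 4 → E d => 1 / 4 * ⟪x 0 - x 1, x 2 - x 3⟫_ℝ ^ 2 := by fun_prop
  -- the function
  have ef : ∀ s : ℝ, 0 < s → En μ 2 (fun x => ⟪x 0, x 1⟫_ℝ) s = ff μ s (I1 d) := by
    intro s hs
    unfold En ff
    refine integral_congr_ae (Eventually.of_forall fun w => ?_)
    simp only
    rw [(hTR2 d B (nu μ s (I1 d) w) hB (hPB s hs w)).1]
    rfl
  have eΦ : ∀ s : ℝ, 0 < s → En μ 4 (fun x => 1 / 4 * ⟪x 0 - x 1, x 2 - x 3⟫_ℝ ^ 2) s =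
      ∫ w, Z μ s (I1 d) w * S2 (nu μ s (I1 d) w) ∂(ga d) := by
    intro s hs
    unfold En
    refine integral_congr_ae (Eventually.of_forall fun w => ?_)
    simp only
    rw [(hTR4 d B (nu μ s (I1 d) w) hB (hPB s hs w)).1]
  have eΦ2 : ∀ s : ℝ, 0 < s → Ed μ 2 (fun x => ⟪x 0, x 1⟫_ℝ) s =
      ∫ w, Z μ s (I1 d) w * S2 (nu μ s (I1 d) w) ∂(ga d) := by
    intro s hs
    unfold Ed
    refine integral_congr_ae (Eventually.of_forall fun w => ?_)
    simp only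
    congr 1
    exact (hTR2 d B (nu μ s (I1 d) w) hB (hPB s hs w)).2
  have hΦ0 : ∀ s : ℝ, 0 < s → 0 ≤ ∫ w, Z μ s (I1 d) w * S2 (nu μ s (I1 d) w) ∂(ga d) :=
    fun s hs => integral_nonneg fun w => mul_nonneg (hZ0 s hs w) (s2_nonneg _)
  have key := hCAL (En μ 2 (fun x => ⟪x 0, x 1⟫_ℝ))
    (En μ 4 (fun x => 1 / 4 * ⟪x 0 - x 1, x 2 - x 3⟫_ℝ ^ 2))
    (Ed μ 4 (fun x => 1 / 4 * ⟪x 0 - x 1, x 2 - x 3⟫_ℝ ^ 2)) ?_ ?_ ?_ ?_ s R hs hR
  · rw [ef s hs, ef (R * s) (by positivity)] at key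
    exact key
  · intro s hs
    rw [ef s hs, eΦ s hs]
    refine ⟨?_, hΦ0 s hs⟩
    unfold ff
    exact integral_nonneg fun w => mul_nonneg (hZ0 s hs w) (sq_nonneg _)
  · intro s hs
    have h1 := hREP d 2 B μ (fun x => ⟪x 0, x 1⟫_ℝ) (by norm_num) hB hμ cF2 s hs
    rw [eΦ2 s hs, ← eΦ s hs] at h1
    exact h1
  · intro s hs
    exact hREP d 4 B μ _ (by norm_num) hB hμ cF4 s hs
  · intro s hs
    rw [eΦ s hs]
    have pt : ∀ w, Z μ s (I1 d) w * ∫ x : Fin 4 → E d,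
        (1 / 4 * ⟪x 0 - x 1, x 2 - x 3⟫_ℝ ^ 2) * pr (mn μ s (I1 d) w) x
          ∂(Measure.pi fun _ : Fin 4 => nu μ s (I1 d) w) ≤
        4 / s * (Z μ s (I1 d) w * S2 (nu μ s (I1 d) w)) := by
      intro w
      have k1 := (hTR4 d B (nu μ s (I1 d) w) hB (hPB s hs w)).2
      have k2 : S3 (nu μ s (I1 d) w) ≤ 4 / s * S2 (nu μ s (I1 d) w) := by
        refine hNES d B (4 / s) (nu μ s (I1 d) w) hB (hPB s hs w) (by positivity) ?_
        intro H hH
        obtain ⟨m, hm⟩ : ∃ m, m = ∫ z, z ∂(nu μ s (I1 d) w) := ⟨_, rfl⟩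
        rw [← hm]
        have k3 := hVLM d B (nu μ s (I1 d) w) (fun x => ⟪x - m, H (x - m)⟫_ℝ)
          (fun x => 2 / s * ‖H (x - m)‖ ^ 2) hB (hPB s hs w) (by fun_prop) (by fun_prop)
          (fun δ => by
            have k4 := hBLP d P a s w m H hP hs hH δ
            rw [← hμd] at k4
            exact k4)
        refine k3.trans (le_of_eq ?_)
        rw [integral_const_mul]
        ring
      have k5 : ∫ x : Fin 4 → E d,
          (1 / 4 * ⟪x 0 - x 1, x 2 - x 3⟫_ℝ ^ 2) * pr (mn μ s (I1 d) w) x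
          ∂(Measure.pi fun _ : Fin 4 => nu μ s (I1 d) w) ≤ 4 / s * S2 (nu μ s (I1 d) w) :=
        le_trans k1 k2
      calc _ ≤ Z μ s (I1 d) w * (4 / s * S2 (nu μ s (I1 d) w)) :=
            mul_le_mul_of_nonneg_left k5 (hZ0 s hs w)
        _ = _ := by ring
    have iR : Integrable (fun w => Z μ s (I1 d) w * S2 (nu μ s (I1 d) w)) (ga d) := by
      obtain ⟨-, b2, b3, b4, -⟩ := bas s hs.le
      have g1 := ((hGEX d).1 (Real.sqrt s * B)).const_mul (16 * B ^ 4)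
      refine g1.mono' ((b3.measurable.mul (s2_meas b3 b4)).aestronglyMeasurable)
        (Eventually.of_forall fun w => ?_)
      rw [Real.norm_eq_abs, abs_of_nonneg (mul_nonneg (hZ0 s hs w) (s2_nonneg _)), mul_comm]
      exact mul_le_mul (s2_bound hB (hPB s hs w)) (b2 w) (hZ0 s hs w) (by positivity)
    unfold Ed
    rw [← integral_const_mul]
    by_cases hi : Integrable (fun w => Z μ s (I1 d) w * ∫ x : Fin 4 → E d,
        (1 / 4 * ⟪x 0 - x 1, x 2 - x 3⟫_ℝ ^ 2) * pr (mn μ s (I1 d) w) x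
          ∂(Measure.pi fun _ : Fin 4 => nu μ s (I1 d) w)) (ga d)
    · exact integral_mono hi (iR.const_mul _) pt
    · rw [integral_undef hi, integral_const_mul]
      exact mul_nonneg (by positivity) (hΦ0 s hs)

end Pool.Agent.T2h52.FC
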