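import Pool.Agent.T2h52.FC.Stm

/-!
# HT: the heat formula
-/

set_option autoImplicit false

namespace Pool.Agent.T2h52.FC

open MeasureTheory Set Filter Topology ProbabilityTheory
open scoped ENNReal InnerProductSpace Pointwise
open Pool.Agent.R755.KF (PB)
open Pool.Agent.N555.RZ (mP Spr)
open Pool.Agent.T2h52.SP
open Pool.Agent.T2h52.SQ
open Pool.Agent.T2h52.SO

namespace HTAux

theorem integ (hGX : X_GEX) {d : ℕ} {f : E d → ℝ} (hf : Continuous f) (C c : ℝ)
    (h : ∀ w, |f w| ≤ C * Real.exp (c * ‖w‖)) : Integrable f (ga d) := by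
  refine (((hGX d).1 c).const_mul C).mono' hf.aestronglyMeasurable ?_
  exact Eventually.of_forall fun w => by simpa [Real.norm_eq_abs] using h w

theorem exp_bd (C c K t : ℝ) {d : ℕ} (w y : E d) (hy : y = t • w) (ht : 0 ≤ t) (htK : t ≤ K) (a : ℝ)
    (ha : a ≤ C * Real.exp (c * ‖y‖)) : a ≤ |C| * Real.exp (|c| * K * ‖w‖) := by
  refine ha.trans ?_
  have h1 : ‖y‖ ≤ K * ‖w‖ := by
    rw [hy, norm_smul, Real.norm_eq_abs, abs_of_nonneg ht]
    exact mul_le_mul_of_nonneg_right htK (norm_nonneg _)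
  have h2 : c * ‖y‖ ≤ |c| * K * ‖w‖ := by
    calc c * ‖y‖ ≤ |c| * ‖y‖ := mul_le_mul_of_nonneg_right (le_abs_self c) (norm_nonneg _)
      _ ≤ |c| * (K * ‖w‖) := mul_le_mul_of_nonneg_left h1 (abs_nonneg c)
      _ = |c| * K * ‖w‖ := by ring
  calc C * Real.exp (c * ‖y‖) ≤ |C| * Real.exp (c * ‖y‖) :=
        mul_le_mul_of_nonneg_right (le_abs_self C) (Real.exp_pos _).le
    _ ≤ _ := mul_le_mul_of_nonneg_left (Real.exp_le_exp.2 h2) (abs_nonneg C)

theorem le_op {d : ℕ} (L : ℝ × E d →L[ℝ] ℝ) (v : ℝ × E d) : |L v| ≤ ‖L‖ * ‖v‖ := by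
  simpa [Real.norm_eq_abs] using L.le_opNorm v

end HTAux

open HTAux in
theorem ht (hGX : X_GEX) (hIBP : X_IBP) : X_HT := by
  intro d G s hs hG hbd
  obtain ⟨ε, C, c, hε, hεs, hb⟩ := hbd
  set Ω : Set (ℝ × E d) := Ioi 0 ×ˢ univ with hΩ
  have hΩo : IsOpen Ω := isOpen_Ioi.prod isOpen_univ
  have hmem : ∀ t : ℝ, 0 < t → ∀ y : E d, (t, y) ∈ Ω := fun t ht y => ⟨ht, mem_univ _⟩
  have hGc : ContinuousOn G Ω := hG.continuousOn
  have hG1 : ContDiffOn ℝ 1 (fderiv ℝ G) Ω := hG.fderiv_of_isOpen hΩo (by norm_num)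
  have hG1c : ContinuousOn (fderiv ℝ G) Ω := hG1.continuousOn
  have hG2c : ContinuousOn (fderiv ℝ (fderiv ℝ G)) Ω :=
    hG1.continuousOn_fderiv_of_isOpen hΩo (le_refl _)
  have hdG : ∀ q ∈ Ω, HasFDerivAt G (fderiv ℝ G q) q := fun q hq =>
    ((hG.differentiableOn (by norm_num)).differentiableAt (hΩo.mem_nhds hq)).hasFDerivAt
  have hdG1 : ∀ q ∈ Ω, HasFDerivAt (fderiv ℝ G) (fderiv ℝ (fderiv ℝ G) q) q := fun q hq =>
    ((hG1.differentiableOn (by norm_num)).differentiableAt (hΩo.mem_nhds hq)).hasFDerivAt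
  have hsq : 0 < Real.sqrt s := Real.sqrt_pos.2 hs
  have hinc : ∀ t : ℝ, Continuous (fun w : E d => ((t, Real.sqrt t • w) : ℝ × E d)) := fun t => by
    fun_prop
  have hFc : ∀ t : ℝ, 0 < t → Continuous (fun w : E d => G (t, Real.sqrt t • w)) := fun t ht =>
    hGc.comp_continuous (hinc t) (fun w => hmem t ht _)
  have hF1c : ∀ t : ℝ, 0 < t → Continuous (fun w : E d => fderiv ℝ G (t, Real.sqrt t • w)) :=
    fun t ht => hG1c.comp_continuous (hinc t) (fun w => hmem t ht _)
  have hF2c : ∀ t : ℝ, 0 < t →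
      Continuous (fun w : E d => fderiv ℝ (fderiv ℝ G) (t, Real.sqrt t • w)) :=
    fun t ht => hG2c.comp_continuous (hinc t) (fun w => hmem t ht _)
  set K : ℝ := Real.sqrt (s + ε) with hK
  set J : ℝ := 1 / (2 * Real.sqrt (s - ε)) with hJ
  have hsε : 0 < Real.sqrt (s - ε) := Real.sqrt_pos.2 (by linarith)
  have hJ0 : 0 < J := by positivity
  -- bounds
  have hB : ∀ t : ℝ, |t - s| ≤ ε → ∀ w : E d,
      |G (t, Real.sqrt t • w)| ≤ |C| * Real.exp (|c| * K * ‖w‖) ∧
      ‖fderiv ℝ G (t, Real.sqrt t • w)‖ ≤ |C| * Real.exp (|c| * K * ‖w‖) ∧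
      ‖fderiv ℝ (fderiv ℝ G) (t, Real.sqrt t • w)‖ ≤ |C| * Real.exp (|c| * K * ‖w‖) := by
    intro t ht w
    have h1 : Real.sqrt t ≤ K := Real.sqrt_le_sqrt (by have := abs_le.1 ht; linarith)
    obtain ⟨b1, b2, b3⟩ := hb t (Real.sqrt t • w) ht
    exact ⟨exp_bd C c K _ w _ rfl (Real.sqrt_nonneg t) h1 _ b1,
      exp_bd C c K _ w _ rfl (Real.sqrt_nonneg t) h1 _ b2,
      exp_bd C c K _ w _ rfl (Real.sqrt_nonneg t) h1 _ b3⟩
  have hB0 := hB s (by simpa using hε.le)
  -- the derivative in the parameter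
  have hder : ∀ t : ℝ, |t - s| < ε → ∀ w : E d,
      HasDerivAt (fun t' => G (t', Real.sqrt t' • w))
        (fderiv ℝ G (t, Real.sqrt t • w) (1, (1 / (2 * Real.sqrt t)) • w)) t := by
    intro t ht w
    have ht0 : 0 < t := by have := (abs_lt.1 ht).1; linarith
    have h1 : HasDerivAt (fun t' : ℝ => ((t', Real.sqrt t' • w) : ℝ × E d))
        (1, (1 / (2 * Real.sqrt t)) • w) t :=
      (hasDerivAt_id t).prodMk ((Real.hasDerivAt_sqrt ht0.ne').smul_const w)
    exact (hdG _ (hmem t ht0 _)).comp_hasDerivAt t h1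
  have hmain := hasDerivAt_integral_of_dominated_loc_of_deriv_le (μ := ga d)
    (F := fun t w => G (t, Real.sqrt t • w))
    (F' := fun t w => fderiv ℝ G (t, Real.sqrt t • w) (1, (1 / (2 * Real.sqrt t)) • w))
    (x₀ := s) (s := Metric.ball s ε) (bound := fun w => |C| * Real.exp ((|c| * K + J) * ‖w‖))
    (Metric.ball_mem_nhds s hε) ?_ ?_ ?_ ?_ ?_ ?_
  · have h2 := hmain.2
    -- the value of the derivative
    have hE1 : ∀ j : Fin d, ‖(EuclideanSpace.single j (1 : ℝ) : E d)‖ = 1 := fun j => by simp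
    have hE2 : ∀ j : Fin d, ‖((0, EuclideanSpace.single j (1 : ℝ)) : ℝ × E d)‖ ≤ 1 := fun j => by
      rw [Prod.norm_mk, norm_zero, hE1 j]; simp
    set g : Fin d → E d → ℝ := fun j w =>
      fderiv ℝ G (s, Real.sqrt s • w) (0, EuclideanSpace.single j 1) with hg
    have hgC : ∀ j, ContDiff ℝ 1 (g j) := by
      intro j
      have h3 : ContDiff ℝ 1 (fun w : E d => fderiv ℝ G (s, Real.sqrt s • w)) :=
        hG1.comp_contDiff (f := fun w : E d => ((s, Real.sqrt s • w) : ℝ × E d))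
          (by fun_prop) (fun w => hmem s hs _)
      exact h3.clm_apply contDiff_const
    have hgD : ∀ j w u, fderiv ℝ (g j) w u =
        fderiv ℝ (fderiv ℝ G) (s, Real.sqrt s • w) (0, Real.sqrt s • u)
          (0, EuclideanSpace.single j 1) := by
      intro j w u
      have h3 : HasFDerivAt (fun w : E d => ((s, Real.sqrt s • w) : ℝ × E d))
          ((0 : E d →L[ℝ] ℝ).prod (Real.sqrt s • ContinuousLinearMap.id ℝ (E d))) w :=
        (hasFDerivAt_const s w).prodMk ((hasFDerivAt_id w).const_smul (Real.sqrt s))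
      have h4 := (hdG1 _ (hmem s hs (Real.sqrt s • w))).comp w h3
      have h5 : HasFDerivAt (g j) _ w :=
        (ContinuousLinearMap.apply ℝ ℝ
          ((0, EuclideanSpace.single j (1 : ℝ)) : ℝ × E d)).hasFDerivAt.comp w h4
      rw [h5.fderiv]
      rfl
    have hgb : ∀ j w, |g j w| ≤ |C| * Real.exp (|c| * K * ‖w‖) := by
      intro j w
      calc |g j w| ≤ ‖fderiv ℝ G (s, Real.sqrt s • w)‖ *
            ‖((0, EuclideanSpace.single j (1 : ℝ)) : ℝ × E d)‖ :=
            le_op _ _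
        _ ≤ ‖fderiv ℝ G (s, Real.sqrt s • w)‖ * 1 :=
            mul_le_mul_of_nonneg_left (hE2 j) (norm_nonneg _)
        _ ≤ _ := by rw [mul_one]; exact (hB0 w).2.1
    have hgb2 : ∀ j w u, |fderiv ℝ (g j) w u| ≤
        (|C| * Real.sqrt s) * Real.exp (|c| * K * ‖w‖) * ‖u‖ := by
      intro j w u
      rw [hgD]
      have h3 : ‖((0, Real.sqrt s • u) : ℝ × E d)‖ = Real.sqrt s * ‖u‖ := by
        rw [Prod.norm_mk, norm_zero, norm_smul, Real.norm_eq_abs, abs_of_pos hsq]
        exact max_eq_right (by positivity)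
      calc |fderiv ℝ (fderiv ℝ G) (s, Real.sqrt s • w) (0, Real.sqrt s • u)
            (0, EuclideanSpace.single j 1)|
          ≤ ‖fderiv ℝ (fderiv ℝ G) (s, Real.sqrt s • w) (0, Real.sqrt s • u)‖ *
            ‖((0, EuclideanSpace.single j (1 : ℝ)) : ℝ × E d)‖ :=
            le_op _ _
        _ ≤ ‖fderiv ℝ (fderiv ℝ G) (s, Real.sqrt s • w) (0, Real.sqrt s • u)‖ * 1 :=
            mul_le_mul_of_nonneg_left (hE2 j) (norm_nonneg _)
        _ ≤ ‖fderiv ℝ (fderiv ℝ G) (s, Real.sqrt s • w)‖ * ‖((0, Real.sqrt s • u) : ℝ × E d)‖ := by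
            rw [mul_one]; exact ContinuousLinearMap.le_opNorm _ _
        _ = ‖fderiv ℝ (fderiv ℝ G) (s, Real.sqrt s • w)‖ * (Real.sqrt s * ‖u‖) := by rw [h3]
        _ ≤ (|C| * Real.exp (|c| * K * ‖w‖)) * (Real.sqrt s * ‖u‖) :=
            mul_le_mul_of_nonneg_right (hB0 w).2.2 (by positivity)
        _ = _ := by ring
    have hI : ∀ j, ∫ w, g j w * ⟪w, EuclideanSpace.single j (1 : ℝ)⟫_ℝ ∂(ga d) =
        ∫ w, Real.sqrt s * fderiv ℝ (fderiv ℝ G) (s, Real.sqrt s • w)
          (0, EuclideanSpace.single j 1) (0, EuclideanSpace.single j 1) ∂(ga d) := by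
      intro j
      rw [hIBP d (g j) (EuclideanSpace.single j 1) (|C| * (1 + Real.sqrt s)) (|c| * K) (hgC j) ?_ ?_]
      · refine integral_congr_ae (Eventually.of_forall fun w => ?_)
        show fderiv ℝ (g j) w (EuclideanSpace.single j 1) = _
        rw [hgD]
        have : ((0, Real.sqrt s • EuclideanSpace.single j (1 : ℝ)) : ℝ × E d) =
            Real.sqrt s • (0, EuclideanSpace.single j (1 : ℝ)) := by
          rw [Prod.smul_mk, smul_zero]
        rw [this, map_smul]
        rfl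
      · intro w
        refine (hgb j w).trans ?_
        refine mul_le_mul_of_nonneg_right ?_ (Real.exp_pos _).le
        nlinarith [abs_nonneg C, hsq]
      · intro w
        refine ContinuousLinearMap.opNorm_le_bound _ (by positivity) fun u => ?_
        refine (hgb2 j w u).trans ?_
        refine mul_le_mul_of_nonneg_right ?_ (norm_nonneg _)
        refine mul_le_mul_of_nonneg_right ?_ (Real.exp_pos _).le
        nlinarith [abs_nonneg C, hsq]
    -- integrability
    have hA : Integrable (fun w => fderiv ℝ G (s, Real.sqrt s • w) (1, 0)) (ga d) := by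
      refine integ hGX ((hF1c s hs).clm_apply continuous_const) |C| (|c| * K) fun w => ?_
      calc |fderiv ℝ G (s, Real.sqrt s • w) (1, 0)| ≤ ‖fderiv ℝ G (s, Real.sqrt s • w)‖ *
            ‖((1, 0) : ℝ × E d)‖ := le_op _ _
        _ ≤ _ := by
            rw [Prod.norm_mk, norm_zero, norm_one, max_eq_left zero_le_one, mul_one]
            exact (hB0 w).2.1
    have hgi : ∀ j, Integrable (fun w => g j w * ⟪w, EuclideanSpace.single j (1 : ℝ)⟫_ℝ)
        (ga d) := by
      intro j
      refine integ hGX ((hgC j).continuous.mul (continuous_id.inner continuous_const)) |C|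
        (|c| * K + 1) fun w => ?_
      rw [abs_mul]
      have h3 : |⟪w, EuclideanSpace.single j (1 : ℝ)⟫_ℝ| ≤ Real.exp ‖w‖ := by
        refine (abs_real_inner_le_norm _ _).trans ?_
        rw [hE1 j, mul_one]
        linarith [Real.add_one_le_exp ‖w‖]
      calc |g j w| * |⟪w, EuclideanSpace.single j (1 : ℝ)⟫_ℝ|
          ≤ (|C| * Real.exp (|c| * K * ‖w‖)) * Real.exp ‖w‖ :=
            mul_le_mul (hgb j w) h3 (abs_nonneg _) (by positivity)
        _ = |C| * Real.exp ((|c| * K + 1) * ‖w‖) := by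
            rw [mul_assoc, ← Real.exp_add]; ring_nf
    have hDi : ∀ j : Fin d, Integrable (fun w => fderiv ℝ (fderiv ℝ G) (s, Real.sqrt s • w)
          (0, EuclideanSpace.single j 1) (0, EuclideanSpace.single j 1)) (ga d) := by
      intro j
      refine integ hGX (((hF2c s hs).clm_apply continuous_const).clm_apply continuous_const) |C|
        (|c| * K) fun w => ?_
      calc |fderiv ℝ (fderiv ℝ G) (s, Real.sqrt s • w)
              (0, EuclideanSpace.single j 1) (0, EuclideanSpace.single j 1)|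
          ≤ ‖fderiv ℝ (fderiv ℝ G) (s, Real.sqrt s • w) (0, EuclideanSpace.single j 1)‖ *
            ‖((0, EuclideanSpace.single j (1 : ℝ)) : ℝ × E d)‖ := le_op _ _
        _ ≤ ‖fderiv ℝ (fderiv ℝ G) (s, Real.sqrt s • w) (0, EuclideanSpace.single j 1)‖ * 1 :=
            mul_le_mul_of_nonneg_left (hE2 j) (norm_nonneg _)
        _ ≤ ‖fderiv ℝ (fderiv ℝ G) (s, Real.sqrt s • w)‖ *
            ‖((0, EuclideanSpace.single j (1 : ℝ)) : ℝ × E d)‖ := by
            rw [mul_one]; exact ContinuousLinearMap.le_opNorm _ _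
        _ ≤ ‖fderiv ℝ (fderiv ℝ G) (s, Real.sqrt s • w)‖ * 1 :=
            mul_le_mul_of_nonneg_left (hE2 j) (ContinuousLinearMap.opNorm_nonneg _)
        _ ≤ _ := by rw [mul_one]; exact (hB0 w).2.2
    have hval : (∫ w, fderiv ℝ G (s, Real.sqrt s • w) (1, (1 / (2 * Real.sqrt s)) • w) ∂(ga d)) =
        ∫ w, hea G (s, Real.sqrt s • w) ∂(ga d) := by
      have e1 : ∀ w : E d, fderiv ℝ G (s, Real.sqrt s • w) (1, (1 / (2 * Real.sqrt s)) • w) =
          fderiv ℝ G (s, Real.sqrt s • w) (1, 0) + ∑ j, (1 / (2 * Real.sqrt s)) *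
            (g j w * ⟪w, EuclideanSpace.single j (1 : ℝ)⟫_ℝ) := by
        intro w
        have e2 : ((1, (1 / (2 * Real.sqrt s)) • w) : ℝ × E d) = (1, 0) +
            ∑ j, ((1 / (2 * Real.sqrt s)) * ⟪w, EuclideanSpace.single j (1 : ℝ)⟫_ℝ) •
              ((0, EuclideanSpace.single j (1 : ℝ)) : ℝ × E d) := by
          refine Prod.ext ?_ ?_
          · simp [Prod.fst_sum]
          · simp only [Prod.snd_add, Prod.snd_sum, Prod.smul_snd, zero_add]
            ext i
            simp [EuclideanSpace.inner_single_right, Pi.single_apply]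
        rw [e2, map_add, map_sum]
        congr 1
        refine Finset.sum_congr rfl fun j _ => ?_
        rw [map_smul, smul_eq_mul]
        simp only [hg]
        ring
      simp only [e1, hea]
      rw [integral_add hA (integrable_finsetSum _ fun j _ => (hgi j).const_mul _),
        integral_add hA ((integrable_finsetSum _ fun j _ => hDi j).const_mul _),
        integral_finsetSum _ (fun j _ => (hgi j).const_mul _), integral_const_mul,
        integral_finsetSum _ (fun j _ => hDi j), Finset.mul_sum]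
      congr 1
      refine Finset.sum_congr rfl fun j _ => ?_
      rw [integral_const_mul, hI j, integral_const_mul]
      field_simp
    rw [hval] at h2
    exact h2
  · filter_upwards [Metric.ball_mem_nhds s hε] with t ht
    have ht0 : 0 < t := by
      rw [Metric.mem_ball, Real.dist_eq] at ht
      have := (abs_lt.1 ht).1; linarith
    exact (hFc t ht0).aestronglyMeasurable
  · exact integ hGX (hFc s hs) |C| (|c| * K) fun w => (hB0 w).1
  · refine Continuous.aestronglyMeasurable ?_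
    exact (hF1c s hs).clm_apply (by fun_prop)
  · refine Eventually.of_forall fun w t ht => ?_
    rw [Metric.mem_ball, Real.dist_eq] at ht
    have ht1 := abs_lt.1 ht
    have ht0 : 0 < t := by linarith
    have h3 : ‖((1, (1 / (2 * Real.sqrt t)) • w) : ℝ × E d)‖ ≤ Real.exp (J * ‖w‖) := by
      rw [Prod.norm_mk, norm_one, norm_smul, Real.norm_eq_abs]
      have h5 : |1 / (2 * Real.sqrt t)| ≤ J := by
        rw [abs_of_pos (by have := Real.sqrt_pos.2 ht0; positivity), hJ]
        refine one_div_le_one_div_of_le (by positivity) ?_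
        have := Real.sqrt_le_sqrt (show s - ε ≤ t by linarith)
        linarith
      refine max_le (Real.one_le_exp (by positivity)) ?_
      calc |1 / (2 * Real.sqrt t)| * ‖w‖ ≤ J * ‖w‖ :=
            mul_le_mul_of_nonneg_right h5 (norm_nonneg _)
        _ ≤ Real.exp (J * ‖w‖) := by linarith [Real.add_one_le_exp (J * ‖w‖)]
    calc ‖fderiv ℝ G (t, Real.sqrt t • w) (1, (1 / (2 * Real.sqrt t)) • w)‖
        ≤ ‖fderiv ℝ G (t, Real.sqrt t • w)‖ * ‖((1, (1 / (2 * Real.sqrt t)) • w) : ℝ × E d)‖ :=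
          ContinuousLinearMap.le_opNorm _ _
      _ ≤ (|C| * Real.exp (|c| * K * ‖w‖)) * Real.exp (J * ‖w‖) :=
          mul_le_mul (hB t ht.le w).2.1 h3 (norm_nonneg _) (by positivity)
      _ = |C| * Real.exp ((|c| * K + J) * ‖w‖) := by
          rw [mul_assoc, ← Real.exp_add]; ring_nf
  · exact ((hGX d).1 _).const_mul _
  · refine Eventually.of_forall fun w t ht => ?_
    rw [Metric.mem_ball, Real.dist_eq] at ht
    exact hder t ht w

end Pool.Agent.T2h52.FC
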