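import Pool.Agent.T2h52.FC.Stm

/-!
# Project FC: task IBP (integration by parts)
-/

set_option autoImplicit false

namespace Pool.Agent.T2h52.FC

open MeasureTheory Set Filter Topology ProbabilityTheory
open scoped ENNReal InnerProductSpace Pointwise
open Pool.Agent.T2h52.SP

namespace IBP

variable {d : ℕ}

theorem integrable_gauss (b : ℝ) (hb : 0 < b) :
    Integrable (fun y : E d => Real.exp (-(b * ‖y‖ ^ 2))) := by
  have h := GaussianFourier.integrable_cexp_neg_mul_sq_norm_add (V := E d) (b := (b : ℂ))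
    (by simpa using hb) 0 0
  refine h.norm.congr (Eventually.of_forall fun y => ?_)
  simp only
  rw [Complex.norm_exp]
  congr 1
  have : (-(b : ℂ) * (‖y‖ : ℂ) ^ 2 + 0 * ((⟪(0 : E d), y⟫_ℝ : ℝ) : ℂ)) = ((-(b * ‖y‖ ^ 2) : ℝ) : ℂ) := by
    push_cast
    ring
  rw [this, Complex.ofReal_re]

theorem integrable_exp (c : ℝ) :
    Integrable (fun y : E d => Real.exp (c * ‖y‖) * Real.exp (-(‖y‖ ^ 2 / 2))) := by
  refine ((integrable_gauss (d := d) (1 / 4) (by norm_num)).const_mul (Real.exp (c ^ 2))).mono' ?_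
    (Eventually.of_forall fun y => ?_)
  · exact (by fun_prop : Continuous fun y : E d =>
      Real.exp (c * ‖y‖) * Real.exp (-(‖y‖ ^ 2 / 2))).aestronglyMeasurable
  · rw [Real.norm_of_nonneg (by positivity), ← Real.exp_add, ← Real.exp_add, Real.exp_le_exp]
    nlinarith [sq_nonneg (c - ‖y‖ / 2)]

theorem integrable_of_bound {f : E d → ℝ} (hf : AEStronglyMeasurable f volume) (C c : ℝ)
    (h : ∀ y, |f y| ≤ C * Real.exp (c * ‖y‖)) :
    Integrable (fun y : E d => f y * Real.exp (-(‖y‖ ^ 2 / 2))) := by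
  refine ((integrable_exp (d := d) c).const_mul C).mono' ?_ (Eventually.of_forall fun y => ?_)
  · exact hf.mul (by fun_prop : Continuous fun y : E d =>
      Real.exp (-(‖y‖ ^ 2 / 2))).aestronglyMeasurable
  · rw [norm_mul, Real.norm_eq_abs, Real.norm_of_nonneg (Real.exp_pos _).le, ← mul_assoc]
    exact mul_le_mul_of_nonneg_right (h y) (Real.exp_pos _).le

theorem hasFDerivAt_rho (y : E d) :
    HasFDerivAt (fun y : E d => Real.exp (-(‖y‖ ^ 2 / 2)))
      (-(Real.exp (-(‖y‖ ^ 2 / 2)) • innerSL ℝ y)) y := by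
  have h1 : HasFDerivAt (fun y : E d => ‖y‖ ^ 2) (2 • innerSL ℝ y) y :=
    (hasStrictFDerivAt_norm_sq y).hasFDerivAt
  have h2 : HasFDerivAt (fun y : E d => -(‖y‖ ^ 2 / 2)) (-innerSL ℝ y) y := by
    have h3 := (h1.mul_const (1 / 2 : ℝ)).neg
    have e1 : (fun y : E d => -(‖y‖ ^ 2 / 2)) = fun y : E d => -(‖y‖ ^ 2 * (1 / 2)) := by
      funext y
      ring
    have e2 : -innerSL ℝ y = -((1 / 2 : ℝ) • (2 • innerSL ℝ y)) := by
      ext v
      simp
    rw [e1, e2]
    exact h3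
  have h4 := h2.exp
  have e3 : -(Real.exp (-(‖y‖ ^ 2 / 2)) • innerSL ℝ y) =
      Real.exp (-(‖y‖ ^ 2 / 2)) • -innerSL ℝ y := by
    rw [smul_neg]
  rw [e3]
  exact h4

end IBP

open IBP in
theorem ibp (hg : X_GMG) : X_IBP := by
  intro d g v C c hgd hb hb'
  have hC : 0 ≤ C := by
    have := (abs_nonneg _).trans (hb 0)
    rw [norm_zero, mul_zero, Real.exp_zero, mul_one] at this
    exact this
  rw [← hg d (fun w => g w * ⟪w, v⟫_ℝ), ← hg d (fun w => fderiv ℝ g w v)]
  unfold gm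
  congr 1
  have hder : ∀ y : E d, fderiv ℝ (fun y : E d => Real.exp (-(‖y‖ ^ 2 / 2))) y v =
      -(⟪y, v⟫_ℝ * Real.exp (-(‖y‖ ^ 2 / 2))) := by
    intro y
    rw [(hasFDerivAt_rho y).fderiv]
    simp
    ring
  have hcont : Continuous fun y => fderiv ℝ g y v :=
    (hgd.continuous_fderiv (by norm_num)).clm_apply continuous_const
  have hfg : Integrable (fun y : E d => g y * Real.exp (-(‖y‖ ^ 2 / 2))) :=
    integrable_of_bound hgd.continuous.aestronglyMeasurable C c hb
  have hf'g : Integrable (fun y : E d => fderiv ℝ g y v * Real.exp (-(‖y‖ ^ 2 / 2))) := by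
    refine integrable_of_bound hcont.aestronglyMeasurable (C * ‖v‖) c fun y => ?_
    have h1 := (fderiv ℝ g y).le_opNorm v
    rw [Real.norm_eq_abs] at h1
    calc |fderiv ℝ g y v| ≤ ‖fderiv ℝ g y‖ * ‖v‖ := h1
      _ ≤ C * Real.exp (c * ‖y‖) * ‖v‖ := mul_le_mul_of_nonneg_right (hb' y) (norm_nonneg _)
      _ = _ := by ring
  have hfg0 : Integrable (fun y : E d => (g y * ⟪y, v⟫_ℝ) * Real.exp (-(‖y‖ ^ 2 / 2))) := by
    refine integrable_of_bound (hgd.continuous.mul (by fun_prop)).aestronglyMeasurable (C * ‖v‖)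
      (c + 1) fun y => ?_
    rw [abs_mul]
    have h1 := abs_real_inner_le_norm y v
    have h2 : ‖y‖ ≤ Real.exp ‖y‖ := by
      have := Real.add_one_le_exp ‖y‖
      linarith
    calc |g y| * |⟪y, v⟫_ℝ| ≤ (C * Real.exp (c * ‖y‖)) * (Real.exp ‖y‖ * ‖v‖) := by
          refine mul_le_mul (hb y) (h1.trans ?_) (abs_nonneg _) (by positivity)
          exact mul_le_mul_of_nonneg_right h2 (norm_nonneg _)
      _ = C * ‖v‖ * (Real.exp (c * ‖y‖) * Real.exp ‖y‖) := by ring
      _ = C * ‖v‖ * Real.exp ((c + 1) * ‖y‖) := by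
          rw [← Real.exp_add]
          congr 2
          ring
  have hfg' : Integrable (fun y : E d => g y *
      fderiv ℝ (fun y : E d => Real.exp (-(‖y‖ ^ 2 / 2))) y v) := by
    refine hfg0.neg.congr (Eventually.of_forall fun y => ?_)
    simp only [Pi.neg_apply, hder]
    ring
  have key := integral_mul_fderiv_eq_neg_fderiv_mul_of_integrable hf'g hfg' hfg
    (fun y _ => (hgd.differentiable one_ne_zero) y) (fun y _ => (hasFDerivAt_rho y).differentiableAt)
  have e1 : ∫ y : E d, g y * fderiv ℝ (fun y : E d => Real.exp (-(‖y‖ ^ 2 / 2))) y v =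
      -∫ y : E d, (g y * ⟪y, v⟫_ℝ) * Real.exp (-(‖y‖ ^ 2 / 2)) := by
    rw [← integral_neg]
    refine integral_congr_ae (Eventually.of_forall fun y => ?_)
    simp only [hder]
    ring
  rw [e1] at key
  exact neg_injective key

end Pool.Agent.T2h52.FC
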