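import Pool.Agent.T2h52.FC.Stm

/-!
# INT: averages over the Gaussian measure
-/

set_option autoImplicit false

namespace Pool.Agent.T2h52.FC

open MeasureTheory Set Filter Topology ProbabilityTheory
open scoped ENNReal InnerProductSpace Pointwise
open Pool.Agent.R755.KF (PB)
open Pool.Agent.N555.RZ (mP Spr)
open Pool.Agent.T2h52.SP
open Pool.Agent.T2h52.SQ
open Pool.Agent.T2h52.SO

namespace IntAux

theorem cont_ex {d : ℕ} (s : ℝ) (p : E d →L[ℝ] E d) :
    Continuous (fun z : E d × E d => ex s p z.1 z.2) := by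
  unfold ex
  have h1 : Continuous (fun z : E d × E d => p z.2) := p.continuous.comp continuous_snd
  exact (continuous_const.mul (h1.inner continuous_fst)).sub
    (continuous_const.mul (h1.norm.pow 2))

theorem ex_le {d : ℕ} (s B : ℝ) (p : E d →L[ℝ] E d) (hs : 0 ≤ s)
    (hp : ∀ x, ‖p x‖ ≤ ‖x‖) (w x : E d) (hx : ‖x‖ ≤ B) :
    ex s p w x ≤ Real.sqrt s * B * ‖w‖ := by
  unfold ex
  have h1 : ⟪p x, w⟫_ℝ ≤ B * ‖w‖ :=
    (real_inner_le_norm _ _).trans (mul_le_mul_of_nonneg_right ((hp x).trans hx) (norm_nonneg w))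
  have h2 : Real.sqrt s * ⟪p x, w⟫_ℝ ≤ Real.sqrt s * (B * ‖w‖) :=
    mul_le_mul_of_nonneg_left h1 (Real.sqrt_nonneg s)
  have h3 : 0 ≤ s / 2 * ‖p x‖ ^ 2 := by positivity
  nlinarith

end IntAux

open IntAux in
theorem int (hG : X_GEX) : X_INT := by
  intro d B μ s p hB hμ hs hp F hF
  haveI := hμ.prob
  obtain ⟨M, hM⟩ := (isCompact_closedBall (0 : E d) B).exists_bound_of_continuousOn hF.continuousOn
  have hdom : Integrable (fun z : E d × E d => M * Real.exp (Real.sqrt s * B * ‖z.1‖))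
      ((ga d).prod μ) :=
    (((hG d).1 (Real.sqrt s * B)).comp_fst μ).const_mul M
  have hcont : Continuous (fun z : E d × E d => F z.2 * Real.exp (ex s p z.1 z.2)) :=
    (hF.comp continuous_snd).mul (Real.continuous_exp.comp (cont_ex s p))
  have hb2 : ∀ᵐ z ∂((ga d).prod μ), ‖z.2‖ ≤ B := by
    have := (Measure.quasiMeasurePreserving_snd (μ := ga d) (ν := μ)).ae hμ.bdd
    exact this
  have hint : Integrable (fun z : E d × E d => F z.2 * Real.exp (ex s p z.1 z.2))
      ((ga d).prod μ) := by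
    refine hdom.mono' hcont.aestronglyMeasurable ?_
    filter_upwards [hb2] with z hz
    have h1 : ‖F z.2‖ ≤ M := hM z.2 (by simpa using hz)
    have h2 := ex_le s B p hs hp z.1 z.2 hz
    rw [norm_mul, Real.norm_eq_abs (Real.exp _), abs_of_pos (Real.exp_pos _)]
    exact mul_le_mul h1 (Real.exp_le_exp.2 h2) (Real.exp_pos _).le ((norm_nonneg _).trans h1)
  refine ⟨hint.integral_prod_left, ?_⟩
  rw [integral_integral_swap (f := fun w x => F x * Real.exp (ex s p w x)) hint]
  refine integral_congr_ae (Eventually.of_forall fun x => ?_)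
  have h1 : ∀ w : E d, F x * Real.exp (ex s p w x) =
      F x * Real.exp (-(s / 2 * ‖p x‖ ^ 2)) * Real.exp ⟪Real.sqrt s • p x, w⟫_ℝ := by
    intro w
    rw [mul_assoc, ← Real.exp_add]
    unfold ex
    rw [real_inner_smul_left]
    ring_nf
  simp only [h1]
  rw [integral_const_mul, (hG d).2]
  rw [mul_assoc, ← Real.exp_add, norm_smul, mul_pow, Real.norm_eq_abs, sq_abs, Real.sq_sqrt hs]
  have : -(s / 2 * ‖p x‖ ^ 2) + s * ‖p x‖ ^ 2 / 2 = 0 := by ring
  rw [this, Real.exp_zero, mul_one]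

end Pool.Agent.T2h52.FC
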