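import Pool.Agent.T2h52.FC.Stm

/-!
# Project FC, KCL: the mean of the gauge on the range of `(1 - S) p`
-/

set_option autoImplicit false

namespace Pool.Agent.T2h52.FC

open MeasureTheory Set Filter Topology ProbabilityTheory
open scoped ENNReal InnerProductSpace Pointwise
open Pool.Agent.R755.KF (PB)
open Pool.Agent.N555.RZ (mP Spr mP_prob mP_ae)
open Pool.Agent.T2h52.SP
open Pool.Agent.T2h52.SQ
open Pool.Agent.T2h52.SO

namespace KCLh

variable {d : ℕ}

theorem vol_ne {P : Set (E d)} {a : ℝ} (hP : Bn P a) : volume P ≠ 0 := by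
  have h1 : (interior P).Nonempty := ⟨0, hP.int⟩
  have h2 : 0 < volume (interior P) := isOpen_interior.measure_pos volume h1
  exact (h2.trans_le (measure_mono interior_subset)).ne'

theorem prob {P : Set (E d)} {a : ℝ} (hP : Bn P a) : IsProbabilityMeasure (mP P) :=
  mP_prob (vol_ne hP) hP.comp.measure_lt_top.ne

theorem sub_of_gauge {P Q : Set (E d)} (hQ : Bd Q)
    (h : ∀ u, gauge Q u ≤ gauge P u) : P ⊆ Q := by
  intro u hu
  have h1 : gauge Q u ≤ 1 := (h u).trans (gauge_le_one_of_mem hu)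
  rw [gauge_le_one_iff_mem_closure hQ.conv (mem_interior_iff_mem_nhds.1 hQ.int),
    hQ.comp.isClosed.closure_eq] at h1
  exact h1

theorem norm_le {P Q : Set (E d)} {a : ℝ} (hP : Bn P a) (hiso : Iso P) (hPQ : P ⊆ Q) (y : E d)
    (hy : ∀ x ∈ Q, |⟪x, y⟫_ℝ| ≤ 1) : ‖y‖ ≤ 1 := by
  have hp := prob hP
  have h1 : ‖y‖ ^ 2 ≤ 1 := by
    rw [← hiso y]
    have h2 : ∀ᵐ z ∂(mP P), z ∈ P := mP_ae hP.comp.isClosed.measurableSet
    have h3 : ∫ z, ⟪z, y⟫_ℝ ^ 2 ∂(mP P) ≤ ∫ _z, (1 : ℝ) ∂(mP P) := by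
      refine integral_mono_of_nonneg (Eventually.of_forall fun z => sq_nonneg _)
        (integrable_const 1) ?_
      filter_upwards [h2] with z hz
      have h4 := hy z (hPQ hz)
      rw [← sq_abs]
      nlinarith [abs_nonneg ⟪z, y⟫_ℝ]
    simpa using h3
  nlinarith [norm_nonneg y]

end KCLh

open KCLh in
theorem kcl (h1 : X_LIN) (h2 : X_KCO) : X_KCL := by
  intro d k P Q a s p S hd hP hiso hQ hg hp hs hS
  obtain ⟨ψ, m1, m2, m3, m4⟩ := h1 d k P a s p hP hiso hp hs
  have hPQ := sub_of_gauge hQ hg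
  have hsq : 0 < Real.sqrt s := Real.sqrt_pos.2 hs
  have key := h2 d Q ψ (Real.sqrt s • (p - S.comp p)) hd hQ (norm_le hP hiso hPQ) m1
    (fun w => hPQ (m2 w)) m3 (fun u v => by
      rw [m4 u v]
      simp only [ContinuousLinearMap.smul_apply, ContinuousLinearMap.sub_apply,
        ContinuousLinearMap.comp_apply]
      rw [real_inner_smul_left, inner_sub_left, hS])
  have e1 : ∀ w : E d, gauge Q ((Real.sqrt s • (p - S.comp p)) w) =
      Real.sqrt s * gauge Q (p w - S (p w)) := by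
    intro w
    simp only [ContinuousLinearMap.smul_apply, ContinuousLinearMap.sub_apply,
      ContinuousLinearMap.comp_apply]
    rw [gauge_smul_of_nonneg hsq.le, smul_eq_mul]
  simp only [e1] at key
  rw [integral_const_mul] at key
  rw [le_div_iff₀ hsq, mul_comm]
  exact key

end Pool.Agent.T2h52.FC
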