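import Pool.Agent.T2h52.FC.Stm

/-! # KCO: the linear part of a function with values in `Q` -/

set_option autoImplicit false

namespace Pool.Agent.T2h52.FC

open MeasureTheory Set Filter Topology ProbabilityTheory
open scoped ENNReal InnerProductSpace Pointwise
open Pool.Agent.R755.KF (PB)
open Pool.Agent.N555.RZ (mP Spr)
open Pool.Agent.T2h52.SP
open Pool.Agent.T2h52.SQ
open Pool.Agent.T2h52.SO

namespace KCOaux

variable {d : ℕ}

open Classical in
/-- measurable choice from a finite set -/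
theorem choice (A : E d → Set (E d)) (hA : ∀ y, MeasurableSet (A y)) (y0 : E d) (Y : Finset (E d)) :
    ∃ φ : E d → E d, Measurable φ ∧ (∀ w, φ w = y0 ∨ φ w ∈ Y) ∧
      ∀ w, (∃ y ∈ Y, w ∈ A y) → w ∈ A (φ w) := by
  induction Y using Finset.induction_on with
  | empty => exact ⟨fun _ => y0, measurable_const, fun _ => Or.inl rfl, fun w h => by simp at h⟩
  | insert y Y hy ih =>
    obtain ⟨φ, h1, h2, h3⟩ := ih
    refine ⟨fun w => if w ∈ A y then y else φ w, Measurable.ite (hA y) measurable_const h1,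
      fun w => ?_, fun w h => ?_⟩
    · by_cases hw : w ∈ A y
      · right; simp [hw]
      · rcases h2 w with h | h
        · left; simp [hw, h]
        · right; simp [hw, h]
    · by_cases hw : w ∈ A y
      · simp only [hw, if_true]
      · simp only [hw, if_false]
        apply h3
        obtain ⟨z, hz, hz'⟩ := h
        rcases Finset.mem_insert.1 hz with rfl | hz
        · exact absurd hz' hw
        · exact ⟨z, hz, hz'⟩

/-- bounded measurable functions -/
theorem memLp_bdd (f : E d → ℝ) (hf : Measurable f) (C : ℝ) (hC : ∀ w, |f w| ≤ C) :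
    MemLp f 2 (ga d) :=
  MemLp.of_bound hf.aestronglyMeasurable C (Eventually.of_forall fun w => by
    rw [Real.norm_eq_abs]; exact hC w)

theorem inner_expand (u v : E d) :
    ∑ i, u i * v i = ⟪u, v⟫_ℝ := by
  rw [PiLp.inner_apply]
  simp [mul_comm]

theorem normsq_expand (u : E d) : ∑ i, u i ^ 2 = ‖u‖ ^ 2 := by
  rw [EuclideanSpace.norm_sq_eq]
  simp [sq_abs]

theorem abs_coord (u : E d) (i : Fin d) : |u i| ≤ ‖u‖ := by
  have := PiLp.norm_apply_le u i
  simpa using this

end KCOaux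

open KCOaux in
theorem kco (hN : X_NET) (hM : X_MEH) (hB : X_BCO) (hR : X_RIC) (hG : X_GEX) : X_KCO := by
  classical
  intro d Q ψ T hd hQ hY hψ hψQ hψ2 hT
  obtain ⟨Y, ⟨y0, hy0⟩, hY1, hY2⟩ := hN d Q hQ
  have hQ0 : Q ∈ 𝓝 (0 : E d) := mem_interior_iff_mem_nhds.1 hQ.int
  have hgc : Continuous (gauge Q) := continuous_gauge hQ.conv hQ0
  obtain ⟨φ, hφ, hφY, hφ2⟩ := choice (fun y => {w | gauge Q (T w) ≤ 3 / 2 * ⟪T w, y⟫_ℝ})
    (fun y => (isClosed_le (hgc.comp T.continuous) (by fun_prop)).measurableSet) y0 Y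
  have hφY' : ∀ w, φ w ∈ Y := fun w => by
    rcases hφY w with h | h
    · rw [h]; exact hy0
    · exact h
  have hφg : ∀ w, gauge Q (T w) ≤ 3 / 2 * ⟪T w, φ w⟫_ℝ := fun w => by
    obtain ⟨y, hy, h⟩ := hY2 (T w)
    exact hφ2 w ⟨y, hy, h⟩
  have hφn : ∀ w, ‖φ w‖ ≤ 1 := fun w => hY _ fun x hx => hY1 _ (hφY' w) x hx
  obtain ⟨R, hRb⟩ := hQ.comp.isBounded.exists_norm_le
  have hψR : ∀ w, ‖ψ w‖ ≤ R := fun w => hRb _ (hψQ w)
  have hφi : ∀ i : Fin d, Measurable fun w => φ w i := fun i => by fun_prop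
  have hψi : ∀ i : Fin d, Measurable fun w => ψ w i := fun i => by fun_prop
  have mφ : ∀ i : Fin d, MemLp (fun w => φ w i) 2 (ga d) := fun i =>
    memLp_bdd _ (hφi i) 1 fun w => (abs_coord _ i).trans (hφn w)
  have mψ : ∀ i : Fin d, MemLp (fun w => ψ w i) 2 (ga d) := fun i =>
    memLp_bdd _ (hψi i) R fun w => (abs_coord _ i).trans (hψR w)
  choose b hb1 hb2 hb3 using fun i : Fin d => hM d (fun w => φ w i) (fun w => ψ w i) (mφ i) (mψ i)
  -- the total
  set b0 : ℕ → ℝ := fun k => ∑ i, b i k with hb0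
  have hβ : ∀ k, |b0 k| ≤ Real.sqrt d := by
    intro k
    have h1 : |b0 k| ≤ ∑ i, Real.sqrt (∫ w, φ w i ^ 2 ∂(ga d)) *
        Real.sqrt (∫ w, ψ w i ^ 2 ∂(ga d)) :=
      (Finset.abs_sum_le_sum_abs _ _).trans (Finset.sum_le_sum fun i _ => hb1 i k)
    have h2 := Real.sum_sqrt_mul_sqrt_le (Finset.univ : Finset (Fin d))
      (f := fun i => ∫ w, φ w i ^ 2 ∂(ga d)) (g := fun i => ∫ w, ψ w i ^ 2 ∂(ga d))
      (fun i => integral_nonneg fun w => sq_nonneg _) (fun i => integral_nonneg fun w => sq_nonneg _)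
    have iφ : ∀ i : Fin d, Integrable (fun w => φ w i ^ 2) (ga d) := fun i => (mφ i).integrable_sq
    have iψ : ∀ i : Fin d, Integrable (fun w => ψ w i ^ 2) (ga d) := fun i => (mψ i).integrable_sq
    have h3 : ∑ i, ∫ w, φ w i ^ 2 ∂(ga d) ≤ 1 := by
      rw [← integral_finsetSum _ fun i _ => iφ i]
      simp only [normsq_expand]
      have h4 : ∫ w, ‖φ w‖ ^ 2 ∂(ga d) ≤ ∫ _ : E d, (1 : ℝ) ∂(ga d) := by
        refine integral_mono_of_nonneg (Eventually.of_forall fun w => by positivity)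
          (integrable_const _) (Eventually.of_forall fun w => ?_)
        have := hφn w
        have := norm_nonneg (φ w)
        show ‖φ w‖ ^ 2 ≤ 1
        nlinarith
      simpa using h4
    have h5 : ∑ i, ∫ w, ψ w i ^ 2 ∂(ga d) ≤ d := by
      rw [← integral_finsetSum _ fun i _ => iψ i]
      simp only [normsq_expand]
      exact hψ2
    calc |b0 k| ≤ _ := h1
      _ ≤ _ := h2
      _ ≤ 1 * Real.sqrt d := by
        refine mul_le_mul ?_ (Real.sqrt_le_sqrt h5) (Real.sqrt_nonneg _) zero_le_one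
        exact Real.sqrt_le_one.2 h3 |>.trans le_rfl
      _ = _ := one_mul _
  -- the function `h`
  set h : ℝ → ℝ := fun ρ => ∑ i, Bm ρ (fun w => φ w i) (fun w => ψ w i) with hh
  have hsum : ∀ ρ : ℝ, |ρ| < 1 → HasSum (fun k => b0 k * ρ ^ k) (h ρ) := by
    intro ρ hρ
    have h1 := hasSum_sum (s := (Finset.univ : Finset (Fin d))) fun i _ => hb3 i ρ hρ
    have h2 : (fun k => b0 k * ρ ^ k) = fun k => ∑ i, b i k * ρ ^ k := by
      funext k
      rw [hb0]
      simp only
      rw [Finset.sum_mul]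
    rw [h2]
    exact h1
  have hh1 : ∀ ρ : ℝ, |ρ| < 1 → |h ρ| ≤ 1 := by
    intro ρ hρ
    have e1 : h ρ = ∫ z : E d × E d, ⟪φ z.1, ψ (ρ • z.1 + Real.sqrt (1 - ρ ^ 2) • z.2)⟫_ℝ
        ∂((ga d).prod (ga d)) := by
      rw [hh]
      simp only
      have hi : ∀ i : Fin d, Integrable (fun z : E d × E d =>
          φ z.1 i * ψ (ρ • z.1 + Real.sqrt (1 - ρ ^ 2) • z.2) i) ((ga d).prod (ga d)) := fun i =>
        (hB d ρ _ _ hρ.le (mφ i) (mψ i)).2.1
      have e2 : ∀ i : Fin d, Bm ρ (fun w => φ w i) (fun w => ψ w i) = ∫ z : E d × E d,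
          φ z.1 i * ψ (ρ • z.1 + Real.sqrt (1 - ρ ^ 2) • z.2) i ∂((ga d).prod (ga d)) := by
        intro i
        rw [integral_prod _ (hi i)]
        rfl
      simp only [e2]
      rw [← integral_finsetSum _ fun i _ => hi i]
      refine integral_congr_ae (Eventually.of_forall fun z => ?_)
      exact inner_expand _ _
    rw [e1, ← Real.norm_eq_abs]
    refine (norm_integral_le_of_norm_le_const (C := 1) (Eventually.of_forall fun z => ?_)).trans ?_
    · rw [Real.norm_eq_abs, real_inner_comm]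
      exact hY1 _ (hφY' _) _ (hψQ _)
    · simp
  -- the linear coefficient
  have hTn : ∀ w, |⟪T w, φ w⟫_ℝ| ≤ ‖T‖ * Real.exp (1 * ‖w‖) := by
    intro w
    have h1 := abs_real_inner_le_norm (T w) (φ w)
    have h2 := T.le_opNorm w
    have h3 : ‖w‖ ≤ Real.exp (1 * ‖w‖) := by
      have := Real.add_one_le_exp (1 * ‖w‖)
      linarith
    calc |⟪T w, φ w⟫_ℝ| ≤ ‖T w‖ * ‖φ w‖ := h1
      _ ≤ ‖T w‖ * 1 := mul_le_mul_of_nonneg_left (hφn w) (norm_nonneg _)
      _ ≤ ‖T‖ * ‖w‖ := by rw [mul_one]; exact h2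
      _ ≤ _ := mul_le_mul_of_nonneg_left h3 (norm_nonneg _)
  have hTi : ∀ i : Fin d, Integrable (fun w => φ w i * (T w) i) (ga d) := by
    intro i
    refine (((hG d).1 1).const_mul ‖T‖).mono' ((hφi i).mul (by fun_prop)).aestronglyMeasurable
      (Eventually.of_forall fun w => ?_)
    have h2 := T.le_opNorm w
    have h3 : ‖w‖ ≤ Real.exp (1 * ‖w‖) := by
      have := Real.add_one_le_exp (1 * ‖w‖)
      linarith
    rw [Real.norm_eq_abs, abs_mul]
    calc |φ w i| * |(T w) i| ≤ 1 * ‖T w‖ :=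
          mul_le_mul ((abs_coord _ i).trans (hφn w)) (abs_coord _ i) (abs_nonneg _) zero_le_one
      _ ≤ ‖T‖ * ‖w‖ := by rw [one_mul]; exact h2
      _ ≤ _ := mul_le_mul_of_nonneg_left h3 (norm_nonneg _)
  have hTI : Integrable (fun w => ⟪T w, φ w⟫_ℝ) (ga d) := by
    refine (((hG d).1 1).const_mul ‖T‖).mono' ?_ (Eventually.of_forall fun w => by
      rw [Real.norm_eq_abs]; exact hTn w)
    exact (Measurable.inner (by fun_prop) hφ).aestronglyMeasurable
  have hb1' : b0 1 = ∫ w, ⟪T w, φ w⟫_ℝ ∂(ga d) := by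
    rw [hb0]
    simp only
    have e3 : ∀ i : Fin d, b i 1 = ∫ w, φ w i * (T w) i ∂(ga d) := by
      intro i
      rw [hb2 i]
      refine integral_congr_ae (Eventually.of_forall fun w => ?_)
      simp only
      have h4 := hT (EuclideanSpace.single i 1) w
      have h5 : ⟪T w, EuclideanSpace.single i (1 : ℝ)⟫_ℝ = (T w) i := by
        rw [EuclideanSpace.inner_single_right]; simp
      rw [h5] at h4
      rw [← h4, ← integral_const_mul]
      refine integral_congr_ae (Eventually.of_forall fun w' => ?_)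
      simp only
      rw [EuclideanSpace.inner_single_right, real_inner_comm w w']
      simp
      ring
    simp only [e3]
    rw [← integral_finsetSum _ fun i _ => hTi i]
    refine integral_congr_ae (Eventually.of_forall fun w => ?_)
    simp only
    rw [inner_expand, real_inner_comm]
  have hfin : ∫ w, gauge Q (T w) ∂(ga d) ≤ 3 / 2 * b0 1 := by
    rw [hb1', ← integral_const_mul]
    exact integral_mono_of_nonneg (Eventually.of_forall fun w => gauge_nonneg _)
      (hTI.const_mul _) (Eventually.of_forall hφg)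
  have hd1 : (1 : ℝ) ≤ d := by exact_mod_cast hd
  have hx1 : (1 : ℝ) ≤ (d : ℝ) ^ ((1 : ℝ) / 64) := Real.one_le_rpow hd1 (by norm_num)
  refine hfin.trans ?_
  by_cases hbig : (2 : ℝ) ^ 32 ≤ d
  · have h2r : (2 : ℝ) ≤ (d : ℝ) ^ ((1 : ℝ) / 32) := by
      calc (2 : ℝ) = ((2 : ℝ) ^ (32 : ℕ)) ^ ((1 : ℝ) / 32) := by
            rw [← Real.rpow_natCast, ← Real.rpow_mul (by norm_num)]
            norm_num
        _ ≤ _ := Real.rpow_le_rpow (by positivity) hbig (by norm_num)
    have h1 := hR b0 h (Real.sqrt d) ((d : ℝ) ^ (-(1 : ℝ) / 64)) hβ hsum hh1 (by positivity) (by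
      rw [← Real.rpow_natCast, ← Real.rpow_mul (by positivity)]
      have : (d : ℝ) ^ (-(1 : ℝ) / 64 * (2 : ℕ)) = ((d : ℝ) ^ ((1 : ℝ) / 32))⁻¹ := by
        rw [← Real.rpow_neg (by positivity)]
        congr 1
        norm_num
      rw [this, ← div_eq_mul_inv, div_le_one (by positivity)]
      exact h2r)
    have e1 : 10 ^ 5 / (d : ℝ) ^ (-(1 : ℝ) / 64) = 10 ^ 5 * (d : ℝ) ^ ((1 : ℝ) / 64) := by
      rw [div_eq_mul_inv, ← Real.rpow_neg (by positivity)]
      congr 2
      norm_num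
    have e2 : 2 * Real.sqrt d * ((d : ℝ) ^ (-(1 : ℝ) / 64)) ^ 32 = 2 := by
      rw [← Real.rpow_natCast ((d : ℝ) ^ (-(1 : ℝ) / 64)), ← Real.rpow_mul (by positivity),
        Real.sqrt_eq_rpow, mul_assoc, ← Real.rpow_add (by positivity)]
      norm_num
    rw [e1, e2] at h1
    have h3 := le_abs_self (b0 1)
    nlinarith
  · push Not at hbig
    have h1 := hβ 1
    have h2 : Real.sqrt d ≤ 2 ^ 16 := by
      rw [Real.sqrt_le_left (by norm_num)]
      norm_num
      norm_num at hbig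
      exact hbig.le
    have h3 := le_abs_self (b0 1)
    nlinarith

end Pool.Agent.T2h52.FC
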