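import Pool.Agent.T2h52.FC.Stm

/-!
# KNB: bounds for exponential integrals and their derivatives
-/

set_option autoImplicit false

namespace Pool.Agent.T2h52.FC

open MeasureTheory Set Filter Topology ProbabilityTheory
open scoped ENNReal InnerProductSpace Pointwise
open Pool.Agent.R755.KF (PB)
open Pool.Agent.N555.RZ (mP Spr)
open Pool.Agent.T2h52.SP
open Pool.Agent.T2h52.SQ
open Pool.Agent.T2h52.SO

namespace KNB

variable {d : ℕ} {Ω : Type} [MeasurableSpace Ω]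

theorem expo {M T s t : ℝ} {u y : E d} (_hM : 0 ≤ M) (hs : |s| ≤ T) (ht : |t| ≤ M) (hu : ‖u‖ ≤ M) :
    |⟪u, y⟫_ℝ - s / 2 * t| ≤ M * ‖y‖ + T * M := by
  have h1 : |⟪u, y⟫_ℝ| ≤ M * ‖y‖ :=
    (abs_real_inner_le_norm u y).trans (mul_le_mul_of_nonneg_right hu (norm_nonneg _))
  have hT : 0 ≤ T := (abs_nonneg _).trans hs
  have h2 : |s / 2 * t| ≤ T * M := by
    rw [abs_mul, abs_div]
    have : |s| / |(2 : ℝ)| ≤ T := by
      rw [abs_of_pos (by norm_num : (0 : ℝ) < 2)]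
      have := abs_nonneg s
      linarith
    exact mul_le_mul this ht (abs_nonneg _) hT
  exact (abs_sub _ _).trans (add_le_add h1 h2)

theorem lin {M : ℝ} {t σ : ℝ} {u η : E d} (hM : 0 ≤ M) (ht : |t| ≤ M) (hu : ‖u‖ ≤ M) :
    |⟪u, η⟫_ℝ - σ / 2 * t| ≤ 2 * M * ‖((σ, η) : ℝ × E d)‖ := by
  have h1 : |⟪u, η⟫_ℝ| ≤ M * ‖((σ, η) : ℝ × E d)‖ :=
    (abs_real_inner_le_norm u η).trans
      (mul_le_mul hu (norm_snd_le ((σ, η) : ℝ × E d)) (norm_nonneg _) hM)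
  have h2 : |σ / 2 * t| ≤ M * ‖((σ, η) : ℝ × E d)‖ := by
    rw [abs_mul, abs_div, abs_of_pos (by norm_num : (0 : ℝ) < 2), mul_comm]
    have h3 : |σ| ≤ ‖((σ, η) : ℝ × E d)‖ := norm_fst_le ((σ, η) : ℝ × E d)
    have h4 : |σ| / 2 ≤ ‖((σ, η) : ℝ × E d)‖ := by
      have := abs_nonneg σ
      linarith
    exact mul_le_mul ht h4 (by positivity) hM
  calc _ ≤ _ := abs_sub _ _
    _ ≤ _ := add_le_add h1 h2
    _ = _ := by ring

theorem core (m : Measure Ω) [IsProbabilityMeasure m] {M T A : ℝ} (hM : 0 ≤ M)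
    (g ψ : Ω → ℝ) (φ : Ω → E d)
    (hb : ∀ᵐ x ∂m, |g x| ≤ A ∧ |ψ x| ≤ M ∧ ‖φ x‖ ≤ M) (s : ℝ) (y : E d) (hs : |s| ≤ T) :
    |∫ x, g x * Real.exp (⟪φ x, y⟫_ℝ - s / 2 * ψ x) ∂m| ≤
      A * (Real.exp (T * M) * Real.exp (M * ‖y‖)) := by
  have h := norm_integral_le_of_norm_le_const (μ := m)
    (f := fun x => g x * Real.exp (⟪φ x, y⟫_ℝ - s / 2 * ψ x))
    (C := A * (Real.exp (T * M) * Real.exp (M * ‖y‖))) (by
      filter_upwards [hb] with x hx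
      rw [norm_mul, Real.norm_eq_abs, Real.norm_eq_abs, abs_of_pos (Real.exp_pos _), ← Real.exp_add]
      refine mul_le_mul hx.1 ?_ (Real.exp_pos _).le ((abs_nonneg _).trans hx.1)
      apply Real.exp_le_exp.2
      have := (abs_le.1 (expo (y := y) hM hs hx.2.1 hx.2.2)).2
      linarith)
  simpa [Real.norm_eq_abs] using h

/-- the constant -/
noncomputable def CC (M T : ℝ) : ℝ := (M + 2 * M ^ 2 + 4 * M ^ 3) * Real.exp (T * M)

theorem gb (hexi : X_EXI) (m : Measure Ω) [IsProbabilityMeasure m]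
    (M T : ℝ) (hM : 1 ≤ M) (f ψ : Ω → ℝ) (φ : Ω → E d) (hf : Measurable f) (hψ : Measurable ψ)
    (hφ : Measurable φ) (hb : ∀ᵐ x ∂m, |f x| ≤ M ∧ |ψ x| ≤ M ∧ ‖φ x‖ ≤ M) (s : ℝ) (y : E d)
    (hs : |s| ≤ T) (K : ℝ × E d → ℝ)
    (hK : K = fun q : ℝ × E d => ∫ x, f x * Real.exp (⟪φ x, q.2⟫_ℝ - q.1 / 2 * ψ x) ∂m) :
    |K (s, y)| ≤ CC M T * Real.exp (M * ‖y‖) ∧
    ‖fderiv ℝ K (s, y)‖ ≤ CC M T * Real.exp (M * ‖y‖) ∧
    ‖fderiv ℝ (fderiv ℝ K) (s, y)‖ ≤ CC M T * Real.exp (M * ‖y‖) := by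
  have hM0 : 0 ≤ M := by linarith
  obtain ⟨hc, hfd⟩ := hexi d Ω m M f ψ φ hf hψ hφ hb
  rw [← hK] at hc hfd
  have hpe : 0 < Real.exp (T * M) * Real.exp (M * ‖y‖) := by positivity
  have hp2 : 0 ≤ 2 * M ^ 2 := by positivity
  have hp3 : 0 ≤ 4 * M ^ 3 := by positivity
  have hle : ∀ A, A ≤ M + 2 * M ^ 2 + 4 * M ^ 3 → A * (Real.exp (T * M) * Real.exp (M * ‖y‖)) ≤
      CC M T * Real.exp (M * ‖y‖) := by
    intro A hA
    unfold CC
    rw [mul_assoc]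
    exact mul_le_mul_of_nonneg_right hA hpe.le
  have hCC : 0 ≤ CC M T * Real.exp (M * ‖y‖) := by unfold CC; positivity
  refine ⟨?_, ?_, ?_⟩
  · rw [hK]
    exact (core m hM0 f ψ φ hb s y hs).trans (hle _ (by linarith))
  · refine ContinuousLinearMap.opNorm_le_bound _ hCC fun v => ?_
    obtain ⟨σ, η⟩ := v
    rw [hfd, Real.norm_eq_abs]
    have h := core m (A := 2 * M ^ 2 * ‖((σ, η) : ℝ × E d)‖) hM0
      (fun x => f x * (⟪φ x, η⟫_ℝ - σ / 2 * ψ x)) ψ φ (by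
        filter_upwards [hb] with x hx
        refine ⟨?_, hx.2.1, hx.2.2⟩
        rw [abs_mul]
        calc _ ≤ M * (2 * M * ‖((σ, η) : ℝ × E d)‖) :=
              mul_le_mul hx.1 (lin hM0 hx.2.1 hx.2.2) (abs_nonneg _) hM0
          _ = _ := by ring) s y hs
    refine h.trans ?_
    calc 2 * M ^ 2 * ‖((σ, η) : ℝ × E d)‖ * (Real.exp (T * M) * Real.exp (M * ‖y‖))
        = (2 * M ^ 2 * (Real.exp (T * M) * Real.exp (M * ‖y‖))) * ‖((σ, η) : ℝ × E d)‖ := by ring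
      _ ≤ _ := mul_le_mul_of_nonneg_right (hle _ (by linarith)) (norm_nonneg _)
  · refine ContinuousLinearMap.opNorm_le_bound _ hCC fun v => ?_
    refine ContinuousLinearMap.opNorm_le_bound _ (by positivity) fun w => ?_
    obtain ⟨σ, η⟩ := v
    obtain ⟨τ, ζ⟩ := w
    have hD : DifferentiableAt ℝ (fderiv ℝ K) (s, y) :=
      ((hc.fderiv_right (m := 1) (by norm_num)).differentiable (by norm_num)) _
    have h1 : fderiv ℝ (fun q => fderiv ℝ K q (τ, ζ)) (s, y) (σ, η) =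
        fderiv ℝ (fderiv ℝ K) (s, y) (σ, η) (τ, ζ) := by
      have h2 := (hD.hasFDerivAt.clm_apply (hasFDerivAt_const ((τ, ζ) : ℝ × E d) (s, y))).fderiv
      rw [h2]
      simp
    rw [← h1]
    have h3 : (fun q => fderiv ℝ K q (τ, ζ)) = fun q : ℝ × E d =>
        ∫ x, (f x * (⟪φ x, ζ⟫_ℝ - τ / 2 * ψ x)) * Real.exp (⟪φ x, q.2⟫_ℝ - q.1 / 2 * ψ x) ∂m := by
      funext q
      exact hfd q τ ζ
    have hb1 : ∀ᵐ x ∂m, |f x * (⟪φ x, ζ⟫_ℝ - τ / 2 * ψ x)| ≤ 2 * M ^ 2 * ‖((τ, ζ) : ℝ × E d)‖ := by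
      filter_upwards [hb] with x hx
      rw [abs_mul]
      calc _ ≤ M * (2 * M * ‖((τ, ζ) : ℝ × E d)‖) :=
            mul_le_mul hx.1 (lin hM0 hx.2.1 hx.2.2) (abs_nonneg _) hM0
        _ = _ := by ring
    have hmeas : Measurable fun x => f x * (⟪φ x, ζ⟫_ℝ - τ / 2 * ψ x) :=
      hf.mul ((hφ.inner measurable_const).sub (measurable_const.mul hψ))
    have h4 := (hexi d Ω m (max M (2 * M ^ 2 * ‖((τ, ζ) : ℝ × E d)‖))
      (fun x => f x * (⟪φ x, ζ⟫_ℝ - τ / 2 * ψ x)) ψ φ hmeas hψ hφ (by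
        filter_upwards [hb, hb1] with x hx hx1
        exact ⟨hx1.trans (le_max_right _ _), hx.2.1.trans (le_max_left _ _),
          hx.2.2.trans (le_max_left _ _)⟩)).2 (s, y) σ η
    rw [h3, h4, Real.norm_eq_abs]
    have h := core m (A := 4 * M ^ 3 * ‖((σ, η) : ℝ × E d)‖ * ‖((τ, ζ) : ℝ × E d)‖) hM0
      (fun x => f x * (⟪φ x, ζ⟫_ℝ - τ / 2 * ψ x) * (⟪φ x, η⟫_ℝ - σ / 2 * ψ x)) ψ φ (by
        filter_upwards [hb, hb1] with x hx hx1
        refine ⟨?_, hx.2.1, hx.2.2⟩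
        rw [abs_mul]
        calc _ ≤ (2 * M ^ 2 * ‖((τ, ζ) : ℝ × E d)‖) * (2 * M * ‖((σ, η) : ℝ × E d)‖) :=
              mul_le_mul hx1 (lin hM0 hx.2.1 hx.2.2) (abs_nonneg _) (by positivity)
          _ = _ := by ring) s y hs
    refine h.trans ?_
    calc 4 * M ^ 3 * ‖((σ, η) : ℝ × E d)‖ * ‖((τ, ζ) : ℝ × E d)‖ *
          (Real.exp (T * M) * Real.exp (M * ‖y‖))
        = (4 * M ^ 3 * (Real.exp (T * M) * Real.exp (M * ‖y‖))) * ‖((σ, η) : ℝ × E d)‖ *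
          ‖((τ, ζ) : ℝ × E d)‖ := by ring
      _ ≤ _ := mul_le_mul_of_nonneg_right (mul_le_mul_of_nonneg_right (hle _ (by linarith))
          (norm_nonneg _)) (norm_nonneg _)

end KNB

open KNB in
/-- bounds for exponential integrals -/
theorem knb (hexi : X_EXI) : X_KNB := by
  intro d n B T μ F hB hμ hF
  have := hμ.prob
  -- bound for `F`
  have hcpt : IsCompact (Metric.closedBall (0 : Fin n → E d) B) := isCompact_closedBall _ _
  obtain ⟨S, hS⟩ := hcpt.exists_bound_of_continuousOn hF.continuousOn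
  have haB : ∀ᵐ x ∂(Measure.pi fun _ : Fin n => μ), ∀ a, ‖x a‖ ≤ B := by
    rw [ae_all_iff]
    intro a
    exact (Measure.tendsto_eval_ae_ae (μ := fun _ : Fin n => μ) (i := a)).eventually hμ.bdd
  set M : ℝ := 1 + |S| + B + B ^ 2 + n * B + n * B ^ 2 with hMd
  have hn : (0 : ℝ) ≤ n := Nat.cast_nonneg n
  have hB2 : 0 ≤ B ^ 2 := sq_nonneg B
  have hnB : 0 ≤ n * B := mul_nonneg hn hB
  have hnB2 : 0 ≤ n * B ^ 2 := mul_nonneg hn hB2
  have hS0 : 0 ≤ |S| := abs_nonneg S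
  have hM : 1 ≤ M := by linarith
  have hM0 : 0 < M := by linarith
  -- data for `KN`
  have hbN : ∀ᵐ x ∂(Measure.pi fun _ : Fin n => μ), |F x| ≤ M ∧ |∑ a, ‖x a‖ ^ 2| ≤ M ∧
      ‖∑ a, x a‖ ≤ M := by
    filter_upwards [haB] with x hx
    refine ⟨?_, ?_, ?_⟩
    · have h1 : x ∈ Metric.closedBall (0 : Fin n → E d) B := by
        rw [mem_closedBall_zero_iff]
        exact (pi_norm_le_iff_of_nonneg hB).2 hx
      have h2 := hS x h1
      rw [Real.norm_eq_abs] at h2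
      have h3 := le_abs_self S
      linarith
    · rw [abs_of_nonneg (Finset.sum_nonneg fun a _ => sq_nonneg _)]
      calc ∑ a, ‖x a‖ ^ 2 ≤ ∑ _a : Fin n, B ^ 2 :=
            Finset.sum_le_sum fun a _ => pow_le_pow_left₀ (norm_nonneg _) (hx a) 2
        _ = n * B ^ 2 := by simp
        _ ≤ M := by linarith
    · calc ‖∑ a, x a‖ ≤ ∑ a, ‖x a‖ := norm_sum_le _ _
        _ ≤ ∑ _a : Fin n, B := Finset.sum_le_sum fun a _ => hx a
        _ = n * B := by simp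
        _ ≤ M := by linarith
  have hKN : KN μ n F = fun q : ℝ × E d => ∫ x : Fin n → E d, F x *
      Real.exp (⟪∑ a, x a, q.2⟫_ℝ - q.1 / 2 * ∑ a, ‖x a‖ ^ 2) ∂(Measure.pi fun _ => μ) := by
    funext q
    unfold KN
    congr 1
    funext x
    rw [Finset.sum_sub_distrib, sum_inner, Finset.mul_sum]
  -- data for `KZ`
  have hbZ : ∀ᵐ x ∂μ, |(1 : ℝ)| ≤ M ∧ |‖x‖ ^ 2| ≤ M ∧ ‖x‖ ≤ M := by
    filter_upwards [hμ.bdd] with x hx
    refine ⟨by rw [abs_one]; exact hM, ?_, by linarith⟩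
    rw [abs_of_nonneg (sq_nonneg _)]
    have := pow_le_pow_left₀ (norm_nonneg x) hx 2
    linarith
  have hKZ : KZ μ = fun q : ℝ × E d => ∫ x : E d, (1 : ℝ) *
      Real.exp (⟪x, q.2⟫_ℝ - q.1 / 2 * ‖x‖ ^ 2) ∂μ := by
    funext q
    unfold KZ
    simp
  have hZ2 : ContDiff ℝ 2 (KZ μ) := by
    rw [hKZ]
    exact (hexi d (E d) μ M (fun _ => 1) (fun x => ‖x‖ ^ 2) (fun x => x) measurable_const
      (by fun_prop) measurable_id hbZ).1
  refine ⟨hZ2, CC M T, M, ?_, hM0, ?_⟩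
  · unfold CC
    positivity
  intro s y hs
  have hT : 0 ≤ T := (abs_nonneg _).trans hs
  obtain ⟨n1, n2, n3⟩ := gb hexi (Measure.pi fun _ : Fin n => μ) M T hM F
    (fun x => ∑ a, ‖x a‖ ^ 2) (fun x => ∑ a, x a) hF.measurable (by fun_prop) (by fun_prop) hbN s y hs
    (KN μ n F) hKN
  obtain ⟨z1, z2, z3⟩ := gb hexi μ M T hM (fun _ => 1)
    (fun x => ‖x‖ ^ 2) (fun x => x) measurable_const (by fun_prop) measurable_id hbZ s y hs
    (KZ μ) hKZ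
  refine ⟨n1, n2, n3, ?_, (le_abs_self _).trans z1, z2, z3⟩
  -- lower bound
  have hlow : Real.exp (-(M * ‖y‖ + T * M)) ≤ KZ μ (s, y) := by
    have hint : Integrable (fun x : E d => Real.exp (⟪x, y⟫_ℝ - s / 2 * ‖x‖ ^ 2)) μ := by
      refine Integrable.of_bound (C := Real.exp (M * ‖y‖ + T * M)) (by
        apply Continuous.aestronglyMeasurable; fun_prop) ?_
      filter_upwards [hbZ] with x hx
      rw [Real.norm_eq_abs, abs_of_pos (Real.exp_pos _)]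
      exact Real.exp_le_exp.2 (abs_le.1 (expo (y := y) hM0.le hs hx.2.1 hx.2.2)).2
    calc Real.exp (-(M * ‖y‖ + T * M)) = ∫ _x : E d, Real.exp (-(M * ‖y‖ + T * M)) ∂μ := by simp
      _ ≤ KZ μ (s, y) := by
          unfold KZ
          refine integral_mono_ae (integrable_const _) hint ?_
          filter_upwards [hbZ] with x hx
          exact Real.exp_le_exp.2 (abs_le.1 (expo (y := y) hM0.le hs hx.2.1 hx.2.2)).1
  refine le_trans ?_ hlow
  rw [neg_add, Real.exp_add, mul_comm]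
  refine mul_le_mul_of_nonneg_left ?_ (Real.exp_pos _).le
  rw [Real.exp_neg]
  refine inv_anti₀ (Real.exp_pos _) ?_
  unfold CC
  have h2 : 1 ≤ M + 2 * M ^ 2 + 4 * M ^ 3 := by
    have : 0 ≤ 2 * M ^ 2 := by positivity
    have : 0 ≤ 4 * M ^ 3 := by positivity
    linarith
  have := Real.exp_pos (T * M)
  nlinarith

end Pool.Agent.T2h52.FC
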