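import Pool.Agent.T2h52.FC.Stm

/-!
# Project FC, KND: derivatives of `KN`
-/

set_option autoImplicit false

namespace Pool.Agent.T2h52.FC

open MeasureTheory Set Filter Topology ProbabilityTheory
open scoped ENNReal InnerProductSpace Pointwise
open Pool.Agent.R755.KF (PB)
open Pool.Agent.N555.RZ (mP Spr)
open Pool.Agent.T2h52.SP
open Pool.Agent.T2h52.SQ
open Pool.Agent.T2h52.SO

namespace KNDh

variable {d n : ℕ}

/-- the exponential integral in the form of `X_EXI` -/
theorem kn_eq (μ : Measure (E d)) (F : (Fin n → E d) → ℝ) :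
    KN μ n F = fun q : ℝ × E d => ∫ x : Fin n → E d, F x *
      Real.exp (⟪∑ a, x a, q.2⟫_ℝ - q.1 / 2 * ∑ a, ‖x a‖ ^ 2) ∂(Measure.pi fun _ => μ) := by
  funext q
  unfold KN
  refine integral_congr_ae (Eventually.of_forall fun x => ?_)
  simp only
  rw [Finset.sum_sub_distrib, sum_inner, Finset.mul_sum]

theorem bound {B : ℝ} {μ : Measure (E d)} (hμ : PB B μ)
    {F : (Fin n → E d) → ℝ} (hF : Continuous F) : ∃ B' : ℝ,
    ∀ᵐ x ∂(Measure.pi fun _ : Fin n => μ), |F x| ≤ B' ∧ |∑ a, ‖x a‖ ^ 2| ≤ B' ∧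
      ‖∑ a, x a‖ ≤ B' := by
  have hp := hμ.prob
  have h1 : ∀ᵐ x ∂(Measure.pi fun _ : Fin n => μ), ∀ a, ‖x a‖ ≤ B := by
    rw [ae_all_iff]
    intro a
    exact (measurePreserving_eval (fun _ : Fin n => μ) a).quasiMeasurePreserving.ae hμ.bdd
  have h2 : IsCompact (Set.pi univ fun _ : Fin n => Metric.closedBall (0 : E d) B) :=
    isCompact_univ_pi fun _ => isCompact_closedBall _ _
  obtain ⟨C, hC⟩ := h2.exists_bound_of_continuousOn hF.continuousOn
  refine ⟨max C (max (n * B ^ 2) (n * B)), ?_⟩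
  filter_upwards [h1] with x hx
  refine ⟨?_, ?_, ?_⟩
  · refine le_trans ?_ (le_max_left _ _)
    rw [← Real.norm_eq_abs]
    refine hC x fun a _ => ?_
    rw [Metric.mem_closedBall, dist_zero_right]
    exact hx a
  · refine le_trans ?_ ((le_max_left _ _).trans (le_max_right _ _))
    rw [abs_of_nonneg (Finset.sum_nonneg fun a _ => sq_nonneg _)]
    calc ∑ a, ‖x a‖ ^ 2 ≤ ∑ _a : Fin n, B ^ 2 :=
          Finset.sum_le_sum fun a _ => pow_le_pow_left₀ (norm_nonneg _) (hx a) 2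
      _ = n * B ^ 2 := by simp
  · refine le_trans ?_ ((le_max_right _ _).trans (le_max_right _ _))
    refine (norm_sum_le _ _).trans ?_
    calc ∑ a, ‖x a‖ ≤ ∑ _a : Fin n, B := Finset.sum_le_sum fun a _ => hx a
      _ = n * B := by simp

theorem pr_sum (x : Fin n → E d) :
    1 / 2 * ‖∑ a, x a‖ ^ 2 - 1 / 2 * ∑ a, ‖x a‖ ^ 2 = pr 0 x := by
  have h1 : ‖∑ a, x a‖ ^ 2 = ∑ a, ∑ b, ⟪x a, x b⟫_ℝ := by
    rw [← real_inner_self_eq_norm_sq, sum_inner]
    exact Finset.sum_congr rfl fun a _ => inner_sum _ _ _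
  have h2 : ∀ a b : Fin n, ⟪x a, x b⟫_ℝ = (if a < b then ⟪x a, x b⟫_ℝ else 0) +
      (if b < a then ⟪x a, x b⟫_ℝ else 0) + (if a = b then ‖x a‖ ^ 2 else 0) := by
    intro a b
    rcases lt_trichotomy a b with h | h | h
    · rw [if_pos h, if_neg (not_lt.2 h.le), if_neg h.ne]
      ring
    · subst h
      rw [if_neg (lt_irrefl _), if_pos rfl, real_inner_self_eq_norm_sq]
      ring
    · rw [if_neg (not_lt.2 h.le), if_pos h, if_neg h.ne']
      ring
  have h3 : ∑ a, ∑ b, ⟪x a, x b⟫_ℝ = pr 0 x + pr 0 x + ∑ a, ‖x a‖ ^ 2 := by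
    rw [Finset.sum_congr rfl fun a _ => Finset.sum_congr rfl fun b _ => h2 a b]
    simp only [Finset.sum_add_distrib]
    congr 1
    · congr 1
      · unfold pr
        simp only [sub_zero]
      · rw [Finset.sum_comm]
        unfold pr
        simp only [sub_zero]
        refine Finset.sum_congr rfl fun a _ => Finset.sum_congr rfl fun b _ => ?_
        rw [real_inner_comm]
    · simp
  rw [h1, h3]
  ring

end KNDh

open KNDh in
theorem knd (hE : X_EXI) : X_KND := by
  intro d n B μ F hB hμ hF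
  have hp := hμ.prob
  have mφ : Continuous fun x : Fin n → E d => ∑ a, x a := by fun_prop
  have mψ : Continuous fun x : Fin n → E d => ∑ a, ‖x a‖ ^ 2 := by fun_prop
  have all : ∀ F : (Fin n → E d) → ℝ, Continuous F → ContDiff ℝ 2 (KN μ n F) ∧
      ∀ (q : ℝ × E d) (σ : ℝ) (η : E d), fderiv ℝ (KN μ n F) q (σ, η) =
        KN μ n (fun x => F x * (⟪∑ a, x a, η⟫_ℝ - σ / 2 * ∑ a, ‖x a‖ ^ 2)) q := by
    intro F hF
    obtain ⟨B', hB'⟩ := bound hμ hF
    obtain ⟨e1, e2⟩ := hE d (Fin n → E d) (Measure.pi fun _ => μ) B' F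
      (fun x => ∑ a, ‖x a‖ ^ 2) (fun x => ∑ a, x a) hF.measurable mψ.measurable mφ.measurable hB'
    rw [← kn_eq] at e1 e2
    refine ⟨e1, fun q σ η => ?_⟩
    rw [e2, kn_eq]
  obtain ⟨c1, c2⟩ := all F hF
  refine ⟨c1, ?_, ?_⟩
  · intro q η
    rw [c2]
    simp only [zero_div, zero_mul, sub_zero]
  · intro q
    have hint : ∀ G : (Fin n → E d) → ℝ, Continuous G → Integrable (fun x => G x *
        Real.exp (∑ a, (⟪x a, q.2⟫_ℝ - q.1 / 2 * ‖x a‖ ^ 2))) (Measure.pi fun _ => μ) := by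
      intro G hG
      have hc : Continuous fun x : Fin n → E d => G x *
          Real.exp (∑ a, (⟪x a, q.2⟫_ℝ - q.1 / 2 * ‖x a‖ ^ 2)) := by fun_prop
      obtain ⟨B', hB'⟩ := bound hμ hc
      refine Integrable.of_bound hc.aestronglyMeasurable B' ?_
      filter_upwards [hB'] with x hx
      rw [Real.norm_eq_abs]
      exact hx.1
    have hdf : Differentiable ℝ (fderiv ℝ (KN μ n F)) :=
      (c1.fderiv_right (m := 1) (by norm_num)).differentiable one_ne_zero
    have h2 : ∀ j : Fin d, fderiv ℝ (fderiv ℝ (KN μ n F)) q (0, EuclideanSpace.single j 1)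
        (0, EuclideanSpace.single j 1) =
        KN μ n (fun x => F x * ⟪∑ a, x a, EuclideanSpace.single j (1 : ℝ)⟫_ℝ *
          ⟪∑ a, x a, EuclideanSpace.single j (1 : ℝ)⟫_ℝ) q := by
      intro j
      have k1 : fderiv ℝ (fun q => fderiv ℝ (KN μ n F) q (0, EuclideanSpace.single j 1)) q
          (0, EuclideanSpace.single j 1) =
          fderiv ℝ (fderiv ℝ (KN μ n F)) q (0, EuclideanSpace.single j 1)
            (0, EuclideanSpace.single j 1) := by
        have k2 := ((hdf q).hasFDerivAt.clm_apply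
          (hasFDerivAt_const ((0, EuclideanSpace.single j 1) : ℝ × E d) q)).fderiv
        rw [k2]
        simp
      rw [← k1]
      have k3 : (fun q => fderiv ℝ (KN μ n F) q (0, EuclideanSpace.single j 1)) =
          KN μ n (fun x => F x * ⟪∑ a, x a, EuclideanSpace.single j (1 : ℝ)⟫_ℝ) := by
        funext q
        rw [c2]
        simp only [zero_div, zero_mul, sub_zero]
      rw [k3, (all _ (by fun_prop)).2]
      simp only [zero_div, zero_mul, sub_zero]
    unfold hea
    rw [c2, Finset.sum_congr rfl fun j _ => h2 j]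
    unfold KN
    rw [← integral_finsetSum _ fun j _ => hint _ (by fun_prop), ← integral_const_mul,
      ← integral_add (hint _ (by fun_prop)) (Integrable.const_mul (integrable_finsetSum _ fun j _ =>
        hint _ (by fun_prop)) _)]
    refine integral_congr_ae (Eventually.of_forall fun x => ?_)
    simp only
    rw [← pr_sum]
    have e1 : ‖∑ a, x a‖ ^ 2 = ∑ j : Fin d, ⟪∑ a, x a, EuclideanSpace.single j (1 : ℝ)⟫_ℝ *
        ⟪∑ a, x a, EuclideanSpace.single j (1 : ℝ)⟫_ℝ := by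
      rw [EuclideanSpace.norm_sq_eq]
      refine Finset.sum_congr rfl fun j _ => ?_
      rw [EuclideanSpace.inner_single_right, Real.norm_eq_abs, sq_abs]
      simp
      ring
    rw [e1, inner_zero_right, ← Finset.sum_mul]
    have e2 : ∑ j : Fin d, F x * ⟪∑ a, x a, EuclideanSpace.single j (1 : ℝ)⟫_ℝ *
        ⟪∑ a, x a, EuclideanSpace.single j (1 : ℝ)⟫_ℝ = F x * ∑ j : Fin d,
        ⟪∑ a, x a, EuclideanSpace.single j (1 : ℝ)⟫_ℝ *
        ⟪∑ a, x a, EuclideanSpace.single j (1 : ℝ)⟫_ℝ := by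
      rw [Finset.mul_sum]
      exact Finset.sum_congr rfl fun j _ => by ring
    rw [e2]
    ring

end Pool.Agent.T2h52.FC
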