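import Pool.Agent.T2h52.FC.Stm

/-!
# Project FC, LIN: the linear part of the averaged mean
-/

set_option autoImplicit false

namespace Pool.Agent.T2h52.FC

open MeasureTheory Set Filter Topology ProbabilityTheory
open scoped ENNReal InnerProductSpace Pointwise
open Pool.Agent.R755.KF (PB)
open Pool.Agent.N555.RZ (mP Spr mP_prob mP_ae)
open Pool.Agent.T2h52.SP
open Pool.Agent.T2h52.SQ
open Pool.Agent.T2h52.SO

namespace LINh

variable {d : ℕ}

theorem exists_pb {P : Set (E d)} {a : ℝ} (hP : Bn P a) : ∃ B : ℝ, 0 ≤ B ∧ PB B (mP P) ∧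
    ∀ᵐ z ∂(mP P), z ∈ P := by
  have h1 : (interior P).Nonempty := ⟨0, hP.int⟩
  have h2 : 0 < volume (interior P) := isOpen_interior.measure_pos volume h1
  have h3 : volume P ≠ 0 := (h2.trans_le (measure_mono interior_subset)).ne'
  have h4 : IsProbabilityMeasure (mP P) := mP_prob h3 hP.comp.measure_lt_top.ne
  obtain ⟨B, hB⟩ := hP.comp.isBounded.exists_norm_le
  have h5 : ∀ᵐ z ∂(mP P), z ∈ P := mP_ae hP.comp.isClosed.measurableSet
  refine ⟨max B 0, le_max_right _ _, ⟨h4, ?_⟩, h5⟩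
  filter_upwards [h5] with z hz
  exact (hB z hz).trans (le_max_left _ _)

theorem pj_sym {p : E d →L[ℝ] E d} {k : ℕ} (hp : Pj p k) (x y : E d) :
    ⟪p x, y⟫_ℝ = ⟪x, p y⟫_ℝ := by
  obtain ⟨b, S, -, h⟩ := hp
  rw [h, h, sum_inner, inner_sum]
  refine Finset.sum_congr rfl fun i _ => ?_
  rw [real_inner_smul_left, real_inner_smul_right, real_inner_comm x (b i)]
  ring

theorem pj_norm {p : E d →L[ℝ] E d} {k : ℕ} (hp : Pj p k) (x : E d) : ‖p x‖ ≤ ‖x‖ := by
  obtain ⟨b, S, -, h⟩ := hp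
  have h1 : ‖p x‖ ^ 2 = ∑ i ∈ S, ⟪b i, x⟫_ℝ ^ 2 := by
    rw [← real_inner_self_eq_norm_sq]
    conv_lhs => rw [h x]
    rw [sum_inner]
    refine Finset.sum_congr rfl fun i hi => ?_
    rw [real_inner_smul_left, inner_sum, Finset.sum_eq_single i]
    · rw [real_inner_smul_right, real_inner_self_eq_norm_sq, b.orthonormal.1 i]
      ring
    · intro j _ hj
      rw [real_inner_smul_right, b.orthonormal.2 (Ne.symm hj), mul_zero]
    · intro h
      exact absurd hi h
  have h2 : ‖x‖ ^ 2 = ∑ i, ⟪b i, x⟫_ℝ ^ 2 := by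
    rw [← b.sum_sq_norm_inner_right x]
    exact Finset.sum_congr rfl fun i _ => by rw [Real.norm_eq_abs, sq_abs]
  have h3 : ‖p x‖ ^ 2 ≤ ‖x‖ ^ 2 := by
    rw [h1, h2]
    exact Finset.sum_le_sum_of_subset_of_nonneg (Finset.subset_univ _) fun i _ _ => sq_nonneg _
  exact le_of_sq_le_sq h3 (norm_nonneg _)

theorem jen {α : Type} [MeasurableSpace α] {ν : Measure α} [IsProbabilityMeasure ν]
    {f : α → E d} {B : ℝ} (hm : AEStronglyMeasurable f ν) (hb : ∀ᵐ x ∂ν, ‖f x‖ ≤ B) :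
    ‖∫ x, f x ∂ν‖ ^ 2 ≤ ∫ x, ‖f x‖ ^ 2 ∂ν := by
  have hf : Integrable f ν := Integrable.of_bound hm B hb
  have hf2 : Integrable (fun x => ‖f x‖ ^ 2) ν := by
    refine Integrable.of_bound (hm.norm.pow 2) (B ^ 2) ?_
    filter_upwards [hb] with x hx
    rw [Real.norm_eq_abs, abs_of_nonneg (sq_nonneg _)]
    exact pow_le_pow_left₀ (norm_nonneg _) hx 2
  obtain ⟨m, hmd⟩ : ∃ m, m = ∫ x, f x ∂ν := ⟨_, rfl⟩
  have h0 : 0 ≤ ∫ x, ‖f x - m‖ ^ 2 ∂ν := integral_nonneg fun _ => sq_nonneg _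
  have h1 : ∀ x, ‖f x - m‖ ^ 2 = ‖f x‖ ^ 2 - 2 * ⟪m, f x⟫_ℝ + ‖m‖ ^ 2 := by
    intro x
    rw [norm_sub_sq_real, real_inner_comm]
  have hi : Integrable (fun x => 2 * ⟪m, f x⟫_ℝ) ν := (hf.const_inner m).const_mul 2
  simp only [h1] at h0
  rw [integral_add (by exact hf2.sub hi) (integrable_const _), integral_sub hf2 hi, integral_const_mul,
    integral_inner hf, ← hmd, real_inner_self_eq_norm_sq] at h0
  simp only [integral_const, probReal_univ, smul_eq_mul, one_mul] at h0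
  rw [← hmd]
  linarith

theorem fub (hGEX : X_GEX) {B : ℝ} {μ : Measure (E d)} (hμ : PB B μ) (H : E d → E d → ℝ)
    (hc : Continuous (Function.uncurry H)) (C c : ℝ)
    (hb : ∀ w x, ‖x‖ ≤ B → |H w x| ≤ C * Real.exp (c * ‖w‖)) :
    Integrable (fun w => ∫ x, H w x ∂μ) (ga d) ∧
    ∫ w, ∫ x, H w x ∂μ ∂(ga d) = ∫ x, ∫ w, H w x ∂(ga d) ∂μ := by
  have hp := hμ.prob
  have h1 : Integrable (fun z : E d × E d => C * Real.exp (c * ‖z.1‖)) ((ga d).prod μ) :=
    (((hGEX d).1 c).comp_fst (ν := μ)).const_mul C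
  have h2 : Integrable (Function.uncurry H) ((ga d).prod μ) := by
    refine h1.mono' hc.aestronglyMeasurable ?_
    have h3 : ∀ᵐ z : E d × E d ∂((ga d).prod μ), ‖z.2‖ ≤ B :=
      Measure.quasiMeasurePreserving_snd.ae hμ.bdd
    filter_upwards [h3] with z hz
    exact hb z.1 z.2 hz
  exact ⟨h2.integral_prod_left, integral_integral_swap h2⟩

end LINh

open LINh in
theorem lin (hGEX : X_GEX) (hGIR : X_GIR) (hBAS : X_BAS) (hINT : X_INT) : X_LIN := by
  intro d k P a s p hP hiso hp hs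
  obtain ⟨B, hB, hμ, hPm⟩ := exists_pb hP
  have hprob := hμ.prob
  obtain ⟨μ, hμd⟩ : ∃ μ, μ = mP P := ⟨_, rfl⟩
  have hiso' : ∀ w : E d, ∫ z, ⟪z, w⟫_ℝ ^ 2 ∂μ = ‖w‖ ^ 2 := by
    rw [hμd]
    exact hiso
  rw [← hμd] at hμ hprob hPm ⊢
  have hpn := pj_norm hp
  have hps := pj_sym hp
  obtain ⟨b1, b2, b3, b4, b5, b6, b7, b8⟩ := hBAS d B μ s p hB hμ hs.le hpn
  obtain ⟨g, hgd⟩ : ∃ g, g = mn μ s p := ⟨_, rfl⟩
  rw [← hgd] at b4 b6 b8
  have hsq : 0 ≤ Real.sqrt s := Real.sqrt_nonneg s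
  have hss : Real.sqrt s * Real.sqrt s = s := Real.mul_self_sqrt hs.le
  have hW : ∀ w x : E d, ‖x‖ ≤ B →
      Real.exp (ex s p w x) ≤ Real.exp (Real.sqrt s * B * ‖w‖) := by
    intro w x hx
    refine Real.exp_le_exp.2 ?_
    unfold ex
    have k1 : ⟪p x, w⟫_ℝ ≤ B * ‖w‖ := (real_inner_le_norm _ _).trans
      (mul_le_mul_of_nonneg_right ((hpn x).trans hx) (norm_nonneg _))
    have k2 : 0 ≤ s / 2 * ‖p x‖ ^ 2 := by positivity
    have k3 := mul_le_mul_of_nonneg_left k1 hsq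
    linarith
  have cex : Continuous (Function.uncurry fun w x : E d => Real.exp (ex s p w x)) := by
    unfold ex Function.uncurry
    fun_prop
  have hle : ∀ w : E d, ‖w‖ ≤ Real.exp ‖w‖ := fun w => by
    have := Real.add_one_le_exp ‖w‖
    linarith
  have hex1 : ∀ w : E d, (1 : ℝ) ≤ Real.exp ‖w‖ := fun w => Real.one_le_exp (norm_nonneg _)
  have hin : ∀ w v : E d, |⟪w, v⟫_ℝ| ≤ ‖v‖ * Real.exp ‖w‖ := by
    intro w v
    refine (abs_real_inner_le_norm w v).trans ?_
    rw [mul_comm]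
    exact mul_le_mul_of_nonneg_left (hle w) (norm_nonneg _)
  have hga : ∀ w u : E d, |⟪g w, u⟫_ℝ| ≤ B * ‖u‖ := fun w u =>
    (abs_real_inner_le_norm _ _).trans (mul_le_mul_of_nonneg_right (b6 w) (norm_nonneg _))
  -- shifts
  have shift : ∀ (G : E d → ℝ) (x : E d), Measurable G →
      (∃ C c : ℝ, ∀ w, |G w| ≤ C * Real.exp (c * ‖w‖)) →
      ∫ w, G (w + Real.sqrt s • p x) ∂(ga d) = ∫ w, G w * Real.exp (ex s p w x) ∂(ga d) := by
    intro G x h1 h2
    rw [hGIR d G (Real.sqrt s • p x) h1 h2]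
    refine integral_congr_ae (Eventually.of_forall fun w => ?_)
    simp only
    congr 2
    unfold ex
    rw [real_inner_smul_left, norm_smul, Real.norm_eq_abs, abs_of_nonneg hsq, mul_pow, sq, hss]
    ring
  have intW : ∀ w : E d, ∫ x, Real.exp (ex s p w x) ∂μ = Z μ s p w := fun w => rfl
  have cg2 : Continuous fun z : E d × E d => g (z.1 + Real.sqrt s • p z.2) := by fun_prop
  -- the function
  obtain ⟨ψ, hψ⟩ : ∃ ψ : E d → E d, ψ = fun w => ∫ x, g (w + Real.sqrt s • p x) ∂μ := ⟨_, rfl⟩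
  have iψ : ∀ w, Integrable (fun x => g (w + Real.sqrt s • p x)) μ := by
    intro w
    have hc : Continuous fun x => g (w + Real.sqrt s • p x) := by fun_prop
    exact Integrable.of_bound hc.aestronglyMeasurable B (Eventually.of_forall fun x => b6 _)
  have mg : ∀ w, g w ∈ P := by
    intro w
    have hν := b5 w
    have hp2 := hν.prob
    rw [hgd]
    unfold mn
    refine hP.conv.integral_mem hP.comp.isClosed ?_ ?_
    · exact (tilted_absolutelyContinuous μ (ex s p w)).ae_le hPm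
    · exact Integrable.of_bound continuous_id.aestronglyMeasurable B hν.bdd
  refine ⟨ψ, ?_, ?_, ?_, ?_⟩
  · have c2 := (cg2.stronglyMeasurable.integral_prod_right' (ν := μ))
    rw [hψ]
    exact c2.measurable
  · intro w
    rw [hψ]
    exact hP.conv.integral_mem hP.comp.isClosed (Eventually.of_forall fun x => mg _) (iψ w)
  · -- the norm
    have f1 := fub hGEX hμ (fun w x => ‖g (w + Real.sqrt s • p x)‖ ^ 2)
      (by unfold Function.uncurry; fun_prop) (B ^ 2) 1 (fun w x _ => by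
        rw [abs_of_nonneg (sq_nonneg _), one_mul]
        have k1 : ‖g (w + Real.sqrt s • p x)‖ ^ 2 ≤ B ^ 2 :=
          pow_le_pow_left₀ (norm_nonneg _) (b6 _) 2
        have k2 := hex1 w
        nlinarith [sq_nonneg B])
    have f2 := fub hGEX hμ (fun w x => ‖g w‖ ^ 2 * Real.exp (ex s p w x))
      (by
        have : Continuous fun z : E d × E d => ‖g z.1‖ ^ 2 := by fun_prop
        exact this.mul cex) (B ^ 2) (Real.sqrt s * B) (fun w x hx => by
        rw [abs_of_nonneg (by positivity)]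
        exact mul_le_mul (pow_le_pow_left₀ (norm_nonneg _) (b6 _) 2) (hW w x hx)
          (Real.exp_pos _).le (by positivity))
    have e1 : ∫ w, ∫ x, ‖g (w + Real.sqrt s • p x)‖ ^ 2 ∂μ ∂(ga d) =
        ∫ w, Z μ s p w * ‖g w‖ ^ 2 ∂(ga d) := by
      rw [f1.2]
      have e2 : ∀ x, ∫ w, ‖g (w + Real.sqrt s • p x)‖ ^ 2 ∂(ga d) =
          ∫ w, ‖g w‖ ^ 2 * Real.exp (ex s p w x) ∂(ga d) := by
        intro x
        refine shift (fun w => ‖g w‖ ^ 2) x (by fun_prop) ⟨B ^ 2, 0, fun w => ?_⟩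
        rw [abs_of_nonneg (sq_nonneg _)]
        simpa using pow_le_pow_left₀ (norm_nonneg _) (b6 w) 2
      simp only [e2]
      rw [← f2.2]
      refine integral_congr_ae (Eventually.of_forall fun w => ?_)
      simp only
      rw [integral_const_mul, intW, mul_comm]
    obtain ⟨i1, i2⟩ := hINT d B μ s p hB hμ hs.le hpn (fun x => ‖x‖ ^ 2) (by fun_prop)
    have e3 : ∫ x, ‖x‖ ^ 2 ∂μ = d := by
      have k1 : ∀ x : E d, ‖x‖ ^ 2 = ∑ j : Fin d, ⟪x, EuclideanSpace.single j (1 : ℝ)⟫_ℝ ^ 2 := by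
        intro x
        rw [EuclideanSpace.norm_sq_eq]
        refine Finset.sum_congr rfl fun j _ => ?_
        rw [EuclideanSpace.inner_single_right, Real.norm_eq_abs, sq_abs]
        simp
      simp only [k1]
      rw [integral_finsetSum]
      · simp [hiso']
      · intro j _
        refine Integrable.of_bound (by fun_prop) (B ^ 2) ?_
        filter_upwards [hμ.bdd] with x hx
        rw [Real.norm_eq_abs, abs_of_nonneg (sq_nonneg _), ← sq_abs]
        refine pow_le_pow_left₀ (abs_nonneg _) ?_ 2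
        refine (abs_real_inner_le_norm _ _).trans ?_
        simpa using hx
    rw [e3] at i2
    have pt : ∀ w, Z μ s p w * ‖g w‖ ^ 2 ≤ ∫ x, ‖x‖ ^ 2 * Real.exp (ex s p w x) ∂μ := by
      intro w
      rw [← b7 w fun x => ‖x‖ ^ 2]
      refine mul_le_mul_of_nonneg_left ?_ ((Real.exp_pos _).le.trans (b1 w))
      have hν := b5 w
      have hp2 := hν.prob
      rw [hgd]
      exact jen continuous_id.aestronglyMeasurable hν.bdd
    have iZ : Integrable (fun w => Z μ s p w * ‖g w‖ ^ 2) (ga d) := by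
      refine i1.mono' (by fun_prop) (Eventually.of_forall fun w => ?_)
      rw [Real.norm_eq_abs, abs_of_nonneg (mul_nonneg ((Real.exp_pos _).le.trans (b1 w))
        (sq_nonneg _))]
      exact pt w
    calc ∫ w, ‖ψ w‖ ^ 2 ∂(ga d) ≤ ∫ w, ∫ x, ‖g (w + Real.sqrt s • p x)‖ ^ 2 ∂μ ∂(ga d) := by
          refine integral_mono_of_nonneg (Eventually.of_forall fun w => sq_nonneg _) f1.1
            (Eventually.of_forall fun w => ?_)
          rw [hψ]
          exact jen (iψ w).aestronglyMeasurable (Eventually.of_forall fun x => b6 _)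
      _ = ∫ w, Z μ s p w * ‖g w‖ ^ 2 ∂(ga d) := e1
      _ ≤ ∫ w, ∫ x, ‖x‖ ^ 2 * Real.exp (ex s p w x) ∂μ ∂(ga d) := integral_mono iZ i1 pt
      _ = d := i2
  · -- the linear part
    intro u v
    have f1 := fub hGEX hμ (fun w x => ⟪g (w + Real.sqrt s • p x), u⟫_ℝ * ⟪w, v⟫_ℝ)
      (by unfold Function.uncurry; fun_prop) (B * ‖u‖ * ‖v‖) 1 (fun w x _ => by
        rw [abs_mul, one_mul, mul_assoc]
        exact mul_le_mul (hga _ _) (hin w v) (abs_nonneg _) (by positivity))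
    have f2 := fub hGEX hμ (fun w x => ⟪g w, u⟫_ℝ * (⟪w, v⟫_ℝ - Real.sqrt s * ⟪p x, v⟫_ℝ) *
        Real.exp (ex s p w x))
      (by
        have : Continuous fun z : E d × E d =>
            ⟪g z.1, u⟫_ℝ * (⟪z.1, v⟫_ℝ - Real.sqrt s * ⟪p z.2, v⟫_ℝ) := by fun_prop
        exact this.mul cex) (B * ‖u‖ * (‖v‖ + Real.sqrt s * (B * ‖v‖))) (1 + Real.sqrt s * B)
      (fun w x hx => by
        rw [abs_mul, abs_mul, abs_of_pos (Real.exp_pos _), add_mul, one_mul, Real.exp_add]
        have k1 : |⟪w, v⟫_ℝ - Real.sqrt s * ⟪p x, v⟫_ℝ| ≤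
            (‖v‖ + Real.sqrt s * (B * ‖v‖)) * Real.exp ‖w‖ := by
          refine (abs_sub _ _).trans ?_
          rw [abs_mul, abs_of_nonneg hsq, add_mul]
          refine add_le_add (hin w v) ?_
          have k2 : |⟪p x, v⟫_ℝ| ≤ B * ‖v‖ := (abs_real_inner_le_norm _ _).trans
            (mul_le_mul_of_nonneg_right ((hpn x).trans hx) (norm_nonneg _))
          have k3 := mul_le_mul_of_nonneg_left k2 hsq
          have k4 := hex1 w
          have k5 : 0 ≤ Real.sqrt s * (B * ‖v‖) := by positivity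
          nlinarith
        calc |⟪g w, u⟫_ℝ| * |⟪w, v⟫_ℝ - Real.sqrt s * ⟪p x, v⟫_ℝ| * Real.exp (ex s p w x) ≤
            (B * ‖u‖) * ((‖v‖ + Real.sqrt s * (B * ‖v‖)) * Real.exp ‖w‖) *
              Real.exp (Real.sqrt s * B * ‖w‖) :=
            mul_le_mul (mul_le_mul (hga _ _) k1 (abs_nonneg _) (by positivity)) (hW w x hx)
              (Real.exp_pos _).le (by positivity)
          _ = _ := by ring)
    have f3 := fub hGEX hμ (fun w x => ⟪x, u⟫_ℝ * ⟪w, v⟫_ℝ * Real.exp (ex s p w x))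
      (by
        have : Continuous fun z : E d × E d => ⟪z.2, u⟫_ℝ * ⟪z.1, v⟫_ℝ := by fun_prop
        exact this.mul cex) (B * ‖u‖ * ‖v‖) (1 + Real.sqrt s * B)
      (fun w x hx => by
        rw [abs_mul, abs_mul, abs_of_pos (Real.exp_pos _), add_mul, one_mul, Real.exp_add]
        have k2 : |⟪x, u⟫_ℝ| ≤ B * ‖u‖ := (abs_real_inner_le_norm _ _).trans
          (mul_le_mul_of_nonneg_right hx (norm_nonneg _))
        calc |⟪x, u⟫_ℝ| * |⟪w, v⟫_ℝ| * Real.exp (ex s p w x) ≤
            (B * ‖u‖) * (‖v‖ * Real.exp ‖w‖) * Real.exp (Real.sqrt s * B * ‖w‖) :=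
            mul_le_mul (mul_le_mul k2 (hin w v) (abs_nonneg _) (by positivity)) (hW w x hx)
              (Real.exp_pos _).le (by positivity)
          _ = _ := by ring)
    -- the Gaussian mean of `⟪w, v⟫ W`
    have gm1 : ∀ x : E d, ∫ w, ⟪w, v⟫_ℝ * Real.exp (ex s p w x) ∂(ga d) =
        Real.sqrt s * ⟪x, p v⟫_ℝ := by
      intro x
      have hmeas : Measurable fun w : E d => ⟪w, v⟫_ℝ := by fun_prop
      rw [← shift (fun w => ⟪w, v⟫_ℝ) x hmeas ⟨‖v‖, 1, fun w => by
        rw [one_mul]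
        exact hin w v⟩]
      have hid : Integrable (fun w : E d => w) (ga d) := IsGaussian.integrable_id
      have k1 : ∫ w : E d, ⟪w, v⟫_ℝ ∂(ga d) = 0 := by
        have k2 := integral_inner (𝕜 := ℝ) hid v
        rw [integral_id_stdGaussian, inner_zero_right] at k2
        rw [← k2]
        exact integral_congr_ae (Eventually.of_forall fun w => real_inner_comm _ _)
      have hi : Integrable (fun w : E d => ⟪w, v⟫_ℝ) (ga d) := hid.inner_const v
      simp only [inner_add_left]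
      rw [integral_add hi (integrable_const _), k1, zero_add, integral_const]
      simp only [probReal_univ, smul_eq_mul, one_mul]
      rw [real_inner_smul_left, hps]
    have e1 : ∀ w, ⟪ψ w, u⟫_ℝ * ⟪w, v⟫_ℝ =
        ∫ x, ⟪g (w + Real.sqrt s • p x), u⟫_ℝ * ⟪w, v⟫_ℝ ∂μ := by
      intro w
      rw [integral_mul_const, hψ]
      congr 1
      have k1 := integral_inner (𝕜 := ℝ) (iψ w) u
      simp only
      rw [real_inner_comm, ← k1]
      exact integral_congr_ae (Eventually.of_forall fun x => real_inner_comm _ _)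
    have e2 : ∀ x, ∫ w, ⟪g (w + Real.sqrt s • p x), u⟫_ℝ * ⟪w, v⟫_ℝ ∂(ga d) =
        ∫ w, ⟪g w, u⟫_ℝ * (⟪w, v⟫_ℝ - Real.sqrt s * ⟪p x, v⟫_ℝ) *
        Real.exp (ex s p w x) ∂(ga d) := by
      intro x
      rw [← shift (fun w => ⟪g w, u⟫_ℝ * (⟪w, v⟫_ℝ - Real.sqrt s * ⟪p x, v⟫_ℝ)) x
        (by
          have : Continuous fun w => ⟪g w, u⟫_ℝ * (⟪w, v⟫_ℝ - Real.sqrt s * ⟪p x, v⟫_ℝ) := by
            fun_prop
          exact this.measurable)
        ⟨B * ‖u‖ * (‖v‖ + |Real.sqrt s * ⟪p x, v⟫_ℝ|), 1, fun w => by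
          rw [abs_mul, one_mul, mul_assoc]
          refine mul_le_mul (hga _ _) ?_ (abs_nonneg _) (by positivity)
          refine (abs_sub _ _).trans ?_
          rw [add_mul]
          refine add_le_add (hin w v) ?_
          have k4 := hex1 w
          have k5 := abs_nonneg (Real.sqrt s * ⟪p x, v⟫_ℝ)
          nlinarith⟩]
      refine integral_congr_ae (Eventually.of_forall fun w => ?_)
      simp only
      rw [inner_add_left, real_inner_smul_left, add_sub_cancel_right]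
    have e3 : ∀ w, ∫ x, ⟪g w, u⟫_ℝ * (⟪w, v⟫_ℝ - Real.sqrt s * ⟪p x, v⟫_ℝ) *
        Real.exp (ex s p w x) ∂μ = ⟪w, v⟫_ℝ * (Z μ s p w * ⟪g w, u⟫_ℝ) -
          Real.sqrt s * (Z μ s p w * (⟪g w, p v⟫_ℝ * ⟪g w, u⟫_ℝ)) := by
      intro w
      have hWi : Integrable (fun x => Real.exp (ex s p w x)) μ := by
        refine Integrable.of_bound ?_ (Real.exp (Real.sqrt s * B * ‖w‖)) ?_
        · have : Continuous fun x => Real.exp (ex s p w x) := by
            unfold ex
            fun_prop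
          exact this.aestronglyMeasurable
        · filter_upwards [hμ.bdd] with x hx
          rw [Real.norm_eq_abs, abs_of_pos (Real.exp_pos _)]
          exact hW w x hx
      have hWi2 : Integrable (fun x => ⟪x, p v⟫_ℝ * Real.exp (ex s p w x)) μ := by
        refine Integrable.of_bound ?_ (B * ‖p v‖ * Real.exp (Real.sqrt s * B * ‖w‖)) ?_
        · have : Continuous fun x => ⟪x, p v⟫_ℝ * Real.exp (ex s p w x) := by
            unfold ex
            fun_prop
          exact this.aestronglyMeasurable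
        · filter_upwards [hμ.bdd] with x hx
          rw [Real.norm_eq_abs, abs_mul, abs_of_pos (Real.exp_pos _)]
          exact mul_le_mul ((abs_real_inner_le_norm _ _).trans
            (mul_le_mul_of_nonneg_right hx (norm_nonneg _))) (hW w x hx) (Real.exp_pos _).le
            (by positivity)
      have k1 : ∀ x, ⟪g w, u⟫_ℝ * (⟪w, v⟫_ℝ - Real.sqrt s * ⟪p x, v⟫_ℝ) *
          Real.exp (ex s p w x) = (⟪g w, u⟫_ℝ * ⟪w, v⟫_ℝ) * Real.exp (ex s p w x) -
          (⟪g w, u⟫_ℝ * Real.sqrt s) * (⟪x, p v⟫_ℝ * Real.exp (ex s p w x)) := by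
        intro x
        rw [hps]
        ring
      simp only [k1]
      rw [integral_sub (hWi.const_mul _) (hWi2.const_mul _), integral_const_mul,
        integral_const_mul, intW, ← b8]
      ring
    have e4 : ∀ w, ⟪w, v⟫_ℝ * (Z μ s p w * ⟪g w, u⟫_ℝ) =
        ∫ x, ⟪x, u⟫_ℝ * ⟪w, v⟫_ℝ * Real.exp (ex s p w x) ∂μ := by
      intro w
      rw [b8, ← integral_const_mul]
      exact integral_congr_ae (Eventually.of_forall fun x => by
        simp only
        ring)
    have e5 : ∫ w, ⟪w, v⟫_ℝ * (Z μ s p w * ⟪g w, u⟫_ℝ) ∂(ga d) =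
        Real.sqrt s * ⟪p v, u⟫_ℝ := by
      simp only [e4]
      rw [f3.2]
      have k1 : ∀ x : E d, ∫ w, ⟪x, u⟫_ℝ * ⟪w, v⟫_ℝ * Real.exp (ex s p w x) ∂(ga d) =
          Real.sqrt s * (⟪x, u⟫_ℝ * ⟪x, p v⟫_ℝ) := by
        intro x
        simp only [mul_assoc]
        rw [integral_const_mul, gm1]
        ring
      simp only [k1]
      rw [integral_const_mul]
      congr 1
      -- polarisation
      have bi : ∀ y : E d, Integrable (fun z => ⟪z, y⟫_ℝ ^ 2) μ := by
        intro y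
        refine Integrable.of_bound (by fun_prop) ((B * ‖y‖) ^ 2) ?_
        filter_upwards [hμ.bdd] with x hx
        rw [Real.norm_eq_abs, abs_of_nonneg (sq_nonneg _), ← sq_abs]
        exact pow_le_pow_left₀ (abs_nonneg _) ((abs_real_inner_le_norm _ _).trans
          (mul_le_mul_of_nonneg_right hx (norm_nonneg _))) 2
      have k2 : ∀ x : E d, ⟪x, u⟫_ℝ * ⟪x, p v⟫_ℝ = 1 / 4 * (⟪x, u + p v⟫_ℝ ^ 2 -
          ⟪x, u - p v⟫_ℝ ^ 2) := by
        intro x
        rw [inner_add_right, inner_sub_right]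
        ring
      simp only [k2]
      rw [integral_const_mul, integral_sub (bi _) (bi _), hiso', hiso', norm_add_sq_real,
        norm_sub_sq_real, real_inner_comm]
      ring
    have iT : Integrable (fun w => ⟪w, v⟫_ℝ * (Z μ s p w * ⟪g w, u⟫_ℝ)) (ga d) := by
      simp only [e4]
      exact f3.1
    have iS : Integrable (fun w => Z μ s p w * (⟪g w, p v⟫_ℝ * ⟪g w, u⟫_ℝ)) (ga d) := by
      refine (((hGEX d).1 (Real.sqrt s * B)).const_mul ((B * ‖p v‖) * (B * ‖u‖))).mono'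
        (by fun_prop) (Eventually.of_forall fun w => ?_)
      rw [Real.norm_eq_abs, abs_mul, abs_mul, abs_of_nonneg ((Real.exp_pos _).le.trans (b1 w)),
        mul_comm]
      exact mul_le_mul (mul_le_mul (hga _ _) (hga _ _) (abs_nonneg _) (by positivity)) (b2 w)
        ((Real.exp_pos _).le.trans (b1 w)) (by positivity)
    simp only [e1]
    rw [f1.2]
    simp only [e2]
    rw [← f2.2]
    simp only [e3]
    rw [integral_sub iT (iS.const_mul _), integral_const_mul, e5]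
    unfold Sb
    rw [← hgd]
    ring

end Pool.Agent.T2h52.FC
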