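import Pool.Agent.T2h52.FC.Stm

/-!
# LOC: lower tails by log-concavity of the Gaussian measure
-/

set_option autoImplicit false

namespace Pool.Agent.T2h52.FC

open MeasureTheory Set Filter Topology ProbabilityTheory
open scoped ENNReal InnerProductSpace Pointwise
open Pool.Agent.T2h52.SP

/-- a sequence with `U (j+2) U j ≤ U (j+1)²`, decreasing, `U 0 ≥ 3/4`, `U 1 ≤ 1/4` -/
lemma loc_seq_bound (U : ℕ → ℝ) (hn : ∀ j, 0 ≤ U j) (hm : ∀ j, U (j + 1) ≤ U j)
    (h0 : 3 / 4 ≤ U 0) (h1 : U 1 ≤ 1 / 4) (hl : ∀ j, U j * U (j + 2) ≤ U (j + 1) ^ 2) (j : ℕ) :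
    U (j + 1) ≤ 1 / 4 * (1 / 3) ^ j := by
  have hr : ∀ j, 3 * U (j + 1) ≤ U j := by
    intro j
    induction j with
    | zero => linarith
    | succ j ih =>
      rcases (hn j).eq_or_lt with h | h
      · have a := hn (j + 1)
        have b := hm (j + 1)
        have c := hn (j + 2)
        have e : U (j + 1 + 1) = U (j + 2) := rfl
        linarith
      · have a := hl j
        have b := hn (j + 1)
        have e : U (j + 1 + 1) = U (j + 2) := rfl
        have c : U j * (3 * U (j + 2)) ≤ U j * U (j + 1) := by nlinarith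
        have := le_of_mul_le_mul_left c h
        linarith
  induction j with
  | zero => simpa using h1
  | succ j ih =>
    have := hr (j + 1)
    rw [pow_succ]
    linarith

theorem loc (hg : X_GPL) : X_LOC := by
  intro d G m σ hG hpos hmid hm hσ hσ1 hint hvar
  have hmm := abs_le.1 hm
  have hmeas : ∀ t : ℝ, MeasurableSet {w : E d | G w ≤ t} := fun t =>
    hG.measurable measurableSet_Iic
  set l0 : ℝ := m + 2 * σ with hl0
  set r : ℝ := (m - 2 * σ) / (m + 2 * σ) with hr
  have hl0pos : 0 < l0 := by rw [hl0]; linarith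
  have hr0 : 0 < r := by
    rw [hr]
    apply div_pos <;> linarith
  have hr1 : r ≤ 1 := by
    rw [hr, div_le_one (by linarith)]
    linarith
  have hrb : 1 - 5 * σ ≤ r := by
    rw [hr, le_div_iff₀ (by linarith)]
    nlinarith
  set lev : ℕ → ℝ := fun j => l0 * r ^ j with hlev
  have hlevpos : ∀ j, 0 < lev j := fun j => mul_pos hl0pos (pow_pos hr0 j)
  set U : ℕ → ℝ := fun j => (ga d {w : E d | G w ≤ lev j}).toReal with hU
  have hfin : ∀ A : Set (E d), ga d A ≠ ⊤ := fun A => measure_ne_top _ _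
  have hcheb : (ga d {w : E d | 4 * σ ^ 2 ≤ (G w - m) ^ 2}).toReal ≤ 1 / 4 := by
    have h := mul_meas_ge_le_integral_of_nonneg
      (Filter.Eventually.of_forall fun w : E d => sq_nonneg (G w - m)) hint (4 * σ ^ 2)
    have h2 : 4 * σ ^ 2 * (ga d {w : E d | 4 * σ ^ 2 ≤ (G w - m) ^ 2}).toReal ≤ σ ^ 2 := h.trans hvar
    have h3 : 0 < σ ^ 2 := by positivity
    have h4 : σ ^ 2 * (4 * (ga d {w : E d | 4 * σ ^ 2 ≤ (G w - m) ^ 2}).toReal) ≤ σ ^ 2 * 1 := by
      linarith
    have := le_of_mul_le_mul_left h4 h3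
    linarith
  have hU0 : 3 / 4 ≤ U 0 := by
    have e0 : lev 0 = m + 2 * σ := by simp [hlev, hl0]
    have hsub : {w : E d | G w ≤ lev 0}ᶜ ⊆ {w : E d | 4 * σ ^ 2 ≤ (G w - m) ^ 2} := by
      intro w hw
      rw [e0] at hw
      simp only [mem_compl_iff, mem_ofPred_eq, not_le] at hw ⊢
      nlinarith
    have h1 : (ga d {w : E d | G w ≤ lev 0}ᶜ).toReal ≤ 1 / 4 :=
      (ENNReal.toReal_mono (hfin _) (measure_mono hsub)).trans hcheb
    have h2 : (ga d {w : E d | G w ≤ lev 0}ᶜ).toReal = 1 - U 0 := by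
      have := probReal_compl_eq_one_sub (μ := ga d) (hmeas (lev 0))
      exact this
    linarith
  have hU1 : U 1 ≤ 1 / 4 := by
    have e1 : lev 1 = m - 2 * σ := by
      have hne : m + 2 * σ ≠ 0 := (by linarith : 0 < m + 2 * σ).ne'
      simp only [hlev, pow_one, hr, hl0]
      exact mul_div_cancel₀ _ hne
    have hsub : {w : E d | G w ≤ lev 1} ⊆ {w : E d | 4 * σ ^ 2 ≤ (G w - m) ^ 2} := by
      intro w hw
      rw [e1] at hw
      simp only [mem_ofPred_eq] at hw ⊢
      nlinarith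
    exact (ENNReal.toReal_mono (hfin _) (measure_mono hsub)).trans hcheb
  have hUm : ∀ j, U (j + 1) ≤ U j := by
    intro j
    apply ENNReal.toReal_mono (hfin _)
    apply measure_mono
    intro w hw
    simp only [mem_ofPred_eq] at hw ⊢
    refine hw.trans ?_
    simp only [hlev]
    apply mul_le_mul_of_nonneg_left _ hl0pos.le
    exact pow_le_pow_of_le_one hr0.le hr1 (Nat.le_succ j)
  have hUl : ∀ j, U j * U (j + 2) ≤ U (j + 1) ^ 2 := by
    intro j
    have h := hg d {w | G w ≤ lev j} {w | G w ≤ lev (j + 2)} {w | G w ≤ lev (j + 1)} (hmeas _)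
      (hmeas _) (hmeas _) (by
        intro x hx y hy
        simp only [mem_ofPred_eq] at hx hy ⊢
        have h1 := hmid x y
        have h2 : G x * G y ≤ lev j * lev (j + 2) :=
          mul_le_mul hx hy (hpos y).le (hlevpos j).le
        have h3 : lev j * lev (j + 2) = lev (j + 1) ^ 2 := by
          simp only [hlev]
          ring
        have h4 : G ((1 / 2 : ℝ) • (x + y)) ^ 2 ≤ lev (j + 1) ^ 2 := by linarith
        exact le_of_sq_le_sq h4 (hlevpos _).le)
    have h2 := ENNReal.toReal_mono (ENNReal.pow_ne_top (hfin _)) h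
    rw [ENNReal.toReal_mul, ENNReal.toReal_pow] at h2
    exact h2
  set j := ⌊1 / (12 * σ)⌋₊ with hj
  have hjle : (j : ℝ) ≤ 1 / (12 * σ) := Nat.floor_le (by positivity)
  have hjge : 1 / (12 * σ) < j + 1 := Nat.lt_floor_add_one _
  have hσinv : 1000 ≤ 1 / σ := by
    rw [le_div_iff₀ hσ]
    linarith
  have hj1 : 1 ≤ j := by
    rw [hj]
    apply Nat.le_floor
    have : 1 / (12 * σ) = 1 / 12 * (1 / σ) := by field_simp
    rw [this]
    push_cast
    linarith
  obtain ⟨i, hi⟩ := Nat.exists_eq_add_of_le' hj1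
  have hkey := loc_seq_bound U (fun j => ENNReal.toReal_nonneg) hUm hU0 hU1 hUl i
  have hlevj : 1 / 2 ≤ lev (i + 1) := by
    rw [← hi]
    have hb : 1 + (j : ℝ) * (-(5 * σ)) ≤ (1 + -(5 * σ)) ^ j :=
      one_add_mul_le_pow (by linarith) j
    have hb2 : (1 + -(5 * σ)) ^ j ≤ r ^ j :=
      pow_le_pow_left₀ (by linarith) (by linarith) j
    have hb3 : (j : ℝ) * (5 * σ) ≤ 5 / 12 := by
      calc (j : ℝ) * (5 * σ) ≤ 1 / (12 * σ) * (5 * σ) := by gcongr
        _ = 5 / 12 := by field_simp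
    have hb4 : 7 / 12 ≤ r ^ j := by linarith
    simp only [hlev]
    have hb5 : 99 / 100 ≤ l0 := by rw [hl0]; linarith
    nlinarith
  have hfinal : (ga d {w : E d | G w < 1 / 2}).toReal ≤ U (i + 1) := by
    apply ENNReal.toReal_mono (hfin _)
    apply measure_mono
    intro w hw
    simp only [mem_ofPred_eq] at hw ⊢
    linarith
  refine hfinal.trans (hkey.trans ?_)
  have he : (1 / 3 : ℝ) ^ i ≤ Real.exp (-(i : ℝ)) := by
    have h1 : (1 / 3 : ℝ) ≤ Real.exp (-1) := by
      rw [Real.exp_neg, one_div]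
      apply inv_anti₀ (Real.exp_pos 1)
      have := Real.exp_one_lt_d9
      linarith
    calc (1 / 3 : ℝ) ^ i ≤ Real.exp (-1) ^ i := pow_le_pow_left₀ (by norm_num) h1 i
      _ = Real.exp (-(i : ℝ)) := by
        rw [← Real.exp_nat_mul]
        ring_nf
  have hexp : Real.exp (-(i : ℝ)) ≤ Real.exp (-(1 / (20 * σ))) := by
    apply Real.exp_le_exp.2
    have e1 : 1 / (12 * σ) = 1 / 12 * (1 / σ) := by field_simp
    have e2 : 1 / (20 * σ) = 1 / 20 * (1 / σ) := by field_simp
    have e3 : (j : ℝ) = i + 1 := by exact_mod_cast hi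
    rw [e1] at hjge
    rw [e2]
    linarith
  have hp : 0 < Real.exp (-(1 / (20 * σ))) := Real.exp_pos _
  have hq : (0 : ℝ) ≤ (1 / 3) ^ i := by positivity
  linarith

end Pool.Agent.T2h52.FC
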