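import Pool.Agent.T2h52.FC.Stm

/-!
# LTL: the lower tail of the truncated partition function
-/

set_option autoImplicit false

namespace Pool.Agent.T2h52.FC

open MeasureTheory Set Filter Topology ProbabilityTheory
open scoped ENNReal InnerProductSpace Pointwise
open Pool.Agent.R755.KF (PB)
open Pool.Agent.N555.RZ (mP Spr)
open Pool.Agent.T2h52.SP
open Pool.Agent.T2h52.SQ
open Pool.Agent.T2h52.SO

namespace Ltl

lemma ex_cont {d : ℕ} (s : ℝ) (p : E d →L[ℝ] E d) (w : E d) : Continuous (fun x => ex s p w x) := by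
  unfold ex
  fun_prop

lemma ex_cont_w {d : ℕ} (s : ℝ) (p : E d →L[ℝ] E d) (x : E d) : Continuous (fun w => ex s p w x) := by
  unfold ex
  fun_prop

lemma ex_le {d : ℕ} {s : ℝ} (hs : 0 ≤ s) (p : E d →L[ℝ] E d) (w x : E d) {R : ℝ} (hx : ‖x‖ ≤ R) :
    ex s p w x ≤ Real.sqrt s * (‖p‖ * R) * ‖w‖ := by
  unfold ex
  have h1 : ⟪p x, w⟫_ℝ ≤ ‖p x‖ * ‖w‖ := real_inner_le_norm _ _
  have h2 : ‖p x‖ ≤ ‖p‖ * R := (p.le_opNorm x).trans (mul_le_mul_of_nonneg_left hx (norm_nonneg _))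
  have h3 : ‖p x‖ * ‖w‖ ≤ ‖p‖ * R * ‖w‖ := mul_le_mul_of_nonneg_right h2 (norm_nonneg _)
  have h4 : Real.sqrt s * ⟪p x, w⟫_ℝ ≤ Real.sqrt s * (‖p‖ * R * ‖w‖) :=
    mul_le_mul_of_nonneg_left (h1.trans h3) (Real.sqrt_nonneg _)
  have h5 : 0 ≤ s / 2 * ‖p x‖ ^ 2 := by positivity
  linarith

lemma ex_mid {d : ℕ} (s : ℝ) (p : E d →L[ℝ] E d) (w w' x : E d) :
    ex s p ((1 / 2 : ℝ) • (w + w')) x = 1 / 2 * ex s p w x + 1 / 2 * ex s p w' x := by
  unfold ex
  rw [inner_smul_right, inner_add_right]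
  ring

section
variable {d : ℕ} {ν : Measure (E d)} [IsFiniteMeasure ν] {R s : ℝ} (p : E d →L[ℝ] E d)

lemma int_ex (hs : 0 ≤ s) (hb : ∀ᵐ x ∂ν, ‖x‖ ≤ R) (w : E d) :
    Integrable (fun x => Real.exp (ex s p w x)) ν := by
  refine Integrable.of_bound (C := Real.exp (Real.sqrt s * (‖p‖ * R) * ‖w‖))
    (Real.continuous_exp.comp (ex_cont s p w)).aestronglyMeasurable ?_
  filter_upwards [hb] with x hx
  rw [Real.norm_eq_abs, abs_of_pos (Real.exp_pos _)]
  exact Real.exp_le_exp.2 (ex_le hs p w x hx)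

lemma G_le (hs : 0 ≤ s) (hb : ∀ᵐ x ∂ν, ‖x‖ ≤ R) (w : E d) :
    ∫ x, Real.exp (ex s p w x) ∂ν ≤
      (ν univ).toReal * Real.exp (Real.sqrt s * (‖p‖ * R) * ‖w‖) := by
  calc ∫ x, Real.exp (ex s p w x) ∂ν
      ≤ ∫ _x, Real.exp (Real.sqrt s * (‖p‖ * R) * ‖w‖) ∂ν := by
        apply integral_mono_ae (int_ex p hs hb w) (integrable_const _)
        filter_upwards [hb] with x hx
        exact Real.exp_le_exp.2 (ex_le hs p w x hx)
    _ = _ := by
        rw [integral_const, smul_eq_mul]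
        rfl

lemma G_cont (hs : 0 ≤ s) (hb : ∀ᵐ x ∂ν, ‖x‖ ≤ R) (hR : 0 ≤ R) :
    Continuous (fun w => ∫ x, Real.exp (ex s p w x) ∂ν) := by
  rw [continuous_iff_continuousAt]
  intro w₀
  refine continuousAt_of_dominated
    (bound := fun _ => Real.exp (Real.sqrt s * (‖p‖ * R) * (‖w₀‖ + 1))) ?_ ?_ (integrable_const _) ?_
  · exact Filter.Eventually.of_forall fun w =>
      (Real.continuous_exp.comp (ex_cont s p w)).aestronglyMeasurable
  · have hnear : ∀ᶠ w in 𝓝 w₀, ‖w‖ < ‖w₀‖ + 1 :=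
      (continuous_norm.tendsto w₀).eventually (gt_mem_nhds (by linarith))
    filter_upwards [hnear] with w hw
    filter_upwards [hb] with x hx
    rw [Real.norm_eq_abs, abs_of_pos (Real.exp_pos _)]
    apply Real.exp_le_exp.2
    refine (ex_le hs p w x hx).trans ?_
    apply mul_le_mul_of_nonneg_left hw.le
    positivity
  · exact Filter.Eventually.of_forall fun x =>
      (Real.continuous_exp.comp (ex_cont_w s p x)).continuousAt

lemma G_mid [NeZero ν] (hs : 0 ≤ s) (hb : ∀ᵐ x ∂ν, ‖x‖ ≤ R) (w w' : E d) :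
    (∫ x, Real.exp (ex s p ((1 / 2 : ℝ) • (w + w')) x) ∂ν) ^ 2 ≤
      (∫ x, Real.exp (ex s p w x) ∂ν) * ∫ x, Real.exp (ex s p w' x) ∂ν := by
  set A := ∫ x, Real.exp (ex s p w x) ∂ν with hA
  set B := ∫ x, Real.exp (ex s p w' x) ∂ν with hB
  set c := ∫ x, Real.exp (ex s p ((1 / 2 : ℝ) • (w + w')) x) ∂ν with hc
  have iA := int_ex p hs hb w
  have iB := int_ex p hs hb w'
  have ic := int_ex p hs hb ((1 / 2 : ℝ) • (w + w'))
  have A0 : 0 < A := integral_exp_pos iA
  have B0 : 0 < B := integral_exp_pos iB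
  have c0 : 0 < c := integral_exp_pos ic
  set t := c / A with ht
  have t0 : 0 < t := div_pos c0 A0
  have hpt : ∀ x, 2 * Real.exp (ex s p ((1 / 2 : ℝ) • (w + w')) x) ≤
      t * Real.exp (ex s p w x) + t⁻¹ * Real.exp (ex s p w' x) := by
    intro x
    rw [ex_mid, Real.exp_add]
    set f := Real.exp (1 / 2 * ex s p w x) with hf
    set g := Real.exp (1 / 2 * ex s p w' x) with hg
    have e1 : Real.exp (ex s p w x) = f ^ 2 := by
      rw [hf, ← Real.exp_nat_mul]
      congr 1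
      push_cast
      ring
    have e2 : Real.exp (ex s p w' x) = g ^ 2 := by
      rw [hg, ← Real.exp_nat_mul]
      congr 1
      push_cast
      ring
    rw [e1, e2]
    have h1 : 0 ≤ (t * f - g) ^ 2 := sq_nonneg _
    have h2 : t * f ^ 2 + t⁻¹ * g ^ 2 - 2 * (f * g) = t⁻¹ * (t * f - g) ^ 2 := by
      field_simp
      ring
    have h3 : 0 ≤ t⁻¹ * (t * f - g) ^ 2 := by positivity
    linarith
  have h1 : 2 * c ≤ t * A + t⁻¹ * B := by
    rw [hc, hA, hB, ← integral_const_mul, ← integral_const_mul, ← integral_const_mul,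
      ← integral_add (iA.const_mul t) (iB.const_mul t⁻¹)]
    exact integral_mono (ic.const_mul 2) ((iA.const_mul t).add (iB.const_mul t⁻¹)) hpt
  have h2 : t * A = c := div_mul_cancel₀ c A0.ne'
  have h3 : t⁻¹ * B = A * B / c := by
    rw [ht]
    field_simp
  rw [h2, h3] at h1
  have h4 : c ≤ A * B / c := by linarith
  rw [le_div_iff₀ c0] at h4
  nlinarith

end

end Ltl

theorem ltl (hG : X_GEX) (hT : X_TRU) (hV : X_VAR) (hL : X_LOC) : X_LTL := by
  intro d k P a s p hd hP hI hp hk hs hs1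
  obtain ⟨hmeas, htru⟩ := hT d k P a p hd hP hI hp hk
  set B := Bt P p k with hB
  have hvol0 : volume P ≠ 0 := by
    have h1 : 0 < volume (interior P) := isOpen_interior.measure_pos volume ⟨0, hP.int⟩
    exact (h1.trans_le (measure_mono interior_subset)).ne'
  have hvolt : volume P ≠ ⊤ := hP.comp.measure_lt_top.ne
  haveI : IsProbabilityMeasure (mP P) := Pool.Agent.N555.RZ.mP_prob hvol0 hvolt
  obtain ⟨R, hR⟩ := hP.comp.isBounded.exists_norm_le
  have hR0 : 0 ≤ R := (norm_nonneg _).trans (hR 0 (interior_subset hP.int))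
  set ν := (mP P).restrict B with hν
  have hb : ∀ᵐ x ∂ν, ‖x‖ ≤ R := by
    filter_upwards [ae_restrict_mem hmeas] with x hx
    exact hR x hx.1
  set m := ((mP P) B).toReal with hm
  have hdr : (10 : ℝ) ^ 50 ≤ d := by exact_mod_cast hd
  have hd1 : (1 : ℝ) ≤ (d : ℝ) + 1 := by linarith [show (0 : ℝ) ≤ d from Nat.cast_nonneg d]
  have hcomp : ((mP P) Bᶜ).toReal = 1 - m := probReal_compl_eq_one_sub (μ := mP P) hmeas
  have hm1 : m ≤ 1 := by
    have : 0 ≤ ((mP P) Bᶜ).toReal := ENNReal.toReal_nonneg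
    linarith
  have hsmall : 1 / ((d : ℝ) + 1) ^ 18 ≤ 1 / 100 := by
    apply one_div_le_one_div_of_le (by norm_num)
    calc (100 : ℝ) ≤ (d : ℝ) + 1 := by linarith [show (100 : ℝ) ≤ 10 ^ 50 by norm_num]
      _ ≤ ((d : ℝ) + 1) ^ 18 := le_self_pow₀ hd1 (by norm_num)
  have hmabs : |m - 1| ≤ 1 / 100 := by
    rw [abs_le]
    constructor <;> linarith
  haveI : NeZero ν := by
    constructor
    intro h0
    have h1 : ν univ = 0 := by rw [h0]; simp
    rw [hν, Measure.restrict_apply_univ] at h1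
    have h2 : m = 0 := by rw [hm, h1]; simp
    have := (abs_le.1 hmabs).1
    linarith
  set L := Real.log ((d : ℝ) + 1) with hLdef
  have hL1 : 1 ≤ L := by
    rw [hLdef, Real.le_log_iff_exp_le (by linarith)]
    have := Real.exp_one_lt_d9
    linarith [show (3 : ℝ) ≤ 10 ^ 50 by norm_num]
  set σ := 1 / (10 ^ 9 * L) with hσ
  have hσ0 : 0 < σ := by positivity
  have hσ1 : σ ≤ 1 / 1000 := by
    rw [hσ]
    apply one_div_le_one_div_of_le (by norm_num)
    linarith
  set G : E d → ℝ := ZB (mP P) B s p with hGdef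
  have hGe : G = fun w => ∫ x, Real.exp (ex s p w x) ∂ν := rfl
  have hcont : Continuous G := by
    rw [hGe]
    exact Ltl.G_cont p hs.le hb hR0
  have hpos : ∀ w, 0 < G w := fun w => integral_exp_pos (Ltl.int_ex p hs.le hb w)
  have hmid : ∀ x y, G ((1 / 2 : ℝ) • (x + y)) ^ 2 ≤ G x * G y := fun x y =>
    Ltl.G_mid p hs.le hb x y
  have hνu : (ν univ).toReal ≤ 1 := by
    rw [hν, Measure.restrict_apply_univ]
    exact hm1
  set c := Real.sqrt s * (‖p‖ * R) with hc
  have hc0 : 0 ≤ c := by positivity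
  have hGle : ∀ w, G w ≤ Real.exp (c * ‖w‖) := by
    intro w
    refine (Ltl.G_le p hs.le hb w).trans ?_
    have := Real.exp_pos (c * ‖w‖)
    nlinarith
  have hint : Integrable (fun w => (G w - m) ^ 2) (ga d) := by
    refine Integrable.mono' ((hG d).1 (2 * c)) ((hcont.sub continuous_const).pow 2).aestronglyMeasurable
      (Filter.Eventually.of_forall fun w => ?_)
    rw [Real.norm_eq_abs, abs_of_nonneg (sq_nonneg _)]
    have h1 := hGle w
    have h2 := hpos w
    have h3 : 1 ≤ Real.exp (c * ‖w‖) := Real.one_le_exp (by positivity)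
    have h4 : |G w - m| ≤ Real.exp (c * ‖w‖) := by
      rw [abs_le]
      have h5 : 0 ≤ m := ENNReal.toReal_nonneg
      constructor <;> linarith
    calc (G w - m) ^ 2 = |G w - m| ^ 2 := (sq_abs _).symm
      _ ≤ Real.exp (c * ‖w‖) ^ 2 := pow_le_pow_left₀ (abs_nonneg _) h4 2
      _ = Real.exp (2 * c * ‖w‖) := by
        rw [← Real.exp_nat_mul]
        congr 1
        push_cast
        ring
  have hvar := hV d k P a s p hd hP hI hp hk hs hs1
  have key := hL d G m σ hcont hpos hmid hmabs hσ0 hσ1 hint hvar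
  refine key.trans ?_
  have e1 : 1 / (20 * σ) = 10 ^ 9 / 20 * L := by
    rw [hσ]
    field_simp
  have e2 : 1 / ((d : ℝ) + 1) ^ 100 = Real.exp (-(100 * L)) := by
    rw [Real.exp_neg, one_div]
    congr 1
    rw [hLdef, show (100 : ℝ) = ((100 : ℕ) : ℝ) by norm_num, Real.exp_nat_mul,
      Real.exp_log (by linarith)]
  rw [e1, e2]
  apply Real.exp_le_exp.2
  linarith

end Pool.Agent.T2h52.FC
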