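import Pool.Agent.T2h52.FC.Stm

/-! M4: second moments of linear functionals on small sets -/

set_option autoImplicit false

namespace Pool.Agent.T2h52.FC

open MeasureTheory Set Filter Topology ProbabilityTheory
open scoped ENNReal InnerProductSpace Pointwise
open Pool.Agent.R755.KF (PB)
open Pool.Agent.N555.RZ (mP Spr)
open Pool.Agent.T2h52.SP
open Pool.Agent.T2h52.SQ
open Pool.Agent.T2h52.SO

namespace M4aux

lemma vol_ne {d : ℕ} {P : Set (E d)} {a : ℝ} (hP : Bn P a) : volume P ≠ 0 :=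
  (Measure.measure_pos_of_mem_nhds volume (mem_interior_iff_mem_nhds.1 hP.int)).ne'

lemma mP_int {d : ℕ} {P : Set (E d)} {a : ℝ} (hP : Bn P a) {f : E d → ℝ} (hf : Continuous f) :
    Integrable f (mP P) := by
  unfold mP
  exact (hf.continuousOn.integrableOn_compact hP.comp).smul_measure (ENNReal.inv_ne_top.2 (vol_ne hP))

end M4aux

open M4aux

theorem m4 : X_M4 := by
  intro d P a hP hI x A hA
  have hprob : IsProbabilityMeasure (mP P) :=
    Pool.Agent.N555.RZ.mP_prob (vol_ne hP) hP.comp.measure_lt_top.ne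
  have hi2 : Integrable (fun u : E d => ⟪u, x⟫_ℝ ^ 2) (mP P) := mP_int hP (by fun_prop)
  have hi4 : Integrable (fun u : E d => ⟪u, x⟫_ℝ ^ 4) (mP P) := mP_int hP (by fun_prop)
  have h4 : ∫ u, ⟪u, x⟫_ℝ ^ 4 ∂(mP P) ≤ (160 * ‖x‖) ^ 4 := by
    have h5 := Pool.Agent.N555.RZ.mom_inner hP.conv hP.comp (mem_interior_iff_mem_nhds.1 hP.int)
      hI x 2 (by norm_num)
    rw [integral_eq_lintegral_of_nonneg_ae (Eventually.of_forall fun u => by positivity)
      hi4.aestronglyMeasurable]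
    refine ENNReal.toReal_le_of_le_ofReal (by positivity) ?_
    refine le_trans (le_of_eq ?_) (h5.trans (le_of_eq ?_))
    · refine lintegral_congr fun u => ?_
      rw [real_inner_comm]
      congr 1
      rw [show 2 * 2 = 4 by norm_num, show (4 : ℕ) = 2 * 2 by norm_num, pow_mul, pow_mul, sq_abs]
    · congr 1
      norm_num
  obtain ⟨α, hα⟩ : ∃ α, α = ((mP P) A).toReal := ⟨_, rfl⟩
  obtain ⟨m, hm⟩ : ∃ m, m = ∫ u in A, ⟪u, x⟫_ℝ ^ 2 ∂(mP P) := ⟨_, rfl⟩
  obtain ⟨M, hM⟩ : ∃ M, M = ∫ u in A, ⟪u, x⟫_ℝ ^ 4 ∂(mP P) := ⟨_, rfl⟩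
  have hα0 : 0 ≤ α := by rw [hα]; exact ENNReal.toReal_nonneg
  have hm0 : 0 ≤ m := by rw [hm]; exact integral_nonneg fun u => sq_nonneg _
  have hM1 : M ≤ (160 * ‖x‖) ^ 4 := by
    rw [hM]
    exact (setIntegral_le_integral hi4 (Eventually.of_forall fun u => by positivity)).trans h4
  rw [← hm, ← hα]
  rcases hα0.eq_or_lt with h0 | h0
  · have hA0 : (mP P) A = 0 := by
      have h1 : ((mP P) A).toReal = 0 := by rw [← hα]; exact h0.symm
      rcases (ENNReal.toReal_eq_zero_iff _).1 h1 with h2 | h2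
      · exact h2
      · exact absurd h2 (measure_ne_top _ _)
    have hm1 : m = 0 := by
      rw [hm, Measure.restrict_eq_zero.2 hA0, integral_zero_measure]
    rw [hm1]
    positivity
  · have hq : 0 ≤ ∫ u in A, (α * ⟪u, x⟫_ℝ ^ 2 - m) ^ 2 ∂(mP P) :=
      integral_nonneg fun u => sq_nonneg _
    have e1 : ∀ u : E d, (α * ⟪u, x⟫_ℝ ^ 2 - m) ^ 2 =
        α ^ 2 * ⟪u, x⟫_ℝ ^ 4 - (2 * α * m * ⟪u, x⟫_ℝ ^ 2 - m ^ 2) := fun u => by ring
    simp only [e1] at hq
    have j4 : Integrable (fun u : E d => α ^ 2 * ⟪u, x⟫_ℝ ^ 4) ((mP P).restrict A) :=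
      (hi4.integrableOn (s := A)).const_mul _
    have j2 : Integrable (fun u : E d => 2 * α * m * ⟪u, x⟫_ℝ ^ 2) ((mP P).restrict A) :=
      (hi2.integrableOn (s := A)).const_mul _
    have j0 : Integrable (fun _ : E d => m ^ 2) ((mP P).restrict A) := integrable_const _
    have i4 : ∫ u in A, α ^ 2 * ⟪u, x⟫_ℝ ^ 4 ∂(mP P) = α ^ 2 * M := by
      rw [hM]; exact integral_const_mul _ _
    have i2 : ∫ u in A, 2 * α * m * ⟪u, x⟫_ℝ ^ 2 ∂(mP P) = 2 * α * m * m := by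
      conv_rhs => rw [hm]
      rw [← hm]
      exact (integral_const_mul _ _).trans (by rw [← hm])
    have i0 : ∫ _u in A, m ^ 2 ∂(mP P) = α * m ^ 2 := by
      rw [setIntegral_const, smul_eq_mul, hα]
      rfl
    have j20 : Integrable (fun u : E d => 2 * α * m * ⟪u, x⟫_ℝ ^ 2 - m ^ 2)
      ((mP P).restrict A) := j2.sub j0
    rw [integral_sub j4 j20, integral_sub j2 j0, i4, i2, i0] at hq
    have h1 : 0 ≤ α * (α * M - m ^ 2) := by nlinarith
    have h2 : 0 ≤ α * M - m ^ 2 := nonneg_of_mul_nonneg_right h1 h0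
    have h3 : m ^ 2 ≤ (160 ^ 2 * ‖x‖ ^ 2 * Real.sqrt α) ^ 2 := by
      have e2 : (160 ^ 2 * ‖x‖ ^ 2 * Real.sqrt α) ^ 2 = α * (160 * ‖x‖) ^ 4 := by
        rw [mul_pow, Real.sq_sqrt hα0]
        ring
      rw [e2]
      have := mul_le_mul_of_nonneg_left hM1 hα0
      linarith
    exact (pow_le_pow_iff_left₀ hm0 (by positivity) two_ne_zero).1 h3

end Pool.Agent.T2h52.FC
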