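import Pool.Agent.T2h52.FC.Stm

set_option autoImplicit false

namespace Pool.Agent.T2h52.FC

open MeasureTheory Set Filter Topology ProbabilityTheory
open scoped ENNReal InnerProductSpace Pointwise
open Pool.Agent.R755.KF (PB)
open Pool.Agent.N555.RZ (mP Spr)
open Pool.Agent.T2h52.SP
open Pool.Agent.T2h52.SQ
open Pool.Agent.T2h52.SO

namespace MBaux

theorem id_Pj (d : ℕ) : Pj (I1 d) d := by
  refine ⟨EuclideanSpace.basisFun (Fin d) ℝ, Finset.univ, by simp, fun x => ?_⟩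
  rw [(EuclideanSpace.basisFun (Fin d) ℝ).sum_repr' x]
  rfl

theorem bd_cont {d : ℕ} {Q : Set (E d)} (hQ : Bd Q) : Continuous (gauge Q) :=
  continuous_gauge hQ.conv (mem_interior_iff_mem_nhds.mp hQ.int)

theorem bd_le {d : ℕ} {Q : Set (E d)} (hQ : Bd Q) : ∃ C : ℝ, 0 ≤ C ∧ ∀ x, gauge Q x ≤ C * ‖x‖ := by
  obtain ⟨r, hr, hb⟩ := Metric.mem_nhds_iff.mp (mem_interior_iff_mem_nhds.mp hQ.int)
  refine ⟨1 / r, by positivity, fun x => ?_⟩
  have := gauge_mono (absorbent_nhds_zero (Metric.ball_mem_nhds (0 : E d) hr)) hb x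
  rw [gauge_ball hr.le] at this
  calc gauge Q x ≤ ‖x‖ / r := this
    _ = 1 / r * ‖x‖ := by ring

theorem integ {d : ℕ} {Q : Set (E d)} (hQ : Bd Q) (T : E d →L[ℝ] E d) :
    Integrable (fun w => gauge Q (T w)) (ga d) := by
  obtain ⟨C, hC, hle⟩ := bd_le hQ
  have h1 : Integrable (fun w : E d => w) (ga d) := IsGaussian.integrable_id
  have h2 : Integrable (fun w : E d => C * (‖T‖ * ‖w‖)) (ga d) := (h1.norm.const_mul _).const_mul _
  refine h2.mono' ((bd_cont hQ).comp T.continuous).aestronglyMeasurable (Eventually.of_forall fun w => ?_)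
  rw [Real.norm_of_nonneg (gauge_nonneg _)]
  exact (hle _).trans (mul_le_mul_of_nonneg_left (T.le_opNorm w) hC)

theorem num1 {d : ℕ} (hd : 10 ^ 50 ≤ d) :
    6 * (2 * 10 ^ 5 * (d : ℝ) ^ ((1 : ℝ) / 64)) / Real.sqrt ((d : ℝ) ^ ((1 : ℝ) / 16) *
      (1 / (10 ^ 14 * Real.log (d + 1) ^ 3 * Real.sqrt d))) ≤
    10 ^ 14 * Real.log (d + 1) ^ ((3 : ℝ) / 2) * (d : ℝ) ^ ((15 : ℝ) / 64) := by
  have hd' : (10 : ℝ) ^ 50 ≤ d := by exact_mod_cast hd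
  have hd0 : (0 : ℝ) < d := lt_of_lt_of_le (by positivity) hd'
  have hL0 : 0 < Real.log ((d : ℝ) + 1) := Real.log_pos (by linarith)
  set L := Real.log ((d : ℝ) + 1)
  have e1 : (d : ℝ) ^ ((1 : ℝ) / 16) * (1 / (10 ^ 14 * L ^ 3 * Real.sqrt d)) =
      (1 / (10 ^ 7 * L ^ ((3 : ℝ) / 2) * (d : ℝ) ^ ((7 : ℝ) / 32))) ^ 2 := by
    have a1 : (L ^ ((3 : ℝ) / 2)) ^ 2 = L ^ 3 := by
      rw [← Real.rpow_natCast, ← Real.rpow_mul hL0.le, ← Real.rpow_natCast]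
      norm_num
    have a2 : ((d : ℝ) ^ ((7 : ℝ) / 32)) ^ 2 * (d : ℝ) ^ ((1 : ℝ) / 16) = Real.sqrt d := by
      rw [← Real.rpow_natCast, ← Real.rpow_mul hd0.le, ← Real.rpow_add hd0, Real.sqrt_eq_rpow]
      norm_num
    have a3 : 0 < (d : ℝ) ^ ((1 : ℝ) / 16) := Real.rpow_pos_of_pos hd0 _
    have a4 : 0 < (d : ℝ) ^ ((7 : ℝ) / 32) := Real.rpow_pos_of_pos hd0 _
    rw [div_pow, mul_pow, mul_pow, a1, ← a2]
    field_simp
  rw [e1, Real.sqrt_sq (by positivity)]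
  have e2 : 6 * (2 * 10 ^ 5 * (d : ℝ) ^ ((1 : ℝ) / 64)) /
      (1 / (10 ^ 7 * L ^ ((3 : ℝ) / 2) * (d : ℝ) ^ ((7 : ℝ) / 32))) =
      12 * 10 ^ 12 * L ^ ((3 : ℝ) / 2) * ((d : ℝ) ^ ((1 : ℝ) / 64) * (d : ℝ) ^ ((7 : ℝ) / 32)) := by
    have a4 : 0 < (d : ℝ) ^ ((7 : ℝ) / 32) := Real.rpow_pos_of_pos hd0 _
    have a5 : 0 < L ^ ((3 : ℝ) / 2) := Real.rpow_pos_of_pos hL0 _
    field_simp
    ring
  rw [e2, ← Real.rpow_add hd0]
  have e3 : (1 : ℝ) / 64 + 7 / 32 = 15 / 64 := by norm_num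
  rw [e3]
  have : 0 < L ^ ((3 : ℝ) / 2) * (d : ℝ) ^ ((15 : ℝ) / 64) := by positivity
  nlinarith

theorem num0 {d : ℕ} (hd : 2 ≤ d) (hd2 : ¬ 10 ^ 50 ≤ d) : Real.sqrt d ≤
    10 ^ 14 * Real.log (d + 1) ^ ((3 : ℝ) / 2) * (d : ℝ) ^ ((15 : ℝ) / 64) := by
  have hdR : (2 : ℝ) ≤ d := by exact_mod_cast hd
  have hd0 : (0 : ℝ) < d := by linarith
  have hlt : (d : ℝ) ≤ 10 ^ 50 := by
    push Not at hd2
    exact_mod_cast hd2.le
  have hL : 1 ≤ Real.log ((d : ℝ) + 1) := by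
    rw [Real.le_log_iff_exp_le (by linarith)]
    have := Real.exp_one_lt_d9
    linarith
  have hL2 : 1 ≤ Real.log ((d : ℝ) + 1) ^ ((3 : ℝ) / 2) := Real.one_le_rpow hL (by norm_num)
  have e : Real.sqrt d = (d : ℝ) ^ ((17 : ℝ) / 64) * (d : ℝ) ^ ((15 : ℝ) / 64) := by
    rw [← Real.rpow_add hd0, Real.sqrt_eq_rpow]
    norm_num
  rw [e]
  apply mul_le_mul_of_nonneg_right _ (by positivity)
  have h1 : (d : ℝ) ^ ((17 : ℝ) / 64) ≤ (10 ^ 50 : ℝ) ^ ((17 : ℝ) / 64) :=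
    Real.rpow_le_rpow hd0.le hlt (by norm_num)
  have h2 : (10 ^ 50 : ℝ) ^ ((17 : ℝ) / 64) ≤ 10 ^ 14 := by
    rw [← Real.rpow_natCast 10 50, ← Real.rpow_mul (by norm_num), ← Real.rpow_natCast 10 14]
    exact Real.rpow_le_rpow_of_exponent_le (by norm_num) (by norm_num)
  nlinarith

end MBaux

open MBaux

theorem mb (h1 : X_GMG) (h2 : X_SMA) (h3 : X_SOP) (h4 : X_GRO) (h5 : X_ST2) (h6 : X_SPC)
    (h7 : X_KCL) (h8 : X_FIB) (h9 : X_ST1) (h10 : X_NU1) : X_MB := by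
  intro d P Q a hd hP hI hQ hs
  rw [h1 d (gauge Q)]
  by_cases hbig : 10 ^ 50 ≤ d
  swap
  · exact (h2 d P Q a hP hI hQ hs).trans (num0 hd hbig)
  have hd1 : 1 ≤ d := by omega
  have hd' : (10 : ℝ) ^ 50 ≤ d := by exact_mod_cast hbig
  have hd0 : (0 : ℝ) < d := lt_of_lt_of_le (by positivity) hd'
  have hL0 : 0 < Real.log ((d : ℝ) + 1) := Real.log_pos (by linarith)
  have n1 := num1 hbig
  set L := Real.log ((d : ℝ) + 1) with hL
  set K := 2 * 10 ^ 5 * (d : ℝ) ^ ((1 : ℝ) / 64) with hK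
  set R := (d : ℝ) ^ ((1 : ℝ) / 16) with hR
  set s0 := 1 / (10 ^ 14 * L ^ 3 * Real.sqrt d) with hs0
  set s1 := R * s0 with hs1
  have hR1 : 1 ≤ R := Real.one_le_rpow (by nlinarith) (by norm_num)
  have hR0 : 0 < R := by linarith
  have hs00 : 0 < s0 := by positivity
  have hs10 : 0 < s1 := by positivity
  obtain ⟨S, hS1, hS2, hS3, hS4, hS5⟩ := h3 d d P a s1 (I1 d) hP hI (id_Pj d) hs10
  have htr : ∀ b : OrthonormalBasis (Fin d) ℝ (E d), ∑ i, ⟪S (b i), b i⟫_ℝ ≤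
      R ^ 5 * (5 * s0 * d) := by
    intro b
    rw [hS5 b]
    exact (h4 d P a s0 R hP hs00 hR1).trans
      (mul_le_mul_of_nonneg_left (h5 d P a s0 hbig hP hI hs0) (by positivity))
  obtain ⟨k, p, hk, hp, hu⟩ := h6 d Q S _ hQ hS2 hS3 hS4 htr
  have hK1 := h7 d d P Q a s1 (I1 d) S hd1 hP hI hQ hs (id_Pj d) hs10 hS1
  simp only [ContinuousLinearMap.id_apply] at hK1
  have hu2 : ∫ w, gauge Q (w - p w) ∂(ga d) ≤ 2 * (K / Real.sqrt s1) :=
    hu.trans (mul_le_mul_of_nonneg_left hK1 (by norm_num))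
  have hK0 : 0 < K := by positivity
  have hq0 : 0 ≤ K / Real.sqrt s1 := by positivity
  rcases Nat.eq_zero_or_pos k with h0 | hpos
  · obtain ⟨b, T, hT, hpx⟩ := hp
    have hT0 : T = ∅ := Finset.card_eq_zero.mp (by rw [hT, h0])
    have hp0 : ∀ w, w - p w = w := by
      intro w
      rw [hpx w, hT0]
      simp
    simp only [hp0] at hu2
    calc ∫ w, gauge Q w ∂(ga d) ≤ 2 * (K / Real.sqrt s1) := hu2
      _ ≤ 6 * (K / Real.sqrt s1) := by linarith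
      _ = 6 * K / Real.sqrt s1 := by ring
      _ ≤ _ := n1
  · set sF := 1 / (10 ^ 14 * L ^ 3 * Real.sqrt k) with hsF
    have hk0 : (0 : ℝ) < k := by exact_mod_cast hpos
    have hsF0 : 0 < sF := by positivity
    obtain ⟨S', hT1, hT2, hT3, _, _⟩ := h3 d k P a sF p hP hI hp hsF0
    have hT6 : ∀ u, ⟪S' u, u⟫_ℝ ≤ 1 / 2 * ‖u‖ ^ 2 := by
      intro u
      rw [hT1 u u]
      exact h9 d k P a sF p hbig hP hI hp hpos hsF0 le_rfl u
    have hK2 : ∫ w, gauge Q (p w - S' (p w)) ∂(ga d) ≤ K / Real.sqrt sF :=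
      h7 d k P Q a sF p S' hd1 hP hI hQ hs hp hsF0 hT1
    have hF := h8 d k Q S' p hQ hp hT2 hT3 hT6
    have hsum : ∫ w, gauge Q w ∂(ga d) ≤ (∫ w, gauge Q (p w) ∂(ga d)) +
        ∫ w, gauge Q (w - p w) ∂(ga d) := by
      have i1 := integ hQ p
      have i2 := integ hQ (I1 d - p)
      have i3 := integ hQ (I1 d)
      simp only [_root_.sub_apply, ContinuousLinearMap.id_apply] at i2 i3
      rw [← integral_add i1 i2]
      refine integral_mono i3 (i1.add i2) fun w => ?_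
      have := gauge_add_le hQ.conv (absorbent_nhds_zero (mem_interior_iff_mem_nhds.mp hQ.int))
        (p w) (w - p w)
      rwa [add_sub_cancel] at this
    have hn := h10 d k K s0 s1 sF L hbig rfl rfl rfl rfl rfl hpos hk
    have e1 : 2 * K / Real.sqrt sF = 2 * (K / Real.sqrt sF) := by ring
    have e2 : 6 * K / Real.sqrt s1 = 6 * (K / Real.sqrt s1) := by ring
    rw [e1, e2] at hn
    linarith

end Pool.Agent.T2h52.FC
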