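import Pool.Agent.T2h52.FC.Stm

set_option autoImplicit false

namespace Pool.Agent.T2h52.FC

open scoped Pointwise
open Pool.Agent.T2h52.SP Pool.Agent.T2h52.SQ Pool.Agent.T2h52.SO

theorem mbt (h1 : V_TRB) (h2 : V_TWO) (h3 : X_MB) : X_MBT := by
  intro d P Q a b hd hP hb hI hQ hs
  obtain ⟨⟨a', ha'⟩, hI'⟩ := h1 d P a b hP hb
  obtain ⟨q1, q2, _, q4⟩ := h2 d P Q a b hP hb hQ hs
  have h := h3 d (tr P b) ((2 : ℝ) • Q) a' hd ha' (hI' hI) q1 q2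
  rw [q4] at h
  linarith

end Pool.Agent.T2h52.FC
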