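import Pool.Agent.T2h52.FC.MEHB

/-!
# Project FC: task MEH (Mehler's expansion)
-/

set_option autoImplicit false

namespace Pool.Agent.T2h52.FC

open MeasureTheory Set Filter Topology ProbabilityTheory
open scoped ENNReal InnerProductSpace Pointwise
open Pool.Agent.T2h52.SP

namespace MEH

variable {d : ℕ}

theorem N2_add_le {f g : E d → ℝ} (hf : MemLp f 2 (ga d)) (hg : MemLp g 2 (ga d)) :
    N2 (fun w => f w + g w) ≤ N2 f + N2 g := by
  have h := norm_add_le (hf.toLp f) (hg.toLp g)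
  rw [← MemLp.toLp_add, norm_toLp, norm_toLp, norm_toLp] at h
  exact h

theorem exists_seq (hX : X_BEX) (hD : X_DEN) {f : E d → ℝ} (hf : MemLp f 2 (ga d)) :
    ∃ α : ℕ → TT d, Tendsto (fun n => N2 (fun w => f w - fe (α n) w)) atTop (𝓝 0) ∧
      (∀ n, N2 (fe (α n)) ≤ N2 f + 1) ∧ Tendsto (fun n => N2 (fe (α n))) atTop (𝓝 (N2 f)) := by
  have h1 : ∀ n : ℕ, ∃ α : TT d, N2 (fun w => f w - fe α w) < 1 / ((n : ℝ) + 1) := fun n =>
    exists_approx hX hD hf (by positivity)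
  choose α hα using h1
  have h2 : Tendsto (fun n : ℕ => 1 / ((n : ℝ) + 1)) atTop (𝓝 0) :=
    tendsto_one_div_add_atTop_nhds_zero_nat
  have h3 : Tendsto (fun n => N2 (fun w => f w - fe (α n) w)) atTop (𝓝 0) :=
    squeeze_zero (fun n => N2_nonneg _) (fun n => (hα n).le) h2
  have h4 : ∀ n, N2 f ≤ N2 (fun w => f w - fe (α n) w) + N2 (fe (α n)) := by
    intro n
    have h := N2_add_le (hf.sub (memLp_fe hX (α n))) (memLp_fe hX (α n))
    have e : (fun w => (f - fe (α n)) w + fe (α n) w) = f := by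
      funext w
      simp
    rw [e] at h
    exact h
  have h5 : ∀ n, N2 (fe (α n)) ≤ N2 (fun w => f w - fe (α n) w) + N2 f := by
    intro n
    have h := N2_add_le ((hf.sub (memLp_fe hX (α n))).neg) hf
    have e : (fun w => (-(f - fe (α n))) w + f w) = fe (α n) := by
      funext w
      simp
    rw [e] at h
    have e2 : N2 (-(f - fe (α n))) = N2 (fun w => f w - fe (α n) w) := by
      rw [N2, N2]
      congr 1
      refine integral_congr_ae (Eventually.of_forall fun w => ?_)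
      simp only [Pi.neg_apply, Pi.sub_apply]
      ring
    rw [e2] at h
    exact h
  refine ⟨α, h3, fun n => ?_, ?_⟩
  · have h6 : 1 / ((n : ℝ) + 1) ≤ 1 := by
      rw [div_le_one (by positivity)]
      linarith [Nat.cast_nonneg (α := ℝ) n]
    linarith [h5 n, hα n]
  · have h7 : Tendsto (fun n => N2 f - N2 (fun w => f w - fe (α n) w)) atTop (𝓝 (N2 f - 0)) :=
      tendsto_const_nhds.sub h3
    have h8 : Tendsto (fun n => N2 (fun w => f w - fe (α n) w) + N2 f) atTop (𝓝 (0 + N2 f)) :=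
      h3.add tendsto_const_nhds
    rw [sub_zero] at h7
    rw [zero_add] at h8
    exact tendsto_of_tendsto_of_tendsto_of_le_of_le h7 h8
      (fun n => by simp only; linarith [h4 n]) (fun n => h5 n)

theorem Bm_abs_le (hB : X_BCO) {ρ : ℝ} (hρ : |ρ| ≤ 1) {f g : E d → ℝ} (hf : MemLp f 2 (ga d))
    (hg : MemLp g 2 (ga d)) : |Bm ρ f g| ≤ N2 f * N2 g := (hB d ρ f g hρ hf hg).2.2

theorem Bm_tendsto (hX : X_BEX) (hB : X_BCO) {ρ : ℝ} (hρ : |ρ| ≤ 1) {f g : E d → ℝ}
    (hf : MemLp f 2 (ga d)) (hg : MemLp g 2 (ga d)) (α β : ℕ → TT d)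
    (h1 : Tendsto (fun n => N2 (fun w => f w - fe (α n) w)) atTop (𝓝 0))
    (h2 : Tendsto (fun n => N2 (fun w => g w - fe (β n) w)) atTop (𝓝 0))
    (h3 : ∀ n, N2 (fe (α n)) ≤ N2 f + 1) :
    Tendsto (fun n => Bm ρ (fe (α n)) (fe (β n))) atTop (𝓝 (Bm ρ f g)) := by
  have h4 : ∀ n, |Bm ρ (fe (α n)) (fe (β n)) - Bm ρ f g| ≤
      N2 (fun w => f w - fe (α n) w) * N2 g + (N2 f + 1) * N2 (fun w => g w - fe (β n) w) := by
    intro n
    have ha := memLp_fe hX (α n)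
    have hb := memLp_fe hX (β n)
    have e1 : Bm ρ f g = Bm ρ (f - fe (α n)) g + Bm ρ (fe (α n)) g := by
      rw [← Bm_add_left hB hρ (hf.sub ha) ha hg]
      congr 1
      funext w
      simp
    have e2 : Bm ρ (fe (α n)) g = Bm ρ (fe (α n)) (g - fe (β n)) + Bm ρ (fe (α n)) (fe (β n)) := by
      rw [← Bm_add_right hB hρ ha (hg.sub hb) hb]
      congr 1
      funext w
      simp
    have e3 : Bm ρ (fe (α n)) (fe (β n)) - Bm ρ f g =
        -(Bm ρ (f - fe (α n)) g + Bm ρ (fe (α n)) (g - fe (β n))) := by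
      rw [e1, e2]; ring
    rw [e3, abs_neg]
    refine (abs_add_le _ _).trans (add_le_add ?_ ?_)
    · exact Bm_abs_le hB hρ (hf.sub ha) hg
    · refine (Bm_abs_le hB hρ ha (hg.sub hb)).trans ?_
      exact mul_le_mul_of_nonneg_right (h3 n) (N2_nonneg _)
  have h5 : Tendsto (fun n => N2 (fun w => f w - fe (α n) w) * N2 g +
      (N2 f + 1) * N2 (fun w => g w - fe (β n) w)) atTop (𝓝 (0 * N2 g + (N2 f + 1) * 0)) :=
    (h1.mul_const _).add (h2.const_mul _)
  rw [zero_mul, mul_zero, add_zero] at h5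
  rw [tendsto_iff_dist_tendsto_zero]
  refine squeeze_zero (fun n => dist_nonneg) (fun n => ?_) h5
  rw [Real.dist_eq]
  exact h4 n

/-! ### The linear coefficients -/

/-- the linear coefficient -/
noncomputable def cc (v : E d) (f : E d → ℝ) : ℝ := ∫ w, f w * ⟪w, v⟫_ℝ ∂(ga d)

theorem memLp_inner (v : E d) : MemLp (fun w : E d => ⟪w, v⟫_ℝ) 2 (ga d) := by
  have h := (innerSL ℝ v).comp_memLp' (IsGaussian.memLp_id (ga d) 2 (by norm_num))
  refine h.congr_norm (by fun_prop) (Eventually.of_forall fun w => ?_)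
  simp [real_inner_comm]

theorem integrable_cc {f : E d → ℝ} (hf : MemLp f 2 (ga d)) (v : E d) :
    Integrable (fun w => f w * ⟪w, v⟫_ℝ) (ga d) := hf.integrable_mul (memLp_inner v)

theorem cc_abs_le {f : E d → ℝ} (hf : MemLp f 2 (ga d)) (v : E d) :
    |cc v f| ≤ N2 f * N2 (fun w => ⟪w, v⟫_ℝ) := by
  have h := abs_real_inner_le_norm (hf.toLp f) ((memLp_inner v).toLp _)
  rw [norm_toLp, norm_toLp, L2.inner_def] at h
  have e : ∫ w, ⟪(hf.toLp f : Lp ℝ 2 (ga d)) w, ((memLp_inner v).toLp _ : Lp ℝ 2 (ga d)) w⟫_ℝ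
      ∂(ga d) = cc v f := by
    rw [cc]
    refine integral_congr_ae ?_
    filter_upwards [hf.coeFn_toLp, (memLp_inner v).coeFn_toLp] with w h1 h2
    rw [h1, h2]
    simp [mul_comm]
  rwa [e] at h

theorem cc_add {f g : E d → ℝ} (hf : MemLp f 2 (ga d)) (hg : MemLp g 2 (ga d)) (v : E d) :
    cc v (fun w => f w + g w) = cc v f + cc v g := by
  rw [cc, cc, cc, ← integral_add (integrable_cc hf v) (integrable_cc hg v)]
  refine integral_congr_ae (Eventually.of_forall fun w => ?_)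
  simp only
  ring

theorem cc_tendsto (hX : X_BEX) {f : E d → ℝ} (hf : MemLp f 2 (ga d)) (α : ℕ → TT d) (v : E d)
    (h1 : Tendsto (fun n => N2 (fun w => f w - fe (α n) w)) atTop (𝓝 0)) :
    Tendsto (fun n => cc v (fe (α n))) atTop (𝓝 (cc v f)) := by
  have h5 := h1.mul_const (N2 (fun w : E d => ⟪w, v⟫_ℝ))
  rw [zero_mul] at h5
  rw [tendsto_iff_dist_tendsto_zero]
  refine squeeze_zero (fun n => dist_nonneg) (fun n => ?_) h5
  rw [dist_comm, Real.dist_eq]
  have ha := memLp_fe hX (α n)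
  have e : cc v f = cc v (f - fe (α n)) + cc v (fe (α n)) := by
    rw [← cc_add (hf.sub ha) ha]
    congr 1
    funext w
    simp
  have e2 : cc v f - cc v (fe (α n)) = cc v (f - fe (α n)) := by
    rw [e]; ring
  rw [e2]
  exact cc_abs_le (hf.sub ha) v

theorem cc_ee (hI : X_IBP) (hG : X_GEX) (v t : E d) : cc v (ee t) = ⟪t, v⟫_ℝ := by
  have hd : ∀ w : E d, HasFDerivAt (fun w : E d => Real.exp ⟪t, w⟫_ℝ)
      (Real.exp ⟪t, w⟫_ℝ • innerSL ℝ t) w := by
    intro w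
    exact ((innerSL ℝ t).hasFDerivAt (x := w)).exp
  have hle : ∀ w : E d, Real.exp ⟪t, w⟫_ℝ ≤ Real.exp (‖t‖ * ‖w‖) := fun w =>
    Real.exp_le_exp.2 (real_inner_le_norm t w)
  have h := hI d (fun w : E d => Real.exp ⟪t, w⟫_ℝ) v (1 + ‖t‖) ‖t‖
    ((innerSL ℝ t).contDiff.exp) ?_ ?_
  · have e1 : ∀ w : E d, fderiv ℝ (fun w : E d => Real.exp ⟪t, w⟫_ℝ) w v =
        ⟪t, v⟫_ℝ * Real.exp ⟪t, w⟫_ℝ := by
      intro w
      rw [(hd w).fderiv]
      simp [mul_comm]
    simp only [e1] at h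
    rw [integral_const_mul, (hG d).2 t] at h
    have e2 : cc v (ee t) = Real.exp (-(‖t‖ ^ 2 / 2)) *
        ∫ w, Real.exp ⟪t, w⟫_ℝ * ⟪w, v⟫_ℝ ∂(ga d) := by
      rw [cc, ← integral_const_mul]
      refine integral_congr_ae (Eventually.of_forall fun w => ?_)
      simp only [ee]
      ring
    rw [e2, h]
    have e3 : Real.exp (-(‖t‖ ^ 2 / 2)) * Real.exp (‖t‖ ^ 2 / 2) = 1 := by
      rw [← Real.exp_add]; simp
    calc Real.exp (-(‖t‖ ^ 2 / 2)) * (⟪t, v⟫_ℝ * Real.exp (‖t‖ ^ 2 / 2)) =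
        ⟪t, v⟫_ℝ * (Real.exp (-(‖t‖ ^ 2 / 2)) * Real.exp (‖t‖ ^ 2 / 2)) := by ring
      _ = ⟪t, v⟫_ℝ := by rw [e3, mul_one]
  · intro w
    rw [abs_of_pos (Real.exp_pos _)]
    have h1 : 0 ≤ ‖t‖ * Real.exp (‖t‖ * ‖w‖) := by positivity
    nlinarith [hle w]
  · intro w
    rw [(hd w).fderiv, norm_smul, innerSL_apply_norm, Real.norm_of_nonneg (Real.exp_pos _).le]
    have h1 : Real.exp ⟪t, w⟫_ℝ * ‖t‖ ≤ Real.exp (‖t‖ * ‖w‖) * ‖t‖ :=
      mul_le_mul_of_nonneg_right (hle w) (norm_nonneg _)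
    nlinarith [Real.exp_pos (‖t‖ * ‖w‖)]

theorem cc_zero (v : E d) : cc v (fun _ => 0) = 0 := by simp [cc]

theorem cc_smul (v : E d) (a : ℝ) (f : E d → ℝ) : cc v (fun w => a * f w) = a * cc v f := by
  rw [cc, cc, ← integral_const_mul]
  refine integral_congr_ae (Eventually.of_forall fun w => ?_)
  simp only
  ring

/-- the standard basis -/
noncomputable abbrev bb (d : ℕ) : OrthonormalBasis (Fin d) ℝ (E d) := EuclideanSpace.basisFun (Fin d) ℝ

theorem inner_bb (t u : E d) : ∑ i, ⟪t, bb d i⟫_ℝ * ⟪u, bb d i⟫_ℝ = ⟪t, u⟫_ℝ := by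
  rw [← (bb d).sum_inner_mul_inner t u]
  refine Finset.sum_congr rfl fun i _ => ?_
  rw [real_inner_comm u]

theorem KB_Kk_one (hI : X_IBP) (hG : X_GEX) (hX : X_BEX) (α β : TT d) :
    KB (Kk 1) α β = ∑ i, cc (bb d i) (fe α) * cc (bb d i) (fe β) := by
  refine bil_induction (P := fun α β =>
    KB (Kk 1) α β = ∑ i, cc (bb d i) (fe α) * cc (bb d i) (fe β)) ?_ ?_ ?_ ?_ ?_ α β
  · intro β
    simp [fe_zero, cc_zero]
  · intro α
    simp [fe_zero, cc_zero]
  · intro α α' β h1 h2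
    rw [map_add, LinearMap.add_apply, h1, h2, ← Finset.sum_add_distrib]
    refine Finset.sum_congr rfl fun i _ => ?_
    rw [fe_add, cc_add (memLp_fe hX α) (memLp_fe hX α')]
    ring
  · intro α β β' h1 h2
    rw [map_add, h1, h2, ← Finset.sum_add_distrib]
    refine Finset.sum_congr rfl fun i _ => ?_
    rw [fe_add, cc_add (memLp_fe hX β) (memLp_fe hX β')]
    ring
  · intro t u a c
    rw [KB_single]
    have e : ∀ i, cc (bb d i) (fe (Finsupp.single t a)) * cc (bb d i) (fe (Finsupp.single u c)) =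
        (a * c) * (⟪t, bb d i⟫_ℝ * ⟪u, bb d i⟫_ℝ) := by
      intro i
      rw [fe_single, fe_single, cc_smul, cc_smul, cc_ee hI hG, cc_ee hI hG]
      ring
    simp only [e]
    rw [← Finset.mul_sum, inner_bb, Kk]
    simp
    ring

theorem L1_eq {f g : E d → ℝ} (hf : MemLp f 2 (ga d)) (hg : MemLp g 2 (ga d)) :
    ∫ w, ∫ w', ⟪w, w'⟫_ℝ * f w * g w' ∂(ga d) ∂(ga d) =
      ∑ i, cc (bb d i) f * cc (bb d i) g := by
  have h1 : ∀ w : E d, ∫ w', ⟪w, w'⟫_ℝ * f w * g w' ∂(ga d) =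
      ∑ i, (f w * ⟪w, bb d i⟫_ℝ) * cc (bb d i) g := by
    intro w
    have e : ∀ w' : E d, ⟪w, w'⟫_ℝ * f w * g w' =
        ∑ i, (f w * ⟪w, bb d i⟫_ℝ) * (g w' * ⟪w', bb d i⟫_ℝ) := by
      intro w'
      rw [← inner_bb w w', Finset.sum_mul, Finset.sum_mul]
      refine Finset.sum_congr rfl fun i _ => ?_
      ring
    simp only [e]
    rw [integral_finsetSum _ fun i _ => (integrable_cc hg (bb d i)).const_mul _]
    refine Finset.sum_congr rfl fun i _ => ?_
    rw [integral_const_mul, cc]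
  simp only [h1]
  rw [integral_finsetSum _ fun i _ => (integrable_cc hf (bb d i)).mul_const _]
  refine Finset.sum_congr rfl fun i _ => ?_
  rw [integral_mul_const]
  rfl

end MEH

open MEH in
/-- MEH -/
theorem meh (hG : X_GEX) (hI : X_IBP) (hD : X_DEN) (hS : X_SCH) (hB : X_BCO) (hX : X_BEX) :
    X_MEH := by
  intro d f g hf hg
  obtain ⟨α, ha0, ha1, ha2⟩ := exists_seq hX hD hf
  obtain ⟨β, hb0, hb1, hb2⟩ := exists_seq hX hD hg
  set M : ℝ := (N2 f + 1) * (N2 g + 1) with hM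
  have hM0 : 0 ≤ M := mul_nonneg (by linarith [N2_nonneg f]) (by linarith [N2_nonneg g])
  have hb : ∀ n k, |KB (Kk k) (α n) (β n)| ≤ M := by
    intro n k
    refine (KB_abs_le' hS hX hB k (α n) (β n)).trans ?_
    exact mul_le_mul (ha1 n) (hb1 n) (N2_nonneg _) (by linarith [N2_nonneg f])
  have hK : IsCompact (Set.univ.pi fun _ : ℕ => Icc (-M) M) :=
    isCompact_univ_pi fun _ => isCompact_Icc
  obtain ⟨b, hbm, φ, hφ, hlim⟩ := hK.tendsto_subseq
    (x := fun n => fun k : ℕ => KB (Kk k) (α n) (β n))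
    (fun n => by
      rw [Set.mem_univ_pi]
      intro k
      exact abs_le.1 (hb n k))
  have hlim' : ∀ k, Tendsto (fun n => KB (Kk k) (α (φ n)) (β (φ n))) atTop (𝓝 (b k)) := fun k =>
    (tendsto_pi_nhds.1 hlim) k
  have hφt : Tendsto φ atTop atTop := hφ.tendsto_atTop
  have hbk : ∀ k, |b k| ≤ M := fun k => abs_le.2 (by
    rw [Set.mem_univ_pi] at hbm
    exact hbm k)
  refine ⟨b, fun k => ?_, ?_, fun ρ hρ => ?_⟩
  · refine le_of_tendsto_of_tendsto' (hlim' k).abs ((ha2.comp hφt).mul (hb2.comp hφt)) fun n => ?_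
    exact KB_abs_le' hS hX hB k (α (φ n)) (β (φ n))
  · rw [L1_eq hf hg]
    have h1 : Tendsto (fun n => KB (Kk 1) (α (φ n)) (β (φ n))) atTop
        (𝓝 (∑ i, cc (bb d i) f * cc (bb d i) g)) := by
      have h2 : (fun n => KB (Kk 1) (α (φ n)) (β (φ n))) =
          fun n => ∑ i, cc (bb d i) (fe (α (φ n))) * cc (bb d i) (fe (β (φ n))) := by
        funext n
        exact KB_Kk_one hI hG hX _ _
      rw [h2]
      refine tendsto_finsetSum _ fun i _ => ?_
      exact ((cc_tendsto hX hf α (bb d i) ha0).comp hφt).mul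
        ((cc_tendsto hX hg β (bb d i) hb0).comp hφt)
    exact tendsto_nhds_unique (hlim' 1) h1
  · have hρ1 : |ρ| ≤ 1 := hρ.le
    have hs : Summable (fun k : ℕ => M * |ρ| ^ k) :=
      (summable_geometric_of_lt_one (abs_nonneg _) hρ).mul_left M
    have hsb : Summable (fun k : ℕ => b k * ρ ^ k) := by
      refine Summable.of_norm_bounded hs fun k => ?_
      rw [norm_mul, norm_pow, Real.norm_eq_abs, Real.norm_eq_abs]
      exact mul_le_mul_of_nonneg_right (hbk k) (by positivity)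
    have h1 : Tendsto (fun n => ∑' k : ℕ, KB (Kk k) (α (φ n)) (β (φ n)) * ρ ^ k) atTop
        (𝓝 (∑' k : ℕ, b k * ρ ^ k)) := by
      refine tendsto_tsum_of_dominated_convergence hs (fun k => (hlim' k).mul_const _)
        (Eventually.of_forall fun n k => ?_)
      rw [norm_mul, norm_pow, Real.norm_eq_abs, Real.norm_eq_abs]
      exact mul_le_mul_of_nonneg_right (hb (φ n) k) (by positivity)
    have h2 : (fun n => ∑' k : ℕ, KB (Kk k) (α (φ n)) (β (φ n)) * ρ ^ k) =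
        fun n => Bm ρ (fe (α (φ n))) (fe (β (φ n))) := by
      funext n
      rw [(hasSum_KB ρ (α (φ n)) (β (φ n))).tsum_eq, Bm_fe hX hB hρ1]
    rw [h2] at h1
    have h3 : Tendsto (fun n => Bm ρ (fe (α (φ n))) (fe (β (φ n)))) atTop (𝓝 (Bm ρ f g)) :=
      (Bm_tendsto hX hB hρ1 hf hg α β ha0 hb0 ha1).comp hφt
    have h4 := tendsto_nhds_unique h1 h3
    rw [← h4]
    exact hsb.hasSum

end Pool.Agent.T2h52.FC
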