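import Pool.Agent.T2h52.FC.ST1

/-!
# MX1: the truncated double integral
-/

set_option autoImplicit false

namespace Pool.Agent.T2h52.FC

open MeasureTheory Set Filter Topology ProbabilityTheory
open scoped ENNReal InnerProductSpace Pointwise
open Pool.Agent.R755.KF (PB)
open Pool.Agent.N555.RZ (mP Spr mP_prob mP_ae)
open Pool.Agent.T2h52.SP
open Pool.Agent.T2h52.SQ
open Pool.Agent.T2h52.SO

namespace Mx1

/-- continuous functions are integrable -/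
theorem cint {d : ℕ} {B : ℝ} {μ : Measure (E d)} (hB : PB B μ) {g : E d → ℝ} (hg : Continuous g) :
    Integrable g μ := by
  have := hB.prob
  obtain ⟨C, hC⟩ := (isCompact_closedBall (0 : E d) B).exists_bound_of_continuousOn
    hg.continuousOn
  refine Integrable.of_bound hg.aestronglyMeasurable C ?_
  filter_upwards [hB.bdd] with x hx
  exact hC x (by simpa using hx)

/-- projections -/
theorem pj_inner {d k : ℕ} {p : E d →L[ℝ] E d} (hp : Pj p k) (x y : E d) :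
    ⟪p x, p y⟫_ℝ = ⟪p x, y⟫_ℝ := by
  obtain ⟨b, S, -, h⟩ := hp
  have h1 : ⟪p x, p y⟫_ℝ = ∑ i ∈ S, ⟪b i, x⟫_ℝ * ⟪b i, y⟫_ℝ := by
    rw [h x, h y, b.orthonormal.inner_sum]
    simp
  have h2 : ⟪p x, y⟫_ℝ = ∑ i ∈ S, ⟪b i, x⟫_ℝ * ⟪b i, y⟫_ℝ := by
    rw [h x, sum_inner]
    refine Finset.sum_congr rfl fun i _ => ?_
    rw [real_inner_smul_left]
  rw [h1, h2]

/-- sums -/
theorem add3 {d : ℕ} {μ : Measure (E d)} {f g h : E d → ℝ} (hf : Integrable f μ)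
    (hg : Integrable g μ) (hh : Integrable h μ) :
    ∫ x, (f x + g x + h x) ∂μ = ∫ x, f x ∂μ + ∫ x, g x ∂μ + ∫ x, h x ∂μ := by
  have h1 : Integrable (fun x => f x + g x) μ := hf.add hg
  rw [integral_add h1 hh, integral_add hf hg]

/-- `|exp T - 1| ≤ |T| exp |T|` -/
theorem exp_sub (T : ℝ) : |Real.exp T - 1| ≤ |T| * Real.exp |T| := by
  rcases le_total 0 T with h | h
  · rw [abs_of_nonneg h, abs_of_nonneg (by linarith [Real.one_le_exp h])]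
    have h1 := Real.add_one_le_exp (-T)
    have h2 : Real.exp T * Real.exp (-T) = 1 := by rw [← Real.exp_add]; simp
    nlinarith [Real.exp_pos T]
  · have h1 := Real.add_one_le_exp T
    have h2 : Real.exp T ≤ 1 := Real.exp_le_one_iff.2 h
    rw [abs_of_nonpos h, abs_of_nonpos (by linarith)]
    have h3 : 1 ≤ Real.exp (-T) := Real.one_le_exp (by linarith)
    nlinarith

/-- the pointwise bound -/
theorem pw (A T τ u : ℝ) (hτ0 : 0 < τ) (hτ : τ ≤ 1 / 4) (hu : 0 ≤ u) (hT : |T| = τ * u) :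
    A * Real.exp T ≤ A + τ / 2 * A ^ 2 + 4 * τ * Real.exp u := by
  set F := Real.exp T - 1 with hF
  have h1 : F ^ 2 ≤ 8 * τ ^ 2 * Real.exp u := by
    have h2 : |F| ≤ τ * u * Real.exp (u / 4) := by
      refine (exp_sub T).trans ?_
      rw [hT]
      refine mul_le_mul_of_nonneg_left ?_ (by positivity)
      exact Real.exp_le_exp.2 (by nlinarith)
    have h3 : F ^ 2 ≤ (τ * u * Real.exp (u / 4)) ^ 2 := by
      rw [← sq_abs F]
      exact pow_le_pow_left₀ (abs_nonneg _) h2 2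
    have h4 : (Real.exp (u / 4)) ^ 2 = Real.exp (u / 2) := by
      rw [← Real.exp_nat_mul]; congr 1; push_cast; ring
    have h5 : Real.exp (u / 2) * Real.exp (u / 2) = Real.exp u := by
      rw [← Real.exp_add]; congr 1; ring
    have h6 : u ^ 2 ≤ 8 * Real.exp (u / 2) := by
      have := Real.quadratic_le_exp_of_nonneg (x := u / 2) (by linarith)
      nlinarith
    have h7 : (τ * u * Real.exp (u / 4)) ^ 2 = τ ^ 2 * (u ^ 2 * Real.exp (u / 2)) := by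
      rw [mul_pow, mul_pow, h4]; ring
    rw [h7] at h3
    have h8 : u ^ 2 * Real.exp (u / 2) ≤ 8 * Real.exp u := by
      calc u ^ 2 * Real.exp (u / 2) ≤ 8 * Real.exp (u / 2) * Real.exp (u / 2) :=
            mul_le_mul_of_nonneg_right h6 (Real.exp_pos _).le
        _ = 8 * Real.exp u := by rw [mul_assoc, h5]
    calc F ^ 2 ≤ τ ^ 2 * (u ^ 2 * Real.exp (u / 2)) := h3
      _ ≤ τ ^ 2 * (8 * Real.exp u) := mul_le_mul_of_nonneg_left h8 (sq_nonneg _)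
      _ = 8 * τ ^ 2 * Real.exp u := by ring
  have h2 : A * F ≤ τ / 2 * A ^ 2 + 4 * τ * Real.exp u := by
    have h3 : 2 * τ * (A * F) ≤ 2 * τ * (τ / 2 * A ^ 2 + 4 * τ * Real.exp u) := by
      nlinarith [sq_nonneg (τ * A - F)]
    exact le_of_mul_le_mul_left h3 (by positivity)
  have h3 : A * Real.exp T = A + A * F := by rw [hF]; ring
  rw [h3]
  linarith

end Mx1

/-- MX1 -/
theorem mx1 (h1 : X_EXP) (h2 : X_TRU) : X_MX1 := by
  intro d k P a s p hd hP hI hp hk hs hs' θ hθ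
  obtain ⟨B, hB0, hB⟩ := St1.pb_mP hP
  obtain ⟨hAm, hAc⟩ := h2 d k P a p hd hP hI hp hk
  have := hB.prob
  set μ := mP P with hμ
  set A := Bt P p k with hA
  -- numbers
  have hd' : (10 : ℝ) ^ 50 ≤ d := by exact_mod_cast hd
  have hL : 1 ≤ Real.log ((d : ℝ) + 1) := by
    rw [Real.le_log_iff_exp_le (by linarith)]
    have := Real.exp_one_lt_d9
    linarith
  set L := Real.log ((d : ℝ) + 1) with hLdef
  have hk1 : 1 ≤ Real.sqrt (k : ℝ) := by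
    rw [show (1 : ℝ) = Real.sqrt 1 by simp]
    exact Real.sqrt_le_sqrt (by exact_mod_cast hk)
  set M := 400 * L * Real.sqrt (k : ℝ) with hM
  have hM0 : 0 < M := by positivity
  set τ := 20 * s * M with hτdef
  have hτ0 : 0 < τ := by positivity
  have hτ : τ ≤ 1 / 10 ^ 10 := by
    have h3 : s * (10 ^ 14 * L ^ 3 * Real.sqrt k) ≤ 1 := by
      rwa [le_div_iff₀ (by positivity)] at hs'
    have h4 : s * (10 ^ 14 * L * Real.sqrt k) ≤ s * (10 ^ 14 * L ^ 3 * Real.sqrt k) := by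
      refine mul_le_mul_of_nonneg_left ?_ hs.le
      refine mul_le_mul_of_nonneg_right ?_ (by positivity)
      refine mul_le_mul_of_nonneg_left ?_ (by positivity)
      exact le_self_pow₀ hL (by norm_num)
    have h5 : τ = 8000 * (s * (L * Real.sqrt k)) := by rw [hτdef, hM]; ring
    have h6 : s * (10 ^ 14 * L * Real.sqrt k) = 10 ^ 14 * (s * (L * Real.sqrt k)) := by ring
    rw [h6] at h4
    rw [h5]
    norm_num at h3 h4 ⊢
    linarith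
  -- basic integrals
  have hc1 : Continuous fun x : E d => ⟪x, θ⟫_ℝ := by fun_prop
  have hc2 : Continuous fun x : E d => ⟪x, θ⟫_ℝ ^ 2 := by fun_prop
  have i1 := Mx1.cint hB hc1
  have i2 := Mx1.cint hB hc2
  have e2 : ∫ x, ⟪x, θ⟫_ℝ ^ 2 ∂μ ≤ 1 := by
    rw [hI θ]
    exact pow_le_one₀ (norm_nonneg _) hθ
  have e2A : ∫ x in A, ⟪x, θ⟫_ℝ ^ 2 ∂μ ≤ 1 :=
    (setIntegral_le_integral i2 (Eventually.of_forall fun x => sq_nonneg _)).trans e2
  have e2A0 : 0 ≤ ∫ x in A, ⟪x, θ⟫_ℝ ^ 2 ∂μ := integral_nonneg fun x => sq_nonneg _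
  set m := ∫ x in A, ⟪x, θ⟫_ℝ ∂μ with hm
  -- the mean over `A`
  have em : |m| ≤ 1 / 50 := by
    have h3 : m = -∫ x in Aᶜ, ⟪x, θ⟫_ℝ ∂μ := by
      have := integral_add_compl hAm i1
      rw [hP.bar θ] at this
      linarith
    rw [h3, abs_neg]
    have h4 : |∫ x in Aᶜ, ⟪x, θ⟫_ℝ ∂μ| ≤ ∫ x in Aᶜ, |⟪x, θ⟫_ℝ| ∂μ := by
      simpa [Real.norm_eq_abs] using
        (norm_integral_le_integral_norm (μ := μ.restrict Aᶜ) (fun x : E d => ⟪x, θ⟫_ℝ))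
    have h5 : ∫ x in Aᶜ, |⟪x, θ⟫_ℝ| ∂μ ≤ ∫ x in Aᶜ, (25 + 1 / 100 * ⟪x, θ⟫_ℝ ^ 2) ∂μ := by
      refine integral_mono i1.abs.integrableOn
        ((integrable_const _).add (i2.integrableOn.const_mul _)) fun x => ?_
      have := sq_nonneg (|⟪x, θ⟫_ℝ| - 50)
      have h6 : |⟪x, θ⟫_ℝ| ^ 2 = ⟪x, θ⟫_ℝ ^ 2 := sq_abs _
      simp only
      nlinarith
    have h6 : ∫ x in Aᶜ, (25 + 1 / 100 * ⟪x, θ⟫_ℝ ^ 2) ∂μ =
        25 * (μ Aᶜ).toReal + 1 / 100 * ∫ x in Aᶜ, ⟪x, θ⟫_ℝ ^ 2 ∂μ := by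
      rw [integral_add (integrable_const _) (i2.integrableOn.const_mul _), integral_const_mul,
        setIntegral_const]
      simp [Measure.real, mul_comm]
    have h7 : ∫ x in Aᶜ, ⟪x, θ⟫_ℝ ^ 2 ∂μ ≤ 1 :=
      (setIntegral_le_integral i2 (Eventually.of_forall fun x => sq_nonneg _)).trans e2
    have h8 : 1 / ((d : ℝ) + 1) ^ 18 ≤ 1 / 10 ^ 4 := by
      refine one_div_le_one_div_of_le (by norm_num) ?_
      calc (10 : ℝ) ^ 4 ≤ 10 ^ 50 := by norm_num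
        _ ≤ (d : ℝ) + 1 := by linarith
        _ ≤ ((d : ℝ) + 1) ^ 18 := le_self_pow₀ (by linarith) (by norm_num)
    have h9 := hAc.trans h8
    rw [h6] at h5
    norm_num at h9
    linarith
  have em2 : m ^ 2 ≤ 1 / 2500 := by
    rw [← sq_abs]
    calc |m| ^ 2 ≤ (1 / 50) ^ 2 := pow_le_pow_left₀ (abs_nonneg _) em 2
      _ = 1 / 2500 := by norm_num
  -- the inner integral
  have inner : ∀ x ∈ A, ∫ x' in A, ⟪x, θ⟫_ℝ * ⟪x', θ⟫_ℝ * Real.exp (s * ⟪p x, p x'⟫_ℝ) ∂μ ≤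
      ⟪x, θ⟫_ℝ * m + τ / 2 * ⟪x, θ⟫_ℝ ^ 2 + 16 * τ := by
    intro x hx
    set w : E d := M⁻¹ • p x with hw
    have hw1 : ‖w‖ ≤ 1 := by
      rw [hw, norm_smul, norm_inv, Real.norm_eq_abs, abs_of_pos hM0, inv_mul_le_iff₀ hM0, mul_one]
      exact hx.2.2
    have hE := h1 d P a hP hI w hw1
    have hc3 : Continuous fun x' : E d => Real.exp (|⟪x', w⟫_ℝ| / 20) := by fun_prop
    have i3 := Mx1.cint hB hc3
    have hc4 : Continuous fun x' : E d =>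
        ⟪x, θ⟫_ℝ * ⟪x', θ⟫_ℝ * Real.exp (s * ⟪p x, p x'⟫_ℝ) := by fun_prop
    have i4 := Mx1.cint hB hc4
    have h3 : ∫ x' in A, ⟪x, θ⟫_ℝ * ⟪x', θ⟫_ℝ * Real.exp (s * ⟪p x, p x'⟫_ℝ) ∂μ ≤
        ∫ x' in A, (⟪x, θ⟫_ℝ * ⟪x', θ⟫_ℝ + τ / 2 * ⟪x, θ⟫_ℝ ^ 2 * ⟪x', θ⟫_ℝ ^ 2 +
          4 * τ * Real.exp (|⟪x', w⟫_ℝ| / 20)) ∂μ := by
      refine integral_mono i4.integrableOn (((i1.integrableOn.const_mul _).add
        (i2.integrableOn.const_mul _)).add (i3.integrableOn.const_mul _)) fun x' => ?_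
      have h4 : |s * ⟪p x, p x'⟫_ℝ| = τ * (|⟪x', w⟫_ℝ| / 20) := by
        rw [Mx1.pj_inner hp, hw, real_inner_smul_right, real_inner_comm x' (p x), abs_mul, abs_mul,
          abs_of_pos hs, abs_inv, abs_of_pos hM0, hτdef]
        field_simp
      have h5 := Mx1.pw (⟪x, θ⟫_ℝ * ⟪x', θ⟫_ℝ) (s * ⟪p x, p x'⟫_ℝ) τ (|⟪x', w⟫_ℝ| / 20) hτ0
        (hτ.trans (by norm_num)) (by positivity) h4
      simp only
      refine h5.trans (le_of_eq ?_)
      ring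
    have h4 : ∫ x' in A, (⟪x, θ⟫_ℝ * ⟪x', θ⟫_ℝ + τ / 2 * ⟪x, θ⟫_ℝ ^ 2 * ⟪x', θ⟫_ℝ ^ 2 +
          4 * τ * Real.exp (|⟪x', w⟫_ℝ| / 20)) ∂μ =
        ⟪x, θ⟫_ℝ * m + τ / 2 * ⟪x, θ⟫_ℝ ^ 2 * (∫ x' in A, ⟪x', θ⟫_ℝ ^ 2 ∂μ) +
          4 * τ * ∫ x' in A, Real.exp (|⟪x', w⟫_ℝ| / 20) ∂μ := by
      rw [Mx1.add3 (i1.integrableOn.const_mul _) (i2.integrableOn.const_mul _)
        (i3.integrableOn.const_mul _), integral_const_mul, integral_const_mul, integral_const_mul]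
    have h5 : ∫ x' in A, Real.exp (|⟪x', w⟫_ℝ| / 20) ∂μ ≤ 4 :=
      (setIntegral_le_integral i3 (Eventually.of_forall fun x => (Real.exp_pos _).le)).trans hE
    have h6 : τ / 2 * ⟪x, θ⟫_ℝ ^ 2 * (∫ x' in A, ⟪x', θ⟫_ℝ ^ 2 ∂μ) ≤ τ / 2 * ⟪x, θ⟫_ℝ ^ 2 := by
      have : 0 ≤ τ / 2 * ⟪x, θ⟫_ℝ ^ 2 := by positivity
      nlinarith
    have h7 : 4 * τ * ∫ x' in A, Real.exp (|⟪x', w⟫_ℝ| / 20) ∂μ ≤ 16 * τ := by nlinarith
    rw [h4] at h3
    linarith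
  -- the outer integral
  by_cases hint : IntegrableOn (fun x => ∫ x' in A, ⟪x, θ⟫_ℝ * ⟪x', θ⟫_ℝ *
      Real.exp (s * ⟪p x, p x'⟫_ℝ) ∂μ) A μ
  · have h3 : ∫ x in A, ∫ x' in A, ⟪x, θ⟫_ℝ * ⟪x', θ⟫_ℝ * Real.exp (s * ⟪p x, p x'⟫_ℝ) ∂μ ∂μ ≤
        ∫ x in A, (⟪x, θ⟫_ℝ * m + τ / 2 * ⟪x, θ⟫_ℝ ^ 2 + 16 * τ) ∂μ :=
      setIntegral_mono_on hint (((i1.integrableOn.mul_const _).add
        (i2.integrableOn.const_mul _)).add (integrable_const _)) hAm inner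
    have h4 : ∫ x in A, (⟪x, θ⟫_ℝ * m + τ / 2 * ⟪x, θ⟫_ℝ ^ 2 + 16 * τ) ∂μ =
        m * m + τ / 2 * (∫ x in A, ⟪x, θ⟫_ℝ ^ 2 ∂μ) + (μ A).toReal * (16 * τ) := by
      rw [Mx1.add3 (i1.integrableOn.mul_const _) (i2.integrableOn.const_mul _)
        (integrable_const _), integral_mul_const, integral_const_mul, setIntegral_const,
        smul_eq_mul, Measure.real]
    have h5 : (μ A).toReal ≤ 1 := by
      have := prob_le_one (μ := μ) (s := A)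
      exact ENNReal.toReal_le_of_le_ofReal (by norm_num) (by simpa using this)
    have h6 : (μ A).toReal * (16 * τ) ≤ 16 * τ := by
      have : 0 < 16 * τ := by positivity
      nlinarith
    have h7 : τ / 2 * (∫ x in A, ⟪x, θ⟫_ℝ ^ 2 ∂μ) ≤ τ / 2 := by nlinarith
    rw [h4] at h3
    have h8 : m * m = m ^ 2 := by ring
    rw [h8] at h3
    norm_num at hτ
    linarith
  · rw [integral_undef hint]
    norm_num

end Pool.Agent.T2h52.FC
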