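import Pool.Agent.T2h52.FC.MXa

/-!
# MX2
-/

set_option autoImplicit false

namespace Pool.Agent.T2h52.FC

open MeasureTheory Set Filter Topology ProbabilityTheory
open scoped ENNReal InnerProductSpace Pointwise
open Pool.Agent.R755.KF (PB)
open Pool.Agent.N555.RZ (mP Spr)
open Pool.Agent.T2h52.SP
open Pool.Agent.T2h52.SQ
open Pool.Agent.T2h52.SO
open Pool.Agent.T2h52.FC.MXaux

/-- the identity is a projection -/
theorem MXaux.pj_id (d : ℕ) : Pj (ContinuousLinearMap.id ℝ (E d)) d := by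
  refine ⟨EuclideanSpace.basisFun (Fin d) ℝ, Finset.univ, by simp, fun x => ?_⟩
  have := (EuclideanSpace.basisFun (Fin d) ℝ).sum_repr' x
  exact this.symm

/-- the mean of `‖x‖²` -/
theorem MXaux.norm_sq_mean {d : ℕ} {P : Set (E d)} {a : ℝ} (hP : Bn P a) (hI : Iso P) :
    ∫ x, ‖x‖ ^ 2 ∂(mP P) = d := by
  have h1 : ∀ x : E d, ‖x‖ ^ 2 = ∑ i : Fin d, ⟪x, EuclideanSpace.basisFun (Fin d) ℝ i⟫_ℝ ^ 2 := by
    intro x
    have := (EuclideanSpace.basisFun (Fin d) ℝ).sum_sq_norm_inner_right x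
    rw [← this]
    refine Finset.sum_congr rfl fun i _ => ?_
    rw [real_inner_comm, Real.norm_eq_abs, sq_abs]
  simp_rw [h1]
  rw [integral_finsetSum _ fun i _ => intc hP (by fun_prop)]
  have h2 : ∀ i : Fin d, ∫ x, ⟪x, EuclideanSpace.basisFun (Fin d) ℝ i⟫_ℝ ^ 2 ∂(mP P) = 1 := by
    intro i
    rw [hI, (EuclideanSpace.basisFun (Fin d) ℝ).norm_eq_one]
    norm_num
  rw [Finset.sum_congr rfl fun i _ => h2 i]
  simp

theorem mx2 (hEXP : X_EXP) (hTRU : X_TRU) : X_MX2 := by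
  intro d P a s hd hP hI hs hs1
  have hpr := prob hP
  have hd1 : 1 ≤ d := le_trans (by norm_num) hd
  obtain ⟨hB, hBc⟩ := hTRU d d P a (ContinuousLinearMap.id ℝ (E d)) hd hP hI (pj_id d) hd1
  set B := Bt P (ContinuousLinearMap.id ℝ (E d)) d with hBdef
  have hBP : B ⊆ P := fun x hx => hx.1
  have hL := log_big hd
  set L := Real.log ((d : ℝ) + 1) with hLdef
  have hL0 : 0 < L := by linarith
  have hk1 : (1 : ℝ) ≤ d := by exact_mod_cast hd1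
  have hsk : 0 < Real.sqrt d := Real.sqrt_pos.2 (by linarith)
  have hsq : Real.sqrt d ^ 2 = d := Real.sq_sqrt (by linarith)
  set M : ℝ := 400 * L * Real.sqrt d with hM
  have hM0 : 0 < M := by positivity
  set τ : ℝ := 20 * s * M with hτ
  have hτ0 : 0 ≤ τ := by positivity
  have h1s : s * (10 ^ 14 * L ^ 3 * Real.sqrt d) ≤ 1 := by
    rwa [le_div_iff₀ (by positivity)] at hs1
  -- `τ` is small
  have hτ1 : τ ≤ 1 / 10 ^ 10 := by
    have h2 : 20 * s * (400 * L * Real.sqrt d) * (10 ^ 14 * L ^ 2) =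
        8000 * (s * (10 ^ 14 * L ^ 3 * Real.sqrt d)) := by ring
    have h3 : τ * (10 ^ 14 * L ^ 2) ≤ 8000 := by
      rw [hτ, hM, h2]
      linarith
    have h4 : (100 : ℝ) ^ 2 ≤ L ^ 2 := pow_le_pow_left₀ (by norm_num) hL 2
    have h5 : τ * (10 ^ 14 * 100 ^ 2) ≤ τ * (10 ^ 14 * L ^ 2) := by gcongr
    norm_num at h5 ⊢
    linarith
  have hτ2 : τ ≤ 1 / 4 := by
    refine hτ1.trans ?_
    norm_num
  have hτ3 : 192 * τ ^ 3 ≤ s ^ 2 * d := by
    have e1 : 192 * τ ^ 3 = s ^ 2 * d * (192 * 8000 ^ 3 * (s * (L ^ 3 * Real.sqrt d))) := by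
      have e2 : Real.sqrt d ^ 3 = d * Real.sqrt d := by
        rw [← hsq]
        rw [Real.sqrt_sq hsk.le]
        ring
      have e3 : 192 * τ ^ 3 = 192 * 8000 ^ 3 * s ^ 3 * L ^ 3 * Real.sqrt d ^ 3 := by
        rw [hτ, hM]
        ring
      rw [e3, e2]
      ring
    rw [e1]
    have e4 : 192 * 8000 ^ 3 * (s * (L ^ 3 * Real.sqrt d)) ≤ 1 := by
      have e5 : s * (10 ^ 14 * L ^ 3 * Real.sqrt d) = 10 ^ 14 * (s * (L ^ 3 * Real.sqrt d)) := by ring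
      rw [e5] at h1s
      have e6 : 0 ≤ s * (L ^ 3 * Real.sqrt d) := by positivity
      norm_num at h1s ⊢
      linarith
    calc s ^ 2 * d * (192 * 8000 ^ 3 * (s * (L ^ 3 * Real.sqrt d))) ≤ s ^ 2 * d * 1 :=
          mul_le_mul_of_nonneg_left e4 (by positivity)
      _ = _ := mul_one _
  -- the vector
  have hid : Integrable (fun x : E d => x) (mP P) := by
    unfold mP
    refine Integrable.smul_measure ?_ (ENNReal.inv_ne_top.mpr (vol0 hP))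
    exact continuous_id.continuousOn.integrableOn_compact hP.comp
  set v : E d := ∫ x in B, x ∂(mP P) with hv
  have hinn : ∀ x : E d, ∫ x' in B, ⟪x, x'⟫_ℝ ∂(mP P) = ⟪x, v⟫_ℝ := fun x =>
    integral_inner hid.integrableOn x
  have hv2 : ‖v‖ ^ 2 ≤ 1 / ((d : ℝ) + 1) ^ 18 := by
    have h1 := compl_mean hP hI hB v
    have h2 : ∫ x in B, ⟪x, v⟫_ℝ ∂(mP P) = ‖v‖ ^ 2 := by
      rw [← real_inner_self_eq_norm_sq v, ← hinn v]
      refine integral_congr_ae (Eventually.of_forall fun x => ?_)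
      exact real_inner_comm _ _
    rw [h2] at h1
    refine le_trans ?_ hBc
    rcases (sq_nonneg ‖v‖).eq_or_lt with h3 | h3
    · rw [← h3]
      exact ENNReal.toReal_nonneg
    · refine le_of_mul_le_mul_right ?_ h3
      calc ‖v‖ ^ 2 * ‖v‖ ^ 2 = (‖v‖ ^ 2) ^ 2 := by ring
        _ ≤ _ := h1
  -- the inner integral
  have hinner : ∀ x ∈ B, ∫ x' in B, ⟪x, x'⟫_ℝ * Real.exp (s * ⟪x, x'⟫_ℝ) ∂(mP P) ≤
      ⟪x, v⟫_ℝ + (s * ‖x‖ ^ 2 + 192 * τ ^ 3 / s) := by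
    intro x hx
    have hxM : ‖x‖ ≤ M := hx.2.2
    set y : E d := M⁻¹ • x with hy
    have hy1 : ‖y‖ ≤ 1 := by
      rw [hy, norm_smul, norm_inv, Real.norm_of_nonneg hM0.le, inv_mul_le_iff₀ hM0, mul_one]
      exact hxM
    have hT : ∀ x' : E d, s * ⟪x, x'⟫_ℝ = τ * (⟪x', y⟫_ℝ / 20) := by
      intro x'
      rw [hy, real_inner_smul_right, real_inner_comm, hτ]
      field_simp
    have hce : Continuous fun x' : E d => Real.exp (|⟪x', y⟫_ℝ| / 20) := by fun_prop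
    have hcx : Continuous fun x' : E d => ⟪x, x'⟫_ℝ := by fun_prop
    have hcx2 : Continuous fun x' : E d => ⟪x, x'⟫_ℝ ^ 2 := by fun_prop
    have hE : ∫ x' in B, Real.exp (|⟪x', y⟫_ℝ| / 20) ∂(mP P) ≤ 4 :=
      (set_le hP hce (fun x => (Real.exp_pos _).le) B).trans (hEXP d P a hP hI y hy1)
    have hx2 : ∫ x' in B, ⟪x, x'⟫_ℝ ^ 2 ∂(mP P) ≤ ‖x‖ ^ 2 := by
      refine (set_le hP hcx2 (fun x => sq_nonneg _) B).trans ?_
      rw [← hI x]
      refine le_of_eq (integral_congr_ae (Eventually.of_forall fun z => ?_))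
      show ⟪x, z⟫_ℝ ^ 2 = ⟪z, x⟫_ℝ ^ 2
      rw [real_inner_comm]
    have hpt : ∀ x' : E d, ⟪x, x'⟫_ℝ * Real.exp (s * ⟪x, x'⟫_ℝ) ≤
        ⟪x, x'⟫_ℝ + (s * ⟪x, x'⟫_ℝ ^ 2 + 48 * τ ^ 3 / s * Real.exp (|⟪x', y⟫_ℝ| / 20)) := by
      intro x'
      have h1 := b3 hτ0 hτ2 (⟪x', y⟫_ℝ / 20)
      rw [abs_div, abs_of_pos (show (0 : ℝ) < 20 by norm_num), ← hT x'] at h1
      have h2 : ⟪x, x'⟫_ℝ * (Real.exp (s * ⟪x, x'⟫_ℝ) - 1) ≤
          s * ⟪x, x'⟫_ℝ ^ 2 + 48 * τ ^ 3 / s * Real.exp (|⟪x', y⟫_ℝ| / 20) := by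
        refine le_of_mul_le_mul_left ?_ hs
        calc s * (⟪x, x'⟫_ℝ * (Real.exp (s * ⟪x, x'⟫_ℝ) - 1)) =
            s * ⟪x, x'⟫_ℝ * (Real.exp (s * ⟪x, x'⟫_ℝ) - 1) := by ring
          _ ≤ _ := h1
          _ = _ := by
            field_simp
      linarith
    have j1 : IntegrableOn (fun x' : E d => ⟪x, x'⟫_ℝ) B (mP P) := (intc hP hcx).integrableOn
    have j2 : IntegrableOn (fun x' : E d => s * ⟪x, x'⟫_ℝ ^ 2) B (mP P) :=
      ((intc hP hcx2).const_mul _).integrableOn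
    have j3 : IntegrableOn (fun x' : E d => 48 * τ ^ 3 / s * Real.exp (|⟪x', y⟫_ℝ| / 20)) B
      (mP P) := ((intc hP hce).const_mul _).integrableOn
    have j4 : IntegrableOn (fun x' : E d => s * ⟪x, x'⟫_ℝ ^ 2 +
        48 * τ ^ 3 / s * Real.exp (|⟪x', y⟫_ℝ| / 20)) B (mP P) := j2.add j3
    have j0 : IntegrableOn (fun x' : E d => ⟪x, x'⟫_ℝ * Real.exp (s * ⟪x, x'⟫_ℝ)) B (mP P) :=
      (intc hP (by fun_prop)).integrableOn
    have h1 : ∫ x' in B, ⟪x, x'⟫_ℝ * Real.exp (s * ⟪x, x'⟫_ℝ) ∂(mP P) ≤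
        ∫ x' in B, (⟪x, x'⟫_ℝ + (s * ⟪x, x'⟫_ℝ ^ 2 +
          48 * τ ^ 3 / s * Real.exp (|⟪x', y⟫_ℝ| / 20))) ∂(mP P) :=
      integral_mono j0 (j1.add j4) hpt
    refine h1.trans ?_
    rw [integral_add j1 j4, integral_add j2 j3, integral_const_mul, integral_const_mul, hinn]
    have h2 := mul_le_mul_of_nonneg_left hE (show 0 ≤ 48 * τ ^ 3 / s by positivity)
    have h3 := mul_le_mul_of_nonneg_left hx2 hs.le
    have h4 : 48 * τ ^ 3 / s * 4 = 192 * τ ^ 3 / s := by ring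
    linarith
  -- the outer integral
  have hcv : Continuous fun x : E d => ⟪x, v⟫_ℝ := by fun_prop
  have hcn : Continuous fun x : E d => ‖x‖ ^ 2 := by fun_prop
  have k1 : IntegrableOn (fun x : E d => ⟪x, v⟫_ℝ) B (mP P) := (intc hP hcv).integrableOn
  have k2 : IntegrableOn (fun x : E d => s * ‖x‖ ^ 2) B (mP P) :=
    ((intc hP hcn).const_mul _).integrableOn
  have k3 : IntegrableOn (fun _ : E d => 192 * τ ^ 3 / s) B (mP P) := integrable_const _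
  have k4 : IntegrableOn (fun x : E d => s * ‖x‖ ^ 2 + 192 * τ ^ 3 / s) B (mP P) := k2.add k3
  have hF : Continuous fun z : E d × E d => ⟪z.1, z.2⟫_ℝ * Real.exp (s * ⟪z.1, z.2⟫_ℝ) := by
    fun_prop
  have k0 : IntegrableOn (fun x : E d => ∫ x' in B, ⟪x, x'⟫_ℝ *
      Real.exp (s * ⟪x, x'⟫_ℝ) ∂(mP P)) B (mP P) := (int_prod hP hB hBP hF).integral_prod_left
  have h1 : ∫ x in B, ∫ x' in B, ⟪x, x'⟫_ℝ * Real.exp (s * ⟪x, x'⟫_ℝ) ∂(mP P) ∂(mP P) ≤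
      ∫ x in B, (⟪x, v⟫_ℝ + (s * ‖x‖ ^ 2 + 192 * τ ^ 3 / s)) ∂(mP P) :=
    setIntegral_mono_on k0 (k1.add k4) hB hinner
  refine h1.trans ?_
  rw [integral_add k1 k4, integral_add k2 k3, integral_const_mul, setIntegral_const, smul_eq_mul]
  have h2 : ∫ x in B, ⟪x, v⟫_ℝ ∂(mP P) = ‖v‖ ^ 2 := by
    rw [← real_inner_self_eq_norm_sq v, ← hinn v]
    refine integral_congr_ae (Eventually.of_forall fun x => ?_)
    exact real_inner_comm _ _
  have h3 : ∫ x in B, ‖x‖ ^ 2 ∂(mP P) ≤ d :=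
    (set_le hP hcn (fun x => sq_nonneg _) B).trans (norm_sq_mean hP hI).le
  have h4 : (mP P).real B ≤ 1 := measureReal_le_one
  have h5 : 192 * τ ^ 3 / s ≤ s * d := by
    rw [div_le_iff₀ hs]
    linarith
  have h6 : (mP P).real B * (192 * τ ^ 3 / s) ≤ 1 * (s * d) :=
    mul_le_mul h4 h5 (by positivity) zero_le_one
  have h7 := mul_le_mul_of_nonneg_left h3 hs.le
  rw [h2]
  linarith

end Pool.Agent.T2h52.FC
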