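import Pool.Agent.T2h52.FC.Stm

/-!
# NES: the third moment tensor
-/

set_option autoImplicit false

namespace Pool.Agent.T2h52.FC

open MeasureTheory Set Filter Topology ProbabilityTheory
open scoped ENNReal InnerProductSpace Pointwise
open Pool.Agent.R755.KF (PB)
open Pool.Agent.N555.RZ (mP Spr)
open Pool.Agent.T2h52.SP
open Pool.Agent.T2h52.SQ
open Pool.Agent.T2h52.SO

namespace NesAux

theorem nesbitt {x y z : ℝ} (hx : 0 < x) (hy : 0 < y) (hz : 0 < z) :
    3 / 2 ≤ x / (y + z) + y / (x + z) + z / (y + x) := by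
  have h1 : 0 < y + z := by linarith
  have h2 : 0 < x + z := by linarith
  have h3 : 0 < y + x := by linarith
  rw [div_add_div _ _ h1.ne' h2.ne', div_add_div _ _ (mul_pos h1 h2).ne' h3.ne',
    div_le_div_iff₀ (by norm_num) (mul_pos (mul_pos h1 h2) h3)]
  nlinarith [mul_nonneg h1.le (sq_nonneg (y - z)), mul_nonneg h2.le (sq_nonneg (x - z)),
    mul_nonneg h3.le (sq_nonneg (x - y)), mul_pos hx hy, mul_pos hy hz, mul_pos hx hz]

variable {d : ℕ} {B : ℝ} {ν : Measure (E d)}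

theorem ci (hν : PB B ν) {G : Type*} [NormedAddCommGroup G] {f : E d → G} (hf : Continuous f) :
    Integrable f ν := by
  have := hν.prob
  obtain ⟨C, hC⟩ := (isCompact_closedBall (0 : E d) B).exists_bound_of_continuousOn
    hf.continuousOn
  refine Integrable.of_bound hf.aestronglyMeasurable C ?_
  filter_upwards [hν.bdd] with x hx
  exact hC x (by simpa using hx)

/-- Cauchy-Schwarz -/
theorem cs (hν : PB B ν) {f g : E d → ℝ} (hf : Continuous f) (hg : Continuous g) :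
    (∫ x, f x * g x ∂ν) ^ 2 ≤ (∫ x, f x ^ 2 ∂ν) * ∫ x, g x ^ 2 ∂ν := by
  have key : ∀ t : ℝ, 0 ≤ (∫ x, f x ^ 2 ∂ν) * (t * t) + (-2 * ∫ x, f x * g x ∂ν) * t +
      ∫ x, g x ^ 2 ∂ν := by
    intro t
    have h1 : 0 ≤ ∫ x, (t * f x - g x) ^ 2 ∂ν := integral_nonneg fun x => sq_nonneg _
    have h2 : ∫ x, (t * f x - g x) ^ 2 ∂ν = (∫ x, f x ^ 2 ∂ν) * (t * t) +
        (-2 * ∫ x, f x * g x ∂ν) * t + ∫ x, g x ^ 2 ∂ν := by
      have e : ∀ x, (t * f x - g x) ^ 2 = (t * t) * f x ^ 2 +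
          ((-2 * t) * (f x * g x) + g x ^ 2) := fun x => by ring
      simp only [e]
      have i1 : Integrable (fun x => (t * t) * f x ^ 2) ν := ci hν (by fun_prop)
      have i2 : Integrable (fun x => (-2 * t) * (f x * g x)) ν := ci hν (by fun_prop)
      have i3 : Integrable (fun x => g x ^ 2) ν := ci hν (by fun_prop)
      have i4 : Integrable (fun x => (-2 * t) * (f x * g x) + g x ^ 2) ν := ci hν (by fun_prop)
      rw [integral_add i1 i4, integral_add i2 i3, integral_const_mul, integral_const_mul]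
      ring
    rw [h2] at h1
    exact h1
  have h3 := discrim_le_zero key
  unfold discrim at h3
  nlinarith

/-- the covariance operator -/
noncomputable def cov (hν : PB B ν) (m : E d) : E d →ₗ[ℝ] E d where
  toFun u := ∫ x, ⟪x - m, u⟫_ℝ • (x - m) ∂ν
  map_add' u v := by
    rw [← integral_add (ci hν (by fun_prop)) (ci hν (by fun_prop))]
    refine integral_congr_ae (Eventually.of_forall fun x => ?_)
    simp only [inner_add_right, add_smul]
  map_smul' c u := by
    simp only [RingHom.id_apply]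
    rw [← integral_smul]
    refine integral_congr_ae (Eventually.of_forall fun x => ?_)
    simp only [inner_smul_right, mul_smul]

theorem cov_inner (hν : PB B ν) (m u v : E d) :
    ⟪v, cov hν m u⟫_ℝ = ∫ x, ⟪x - m, u⟫_ℝ * ⟪x - m, v⟫_ℝ ∂ν := by
  show ⟪v, ∫ x, ⟪x - m, u⟫_ℝ • (x - m) ∂ν⟫_ℝ = _
  rw [← integral_inner (ci hν (by fun_prop))]
  refine integral_congr_ae (Eventually.of_forall fun x => ?_)
  simp only
  rw [inner_smul_right, real_inner_comm v (x - m)]

theorem diag (hν : PB B ν) (m : E d) : ∃ (b : OrthonormalBasis (Fin d) ℝ (E d)) (lam : Fin d → ℝ),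
    ∀ i j, ∫ x, ⟪x - m, b i⟫_ℝ * ⟪x - m, b j⟫_ℝ ∂ν = if i = j then lam i else 0 := by
  have hS : (cov hν m).IsSymmetric := by
    intro u v
    rw [real_inner_comm, cov_inner, cov_inner]
    refine integral_congr_ae (Eventually.of_forall fun x => ?_)
    simp only
    ring
  have hn : Module.finrank ℝ (E d) = d := by simp
  refine ⟨hS.eigenvectorBasis hn, hS.eigenvalues hn, fun i j => ?_⟩
  rw [← cov_inner hν, hS.apply_eigenvectorBasis hn i]
  have h1 := orthonormal_iff_ite.1 (hS.eigenvectorBasis hn).orthonormal j i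
  rw [inner_smul_right, h1]
  by_cases h : i = j
  · rw [if_pos h.symm, if_pos h]; simp
  · rw [if_neg (fun h' => h h'.symm), if_neg h]; simp

theorem dbl (hν : PB B ν) {κ : Type*} [Fintype κ] (Y : κ → E d → ℝ) (hY : ∀ k, Continuous (Y k)) :
    ∫ x, ∫ x', ∑ k, Y k x * Y k x' ∂ν ∂ν = ∑ k, (∫ x, Y k x ∂ν) ^ 2 := by
  have h1 : ∀ x, ∫ x', ∑ k, Y k x * Y k x' ∂ν = ∑ k, Y k x * ∫ x', Y k x' ∂ν := by
    intro x
    rw [integral_finset_sum _ (fun k _ => (ci hν (hY k)).const_mul _)]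
    exact Finset.sum_congr rfl fun k _ => integral_const_mul _ _
  simp only [h1]
  rw [integral_finset_sum _ (fun k _ => (ci hν (hY k)).mul_const _)]
  refine Finset.sum_congr rfl fun k _ => ?_
  rw [integral_mul_const, sq]

theorem S2_eq (hν : PB B ν) {m : E d} (hm : m = ∫ z, z ∂ν) (b : OrthonormalBasis (Fin d) ℝ (E d))
    (lam : Fin d → ℝ)
    (hb : ∀ i j, ∫ x, ⟪x - m, b i⟫_ℝ * ⟪x - m, b j⟫_ℝ ∂ν = if i = j then lam i else 0) :
    S2 ν = ∑ i, lam i ^ 2 := by
  unfold S2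
  rw [← hm]
  have h1 := dbl hν (fun (p : Fin d × Fin d) x => ⟪x - m, b p.1⟫_ℝ * ⟪x - m, b p.2⟫_ℝ)
    (fun p => by fun_prop)
  have h2 : ∀ x x' : E d, ⟪x - m, x' - m⟫_ℝ ^ 2 = ∑ p : Fin d × Fin d,
      (⟪x - m, b p.1⟫_ℝ * ⟪x - m, b p.2⟫_ℝ) * (⟪x' - m, b p.1⟫_ℝ * ⟪x' - m, b p.2⟫_ℝ) := by
    intro x x'
    rw [← b.sum_inner_mul_inner (x - m) (x' - m), sq, Finset.sum_mul_sum, Fintype.sum_prod_type]
    refine Finset.sum_congr rfl fun i _ => Finset.sum_congr rfl fun j _ => ?_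
    rw [real_inner_comm (x' - m) (b i), real_inner_comm (x' - m) (b j)]
    ring
  simp only [h2]
  rw [h1, Fintype.sum_prod_type]
  simp only [hb]
  refine Finset.sum_congr rfl fun i _ => ?_
  rw [Finset.sum_eq_single i]
  · rw [if_pos rfl]
  · intro j _ hj
    rw [if_neg (Ne.symm hj)]; simp
  · intro h; exact absurd (Finset.mem_univ _) h

/-- the third moments -/
noncomputable def TT (ν : Measure (E d)) (m : E d) (b : OrthonormalBasis (Fin d) ℝ (E d))
    (i j k : Fin d) : ℝ :=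
  ∫ x, ⟪x - m, b i⟫_ℝ * (⟪x - m, b j⟫_ℝ * ⟪x - m, b k⟫_ℝ) ∂ν

theorem S3_eq (hν : PB B ν) {m : E d} (hm : m = ∫ z, z ∂ν) (b : OrthonormalBasis (Fin d) ℝ (E d)) :
    S3 ν = ∑ i, ∑ j, ∑ k, TT ν m b i j k ^ 2 := by
  unfold S3
  rw [← hm]
  have h1 := dbl hν (fun (p : Fin d × Fin d × Fin d) x =>
    ⟪x - m, b p.1⟫_ℝ * (⟪x - m, b p.2.1⟫_ℝ * ⟪x - m, b p.2.2⟫_ℝ)) (fun p => by fun_prop)
  have h2 : ∀ x x' : E d, ⟪x - m, x' - m⟫_ℝ ^ 3 = ∑ p : Fin d × Fin d × Fin d,
      (⟪x - m, b p.1⟫_ℝ * (⟪x - m, b p.2.1⟫_ℝ * ⟪x - m, b p.2.2⟫_ℝ)) *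
      (⟪x' - m, b p.1⟫_ℝ * (⟪x' - m, b p.2.1⟫_ℝ * ⟪x' - m, b p.2.2⟫_ℝ)) := by
    intro x x'
    rw [← b.sum_inner_mul_inner (x - m) (x' - m), pow_succ', sq, Finset.sum_mul_sum,
      Finset.sum_mul_sum, Fintype.sum_prod_type]
    refine Finset.sum_congr rfl fun i _ => ?_
    rw [Fintype.sum_prod_type]
    refine Finset.sum_congr rfl fun j _ => ?_
    rw [Finset.mul_sum]
    refine Finset.sum_congr rfl fun k _ => ?_
    rw [real_inner_comm (x' - m) (b i), real_inner_comm (x' - m) (b j),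
      real_inner_comm (x' - m) (b k)]
    ring
  simp only [h2]
  rw [h1, Fintype.sum_prod_type]
  refine Finset.sum_congr rfl fun i _ => ?_
  rw [Fintype.sum_prod_type]
  rfl

theorem TT_swap (ν : Measure (E d)) (m : E d) (b : OrthonormalBasis (Fin d) ℝ (E d))
    (i j k : Fin d) : TT ν m b i j k = TT ν m b j i k := by
  unfold TT
  refine integral_congr_ae (Eventually.of_forall fun x => ?_)
  simp only
  ring

theorem TT_swap' (ν : Measure (E d)) (m : E d) (b : OrthonormalBasis (Fin d) ℝ (E d))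
    (i j k : Fin d) : TT ν m b i j k = TT ν m b i k j := by
  unfold TT
  refine integral_congr_ae (Eventually.of_forall fun x => ?_)
  simp only
  ring

/-- the operator -/
noncomputable def HH (b : OrthonormalBasis (Fin d) ℝ (E d)) (c : Fin d → Fin d → ℝ) :
    E d →L[ℝ] E d :=
  ∑ j, (∑ k, c j k • innerSL ℝ (b k)).smulRight (b j)

theorem HH_inner (b : OrthonormalBasis (Fin d) ℝ (E d)) (c : Fin d → Fin d → ℝ) (l : Fin d)
    (y : E d) : ⟪b l, HH b c y⟫_ℝ = ∑ k, c l k * ⟪b k, y⟫_ℝ := by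
  have h1 : HH b c y = ∑ j, (∑ k, c j k * ⟪b k, y⟫_ℝ) • b j := by
    unfold HH
    rw [ContinuousLinearMap.sum_apply]
    refine Finset.sum_congr rfl fun j _ => ?_
    rw [ContinuousLinearMap.smulRight_apply, ContinuousLinearMap.sum_apply]
    rfl
  rw [h1, inner_sum, Finset.sum_eq_single l]
  · rw [inner_smul_right, orthonormal_iff_ite.1 b.orthonormal l l, if_pos rfl, mul_one]
  · intro j _ hj
    rw [inner_smul_right, orthonormal_iff_ite.1 b.orthonormal l j, if_neg (Ne.symm hj), mul_zero]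
  · intro h; exact absurd (Finset.mem_univ _) h

theorem HH_symm (b : OrthonormalBasis (Fin d) ℝ (E d)) (c : Fin d → Fin d → ℝ)
    (hc : ∀ j k, c j k = c k j) (x y : E d) : ⟪HH b c x, y⟫_ℝ = ⟪x, HH b c y⟫_ℝ := by
  have h1 : ⟪HH b c x, y⟫_ℝ = ∑ l, ∑ k, c l k * ⟪b k, x⟫_ℝ * ⟪b l, y⟫_ℝ := by
    rw [← b.sum_inner_mul_inner (HH b c x) y]
    refine Finset.sum_congr rfl fun l _ => ?_
    rw [real_inner_comm (b l) (HH b c x), HH_inner, Finset.sum_mul]
  have h2 : ⟪x, HH b c y⟫_ℝ = ∑ l, ∑ k, c l k * ⟪b k, y⟫_ℝ * ⟪b l, x⟫_ℝ := by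
    rw [← b.sum_inner_mul_inner x (HH b c y)]
    refine Finset.sum_congr rfl fun l _ => ?_
    rw [HH_inner, real_inner_comm (b l) x, mul_comm, Finset.sum_mul]
  rw [h1, h2, Finset.sum_comm]
  refine Finset.sum_congr rfl fun l _ => Finset.sum_congr rfl fun k _ => ?_
  rw [hc k l]
  ring

theorem core (hν : PB B ν) {c0 : ℝ} (hc0 : 0 ≤ c0) {m : E d} (hm : m = ∫ z, z ∂ν)
    (H : ∀ H : E d →L[ℝ] E d, (∀ x y, ⟪H x, y⟫_ℝ = ⟪x, H y⟫_ℝ) →
      ∫ x, ⟪x - m, H (x - m)⟫_ℝ ^ 2 ∂ν - (∫ x, ⟪x - m, H (x - m)⟫_ℝ ∂ν) ^ 2 ≤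
      c0 * ∫ x, ‖H (x - m)‖ ^ 2 ∂ν)
    (b : OrthonormalBasis (Fin d) ℝ (E d)) (lam : Fin d → ℝ)
    (hb : ∀ i j, ∫ x, ⟪x - m, b i⟫_ℝ * ⟪x - m, b j⟫_ℝ ∂ν = if i = j then lam i else 0)
    (hlam : ∀ i, 0 ≤ lam i) (i : Fin d) :
    ∑ l, ∑ k, TT ν m b i l k ^ 2 / (lam l + lam k) ≤ c0 * lam i / 2 := by
  have := hν.prob
  set c : Fin d → Fin d → ℝ := fun l k => TT ν m b i l k / (lam l + lam k) with hcdef
  have hcs : ∀ j k, c j k = c k j := by
    intro j k
    simp only [hcdef]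
    rw [TT_swap' ν m b i j k, add_comm]
  have hcont : ∀ k, Continuous fun x : E d => ⟪x - m, b k⟫_ℝ := fun k => by fun_prop
  -- the quadratic form
  have hg : ∀ x : E d, ⟪x - m, HH b c (x - m)⟫_ℝ =
      ∑ l, ∑ k, c l k * (⟪x - m, b l⟫_ℝ * ⟪x - m, b k⟫_ℝ) := by
    intro x
    rw [← b.sum_inner_mul_inner (x - m) (HH b c (x - m))]
    refine Finset.sum_congr rfl fun l _ => ?_
    rw [HH_inner, Finset.mul_sum]
    refine Finset.sum_congr rfl fun k _ => ?_
    rw [real_inner_comm (x - m) (b k)]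
    ring
  have hn : ∀ x : E d, ‖HH b c (x - m)‖ ^ 2 =
      ∑ l, ∑ k, ∑ k', c l k * c l k' * (⟪x - m, b k⟫_ℝ * ⟪x - m, b k'⟫_ℝ) := by
    intro x
    rw [← real_inner_self_eq_norm_sq, ← b.sum_inner_mul_inner (HH b c (x - m)) (HH b c (x - m))]
    refine Finset.sum_congr rfl fun l _ => ?_
    rw [real_inner_comm (b l) (HH b c (x - m)), HH_inner, Finset.sum_mul_sum]
    refine Finset.sum_congr rfl fun k _ => Finset.sum_congr rfl fun k' _ => ?_
    rw [real_inner_comm (x - m) (b k), real_inner_comm (x - m) (b k')]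
    ring
  have hgc : Continuous fun x : E d => ⟪x - m, HH b c (x - m)⟫_ℝ := by fun_prop
  have hmean : ∫ x, ⟪x - m, b i⟫_ℝ ∂ν = 0 := by
    have h1 : ∫ x, ⟪b i, x - m⟫_ℝ ∂ν = ⟪b i, ∫ x, (x - m) ∂ν⟫_ℝ :=
      integral_inner (ci hν (by fun_prop)) (b i)
    have h2 : ∫ x, (x - m) ∂ν = 0 := by
      have i1 : Integrable (fun x : E d => x) ν := ci hν continuous_id
      rw [integral_sub i1 (integrable_const m)]
      simp [hm]
    rw [h2, inner_zero_right] at h1
    rw [← h1]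
    exact integral_congr_ae (Eventually.of_forall fun x => real_inner_comm _ _)
  set g : E d → ℝ := fun x => ⟪x - m, HH b c (x - m)⟫_ℝ with hgdef
  set q : ℝ := ∑ l, ∑ k, TT ν m b i l k ^ 2 / (lam l + lam k) with hq
  -- the integral of `X_i g`
  have hXg : ∫ x, ⟪x - m, b i⟫_ℝ * g x ∂ν = q := by
    have e1 : ∀ x, ⟪x - m, b i⟫_ℝ * g x = ∑ l, ∑ k, c l k * (⟪x - m, b i⟫_ℝ *
        (⟪x - m, b l⟫_ℝ * ⟪x - m, b k⟫_ℝ)) := by
      intro x
      simp only [hgdef]
      rw [hg x, Finset.mul_sum]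
      refine Finset.sum_congr rfl fun l _ => ?_
      rw [Finset.mul_sum]
      refine Finset.sum_congr rfl fun k _ => ?_
      ring
    simp only [e1]
    rw [integral_finset_sum _ fun l _ => ci hν (by fun_prop)]
    refine Finset.sum_congr rfl fun l _ => ?_
    rw [integral_finset_sum _ fun k _ => ci hν (by fun_prop)]
    refine Finset.sum_congr rfl fun k _ => ?_
    rw [integral_const_mul]
    show c l k * TT ν m b i l k = _
    simp only [hcdef]
    ring
  -- the variance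
  set G : ℝ := ∫ x, g x ∂ν with hG
  have hvar : q ^ 2 ≤ lam i * (∫ x, g x ^ 2 ∂ν - G ^ 2) := by
    have h1 := cs hν (f := fun x => ⟪x - m, b i⟫_ℝ) (g := fun x => g x - G) (hcont i)
      (hgc.sub continuous_const)
    have h2 : ∫ x, ⟪x - m, b i⟫_ℝ * (g x - G) ∂ν = q := by
      have e : ∀ x, ⟪x - m, b i⟫_ℝ * (g x - G) = ⟪x - m, b i⟫_ℝ * g x - ⟪x - m, b i⟫_ℝ * G :=
        fun x => by ring
      simp only [e]
      have i1 : Integrable (fun x : E d => ⟪x - m, b i⟫_ℝ * g x) ν := ci hν ((hcont i).mul hgc)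
      have i2 : Integrable (fun x : E d => ⟪x - m, b i⟫_ℝ * G) ν :=
        ci hν ((hcont i).mul continuous_const)
      rw [integral_sub i1 i2, hXg, integral_mul_const, hmean]
      ring
    have h3 : ∫ x, ⟪x - m, b i⟫_ℝ ^ 2 ∂ν = lam i := by
      have := hb i i
      rw [if_pos rfl] at this
      rw [← this]
      refine integral_congr_ae (Eventually.of_forall fun x => ?_)
      simp only
      ring
    have h4 : ∫ x, (g x - G) ^ 2 ∂ν = ∫ x, g x ^ 2 ∂ν - G ^ 2 := by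
      have e : ∀ x, (g x - G) ^ 2 = g x ^ 2 + ((-2 * G) * g x + G ^ 2) := fun x => by ring
      simp only [e]
      have i1 : Integrable (fun x : E d => g x ^ 2) ν := ci hν (hgc.pow 2)
      have i2 : Integrable (fun x : E d => (-2 * G) * g x) ν := ci hν (continuous_const.mul hgc)
      have i3 : Integrable (fun _ : E d => G ^ 2) ν := integrable_const _
      have i4 : Integrable (fun x : E d => (-2 * G) * g x + G ^ 2) ν := i2.add i3
      rw [integral_add i1 i4, integral_add i2 i3, integral_const_mul, ← hG]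
      simp
      ring
    rw [h2, h3, h4] at h1
    exact h1
  -- the norm
  have hnorm : ∫ x, ‖HH b c (x - m)‖ ^ 2 ∂ν = q / 2 := by
    simp only [hn]
    rw [integral_finset_sum _ fun l _ => ci hν (by fun_prop)]
    have e1 : ∀ l, ∫ x, ∑ k, ∑ k', c l k * c l k' * (⟪x - m, b k⟫_ℝ * ⟪x - m, b k'⟫_ℝ) ∂ν =
        ∑ k, c l k ^ 2 * lam k := by
      intro l
      rw [integral_finset_sum _ fun k _ => ci hν (by fun_prop)]
      refine Finset.sum_congr rfl fun k _ => ?_
      rw [integral_finset_sum _ fun k' _ => ci hν (by fun_prop)]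
      rw [Finset.sum_eq_single k]
      · rw [integral_const_mul, hb k k, if_pos rfl]
        ring
      · intro k' _ hk'
        rw [integral_const_mul, hb k k', if_neg (Ne.symm hk'), mul_zero]
      · intro h; exact absurd (Finset.mem_univ _) h
    rw [Finset.sum_congr rfl fun l _ => e1 l]
    have e2 : ∑ l, ∑ k, c l k ^ 2 * lam k = ∑ l, ∑ k, c l k ^ 2 * lam l := by
      rw [Finset.sum_comm]
      refine Finset.sum_congr rfl fun l _ => Finset.sum_congr rfl fun k _ => ?_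
      rw [hcs]
    have e3 : q = (∑ l, ∑ k, c l k ^ 2 * lam l) + ∑ l, ∑ k, c l k ^ 2 * lam k := by
      rw [hq, ← Finset.sum_add_distrib]
      refine Finset.sum_congr rfl fun l _ => ?_
      rw [← Finset.sum_add_distrib]
      refine Finset.sum_congr rfl fun k _ => ?_
      simp only [hcdef]
      rcases eq_or_ne (lam l + lam k) 0 with h | h
      · rw [h]; simp
      · field_simp
    rw [e3, e2]
    ring
  have hH := H (HH b c) (HH_symm b c hcs)
  rw [hnorm] at hH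
  have hq0 : 0 ≤ q := Finset.sum_nonneg fun l _ => Finset.sum_nonneg fun k _ =>
    div_nonneg (sq_nonneg _) (add_nonneg (hlam l) (hlam k))
  have h5 : q ^ 2 ≤ lam i * (c0 * (q / 2)) :=
    hvar.trans (mul_le_mul_of_nonneg_left hH (hlam i))
  rcases hq0.eq_or_lt with h | h
  · rw [← h]
    have := mul_nonneg hc0 (hlam i)
    linarith
  · have h6 : q * q ≤ (c0 * lam i / 2) * q := by nlinarith
    exact le_of_mul_le_mul_right h6 h

end NesAux

open NesAux in
theorem nes : X_NES := by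
  intro d B c ν hB hν hc H
  have := hν.prob
  obtain ⟨m, hm⟩ : ∃ m : E d, m = ∫ z, z ∂ν := ⟨_, rfl⟩
  rw [← hm] at H
  obtain ⟨b, lam, hb⟩ := diag hν m
  have hlam : ∀ i, 0 ≤ lam i := by
    intro i
    have h1 := hb i i
    rw [if_pos rfl] at h1
    rw [← h1]
    exact integral_nonneg fun x => mul_self_nonneg _
  have hcore := core hν hc hm H b lam hb hlam
  rw [S2_eq hν hm b lam hb, S3_eq hν hm b]
  -- positivity
  have hpos : ∀ i j k, TT ν m b i j k ≠ 0 → 0 < lam i := by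
    intro i j k hT
    rcases (hlam i).eq_or_lt with h | h
    · exfalso
      apply hT
      have h1 := cs hν (f := fun x => ⟪x - m, b i⟫_ℝ)
        (g := fun x => ⟪x - m, b j⟫_ℝ * ⟪x - m, b k⟫_ℝ) (by fun_prop) (by fun_prop)
      have h3 : ∫ x, ⟪x - m, b i⟫_ℝ ^ 2 ∂ν = lam i := by
        have := hb i i
        rw [if_pos rfl] at this
        rw [← this]
        refine integral_congr_ae (Eventually.of_forall fun x => ?_)
        simp only
        ring
      rw [h3, ← h, zero_mul] at h1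
      have h4 : TT ν m b i j k ^ 2 ≤ 0 := h1
      exact pow_eq_zero_iff (two_ne_zero) |>.1 (le_antisymm h4 (sq_nonneg _))
    · exact h
  set f : Fin d → Fin d → Fin d → ℝ := fun i l k =>
    lam i * (TT ν m b i l k ^ 2 / (lam l + lam k)) with hf
  set Wt : ℝ := ∑ i, ∑ l, ∑ k, f i l k with hW
  have hW1 : Wt ≤ ∑ i, c / 2 * lam i ^ 2 := by
    rw [hW]
    refine Finset.sum_le_sum fun i _ => ?_
    have e : ∑ l, ∑ k, f i l k = lam i * ∑ l, ∑ k, TT ν m b i l k ^ 2 / (lam l + lam k) := by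
      rw [Finset.mul_sum]
      refine Finset.sum_congr rfl fun l _ => ?_
      rw [Finset.mul_sum]
    rw [e]
    have := mul_le_mul_of_nonneg_left (hcore i) (hlam i)
    linarith
  have hW2 : Wt = ∑ i, ∑ l, ∑ k, f l i k := by
    rw [hW, Finset.sum_comm]
  have hW3 : Wt = ∑ i, ∑ l, ∑ k, f k l i := by
    rw [hW]
    calc ∑ i, ∑ l, ∑ k, f i l k = ∑ l, ∑ i, ∑ k, f i l k := Finset.sum_comm
      _ = ∑ l, ∑ k, ∑ i, f i l k := Finset.sum_congr rfl fun l _ => Finset.sum_comm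
      _ = ∑ l, ∑ i, ∑ k, f k l i := rfl
      _ = ∑ i, ∑ l, ∑ k, f k l i := Finset.sum_comm
  have hnes : ∑ i, ∑ l, ∑ k, (3 / 2) * TT ν m b i l k ^ 2 ≤ Wt + Wt + Wt := by
    nth_rewrite 1 [hW]
    nth_rewrite 1 [hW2]
    rw [hW3, ← Finset.sum_add_distrib, ← Finset.sum_add_distrib]
    refine Finset.sum_le_sum fun i _ => ?_
    rw [← Finset.sum_add_distrib, ← Finset.sum_add_distrib]
    refine Finset.sum_le_sum fun l _ => ?_
    rw [← Finset.sum_add_distrib, ← Finset.sum_add_distrib]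
    refine Finset.sum_le_sum fun k _ => ?_
    have t1 : TT ν m b l i k = TT ν m b i l k := TT_swap ν m b l i k
    have t2 : TT ν m b k l i = TT ν m b i l k := by
      rw [TT_swap ν m b k l i, TT_swap' ν m b l k i, TT_swap ν m b l i k]
    simp only [hf]
    rw [t1, t2]
    rcases eq_or_ne (TT ν m b i l k) 0 with h0 | h0
    · rw [h0]; simp
    · have p1 := hpos i l k h0
      have p2 := hpos l i k (by rw [t1]; exact h0)
      have p3 := hpos k l i (by rw [t2]; exact h0)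
      have hN := nesbitt p1 p2 p3
      have hs := mul_le_mul_of_nonneg_right hN (sq_nonneg (TT ν m b i l k))
      calc 3 / 2 * TT ν m b i l k ^ 2 ≤ (lam i / (lam l + lam k) + lam l / (lam i + lam k) +
            lam k / (lam l + lam i)) * TT ν m b i l k ^ 2 := hs
        _ = _ := by ring
  have hs3 : ∑ i, ∑ l, ∑ k, (3 / 2) * TT ν m b i l k ^ 2 =
      3 / 2 * ∑ i, ∑ l, ∑ k, TT ν m b i l k ^ 2 := by
    rw [Finset.mul_sum]
    refine Finset.sum_congr rfl fun i _ => ?_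
    rw [Finset.mul_sum]
    refine Finset.sum_congr rfl fun l _ => ?_
    rw [Finset.mul_sum]
  rw [hs3] at hnes
  rw [← Finset.mul_sum] at hW1
  linarith

end Pool.Agent.T2h52.FC
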