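import Pool.Agent.T2h52.FC.Stm

/-! # Finitely many functionals describe the gauge up to a factor `3/2` (`X_NET`) -/

set_option autoImplicit false

namespace Pool.Agent.T2h52.FC

open MeasureTheory Set Filter Topology ProbabilityTheory
open scoped ENNReal InnerProductSpace Pointwise
open Pool.Agent.T2h52.SP

namespace NET

theorem point {d : ℕ} {Q : Set (E d)} (hQ : Bd Q) (v : E d) :
    ∃ y : E d, (∀ x ∈ Q, |⟪x, y⟫_ℝ| ≤ 1) ∧ (v ≠ 0 → gauge Q v < 3 / 2 * ⟪v, y⟫_ℝ) := by
  by_cases hv : v = 0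
  · exact ⟨0, fun x _ => by simp, fun h => absurd hv h⟩
  have habs : Absorbent ℝ Q := absorbent_nhds_zero (mem_interior_iff_mem_nhds.1 hQ.int)
  have hbd : Bornology.IsVonNBounded ℝ Q :=
    (NormedSpace.isVonNBounded_iff ℝ).2 hQ.comp.isBounded
  have hg : 0 < gauge Q v := (gauge_pos habs hbd).2 hv
  have h0 : (0 : E d) ∈ Q := interior_subset hQ.int
  have hx : ((5 / 4) / gauge Q v) • v ∉ Q := by
    intro h
    have h1 := gauge_le_one_of_mem h
    rw [gauge_smul_of_nonneg (by positivity), smul_eq_mul, div_mul_cancel₀ _ hg.ne'] at h1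
    norm_num at h1
  obtain ⟨f, u, hf, hu⟩ := geometric_hahn_banach_closed_point hQ.conv hQ.comp.isClosed hx
  have hu0 : 0 < u := by
    have := hf 0 h0
    rwa [map_zero] at this
  have hy : ∀ x : E d, ⟪x, u⁻¹ • (InnerProductSpace.toDual ℝ (E d)).symm f⟫_ℝ = f x / u := by
    intro x
    rw [real_inner_smul_right, real_inner_comm, InnerProductSpace.toDual_symm_apply]
    field_simp
  refine ⟨u⁻¹ • (InnerProductSpace.toDual ℝ (E d)).symm f, fun x hxQ => ?_, fun _ => ?_⟩
  · rw [hy, abs_le]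
    have h1 := hf x hxQ
    have h2 := hf (-x) (hQ.sym x hxQ)
    rw [map_neg] at h2
    constructor
    · rw [le_div_iff₀ hu0]
      linarith
    · rw [div_le_one hu0]
      exact h1.le
  · rw [hy]
    rw [map_smul, smul_eq_mul] at hu
    have h1 : u * gauge Q v < 5 / 4 * f v := by
      have h2 := mul_lt_mul_of_pos_right hu hg
      have h3 : 5 / 4 / gauge Q v * f v * gauge Q v = 5 / 4 * f v := by
        field_simp
      rwa [h3] at h2
    have h4 : 0 < f v := by
      have := mul_pos hu0 hg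
      linarith
    rw [← mul_div_assoc, lt_div_iff₀ hu0]
    linarith

end NET

theorem net : X_NET := by
  classical
  intro d Q hQ
  choose y hy1 hy2 using NET.point hQ
  have hgc : Continuous (gauge Q) := continuous_gauge hQ.conv (mem_interior_iff_mem_nhds.1 hQ.int)
  obtain ⟨t, ht, hts⟩ := (isCompact_sphere (0 : E d) 1).elim_nhds_subcover
    (fun v => {w : E d | gauge Q w < 3 / 2 * ⟪w, y v⟫_ℝ}) (fun v hv => by
      have hv0 : v ≠ 0 := by
        rintro rfl
        simp at hv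
      refine (isOpen_lt hgc ?_).mem_nhds (hy2 v hv0)
      fun_prop)
  refine ⟨insert 0 (t.image y), ⟨0, Finset.mem_insert_self _ _⟩, fun z hz x hx => ?_, fun v => ?_⟩
  · rcases Finset.mem_insert.1 hz with rfl | hz
    · simp
    · obtain ⟨v, -, rfl⟩ := Finset.mem_image.1 hz
      exact hy1 v x hx
  · by_cases hv : v = 0
    · refine ⟨0, Finset.mem_insert_self _ _, ?_⟩
      rw [hv, gauge_zero]
      simp
    · have hn : 0 < ‖v‖ := norm_pos_iff.2 hv
      have hu : ‖v‖⁻¹ • v ∈ Metric.sphere (0 : E d) 1 := by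
        rw [mem_sphere_zero_iff_norm, norm_smul, norm_inv, norm_norm, inv_mul_cancel₀ hn.ne']
      obtain ⟨x, hxt, hx⟩ := mem_iUnion₂.1 (hts hu)
      refine ⟨y x, Finset.mem_insert_of_mem (Finset.mem_image_of_mem _ hxt), ?_⟩
      have h1 : gauge Q (‖v‖⁻¹ • v) < 3 / 2 * ⟪‖v‖⁻¹ • v, y x⟫_ℝ := hx
      rw [gauge_smul_of_nonneg (by positivity), real_inner_smul_left, smul_eq_mul] at h1
      have h2 : ‖v‖⁻¹ * gauge Q v < ‖v‖⁻¹ * (3 / 2 * ⟪v, y x⟫_ℝ) := by
        calc _ < _ := h1
          _ = _ := by ring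
      exact (lt_of_mul_lt_mul_left h2 (by positivity)).le

end Pool.Agent.T2h52.FC
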