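import Pool.Agent.T2h52.FC.Stm

/-! Numbers. -/

set_option autoImplicit false

namespace Pool.Agent.T2h52.FC

open MeasureTheory Set Filter Topology ProbabilityTheory

theorem nu1 : X_NU1 := by
  intro d k K s0 s1 sF L hd hL hK hs0 hs1 hsF hk hkle
  have hD : (10 : ℝ) ^ 50 ≤ (d : ℝ) := by exact_mod_cast hd
  have hD0 : (0 : ℝ) < d := lt_of_lt_of_le (by norm_num) hD
  obtain ⟨q, hq⟩ : ∃ q : ℝ, q = (d : ℝ) ^ ((1 : ℝ) / 64) := ⟨_, rfl⟩
  have hq0 : 0 < q := by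
    rw [hq]
    exact Real.rpow_pos_of_pos hD0 _
  have hq1 : 1 ≤ q := by
    rw [hq]
    exact Real.one_le_rpow (le_trans (by norm_num) hD) (by norm_num)
  have p64 : (d : ℝ) = q ^ 64 := by
    rw [hq, ← Real.rpow_natCast, ← Real.rpow_mul hD0.le]
    norm_num
  have p16 : (d : ℝ) ^ ((1 : ℝ) / 16) = q ^ 4 := by
    rw [hq, ← Real.rpow_natCast, ← Real.rpow_mul hD0.le]
    norm_num
  have p15 : (d : ℝ) ^ ((15 : ℝ) / 64) = q ^ 15 := by
    rw [hq, ← Real.rpow_natCast, ← Real.rpow_mul hD0.le]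
    norm_num
  have p32 : Real.sqrt (d : ℝ) = q ^ 32 := by
    rw [p64, show q ^ 64 = (q ^ 32) ^ 2 by ring]
    exact Real.sqrt_sq (by positivity)
  have hL1 : 1 ≤ L := by
    rw [hL]
    have h1 : Real.exp 1 ≤ (d : ℝ) + 1 := by
      have := Real.exp_one_lt_d9
      have h2 : (10 : ℝ) ≤ 10 ^ 50 := by norm_num
      linarith
    have h2 := Real.log_le_log (Real.exp_pos 1) h1
    rwa [Real.log_exp] at h2
  obtain ⟨l, hl⟩ : ∃ l : ℝ, l = L ^ ((3 : ℝ) / 2) := ⟨_, rfl⟩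
  have hl0 : 0 < l := by
    rw [hl]
    exact Real.rpow_pos_of_pos (by linarith) _
  have hl2 : L ^ 3 = l ^ 2 := by
    rw [hl, ← Real.rpow_natCast, ← Real.rpow_natCast, ← Real.rpow_mul (by linarith)]
    norm_num
  have hL3 : 1 ≤ L ^ 3 := one_le_pow₀ hL1
  rw [p32, hl2] at hs0
  rw [p16, hs0] at hs1
  rw [p16, hs0] at hkle
  rw [hl2] at hsF
  have hl21 : 1 ≤ l ^ 2 := by
    rw [← hl2]
    exact hL3
  have hk52 : (k : ℝ) ≤ (q ^ 26) ^ 2 := by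
    refine hkle.trans ?_
    have h1 : 2 * ((q ^ 4) ^ 5 * (5 * (1 / (10 ^ 14 * l ^ 2 * q ^ 32)) * (d : ℝ))) =
        10 / (10 ^ 14 * l ^ 2) * (q ^ 26) ^ 2 := by
      rw [p64]
      field_simp
      ring
    rw [h1]
    have h2 : 10 / (10 ^ 14 * l ^ 2) ≤ 1 := by
      rw [div_le_one (by positivity)]
      nlinarith
    calc 10 / (10 ^ 14 * l ^ 2) * (q ^ 26) ^ 2 ≤ 1 * (q ^ 26) ^ 2 :=
          mul_le_mul_of_nonneg_right h2 (by positivity)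
      _ = (q ^ 26) ^ 2 := one_mul _
  have hsk : Real.sqrt (k : ℝ) ≤ q ^ 26 := by
    rw [show q ^ 26 = Real.sqrt ((q ^ 26) ^ 2) from (Real.sqrt_sq (by positivity)).symm]
    exact Real.sqrt_le_sqrt hk52
  have hkr : (1 : ℝ) ≤ k := by exact_mod_cast hk
  have hsk0 : 0 < Real.sqrt (k : ℝ) := Real.sqrt_pos.2 (by linarith)
  have e1 : Real.sqrt sF = 1 / Real.sqrt (10 ^ 14 * l ^ 2 * Real.sqrt k) := by
    rw [hsF, Real.sqrt_div zero_le_one, Real.sqrt_one]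
  have e2 : Real.sqrt (10 ^ 14 * l ^ 2 * Real.sqrt k) ≤ 10 ^ 7 * l * q ^ 13 := by
    rw [show 10 ^ 7 * l * q ^ 13 = Real.sqrt ((10 ^ 7 * l * q ^ 13) ^ 2) from
      (Real.sqrt_sq (by positivity)).symm]
    refine Real.sqrt_le_sqrt ?_
    have : (10 ^ 7 * l * q ^ 13) ^ 2 = 10 ^ 14 * l ^ 2 * q ^ 26 := by ring
    rw [this]
    exact mul_le_mul_of_nonneg_left hsk (by positivity)
  have e3 : Real.sqrt s1 = 1 / (10 ^ 7 * l * q ^ 14) := by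
    have : s1 = (1 / (10 ^ 7 * l * q ^ 14)) ^ 2 := by
      rw [hs1]
      field_simp
    rw [this]
    exact Real.sqrt_sq (by positivity)
  rw [e1, e3, p15, ← hl, hK, ← hq]
  have e4 : 2 * (2 * 10 ^ 5 * q) / (1 / Real.sqrt (10 ^ 14 * l ^ 2 * Real.sqrt k)) =
      4 * 10 ^ 5 * q * Real.sqrt (10 ^ 14 * l ^ 2 * Real.sqrt k) := by
    rw [div_div_eq_mul_div, div_one]
    ring
  have e5 : 6 * (2 * 10 ^ 5 * q) / (1 / (10 ^ 7 * l * q ^ 14)) =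
      12 * 10 ^ 12 * (l * q ^ 15) := by
    rw [div_div_eq_mul_div, div_one]
    ring
  rw [e4, e5]
  have e6 : 4 * 10 ^ 5 * q * Real.sqrt (10 ^ 14 * l ^ 2 * Real.sqrt k) ≤
      4 * 10 ^ 5 * q * (10 ^ 7 * l * q ^ 13) :=
    mul_le_mul_of_nonneg_left e2 (by positivity)
  have e7 : 4 * 10 ^ 5 * q * (10 ^ 7 * l * q ^ 13) ≤ 4 * 10 ^ 12 * (l * q ^ 15) := by
    have : 4 * 10 ^ 5 * q * (10 ^ 7 * l * q ^ 13) = 4 * 10 ^ 12 * (l * q ^ 14) := by ring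
    rw [this]
    have h1 : q ^ 14 ≤ q ^ 15 := pow_le_pow_right₀ hq1 (by norm_num)
    have h2 := mul_le_mul_of_nonneg_left h1 hl0.le
    linarith
  have e8 : 0 < l * q ^ 15 := by positivity
  have e9 : 10 ^ 14 * l * q ^ 15 = 10 ^ 14 * (l * q ^ 15) := by ring
  rw [e9]
  linarith

end Pool.Agent.T2h52.FC
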