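import Pool.Agent.T2h52.FC.Stm
import Pool.Agent.Helper392.Mey.PL

/-! # Prékopa-Leindler in `E d` (`X_PLE`) -/

set_option autoImplicit false

namespace Pool.Agent.T2h52.FC

open MeasureTheory Set Filter Topology ProbabilityTheory
open scoped ENNReal InnerProductSpace Pointwise
open Pool.Agent.T2h52.SP

theorem ple : X_PLE := by
  intro d u v h hu hv hh H
  have mp : MeasurePreserving (WithLp.toLp 2 : (Fin d → ℝ) → E d) :=
    PiLp.volume_preserving_toLp (Fin d)
  have hm : Measurable (WithLp.toLp 2 : (Fin d → ℝ) → E d) := mp.measurable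
  rw [← mp.lintegral_comp hu, ← mp.lintegral_comp hv, ← mp.lintegral_comp hh]
  refine Pool.Agent.Helper392.Mey.PL.pln d (fun s => u (WithLp.toLp 2 s))
    (fun s => v (WithLp.toLp 2 s)) (fun s => h (WithLp.toLp 2 s)) (hu.comp hm) (hv.comp hm)
    (hh.comp hm) fun s t => ?_
  have h1 : (WithLp.toLp 2 (fun i => (s i + t i) / 2) : E d) =
      (1 / 2 : ℝ) • (WithLp.toLp 2 s + WithLp.toLp 2 t) := by
    ext i
    simp
    ring
  show u (WithLp.toLp 2 s) * v (WithLp.toLp 2 t) ≤ h (WithLp.toLp 2 fun i => (s i + t i) / 2) ^ 2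
  rw [h1]
  exact H _ _

end Pool.Agent.T2h52.FC
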