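import Pool.Agent.T2h52.FC.Stm

/-! Project FC (helper52), task QUO: calculus of a quotient. -/

set_option autoImplicit false

namespace Pool.Agent.T2h52.FC

open MeasureTheory Set Filter Topology ProbabilityTheory
open scoped ENNReal InnerProductSpace Pointwise
open Pool.Agent.T2h52.SP

namespace QUO

/-- derivative of a quotient -/
theorem L1 {V : Type} [NormedAddCommGroup V] [NormedSpace ℝ V] (A K : V → ℝ) (A' K' : V →L[ℝ] ℝ) (q : V) (m : ℕ)
    (hA : HasFDerivAt A A' q) (hK : HasFDerivAt K K' q) (h0 : K q ≠ 0) :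
    HasFDerivAt (fun q => A q / K q ^ m) ((1 / K q ^ m) • A' - (m * A q / K q ^ (m + 1)) • K') q := by
  have h1 : HasDerivAt (fun x : ℝ => (x ^ m)⁻¹) (-(m / K q ^ (m + 1))) (K q) := by
    have h2 := (hasDerivAt_pow m (K q)).inv (pow_ne_zero m h0)
    refine h2.congr_deriv ?_
    rcases Nat.eq_zero_or_pos m with h | h
    · subst h
      simp
    · obtain ⟨k, rfl⟩ := Nat.exists_eq_succ_of_ne_zero h.ne'
      rw [Nat.succ_sub_one, neg_div, div_eq_div_iff (pow_ne_zero _ (pow_ne_zero _ h0)) (pow_ne_zero _ h0) |>.2 ?_]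
      rw [Nat.succ_eq_add_one]
      ring
  have h3 := h1.comp_hasFDerivAt q hK
  have h4 := hA.mul h3
  have h5 : (fun q => A q / K q ^ m) = A * ((fun x : ℝ => (x ^ m)⁻¹) ∘ K) := by
    funext x
    simp [div_eq_mul_inv]
  rw [h5]
  refine h4.congr_fderiv ?_
  ext v
  simp only [add_apply, smul_apply, sub_apply,
    smul_eq_mul, Function.comp_apply]
  ring

section
variable {V : Type} [NormedAddCommGroup V] [NormedSpace ℝ V] {N K : V → ℝ}

theorem F1 (hN : ContDiff ℝ 2 N) (hK : ContDiff ℝ 2 K) (h0 : ∀ q, 0 < K q) (m : ℕ) (q v : V) :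
    fderiv ℝ (fun q => N q / K q ^ m) q v =
      fderiv ℝ N q v / K q ^ m - m * N q * fderiv ℝ K q v / K q ^ (m + 1) := by
  have h1 := L1 N K _ _ q m ((hN.differentiable (by norm_num)) q).hasFDerivAt
    ((hK.differentiable (by norm_num)) q).hasFDerivAt (h0 q).ne'
  rw [h1.fderiv]
  simp only [smul_apply, sub_apply, smul_eq_mul]
  ring

theorem apv {F : V → ℝ} (hF : ContDiff ℝ 2 F) (q v : V) :
    HasFDerivAt (fun q' => fderiv ℝ F q' v) ((fderiv ℝ (fderiv ℝ F) q).flip v) q := by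
  have h1 : ContDiff ℝ 1 (fderiv ℝ F) := hF.fderiv_right (by norm_num)
  have h2 : HasFDerivAt (fderiv ℝ F) (fderiv ℝ (fderiv ℝ F) q) q := ((h1.differentiable (by norm_num)) q).hasFDerivAt
  have h3 := h2.clm_apply (hasFDerivAt_const v q)
  refine h3.congr_fderiv ?_
  ext u
  simp

theorem F2 (hN : ContDiff ℝ 2 N) (hK : ContDiff ℝ 2 K) (h0 : ∀ q, 0 < K q) (m : ℕ) (q u v : V) :
    fderiv ℝ (fderiv ℝ (fun q => N q / K q ^ m)) q u v =
      fderiv ℝ (fderiv ℝ N) q u v / K q ^ m - m * (fderiv ℝ N q v * fderiv ℝ K q u) / K q ^ (m + 1) -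
      m * (fderiv ℝ N q u * fderiv ℝ K q v) / K q ^ (m + 1) -
      m * N q * fderiv ℝ (fderiv ℝ K) q u v / K q ^ (m + 1) +
      m * (m + 1) * N q * (fderiv ℝ K q u * fderiv ℝ K q v) / K q ^ (m + 2) := by
  have hf : ContDiff ℝ 2 (fun q => N q / K q ^ m) := hN.div (hK.pow m) fun q => (pow_pos (h0 q) m).ne'
  have e1 : fderiv ℝ (fderiv ℝ (fun q => N q / K q ^ m)) q u v =
      fderiv ℝ (fun q' => fderiv ℝ (fun q => N q / K q ^ m) q' v) q u := by
    rw [(apv hf q v).fderiv]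
    rfl
  have e2 : (fun q' => fderiv ℝ (fun q => N q / K q ^ m) q' v) =
      fun q' => fderiv ℝ N q' v / K q' ^ m - (m * N q' * fderiv ℝ K q' v) / K q' ^ (m + 1) :=
    funext fun q' => F1 hN hK h0 m q' v
  have hKd := ((hK.differentiable (by norm_num)) q).hasFDerivAt
  have hNd := ((hN.differentiable (by norm_num)) q).hasFDerivAt
  have h1 := L1 (fun q' => fderiv ℝ N q' v) K _ _ q m (apv hN q v) hKd (h0 q).ne'
  have h2 := L1 (fun q' => m * N q' * fderiv ℝ K q' v) K _ _ q (m + 1)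
    ((hNd.const_mul (m : ℝ)).mul (apv hK q v)) hKd (h0 q).ne'
  have h3 := h1.sub h2
  rw [e1, e2]
  have h4 : fderiv ℝ (fun q' => fderiv ℝ N q' v / K q' ^ m - (m * N q' * fderiv ℝ K q' v) / K q' ^ (m + 1)) q = _ :=
    h3.fderiv
  rw [h4]
  simp only [smul_apply, sub_apply, add_apply, smul_eq_mul,
    ContinuousLinearMap.flip_apply]
  push_cast
  ring

end

theorem bd (j : ℕ) (x X K M : ℝ) (hK : 0 < K) (hx : |x| ≤ X) (hKM : K⁻¹ ≤ M) : |x / K ^ j| ≤ X * M ^ j := by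
  have h1 : |x / K ^ j| = |x| * K⁻¹ ^ j := by
    rw [abs_div, abs_of_pos (pow_pos hK j), div_eq_mul_inv, inv_pow]
  rw [h1]
  exact mul_le_mul hx (pow_le_pow_left₀ (inv_nonneg.2 hK.le) hKM j) (pow_nonneg (inv_nonneg.2 hK.le) j)
    ((abs_nonneg x).trans hx)

theorem one_le {M K : ℝ} (hM : 0 < M) (h1 : M⁻¹ ≤ K) (h2 : K ≤ M) : 1 ≤ M := by
  by_contra h
  push Not at h
  have h3 : 1 < M⁻¹ := (one_lt_inv₀ hM).2 h
  linarith

/-- the bound for the derivatives -/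
theorem bds {V : Type} [NormedAddCommGroup V] [NormedSpace ℝ V] {N K : V → ℝ} (hN : ContDiff ℝ 2 N)
    (hK : ContDiff ℝ 2 K) (h0 : ∀ q, 0 < K q) (m : ℕ) (q : V) (M : ℝ) (hM : 1 ≤ M) (hKM : (K q)⁻¹ ≤ M)
    (b1 : |N q| ≤ M) (b2 : ‖fderiv ℝ N q‖ ≤ M) (b3 : ‖fderiv ℝ (fderiv ℝ N) q‖ ≤ M)
    (b4 : ‖fderiv ℝ K q‖ ≤ M) (b5 : ‖fderiv ℝ (fderiv ℝ K) q‖ ≤ M) :
    |N q / K q ^ m| ≤ (1 + 3 * m + m * (m + 1)) * M ^ (m + 5) ∧
    ‖fderiv ℝ (fun q => N q / K q ^ m) q‖ ≤ (1 + 3 * m + m * (m + 1)) * M ^ (m + 5) ∧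
    ‖fderiv ℝ (fderiv ℝ fun q => N q / K q ^ m) q‖ ≤ (1 + 3 * m + m * (m + 1)) * M ^ (m + 5) := by
  have hm : (0 : ℝ) ≤ m := Nat.cast_nonneg m
  have hM0 : 0 ≤ M := by linarith
  have p1 : M ^ (m + 1) ≤ M ^ (m + 5) := pow_le_pow_right₀ hM (by omega)
  have p3 : M ^ (m + 3) ≤ M ^ (m + 5) := pow_le_pow_right₀ hM (by omega)
  have pB : 0 ≤ M ^ (m + 5) := pow_nonneg hM0 _
  have a2 : ∀ v, |fderiv ℝ N q v| ≤ M * ‖v‖ := fun v =>
    ((fderiv ℝ N q).le_opNorm v).trans (mul_le_mul_of_nonneg_right b2 (norm_nonneg v))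
  have a4 : ∀ v, |fderiv ℝ K q v| ≤ M * ‖v‖ := fun v =>
    ((fderiv ℝ K q).le_opNorm v).trans (mul_le_mul_of_nonneg_right b4 (norm_nonneg v))
  have a3 : ∀ u v, |fderiv ℝ (fderiv ℝ N) q u v| ≤ M * (‖u‖ * ‖v‖) := fun u v => by
    refine ((fderiv ℝ (fderiv ℝ N) q).le_opNorm₂ u v).trans ?_
    rw [mul_assoc]
    exact mul_le_mul_of_nonneg_right b3 (mul_nonneg (norm_nonneg u) (norm_nonneg v))
  have a5 : ∀ u v, |fderiv ℝ (fderiv ℝ K) q u v| ≤ M * (‖u‖ * ‖v‖) := fun u v => by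
    refine ((fderiv ℝ (fderiv ℝ K) q).le_opNorm₂ u v).trans ?_
    rw [mul_assoc]
    exact mul_le_mul_of_nonneg_right b5 (mul_nonneg (norm_nonneg u) (norm_nonneg v))
  refine ⟨?_, ?_, ?_⟩
  · have h1 := bd m (N q) M (K q) M (h0 q) b1 hKM
    have h2 : M * M ^ m = M ^ (m + 1) := by ring
    rw [h2] at h1
    nlinarith [mul_nonneg hm pB, mul_nonneg (mul_nonneg hm (by linarith : (0 : ℝ) ≤ m + 1)) pB]
  · refine ContinuousLinearMap.opNorm_le_bound _ (by positivity) fun v => ?_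
    rw [Real.norm_eq_abs, F1 hN hK h0 m q v]
    have hv := norm_nonneg v
    have t1 := bd m _ _ (K q) M (h0 q) (a2 v) hKM
    have t2 : |m * N q * fderiv ℝ K q v| ≤ m * M * (M * ‖v‖) := by
      rw [abs_mul, abs_mul, abs_of_nonneg hm]
      exact mul_le_mul (mul_le_mul_of_nonneg_left b1 hm) (a4 v) (abs_nonneg _) (by positivity)
    have t3 := bd (m + 1) _ _ (K q) M (h0 q) t2 hKM
    have e1 : M * ‖v‖ * M ^ m = M ^ (m + 1) * ‖v‖ := by ring
    have e2 : m * M * (M * ‖v‖) * M ^ (m + 1) = m * (M ^ (m + 3) * ‖v‖) := by ring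
    rw [e1] at t1
    rw [e2] at t3
    refine (abs_sub _ _).trans ((add_le_add t1 t3).trans ?_)
    have s1 : M ^ (m + 1) * ‖v‖ ≤ M ^ (m + 5) * ‖v‖ := mul_le_mul_of_nonneg_right p1 hv
    have s2 : m * (M ^ (m + 3) * ‖v‖) ≤ m * (M ^ (m + 5) * ‖v‖) :=
      mul_le_mul_of_nonneg_left (mul_le_mul_of_nonneg_right p3 hv) hm
    have s3 : 0 ≤ M ^ (m + 5) * ‖v‖ := mul_nonneg pB hv
    nlinarith [mul_nonneg hm s3, mul_nonneg (mul_nonneg hm (by linarith : (0 : ℝ) ≤ m + 1)) s3]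
  · refine ContinuousLinearMap.opNorm_le_bound₂ _ (by positivity) fun u v => ?_
    rw [Real.norm_eq_abs, F2 hN hK h0 m q u v]
    have hu := norm_nonneg u
    have hv := norm_nonneg v
    have t1 := bd m _ _ (K q) M (h0 q) (a3 u v) hKM
    have t2 : |m * (fderiv ℝ N q v * fderiv ℝ K q u)| ≤ m * (M * ‖v‖ * (M * ‖u‖)) := by
      rw [abs_mul, abs_mul, abs_of_nonneg hm]
      exact mul_le_mul_of_nonneg_left (mul_le_mul (a2 v) (a4 u) (abs_nonneg _) (by positivity)) hm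
    have t3 : |m * (fderiv ℝ N q u * fderiv ℝ K q v)| ≤ m * (M * ‖u‖ * (M * ‖v‖)) := by
      rw [abs_mul, abs_mul, abs_of_nonneg hm]
      exact mul_le_mul_of_nonneg_left (mul_le_mul (a2 u) (a4 v) (abs_nonneg _) (by positivity)) hm
    have t4 : |m * N q * fderiv ℝ (fderiv ℝ K) q u v| ≤ m * M * (M * (‖u‖ * ‖v‖)) := by
      rw [abs_mul, abs_mul, abs_of_nonneg hm]
      exact mul_le_mul (mul_le_mul_of_nonneg_left b1 hm) (a5 u v) (abs_nonneg _) (by positivity)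
    have t5 : |m * (m + 1) * N q * (fderiv ℝ K q u * fderiv ℝ K q v)| ≤
        m * (m + 1) * M * (M * ‖u‖ * (M * ‖v‖)) := by
      rw [abs_mul, abs_mul (m * (m + 1) : ℝ), abs_mul (fderiv ℝ K q u), abs_of_nonneg (by positivity : (0 : ℝ) ≤ m * (m + 1))]
      exact mul_le_mul (mul_le_mul_of_nonneg_left b1 (by positivity))
        (mul_le_mul (a4 u) (a4 v) (abs_nonneg _) (by positivity)) (by positivity) (by positivity)
    have r2 := bd (m + 1) _ _ (K q) M (h0 q) t2 hKM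
    have r3 := bd (m + 1) _ _ (K q) M (h0 q) t3 hKM
    have r4 := bd (m + 1) _ _ (K q) M (h0 q) t4 hKM
    have r5 := bd (m + 2) _ _ (K q) M (h0 q) t5 hKM
    set W : ℝ := ‖u‖ * ‖v‖ with hW
    have hW0 : 0 ≤ W := mul_nonneg hu hv
    have e1 : M * W * M ^ m = M ^ (m + 1) * W := by ring
    have e2 : m * (M * ‖v‖ * (M * ‖u‖)) * M ^ (m + 1) = m * (M ^ (m + 3) * W) := by rw [hW]; ring
    have e3 : m * (M * ‖u‖ * (M * ‖v‖)) * M ^ (m + 1) = m * (M ^ (m + 3) * W) := by rw [hW]; ring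
    have e4 : m * M * (M * W) * M ^ (m + 1) = m * (M ^ (m + 3) * W) := by ring
    have e5 : m * (m + 1) * M * (M * ‖u‖ * (M * ‖v‖)) * M ^ (m + 2) = m * (m + 1) * (M ^ (m + 5) * W) := by
      rw [hW]; ring
    rw [e1] at t1
    rw [e2] at r2
    rw [e3] at r3
    rw [e4] at r4
    rw [e5] at r5
    have s1 : M ^ (m + 1) * W ≤ M ^ (m + 5) * W := mul_le_mul_of_nonneg_right p1 hW0
    have s2 : m * (M ^ (m + 3) * W) ≤ m * (M ^ (m + 5) * W) :=
      mul_le_mul_of_nonneg_left (mul_le_mul_of_nonneg_right p3 hW0) hm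
    refine (abs_add_le _ _).trans ?_
    have q1 := abs_sub (fderiv ℝ (fderiv ℝ N) q u v / K q ^ m)
      (m * (fderiv ℝ N q v * fderiv ℝ K q u) / K q ^ (m + 1))
    have q2 := abs_sub (fderiv ℝ (fderiv ℝ N) q u v / K q ^ m - m * (fderiv ℝ N q v * fderiv ℝ K q u) / K q ^ (m + 1))
      (m * (fderiv ℝ N q u * fderiv ℝ K q v) / K q ^ (m + 1))
    have q3 := abs_sub (fderiv ℝ (fderiv ℝ N) q u v / K q ^ m -
      m * (fderiv ℝ N q v * fderiv ℝ K q u) / K q ^ (m + 1) - m * (fderiv ℝ N q u * fderiv ℝ K q v) / K q ^ (m + 1))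
      (m * N q * fderiv ℝ (fderiv ℝ K) q u v / K q ^ (m + 1))
    have e6 : (1 + 3 * m + m * (m + 1)) * M ^ (m + 5) * ‖u‖ * ‖v‖ =
        M ^ (m + 5) * W + 3 * (m * (M ^ (m + 5) * W)) + m * (m + 1) * (M ^ (m + 5) * W) := by rw [hW]; ring
    rw [e6]
    linarith

end QUO

theorem quo : X_QUO := by
  intro d m N K hN hK h0
  refine ⟨hN.div (hK.pow m) fun q => (pow_pos (h0 q) m).ne', fun q => ?_, ?_⟩
  · unfold hea
    rw [QUO.F1 hN hK h0 m q]
    simp only [QUO.F2 hN hK h0 m q]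
    rw [Finset.sum_add_distrib, Finset.sum_sub_distrib, Finset.sum_sub_distrib, Finset.sum_sub_distrib]
    have h1 : ∑ j : Fin d, m * (m + 1) * N q * (fderiv ℝ K q (0, EuclideanSpace.single j 1) *
        fderiv ℝ K q (0, EuclideanSpace.single j 1)) / K q ^ (m + 2) =
        m * (m + 1) * N q * (∑ j : Fin d, fderiv ℝ K q (0, EuclideanSpace.single j 1) ^ 2) / K q ^ (m + 2) := by
      rw [Finset.mul_sum, Finset.sum_div]
      exact Finset.sum_congr rfl fun j _ => by ring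
    rw [h1, ← Finset.sum_div, ← Finset.sum_div, ← Finset.sum_div, ← Finset.mul_sum, ← Finset.mul_sum]
    ring
  · intro T C c hC hc h
    refine ⟨(1 + 3 * m + m * (m + 1)) * C ^ (m + 5), c * (m + 5), fun s y hs => ?_⟩
    obtain ⟨b1, b2, b3, k1, k2, b4, b5⟩ := h s y hs
    have hM0 : 0 < C * Real.exp (c * ‖y‖) := by positivity
    have hinv : (C * Real.exp (c * ‖y‖))⁻¹ = C⁻¹ * Real.exp (-(c * ‖y‖)) := by
      rw [mul_inv, Real.exp_neg]
    rw [← hinv] at k1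
    have hM := QUO.one_le hM0 k1 k2
    have hKM : (K (s, y))⁻¹ ≤ C * Real.exp (c * ‖y‖) := by
      have h1 := inv_anti₀ (inv_pos.2 hM0) k1
      rwa [inv_inv] at h1
    have hb := QUO.bds hN hK h0 m (s, y) _ hM hKM b1 b2 b3 b4 b5
    have e1 : (1 + 3 * m + m * (m + 1)) * (C * Real.exp (c * ‖y‖)) ^ (m + 5) =
        (1 + 3 * m + m * (m + 1)) * C ^ (m + 5) * Real.exp (c * (m + 5) * ‖y‖) := by
      rw [mul_pow, ← Real.exp_nat_mul, mul_assoc]
      congr 3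
      push_cast
      ring
    rw [e1] at hb
    exact hb

end Pool.Agent.T2h52.FC
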