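import Pool.Agent.T2h52.FC.Stm

/-!
# (REP) the derivative of `En`
-/

set_option autoImplicit false

namespace Pool.Agent.T2h52.FC

open MeasureTheory Set Filter Topology ProbabilityTheory
open scoped ENNReal InnerProductSpace Pointwise
open Pool.Agent.R755.KF (PB)
open Pool.Agent.N555.RZ (mP Spr)
open Pool.Agent.T2h52.SP
open Pool.Agent.T2h52.SQ
open Pool.Agent.T2h52.SO

theorem rep (hHT : X_HT) (hKND : X_KND) (hKNB : X_KNB) (hQUO : X_QUO) (hRPC : X_RPC) : X_REP := by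
  intro d n B μ F hn hB hμ hF s hs
  obtain ⟨G, hG⟩ : ∃ G : ℝ × E d → ℝ, G = fun q => KN μ n F q / KZ μ q ^ (n - 1) := ⟨_, rfl⟩
  have hN2 : ContDiff ℝ 2 (KN μ n F) := (hKND d n B μ F hB hμ hF).1
  have hK2 : ContDiff ℝ 2 (KZ μ) := (hKNB d n B 0 μ F hB hμ hF).1
  have hKpos : ∀ q, 0 < KZ μ q := by
    rintro ⟨t, y⟩
    obtain ⟨-, C, c, hC, hc, h⟩ := hKNB d n B |t| μ F hB hμ hF
    have h1 := (h t y le_rfl).2.2.2.1
    have h2 : 0 < C⁻¹ * Real.exp (-(c * ‖y‖)) := mul_pos (inv_pos.2 hC) (Real.exp_pos _)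
    linarith
  obtain ⟨q1, -, q3⟩ := hQUO d (n - 1) (KN μ n F) (KZ μ) hN2 hK2 hKpos
  obtain ⟨-, C, c, hC, hc, hb⟩ := hKNB d n B (2 * s) μ F hB hμ hF
  obtain ⟨C', c', hb'⟩ := q3 (2 * s) C c hC hc fun t y ht => hb t y ht
  rw [← hG] at q1 hb'
  have hder := hHT d G s hs q1.contDiffOn ⟨s / 2, C', c', by positivity, by linarith,
    fun t y ht => by
      have ht2 : |t| ≤ 2 * s := by
        have h1 := abs_le.1 ht
        rw [abs_le]
        constructor <;> linarith [h1.1, h1.2]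
      have h2 := hb' t y ht2
      rw [hG] at h2 ⊢
      exact h2⟩
  have h1 : ∫ w, hea G (s, Real.sqrt s • w) ∂(ga d) = Ed μ n F s := by
    unfold Ed
    refine integral_congr_ae (Eventually.of_forall fun w => ?_)
    rw [hG]
    exact (hRPC d n B μ F hn hB hμ hF s w hs).2.symm
  rw [h1] at hder
  refine hder.congr_of_eventuallyEq ?_
  filter_upwards [lt_mem_nhds hs] with t ht
  unfold En
  refine integral_congr_ae (Eventually.of_forall fun w => ?_)
  show _ = G (t, Real.sqrt t • w)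
  rw [hG]
  exact (hRPC d n B μ F hn hB hμ hF t w ht).1

end Pool.Agent.T2h52.FC
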