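import Pool.Agent.T2h52.FC.Stm

/-!
# Richardson extrapolation
-/

set_option autoImplicit false

namespace Pool.Agent.T2h52.FC

open MeasureTheory Set Filter Topology ProbabilityTheory
open scoped ENNReal InnerProductSpace Pointwise

lemma rc_congr {f g : ℕ → ℝ} {a : ℝ} (h : HasSum f a) (hfg : ∀ j, g j = f j) : HasSum g a := by
  have : g = f := funext hfg
  rwa [this]

/-- the coefficients of the extrapolated function -/
noncomputable def rcc : ℕ → ℕ → ℝ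
  | 0, _ => 1
  | i + 1, j => ((4 : ℝ) ^ (i + 1) / 4 ^ j - 1) / ((4 : ℝ) ^ (i + 1) - 1) * rcc i j

/-- the constants -/
noncomputable def rcG : ℕ → ℝ
  | 0 => 1
  | i + 1 => (2 * (4 : ℝ) ^ (i + 1) + 1) / ((4 : ℝ) ^ (i + 1) - 1) * rcG i

/-- the extrapolated functions -/
noncomputable def rcR (g : ℝ → ℝ) : ℕ → ℝ → ℝ
  | 0, r => g r
  | i + 1, r => ((4 : ℝ) ^ (i + 1) * rcR g i (r / 2) - rcR g i r) / ((4 : ℝ) ^ (i + 1) - 1)

lemma rc_pos (i : ℕ) : (3 : ℝ) ≤ (4 : ℝ) ^ (i + 1) - 1 := by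
  have h : (1 : ℝ) ≤ 4 ^ i := one_le_pow₀ (by norm_num)
  rw [pow_succ]
  linarith

lemma rcc_zero (i : ℕ) : rcc i 0 = 1 := by
  induction i with
  | zero => rfl
  | succ i ih =>
    have h := rc_pos i
    have h0 : (4 : ℝ) ^ (i + 1) - 1 ≠ 0 := by linarith
    rw [rcc, ih, pow_zero, div_one, mul_one, div_self h0]

lemma rcc_mid (i : ℕ) : ∀ j, 1 ≤ j → j ≤ i → rcc i j = 0 := by
  induction i with
  | zero => intro j h1 h2; omega
  | succ i ih =>
    intro j h1 h2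
    rw [rcc]
    rcases Nat.lt_or_ge i j with h | h
    · have : j = i + 1 := by omega
      subst this
      rw [div_self (by positivity), sub_self, zero_div, zero_mul]
    · rw [ih j h1 h, mul_zero]

lemma rcc_abs (i : ℕ) : ∀ j, |rcc i j| ≤ 1 := by
  induction i with
  | zero => intro j; rw [rcc, abs_one]
  | succ i ih =>
    intro j
    rw [rcc, abs_mul]
    have h := rc_pos i
    have h1 : (0 : ℝ) < 4 ^ j := by positivity
    have h2 : (1 : ℝ) ≤ 4 ^ j := one_le_pow₀ (by norm_num)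
    have h3 : (4 : ℝ) ^ (i + 1) / 4 ^ j ≤ 4 ^ (i + 1) := div_le_self (by positivity) h2
    have h4 : 0 < (4 : ℝ) ^ (i + 1) / 4 ^ j := by positivity
    have h5 : |((4 : ℝ) ^ (i + 1) / 4 ^ j - 1) / ((4 : ℝ) ^ (i + 1) - 1)| ≤ 1 := by
      rw [abs_div, abs_of_pos (show (0 : ℝ) < (4 : ℝ) ^ (i + 1) - 1 by linarith), div_le_one (by linarith), abs_le]
      constructor <;> linarith
    calc _ ≤ (1 : ℝ) * 1 := mul_le_mul h5 (ih j) (abs_nonneg _) zero_le_one
      _ = 1 := one_mul 1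

lemma rcR_sum {b : ℕ → ℝ} {g : ℝ → ℝ}
    (hg : ∀ ρ : ℝ, 0 < ρ → ρ < 1 → HasSum (fun j => b (2 * j + 1) * ρ ^ (2 * j)) (g ρ)) (i : ℕ) :
    ∀ ρ : ℝ, 0 < ρ → ρ < 1 → HasSum (fun j => rcc i j * (b (2 * j + 1) * ρ ^ (2 * j))) (rcR g i ρ) := by
  induction i with
  | zero =>
    intro ρ h0 h1
    simpa only [rcc, rcR, one_mul] using hg ρ h0 h1
  | succ i ih =>
    intro ρ h0 h1
    have h2 := (ih (ρ / 2) (by linarith) (by linarith)).mul_left ((4 : ℝ) ^ (i + 1))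
    have h3 := (h2.sub (ih ρ h0 h1)).div_const ((4 : ℝ) ^ (i + 1) - 1)
    rw [rcR]
    refine rc_congr h3 ?_
    intro j
    rw [rcc]
    have h4 : (ρ / 2) ^ (2 * j) = ρ ^ (2 * j) / 4 ^ j := by
      rw [div_pow, pow_mul 2 2 j]
      norm_num
    rw [h4]
    ring

lemma rcR_abs {g : ℝ → ℝ} (hg : ∀ ρ : ℝ, 0 < ρ → ρ < 1 → |g ρ| ≤ 1 / ρ) (i : ℕ) :
    ∀ ρ : ℝ, 0 < ρ → ρ < 1 → |rcR g i ρ| ≤ rcG i / ρ := by
  induction i with
  | zero => intro ρ h0 h1; exact hg ρ h0 h1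
  | succ i ih =>
    intro ρ h0 h1
    have h := rc_pos i
    have h2 := ih (ρ / 2) (by linarith) (by linarith)
    have h3 := ih ρ h0 h1
    rw [rcR, rcG, abs_div, abs_of_pos (show (0 : ℝ) < (4 : ℝ) ^ (i + 1) - 1 by linarith)]
    have h4 : |(4 : ℝ) ^ (i + 1) * rcR g i (ρ / 2) - rcR g i ρ| ≤
        (4 : ℝ) ^ (i + 1) * (rcG i / (ρ / 2)) + rcG i / ρ := by
      calc _ ≤ |(4 : ℝ) ^ (i + 1) * rcR g i (ρ / 2)| + |rcR g i ρ| := abs_sub _ _
        _ ≤ _ := by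
          rw [abs_mul, abs_of_pos (show (0 : ℝ) < (4 : ℝ) ^ (i + 1) by positivity)]
          gcongr
    calc _ ≤ ((4 : ℝ) ^ (i + 1) * (rcG i / (ρ / 2)) + rcG i / ρ) / ((4 : ℝ) ^ (i + 1) - 1) :=
          div_le_div_of_nonneg_right h4 (by linarith)
      _ = _ := by
        field_simp

lemma rcG_15 : rcG 15 ≤ 10 ^ 5 := by
  norm_num [rcG]

theorem ric : X_RIC := by
  intro b h β r hb hh hh1 hr hr2
  have hβ : 0 ≤ β := (abs_nonneg _).trans (hb 0)
  have hr1 : r < 1 := by nlinarith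
  -- the odd part
  set g : ℝ → ℝ := fun ρ => (h ρ - h (-ρ)) / (2 * ρ) with hgd
  have hg : ∀ ρ : ℝ, 0 < ρ → ρ < 1 → HasSum (fun j => b (2 * j + 1) * ρ ^ (2 * j)) (g ρ) := by
    intro ρ h0 h1
    have h2 := hh ρ (by rw [abs_of_pos h0]; exact h1)
    have h3 := hh (-ρ) (by rw [abs_neg, abs_of_pos h0]; exact h1)
    have h4 := (h2.sub h3).div_const (2 * ρ)
    have hinj : Function.Injective (fun j : ℕ => 2 * j + 1) := fun a c hac => by
      have : 2 * a + 1 = 2 * c + 1 := hac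
      omega
    rw [← hinj.hasSum_iff] at h4
    · refine rc_congr h4 ?_
      intro j
      show _ = (b (2 * j + 1) * ρ ^ (2 * j + 1) - b (2 * j + 1) * (-ρ) ^ (2 * j + 1)) / (2 * ρ)
      have h5 : (-ρ) ^ (2 * j + 1) = -ρ ^ (2 * j + 1) := Odd.neg_pow ⟨j, rfl⟩ ρ
      rw [h5, pow_succ]
      field_simp
      ring
    · intro x hx
      have hev : Even x := by
        by_contra hcon
        rw [Nat.not_even_iff_odd] at hcon
        obtain ⟨m, hm⟩ := hcon
        exact hx ⟨m, hm.symm⟩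
      have h5 : (-ρ) ^ x = ρ ^ x := hev.neg_pow ρ
      show (b x * ρ ^ x - b x * (-ρ) ^ x) / (2 * ρ) = 0
      rw [h5, sub_self, zero_div]
  have hga : ∀ ρ : ℝ, 0 < ρ → ρ < 1 → |g ρ| ≤ 1 / ρ := by
    intro ρ h0 h1
    have h2 := hh1 ρ (by rw [abs_of_pos h0]; exact h1)
    have h3 := hh1 (-ρ) (by rw [abs_neg, abs_of_pos h0]; exact h1)
    show |(h ρ - h (-ρ)) / (2 * ρ)| ≤ 1 / ρ
    rw [abs_div, abs_of_pos (show (0 : ℝ) < 2 * ρ by linarith)]
    have h4 : |h ρ - h (-ρ)| ≤ 2 := (abs_sub _ _).trans (by linarith)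
    calc _ ≤ 2 / (2 * ρ) := div_le_div_of_nonneg_right h4 (by linarith)
      _ = 1 / ρ := by field_simp
  have hS := rcR_sum hg 15 r hr hr1
  have hA := rcR_abs hga 15 r hr hr1
  -- the tail
  have hS1 : HasSum (fun j => if j = 0 then 0 else rcc 15 j * (b (2 * j + 1) * r ^ (2 * j)))
      (rcR g 15 r - b 1) := by
    have h1 := hS.sub (hasSum_ite_eq (0 : ℕ) (b 1))
    refine rc_congr h1 ?_
    intro j
    by_cases hj : j = 0
    · subst hj
      simp [rcc_zero]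
    · rw [if_neg hj, if_neg hj, sub_zero]
  have hq0 : (0 : ℝ) ≤ r ^ 2 := sq_nonneg r
  have hq1 : r ^ 2 < 1 := by nlinarith
  have hU : HasSum (fun j => if j < 16 then 0 else β * (r ^ 2) ^ j) (β * (r ^ 2) ^ 16 * (1 - r ^ 2)⁻¹) := by
    have h1 := (hasSum_geometric_of_lt_one hq0 hq1).mul_left (β * (r ^ 2) ^ 16)
    have hinj : Function.Injective (fun j : ℕ => j + 16) := fun a c hac => by
      have : a + 16 = c + 16 := hac
      omega
    rw [← hinj.hasSum_iff]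
    · refine rc_congr h1 ?_
      intro j
      show (if j + 16 < 16 then 0 else β * (r ^ 2) ^ (j + 16)) = _
      rw [if_neg (by omega), pow_add]
      ring
    · intro x hx
      have : x < 16 := by
        by_contra hcon
        exact hx ⟨x - 16, by show x - 16 + 16 = x; omega⟩
      show (if x < 16 then 0 else β * (r ^ 2) ^ x) = 0
      rw [if_pos this]
  have hle : ‖rcR g 15 r - b 1‖ ≤ β * (r ^ 2) ^ 16 * (1 - r ^ 2)⁻¹ := by
    refine hS1.norm_le_of_bounded hU fun j => ?_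
    by_cases hj : j = 0
    · subst hj
      simp
    · rw [if_neg hj]
      by_cases hj2 : j < 16
      · rw [if_pos hj2, rcc_mid 15 j (by omega) (by omega), zero_mul, norm_zero]
      · rw [if_neg hj2, Real.norm_eq_abs, abs_mul, abs_mul, pow_mul,
          abs_of_nonneg (show (0 : ℝ) ≤ (r ^ 2) ^ j by positivity)]
        calc _ ≤ 1 * (β * (r ^ 2) ^ j) :=
              mul_le_mul (rcc_abs 15 j) (mul_le_mul_of_nonneg_right (hb _) (by positivity)) (by positivity)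
                zero_le_one
          _ = _ := one_mul _
  have hinv : (1 - r ^ 2)⁻¹ ≤ 2 := by
    rw [inv_le_comm₀ (by linarith) (by norm_num)]
    linarith
  have h3 : β * (r ^ 2) ^ 16 * (1 - r ^ 2)⁻¹ ≤ 2 * β * r ^ 32 := by
    have h4 : (0 : ℝ) ≤ β * (r ^ 2) ^ 16 := by positivity
    calc _ ≤ β * (r ^ 2) ^ 16 * 2 := mul_le_mul_of_nonneg_left hinv h4
      _ = _ := by rw [← pow_mul]; ring
  have h5 : rcG 15 / r ≤ 10 ^ 5 / r := div_le_div_of_nonneg_right rcG_15 hr.le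
  rw [Real.norm_eq_abs] at hle
  have h6 : |b 1| ≤ |rcR g 15 r| + |rcR g 15 r - b 1| := by
    have : b 1 = rcR g 15 r - (rcR g 15 r - b 1) := by ring
    calc |b 1| = |rcR g 15 r - (rcR g 15 r - b 1)| := by rw [← this]
      _ ≤ _ := abs_sub _ _
  linarith

end Pool.Agent.T2h52.FC
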