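import Pool.Agent.T2h52.FC.KND

/-!
# Project FC, task RPC (helper58): the replica algebra
-/

set_option autoImplicit false

namespace Pool.Agent.T2h52.FC

open MeasureTheory Set Filter Topology ProbabilityTheory
open scoped ENNReal InnerProductSpace Pointwise
open Pool.Agent.R755.KF (PB)
open Pool.Agent.N555.RZ (mP Spr)
open Pool.Agent.T2h52.SP
open Pool.Agent.T2h52.SQ
open Pool.Agent.T2h52.SO

namespace RPCh

variable {d : ℕ}

/-- tilted product measures -/
theorem pi_tilted {μ : Measure (E d)} [IsProbabilityMeasure μ] (g : E d → ℝ) (n : ℕ) :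
    Measure.pi (fun _ : Fin n => μ.tilted g) =
      (Measure.pi fun _ : Fin n => μ).tilted (fun x => ∑ a, g (x a)) := by
  apply Measure.pi_eq
  intro s hs
  have e1 : ∫ x : Fin n → E d, Real.exp (∑ a, g (x a)) ∂(Measure.pi fun _ => μ) =
      (∫ x, Real.exp (g x) ∂μ) ^ n := by
    simp_rw [Real.exp_sum]
    rw [integral_fintype_prod_eq_prod (f := fun (_ : Fin n) (x : E d) => Real.exp (g x))]
    simp
  rw [tilted_apply_eq_ofReal_integral' _ (MeasurableSet.univ_pi hs), Measure.restrict_pi_pi, e1]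
  have e2 : ∫ x : Fin n → E d, Real.exp (∑ a, g (x a)) / (∫ x, Real.exp (g x) ∂μ) ^ n
      ∂(Measure.pi fun a => μ.restrict (s a)) =
      ∏ a, ∫ x in s a, Real.exp (g x) / (∫ x, Real.exp (g x) ∂μ) ∂μ := by
    rw [← integral_fintype_prod_eq_prod
      (f := fun (_ : Fin n) (x : E d) => Real.exp (g x) / (∫ x, Real.exp (g x) ∂μ))
      (μ := fun a => μ.restrict (s a))]
    refine integral_congr_ae (Eventually.of_forall fun x => ?_)
    simp only
    rw [Finset.prod_div_distrib, Real.exp_sum]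
    simp
  rw [e2, ENNReal.ofReal_prod_of_nonneg]
  · refine Finset.prod_congr rfl fun a _ => ?_
    rw [tilted_apply_eq_ofReal_integral' _ (hs a)]
  · intro a _
    exact integral_nonneg fun x => div_nonneg (Real.exp_pos _).le
      (integral_nonneg fun x => (Real.exp_pos _).le)

theorem ex_eq (s : ℝ) (w x : E d) :
    ex s (I1 d) w x = ⟪x, ((s, Real.sqrt s • w) : ℝ × E d).2⟫_ℝ -
      ((s, Real.sqrt s • w) : ℝ × E d).1 / 2 * ‖x‖ ^ 2 := by
  unfold ex
  simp only [ContinuousLinearMap.coe_id', id_eq]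
  rw [inner_smul_right]

theorem Z_eq (μ : Measure (E d)) (s : ℝ) (w : E d) :
    Z μ s (I1 d) w = KZ μ (s, Real.sqrt s • w) := by
  unfold Z KZ
  exact integral_congr_ae (Eventually.of_forall fun x => by simp only [ex_eq])

theorem rpt {n : ℕ} {B : ℝ} {μ : Measure (E d)} (hμ : PB B μ) (F : (Fin n → E d) → ℝ) (s : ℝ)
    (w : E d) : ∫ x, F x ∂(Measure.pi fun _ : Fin n => nu μ s (I1 d) w) =
      KN μ n F (s, Real.sqrt s • w) / KZ μ (s, Real.sqrt s • w) ^ n := by
  have hp := hμ.prob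
  unfold nu
  rw [pi_tilted, integral_tilted]
  have e1 : ∫ x : Fin n → E d, Real.exp (∑ a, ex s (I1 d) w (x a)) ∂(Measure.pi fun _ => μ) =
      KZ μ (s, Real.sqrt s • w) ^ n := by
    simp_rw [Real.exp_sum]
    rw [integral_fintype_prod_eq_prod (f := fun (_ : Fin n) (x : E d) => Real.exp (ex s (I1 d) w x))]
    simp only [Finset.prod_const, Finset.card_univ, Fintype.card_fin]
    rw [← Z_eq]
    rfl
  rw [e1]
  unfold KN
  rw [div_eq_mul_inv, ← integral_mul_const]
  refine integral_congr_ae (Eventually.of_forall fun x => ?_)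
  simp only [smul_eq_mul]
  have e2 : ∑ a, ex s (I1 d) w (x a) = ∑ a, (⟪x a, ((s, Real.sqrt s • w) : ℝ × E d).2⟫_ℝ -
      ((s, Real.sqrt s • w) : ℝ × E d).1 / 2 * ‖x a‖ ^ 2) :=
    Finset.sum_congr rfl fun a _ => ex_eq s w (x a)
  rw [e2]
  ring

theorem pr_expand {n : ℕ} (m : E d) (x : Fin n → E d) :
    pr m x = pr 0 x - ((n : ℝ) - 1) * ⟪∑ a, x a, m⟫_ℝ + (n : ℝ) * ((n : ℝ) - 1) / 2 * ‖m‖ ^ 2 := by
  have h1 := KNDh.pr_sum (fun a => x a - m)
  have h2 : pr 0 (fun a => x a - m) = pr m x := by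
    unfold pr
    simp only [sub_zero]
  have h3 := KNDh.pr_sum x
  rw [h2] at h1
  rw [← h1, ← h3]
  have e1 : ∑ a, (x a - m) = ∑ a, x a - (n : ℝ) • m := by
    rw [Finset.sum_sub_distrib]
    simp [Nat.cast_smul_eq_nsmul ℝ]
  have e2 : ∑ a, ‖x a - m‖ ^ 2 = ∑ a, ‖x a‖ ^ 2 - 2 * ⟪∑ a, x a, m⟫_ℝ + n * ‖m‖ ^ 2 := by
    have : ∀ a, ‖x a - m‖ ^ 2 = ‖x a‖ ^ 2 - 2 * ⟪x a, m⟫_ℝ + ‖m‖ ^ 2 := fun a =>
      norm_sub_sq_real _ _
    simp_rw [this]
    rw [Finset.sum_add_distrib, Finset.sum_sub_distrib, ← Finset.mul_sum, sum_inner]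
    simp
  rw [e1, e2, norm_sub_sq_real, inner_smul_right, norm_smul, mul_pow, Real.norm_eq_abs, sq_abs]
  ring

theorem KZ_pos {B : ℝ} {μ : Measure (E d)} (hμ : PB B μ) (q : ℝ × E d) : 0 < KZ μ q := by
  have hp := hμ.prob
  unfold KZ
  have hc : Continuous fun x : E d => Real.exp (⟪x, q.2⟫_ℝ - q.1 / 2 * ‖x‖ ^ 2) := by fun_prop
  obtain ⟨C, hC⟩ := (isCompact_closedBall (0 : E d) B).exists_bound_of_continuousOn hc.continuousOn
  have hi : Integrable (fun x : E d => Real.exp (⟪x, q.2⟫_ℝ - q.1 / 2 * ‖x‖ ^ 2)) μ := by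
    refine Integrable.of_bound hc.aestronglyMeasurable C ?_
    filter_upwards [hμ.bdd] with x hx
    exact hC x (by rw [Metric.mem_closedBall, dist_zero_right]; exact hx)
  exact integral_exp_pos hi

theorem nu_PB {B : ℝ} {μ : Measure (E d)} (hμ : PB B μ) (s : ℝ) (w : E d) :
    PB B (nu μ s (I1 d) w) := by
  have hp := hμ.prob
  have hc : Continuous (ex s (I1 d) w) := by
    unfold ex
    fun_prop
  refine ⟨?_, ?_⟩
  · unfold nu
    apply isProbabilityMeasure_tilted
    have hc' : Continuous fun x : E d => Real.exp (ex s (I1 d) w x) := Real.continuous_exp.comp hc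
    obtain ⟨C, hC⟩ := (isCompact_closedBall (0 : E d) B).exists_bound_of_continuousOn
      hc'.continuousOn
    refine Integrable.of_bound hc'.aestronglyMeasurable C ?_
    filter_upwards [hμ.bdd] with x hx
    exact hC x (by rw [Metric.mem_closedBall, dist_zero_right]; exact hx)
  · unfold nu
    exact (tilted_absolutelyContinuous μ _).ae_le hμ.bdd

theorem int_pi {B : ℝ} {n : ℕ} {ν : Measure (E d)} (hν : PB B ν) {G : (Fin n → E d) → ℝ}
    (hG : Continuous G) : Integrable G (Measure.pi fun _ : Fin n => ν) := by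
  have hp := hν.prob
  obtain ⟨B', hB'⟩ := KNDh.bound hν hG
  refine Integrable.of_bound hG.aestronglyMeasurable B' ?_
  filter_upwards [hB'] with x hx
  rw [Real.norm_eq_abs]
  exact hx.1

theorem inner_sum_single (y m : E d) : ⟪y, m⟫_ℝ = ∑ j : Fin d,
    ⟪y, EuclideanSpace.single j (1 : ℝ)⟫_ℝ * ⟪m, EuclideanSpace.single j (1 : ℝ)⟫_ℝ := by
  rw [PiLp.inner_apply]
  refine Finset.sum_congr rfl fun j _ => ?_
  rw [EuclideanSpace.inner_single_right, EuclideanSpace.inner_single_right]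
  simp
  ring

theorem KZ_eq {B : ℝ} {μ : Measure (E d)} (hμ : PB B μ) : KZ μ = KN μ 1 (fun _ => 1) := by
  have hp := hμ.prob
  funext q
  unfold KZ KN
  have h := (measurePreserving_funUnique μ (Fin 1)).integral_comp' (f := MeasurableEquiv.funUnique (Fin 1) (E d))
    (fun x : E d => Real.exp (⟪x, q.2⟫_ℝ - q.1 / 2 * ‖x‖ ^ 2))
  rw [← h]
  refine integral_congr_ae (Eventually.of_forall fun x => ?_)
  simp [MeasurableEquiv.funUnique]

end RPCh

open RPCh in
theorem rpc (hKND : X_KND) (hQUO : X_QUO) : X_RPC := by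
  intro d n B μ F hn hB hμ hF s w hs
  have hp := hμ.prob
  obtain ⟨q, hq⟩ : ∃ q : ℝ × E d, q = (s, Real.sqrt s • w) := ⟨_, rfl⟩
  obtain ⟨m, hm⟩ : ∃ m : E d, m = mn μ s (I1 d) w := ⟨_, rfl⟩
  obtain ⟨K, hK⟩ : ∃ K : ℝ, K = KZ μ q := ⟨_, rfl⟩
  have hK0 : 0 < K := by rw [hK]; exact KZ_pos hμ q
  have hZ : Z μ s (I1 d) w = K := by rw [Z_eq, hK, hq]
  have hT : ∀ G : (Fin n → E d) → ℝ, KN μ n G q =
      K ^ n * ∫ x, G x ∂(Measure.pi fun _ : Fin n => nu μ s (I1 d) w) := by
    intro G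
    rw [rpt hμ, ← hq, ← hK]
    field_simp
  rw [hZ, ← hq, ← hm]
  have hnpow : K ^ n = K * K ^ (n - 1) := by
    rw [← pow_succ']
    congr 1
    omega
  constructor
  · rw [← hK, hT, hnpow]
    field_simp
  · -- the derivatives of KZ
    have cZ : ContDiff ℝ 2 (KZ μ) := by
      rw [KZ_eq hμ]
      exact (hKND d 1 B μ (fun _ => 1) hB hμ continuous_const).1
    have hZ0 : hea (KZ μ) q = 0 := by
      rw [KZ_eq hμ, (hKND d 1 B μ (fun _ => 1) hB hμ continuous_const).2.2]
      unfold KN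
      have : ∀ x : Fin 1 → E d, pr 0 x = 0 := by
        intro x
        unfold pr
        simp
      simp_rw [this]
      simp
    have hZm : ∀ η : E d, fderiv ℝ (KZ μ) q (0, η) = K * ⟪m, η⟫_ℝ := by
      intro η
      have h1 := (hKND d 1 B μ (fun _ => 1) hB hμ continuous_const).2.1 q η
      rw [← KZ_eq hμ] at h1
      rw [h1]
      -- the mean
      have h2 : ∫ x, ⟪x, η⟫_ℝ ∂(nu μ s (I1 d) w) = ⟪m, η⟫_ℝ := by
        rw [hm]
        unfold mn
        have hν := nu_PB hμ s w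
        have hpν := hν.prob
        have hint : Integrable (fun x : E d => x) (nu μ s (I1 d) w) :=
          Integrable.of_bound continuous_id.aestronglyMeasurable B hν.bdd
        have h9 := integral_inner (𝕜 := ℝ) hint η
        rw [real_inner_comm, ← h9]
        exact integral_congr_ae (Eventually.of_forall fun x => by simp only [real_inner_comm])
      have h3 := rpt (n := 1) hμ (fun x : Fin 1 → E d => ⟪x 0, η⟫_ℝ) s w
      have h4 : ∫ x : Fin 1 → E d, ⟪x 0, η⟫_ℝ ∂(Measure.pi fun _ : Fin 1 => nu μ s (I1 d) w) =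
          ∫ x, ⟪x, η⟫_ℝ ∂(nu μ s (I1 d) w) := by
        have hν := nu_PB hμ s w
        have hpν := hν.prob
        exact (measurePreserving_funUnique (nu μ s (I1 d) w) (Fin 1)).integral_comp'
          (f := MeasurableEquiv.funUnique (Fin 1) (E d)) (fun x : E d => ⟪x, η⟫_ℝ)
      rw [h4, h2, ← hq, ← hK, pow_one] at h3
      have h5 : KN μ 1 (fun x : Fin 1 → E d => (1 : ℝ) * ⟪∑ a, x a, η⟫_ℝ) q =
          KN μ 1 (fun x : Fin 1 → E d => ⟪x 0, η⟫_ℝ) q := by
        congr 1
        funext x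
        simp
      rw [h5, h3]
      field_simp
    have hN := hKND d n B μ F hB hμ hF
    obtain ⟨-, hQ, -⟩ := hQUO d (n - 1) (KN μ n F) (KZ μ) hN.1 cZ (KZ_pos hμ)
    have hν := nu_PB hμ s w
    obtain ⟨I, hI⟩ : ∃ I : ((Fin n → E d) → ℝ) → ℝ,
      I = fun G => ∫ x, G x ∂(Measure.pi fun _ : Fin n => nu μ s (I1 d) w) := ⟨_, rfl⟩
    have hTI : ∀ G : (Fin n → E d) → ℝ, KN μ n G q = K ^ n * I G := by
      intro G
      rw [hT, hI]
    have hlin : I (fun x => F x * pr m x) = I (fun x => F x * pr 0 x) -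
        ((n : ℝ) - 1) * I (fun x => F x * ⟪∑ a, x a, m⟫_ℝ) +
        (n : ℝ) * ((n : ℝ) - 1) / 2 * ‖m‖ ^ 2 * I F := by
      have cp : Continuous fun x : Fin n → E d => pr 0 x := by
        unfold pr
        refine continuous_finsetSum _ fun a _ => continuous_finsetSum _ fun b _ => ?_
        split_ifs
        · fun_prop
        · exact continuous_const
      have i1 := int_pi hν (G := fun x : Fin n → E d => F x * pr 0 x) (hF.mul cp)
      have i2 := int_pi hν (G := fun x : Fin n → E d => F x * ⟪∑ a, x a, m⟫_ℝ) (by fun_prop)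
      have i3 := int_pi hν (n := n) hF
      rw [hI]
      simp only
      have i12 : Integrable (fun x : Fin n → E d => F x * pr 0 x -
          ((n : ℝ) - 1) * (F x * ⟪∑ a, x a, m⟫_ℝ))
          (Measure.pi fun _ : Fin n => nu μ s (I1 d) w) := i1.sub (i2.const_mul _)
      rw [← integral_const_mul, ← integral_const_mul, ← integral_sub i1 (i2.const_mul _),
        ← integral_add i12 (i3.const_mul _)]
      refine integral_congr_ae (Eventually.of_forall fun x => ?_)
      simp only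
      rw [pr_expand m x]
      ring
    have hsum : ∑ j : Fin d, I (fun x => F x * ⟪∑ a, x a, EuclideanSpace.single j (1 : ℝ)⟫_ℝ) *
        ⟪m, EuclideanSpace.single j (1 : ℝ)⟫_ℝ = I (fun x => F x * ⟪∑ a, x a, m⟫_ℝ) := by
      rw [hI]
      simp only
      simp_rw [← integral_mul_const]
      rw [← integral_finsetSum _ fun j _ => (int_pi hν (G := fun x : Fin n → E d =>
        F x * ⟪∑ a, x a, EuclideanSpace.single j (1 : ℝ)⟫_ℝ) (by fun_prop)).mul_const _]
      refine integral_congr_ae (Eventually.of_forall fun x => ?_)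
      simp only
      rw [inner_sum_single (∑ a, x a) m, Finset.mul_sum]
      exact Finset.sum_congr rfl fun j _ => by ring
    have hm2 : ∑ j : Fin d, (K * ⟪m, EuclideanSpace.single j (1 : ℝ)⟫_ℝ) ^ 2 = K ^ 2 * ‖m‖ ^ 2 := by
      rw [← real_inner_self_eq_norm_sq m, inner_sum_single m m, Finset.mul_sum]
      exact Finset.sum_congr rfl fun j _ => by ring
    have hs2 : ∑ j : Fin d, K ^ n * I (fun x => F x * ⟪∑ a, x a, EuclideanSpace.single j (1 : ℝ)⟫_ℝ) *
        (K * ⟪m, EuclideanSpace.single j (1 : ℝ)⟫_ℝ) =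
        K ^ (n + 1) * I (fun x => F x * ⟪∑ a, x a, m⟫_ℝ) := by
      rw [← hsum, Finset.mul_sum]
      exact Finset.sum_congr rfl fun j _ => by ring
    have hcast : ((n - 1 : ℕ) : ℝ) = (n : ℝ) - 1 := by
      rw [Nat.cast_sub hn, Nat.cast_one]
    have hgoal : ∫ x, F x * pr m x ∂(Measure.pi fun _ : Fin n => nu μ s (I1 d) w) =
        I (fun x => F x * pr m x) := by rw [hI]
    rw [hgoal, hQ q, hZ0, hN.2.2, ← hK]
    simp_rw [hN.2.1, hZm, hTI]
    rw [hs2, hm2, hlin, hcast]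
    obtain ⟨j, rfl⟩ : ∃ j, n = j + 1 := ⟨n - 1, by omega⟩
    simp only [Nat.add_sub_cancel]
    push_cast
    field_simp
    ring

end Pool.Agent.T2h52.FC
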