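import Pool.Agent.T2h52.FC.Stm

/-! # Powers of Gram matrices are positive semidefinite (`X_SCH`) -/

set_option autoImplicit false

namespace Pool.Agent.T2h52.FC

open MeasureTheory Set Filter Topology ProbabilityTheory
open scoped ENNReal InnerProductSpace Pointwise
open Pool.Agent.T2h52.SP

theorem sch : X_SCH := by
  intro d n k t
  induction k with
  | zero =>
    intro α
    have h : ∑ a, ∑ b, α a * α b * ⟪t a, t b⟫_ℝ ^ 0 = (∑ a, α a) ^ 2 := by
      simp only [pow_zero, mul_one]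
      rw [sq, Finset.sum_mul_sum]
    rw [h]
    exact sq_nonneg _
  | succ k ih =>
    intro α
    have h : ∑ a, ∑ b, α a * α b * ⟪t a, t b⟫_ℝ ^ (k + 1) =
        ∑ i : Fin d, ∑ a, ∑ b, (α a * t a i) * (α b * t b i) * ⟪t a, t b⟫_ℝ ^ k := by
      have h0 : ∀ a b : Fin n, α a * α b * ⟪t a, t b⟫_ℝ ^ (k + 1) =
          ∑ i : Fin d, (α a * t a i) * (α b * t b i) * ⟪t a, t b⟫_ℝ ^ k := by
        intro a b
        have h1 : ⟪t a, t b⟫_ℝ = ∑ i : Fin d, t a i * t b i := by
          rw [PiLp.inner_apply]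
          refine Finset.sum_congr rfl fun i _ => ?_
          simp [mul_comm]
        calc α a * α b * ⟪t a, t b⟫_ℝ ^ (k + 1) =
              α a * α b * ⟪t a, t b⟫_ℝ ^ k * ⟪t a, t b⟫_ℝ := by ring
          _ = α a * α b * ⟪t a, t b⟫_ℝ ^ k * ∑ i : Fin d, t a i * t b i := congrArg _ h1
          _ = _ := by
              rw [Finset.mul_sum]
              refine Finset.sum_congr rfl fun i _ => ?_
              ring
      calc _ = ∑ a, ∑ b, ∑ i : Fin d, (α a * t a i) * (α b * t b i) * ⟪t a, t b⟫_ℝ ^ k :=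
            Finset.sum_congr rfl fun a _ => Finset.sum_congr rfl fun b _ => h0 a b
        _ = ∑ a, ∑ i : Fin d, ∑ b, (α a * t a i) * (α b * t b i) * ⟪t a, t b⟫_ℝ ^ k :=
            Finset.sum_congr rfl fun a _ => Finset.sum_comm
        _ = _ := Finset.sum_comm
    rw [h]
    exact Finset.sum_nonneg fun i _ => ih _

end Pool.Agent.T2h52.FC
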