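import Pool.Agent.T2h52.FC.Stm

/-! # SOP: the operator of `Sb` -/

set_option autoImplicit false

namespace Pool.Agent.T2h52.FC

open MeasureTheory Set Filter Topology ProbabilityTheory
open scoped ENNReal InnerProductSpace Pointwise
open Pool.Agent.R755.KF (PB)
open Pool.Agent.N555.RZ (mP Spr)
open Pool.Agent.T2h52.SP
open Pool.Agent.T2h52.SQ
open Pool.Agent.T2h52.SO

namespace SOPaux

variable {d : ℕ}

/-- the uniform measure of a compact body is a probability measure of bounded support -/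
theorem pb_mP {P : Set (E d)} {a : ℝ} (hP : Bn P a) : ∃ B : ℝ, 0 ≤ B ∧ PB B (mP P) := by
  have h0 : volume P ≠ 0 :=
    (Measure.measure_pos_of_mem_nhds volume (mem_interior_iff_mem_nhds.1 hP.int)).ne'
  have hfin : volume P ≠ ⊤ := hP.comp.measure_lt_top.ne
  obtain ⟨B, hB⟩ := hP.comp.isBounded.exists_norm_le
  refine ⟨max B 0, le_max_right _ _, ⟨⟨?_⟩, ?_⟩⟩
  · rw [mP, Measure.smul_apply, Measure.restrict_apply_univ, smul_eq_mul,
      ENNReal.inv_mul_cancel h0 hfin]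
  · have h1 : ∀ᵐ x ∂(volume.restrict P), ‖x‖ ≤ max B 0 := by
      rw [ae_restrict_iff' hP.comp.measurableSet]
      exact ae_of_all _ fun x hx => (hB _ hx).trans (le_max_left _ _)
    exact Measure.ae_smul_measure h1 _

/-- Jensen -/
theorem sq_mean {B : ℝ} {ν : Measure (E d)} (h : PB B ν) (u : E d) :
    ⟪∫ x, x ∂ν, u⟫_ℝ ^ 2 ≤ ∫ x, ⟪x, u⟫_ℝ ^ 2 ∂ν := by
  have := h.prob
  have ix : Integrable (fun x : E d => x) ν :=
    Integrable.of_bound (by fun_prop) B h.bdd
  have i1 : Integrable (fun x : E d => ⟪x, u⟫_ℝ) ν := ix.inner_const u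
  have i2 : Integrable (fun x : E d => ⟪x, u⟫_ℝ ^ 2) ν := by
    refine Integrable.of_bound (by fun_prop) ((B * ‖u‖) ^ 2) ?_
    filter_upwards [h.bdd] with x hx
    rw [Real.norm_eq_abs, abs_of_nonneg (sq_nonneg _), ← sq_abs]
    have h1 := abs_real_inner_le_norm x u
    have h2 : ‖x‖ * ‖u‖ ≤ B * ‖u‖ := mul_le_mul_of_nonneg_right hx (norm_nonneg _)
    exact pow_le_pow_left₀ (abs_nonneg _) (h1.trans h2) 2
  have e1 : ⟪∫ x, x ∂ν, u⟫_ℝ = ∫ x, ⟪x, u⟫_ℝ ∂ν := by
    rw [real_inner_comm, ← integral_inner ix]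
    simp only [real_inner_comm]
  rw [e1]
  set m := ∫ x, ⟪x, u⟫_ℝ ∂ν with hm
  have h3 : 0 ≤ ∫ x, (⟪x, u⟫_ℝ - m) ^ 2 ∂ν := integral_nonneg fun x => sq_nonneg _
  have h4 : ∫ x, (⟪x, u⟫_ℝ - m) ^ 2 ∂ν = ∫ x, (⟪x, u⟫_ℝ ^ 2 - 2 * m * ⟪x, u⟫_ℝ + m ^ 2) ∂ν := by
    refine integral_congr_ae (Eventually.of_forall fun x => ?_)
    simp only
    ring
  have i3 : Integrable (fun x : E d => 2 * m * ⟪x, u⟫_ℝ) ν := i1.const_mul _
  have i4 : Integrable (fun x : E d => ⟪x, u⟫_ℝ ^ 2 - 2 * m * ⟪x, u⟫_ℝ) ν := i2.sub i3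
  rw [h4, integral_add i4 (integrable_const _), integral_sub i2 i3, integral_const_mul, ← hm,
    integral_const] at h3
  simp only [probReal_univ, smul_eq_mul, one_mul] at h3
  nlinarith

variable {B s : ℝ} {μ : Measure (E d)} {p : E d →L[ℝ] E d}

/-- integrability of functions dominated by `Z` -/
theorem int_Z (hb : X_BAS) (hg : X_GEX) (hB : 0 ≤ B) (hμ : PB B μ) (hs : 0 ≤ s)
    (hp : ∀ x, ‖p x‖ ≤ ‖x‖) {F : Type*} [NormedAddCommGroup F] [NormedSpace ℝ F]
    [SecondCountableTopology F] (f : E d → F)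
    (hf : Continuous f) (C : ℝ) (hC : ∀ w, ‖f w‖ ≤ C) :
    Integrable (fun w => Z μ s p w • f w) (ga d) := by
  obtain ⟨b1, b2, b3, -⟩ := hb d B μ s p hB hμ hs hp
  refine (((hg d).1 (Real.sqrt s * B)).mul_const C).mono' (b3.smul hf).aestronglyMeasurable
    (Eventually.of_forall fun w => ?_)
  have h0 : 0 ≤ Z μ s p w := (Real.exp_pos _).le.trans (b1 w)
  rw [norm_smul, Real.norm_eq_abs, abs_of_nonneg h0]
  exact mul_le_mul (b2 w) (hC w) (norm_nonneg _) (Real.exp_pos _).le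

end SOPaux

open SOPaux in
theorem sop (hb : X_BAS) (hg : X_GEX) (hi : X_INT) : X_SOP := by
  intro d k P a s p hP hI hp hs
  obtain ⟨B, hB, hμ⟩ := pb_mP hP
  have hpn : ∀ x, ‖p x‖ ≤ ‖x‖ := by
    obtain ⟨b, S, -, hS⟩ := hp
    intro x
    have h1 : ‖p x‖ ^ 2 ≤ ‖x‖ ^ 2 := by
      rw [hS x, ← b.sum_sq_norm_inner_right x]
      have h2 : ‖∑ i ∈ S, ⟪b i, x⟫_ℝ • b i‖ ^ 2 = ∑ i ∈ S, ⟪b i, x⟫_ℝ ^ 2 := by
        rw [← real_inner_self_eq_norm_sq, Orthonormal.inner_sum b.orthonormal]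
        refine Finset.sum_congr rfl fun i _ => ?_
        simp [sq]
      rw [h2]
      calc ∑ i ∈ S, ⟪b i, x⟫_ℝ ^ 2 ≤ ∑ i, ⟪b i, x⟫_ℝ ^ 2 :=
            Finset.sum_le_sum_of_subset_of_nonneg (Finset.subset_univ _) fun _ _ _ => sq_nonneg _
        _ = _ := by simp [Real.norm_eq_abs, sq_abs]
    exact (pow_le_pow_iff_left₀ (norm_nonneg _) (norm_nonneg _) two_ne_zero).1 h1
  obtain ⟨b1, b2, b3, b4, b5, b6, b7, b8⟩ := hb d B (mP P) s p hB hμ hs.le hpn
  have hZ0 : ∀ w, 0 ≤ Z (mP P) s p w := fun w => (Real.exp_pos _).le.trans (b1 w)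
  have cin : ∀ u : E d, Continuous fun w => ⟪mn (mP P) s p w, u⟫_ℝ := fun u => b4.inner continuous_const
  have bin : ∀ u w : E d, |⟪mn (mP P) s p w, u⟫_ℝ| ≤ B * ‖u‖ := fun u w =>
    (abs_real_inner_le_norm _ _).trans (mul_le_mul_of_nonneg_right (b6 w) (norm_nonneg _))
  -- integrability
  have iV : ∀ u : E d, Integrable (fun w => Z (mP P) s p w • (⟪mn (mP P) s p w, u⟫_ℝ •
      mn (mP P) s p w)) (ga d) := by
    intro u
    refine int_Z hb hg hB hμ hs.le hpn _ ((cin u).smul b4) (B * ‖u‖ * B) fun w => ?_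
    rw [norm_smul, Real.norm_eq_abs]
    exact mul_le_mul (bin u w) (b6 w) (norm_nonneg _) (by positivity)
  have iR : ∀ u v : E d, Integrable (fun w => Z (mP P) s p w * (⟪mn (mP P) s p w, u⟫_ℝ *
      ⟪mn (mP P) s p w, v⟫_ℝ)) (ga d) := by
    intro u v
    refine int_Z hb hg hB hμ hs.le hpn _ ((cin u).mul (cin v)) (B * ‖u‖ * (B * ‖v‖)) fun w => ?_
    rw [Real.norm_eq_abs, abs_mul]
    exact mul_le_mul (bin u w) (bin v w) (abs_nonneg _) (by positivity)
  -- the operator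
  let S0 : E d →ₗ[ℝ] E d :=
    { toFun := fun u => ∫ w, Z (mP P) s p w • (⟪mn (mP P) s p w, u⟫_ℝ • mn (mP P) s p w) ∂(ga d)
      map_add' := by
        intro u v
        rw [← integral_add (iV u) (iV v)]
        refine integral_congr_ae (Eventually.of_forall fun w => ?_)
        simp only [inner_add_right, add_smul, smul_add]
      map_smul' := by
        intro c u
        simp only [RingHom.id_apply]
        rw [← integral_smul]
        refine integral_congr_ae (Eventually.of_forall fun w => ?_)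
        simp only [inner_smul_right, mul_smul]
        rw [smul_comm] }
  have hS : ∀ u v, ⟪LinearMap.toContinuousLinearMap S0 u, v⟫_ℝ = Sb (mP P) s p u v := by
    intro u v
    show ⟪∫ w, Z (mP P) s p w • (⟪mn (mP P) s p w, u⟫_ℝ • mn (mP P) s p w) ∂(ga d), v⟫_ℝ = _
    rw [real_inner_comm, ← integral_inner (iV u)]
    unfold Sb
    refine integral_congr_ae (Eventually.of_forall fun w => ?_)
    simp only [inner_smul_right]
    rw [real_inner_comm v]
  have hsym : ∀ u v, Sb (mP P) s p u v = Sb (mP P) s p v u := by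
    intro u v
    unfold Sb
    refine integral_congr_ae (Eventually.of_forall fun w => ?_)
    simp only
    ring
  refine ⟨LinearMap.toContinuousLinearMap S0, hS, ?_, ?_, ?_, ?_⟩
  · intro u v
    rw [hS, real_inner_comm, hS, hsym]
  · intro u
    rw [hS]
    exact integral_nonneg fun w => mul_nonneg (hZ0 w) (mul_self_nonneg _)
  · intro u
    rw [hS]
    obtain ⟨j1, j2⟩ := hi d B (mP P) s p hB hμ hs.le hpn (fun x => ⟪x, u⟫_ℝ ^ 2) (by fun_prop)
    rw [← hI u, ← j2]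
    refine integral_mono (iR u u) j1 fun w => ?_
    simp only
    rw [← b7 w]
    refine mul_le_mul_of_nonneg_left ?_ (hZ0 w)
    rw [← sq]
    exact sq_mean (b5 w) u
  · intro b
    simp only [hS]
    unfold Sb ff
    rw [← integral_finsetSum _ fun i _ => iR (b i) (b i)]
    refine integral_congr_ae (Eventually.of_forall fun w => ?_)
    simp only
    rw [← Finset.mul_sum, ← b.sum_sq_norm_inner_left (mn (mP P) s p w)]
    congr 1
    refine Finset.sum_congr rfl fun i _ => ?_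
    rw [Real.norm_eq_abs, sq_abs, sq]

end Pool.Agent.T2h52.FC
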