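import Pool.Agent.T2h52.FC.FIB

/-!
# SPC: spectral projection
-/

set_option autoImplicit false

namespace Pool.Agent.T2h52.FC

open MeasureTheory Set Filter Topology ProbabilityTheory
open scoped ENNReal InnerProductSpace Pointwise
open Pool.Agent.T2h52.SP

namespace SPC

variable {d : ℕ}

/-- diagonal operators -/
noncomputable def op (b : OrthonormalBasis (Fin d) ℝ (E d)) (c : Fin d → ℝ) : E d →L[ℝ] E d :=
  ∑ i, c i • (innerSL ℝ (b i)).smulRight (b i)

lemma op_apply (b : OrthonormalBasis (Fin d) ℝ (E d)) (c : Fin d → ℝ) (x : E d) :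
    op b c x = ∑ i, (c i * ⟪b i, x⟫_ℝ) • b i := by
  simp [op, smul_smul]

lemma inner_op (b : OrthonormalBasis (Fin d) ℝ (E d)) (c : Fin d → ℝ) (x : E d) (j : Fin d) :
    ⟪b j, op b c x⟫_ℝ = c j * ⟪b j, x⟫_ℝ := by
  rw [op_apply, inner_sum, Finset.sum_eq_single j]
  · rw [inner_smul_right, b.inner_eq_one, mul_one]
  · intro i _ hi
    rw [inner_smul_right, b.inner_eq_zero (Ne.symm hi), mul_zero]
  · exact fun h => absurd (Finset.mem_univ j) h

lemma op_le (b : OrthonormalBasis (Fin d) ℝ (E d)) (c : Fin d → ℝ) (hc : ∀ i, |c i| ≤ 1)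
    (x : E d) : ‖op b c x‖ ≤ ‖x‖ := by
  have h1 := b.sum_sq_norm_inner_right (op b c x)
  have h2 := b.sum_sq_norm_inner_right x
  have h3 : ‖op b c x‖ ^ 2 ≤ ‖x‖ ^ 2 := by
    rw [← h1, ← h2]
    refine Finset.sum_le_sum fun i _ => ?_
    rw [inner_op, norm_mul, mul_pow]
    have h4 : ‖c i‖ ^ 2 ≤ 1 := by
      rw [Real.norm_eq_abs]
      exact pow_le_one₀ (abs_nonneg _) (hc i)
    have h5 : 0 ≤ ‖⟪b i, x⟫_ℝ‖ ^ 2 := by positivity
    nlinarith
  exact (sq_le_sq₀ (norm_nonneg _) (norm_nonneg _)).1 h3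

lemma ext_b (b : OrthonormalBasis (Fin d) ℝ (E d)) {x y : E d}
    (h : ∀ i, ⟪b i, x⟫_ℝ = ⟪b i, y⟫_ℝ) : x = y := by
  apply b.repr.injective
  ext i
  rw [b.repr_apply_apply, b.repr_apply_apply, h]

end SPC

open SPC FIB

theorem spc (hcmp : X_CMP) : X_SPC := by
  intro d Q S t hQ hs h0 h1 ht
  have hsy : (S : E d →ₗ[ℝ] E d).IsSymmetric := fun u v => hs u v
  have hd : Module.finrank ℝ (E d) = d := finrank_euclideanSpace_fin
  let b := hsy.eigenvectorBasis hd
  let l := hsy.eigenvalues hd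
  have hSb : ∀ i, S (b i) = l i • b i := fun i => hsy.apply_eigenvectorBasis hd i
  have hl : ∀ i, ⟪S (b i), b i⟫_ℝ = l i := fun i => by
    rw [hSb, real_inner_smul_left, b.inner_eq_one, mul_one]
  have hl0 : ∀ i, 0 ≤ l i := fun i => by
    rw [← hl]
    exact h0 _
  have hl1 : ∀ i, l i ≤ 1 := fun i => by
    rw [← hl]
    refine (h1 _).trans ?_
    rw [b.norm_eq_one]
    norm_num
  have hSop : ∀ x i, ⟪b i, S x⟫_ℝ = l i * ⟪b i, x⟫_ℝ := fun x i => by
    rw [← hs, hSb, real_inner_smul_left]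
  classical
  let T : Finset (Fin d) := Finset.univ.filter fun i => 1 / 2 < l i
  let p : E d →L[ℝ] E d := op b (fun i => if i ∈ T then 1 else 0)
  let C : E d →L[ℝ] E d := op b (fun i => if i ∈ T then 0 else (2 * (1 - l i))⁻¹)
  have hnT : ∀ i, i ∉ T → l i ≤ 1 / 2 := fun i hi => by
    by_contra h
    push Not at h
    exact hi (Finset.mem_filter.2 ⟨Finset.mem_univ i, h⟩)
  refine ⟨T.card, p, ?_, ⟨b, T, rfl, fun x => ?_⟩, ?_⟩
  · have h2 := ht b
    simp only [hl] at h2
    have h3 : ∑ i ∈ T, (1 / 2 : ℝ) ≤ ∑ i, l i := by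
      refine (Finset.sum_le_sum (f := fun _ => (1 / 2 : ℝ)) (g := l) fun i hi =>
        (Finset.mem_filter.1 hi).2.le).trans ?_
      exact Finset.sum_le_sum_of_subset_of_nonneg (Finset.subset_univ _) fun i _ _ => hl0 i
    rw [Finset.sum_const, nsmul_eq_mul] at h3
    linarith
  · change op b _ x = _
    rw [op_apply, ← Finset.sum_filter_add_sum_filter_not Finset.univ (fun i => i ∈ T)]
    rw [Finset.sum_congr rfl (g := fun i => ⟪b i, x⟫_ℝ • b i) (fun i hi => by
      rw [if_pos (Finset.mem_filter.1 hi).2, one_mul])]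
    rw [Finset.sum_congr rfl (s₁ := Finset.univ.filter fun i => i ∉ T) (g := fun i => (0 : E d))
      (fun i hi => by rw [if_neg (Finset.mem_filter.1 hi).2, zero_mul, zero_smul])]
    simp
  · have hCn : ∀ x, ‖C x‖ ≤ ‖x‖ := op_le b _ fun i => by
      split_ifs with hi
      · simp
      · have h2 := hnT i hi
        have h3 : (1 : ℝ) ≤ 2 * (1 - l i) := by linarith
        rw [abs_of_pos (by positivity)]
        exact inv_le_one_of_one_le₀ h3
    have hw : ∀ w, w - p w = (2 : ℝ) • (C w - S (C w)) := fun w => by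
      refine ext_b b fun i => ?_
      rw [inner_sub_right, inner_smul_right, inner_sub_right, hSop]
      change ⟪b i, w⟫_ℝ - ⟪b i, op b _ w⟫_ℝ = 2 * (⟪b i, op b _ w⟫_ℝ - l i * ⟪b i, op b _ w⟫_ℝ)
      rw [inner_op, inner_op]
      by_cases hi : i ∈ T
      · rw [if_pos hi, if_pos hi]
        ring
      · rw [if_neg hi, if_neg hi]
        have h2 := hnT i hi
        have h3 : (1 - l i) ≠ 0 := by linarith
        field_simp
        ring
    have c1 := hcmp d (fun x => gauge Q ((2 : ℝ) • (x - S x))) C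
      ((g_cont hQ).comp (by fun_prop))
      (fun x y => by
        have e : (2 : ℝ) • (x + y - S (x + y)) = (2 : ℝ) • (x - S x) + (2 : ℝ) • (y - S y) := by
          rw [map_add, ← smul_add]
          congr 1
          abel
        rw [e]
        exact g_add hQ _ _)
      (fun c x => by
        have e : (2 : ℝ) • (c • x - S (c • x)) = c • ((2 : ℝ) • (x - S x)) := by
          rw [map_smul, ← smul_sub, smul_comm]
        rw [e]
        exact g_smul hQ _ _) hCn
    simp only [← hw] at c1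
    refine c1.trans (le_of_eq ?_)
    rw [← integral_const_mul]
    refine integral_congr_ae (ae_of_all _ fun w => ?_)
    change gauge Q ((2 : ℝ) • (w - S w)) = 2 * gauge Q (w - S w)
    rw [g_smul hQ, abs_of_pos (by norm_num)]

end Pool.Agent.T2h52.FC
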