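import Pool.Agent.T2h52.FC.Stm

/-! # SPL: splitting -/

set_option autoImplicit false

namespace Pool.Agent.T2h52.FC

open MeasureTheory Set Filter Topology ProbabilityTheory
open scoped ENNReal InnerProductSpace Pointwise
open Pool.Agent.R755.KF (PB)
open Pool.Agent.N555.RZ (mP Spr)
open Pool.Agent.T2h52.SP
open Pool.Agent.T2h52.SQ
open Pool.Agent.T2h52.SO

namespace SPL

variable {d : ℕ}

theorem two_sq {a b x y u v : ℝ} (hx : 0 ≤ x) (hy : 0 ≤ y) (hu : 0 ≤ u) (hv : 0 ≤ v)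
    (h1 : a ^ 2 ≤ x * u) (h2 : b ^ 2 ≤ y * v) : (a + b) ^ 2 ≤ (x + y) * (u + v) := by
  have h3 : (2 * (a * b)) ^ 2 ≤ (x * v + y * u) ^ 2 := by
    have h4 : a ^ 2 * b ^ 2 ≤ (x * u) * (y * v) :=
      mul_le_mul h1 h2 (sq_nonneg _) (mul_nonneg hx hu)
    nlinarith [sq_nonneg (x * v - y * u)]
  have h5 : 2 * (a * b) ≤ x * v + y * u :=
    (le_abs_self _).trans (abs_le_of_sq_le_sq h3 (by positivity))
  nlinarith

theorem cs {Ω : Type*} [MeasurableSpace Ω] (ν : Measure Ω) {f W : Ω → ℝ} (hW : ∀ x, 0 ≤ W x)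
    (h0 : Integrable W ν) (h1 : Integrable (fun x => f x * W x) ν)
    (h2 : Integrable (fun x => f x ^ 2 * W x) ν) :
    (∫ x, f x * W x ∂ν) ^ 2 ≤ (∫ x, W x ∂ν) * ∫ x, f x ^ 2 * W x ∂ν := by
  have key : ∀ t : ℝ, 0 ≤ (∫ x, W x ∂ν) * (t * t) + (-2 * ∫ x, f x * W x ∂ν) * t +
      ∫ x, f x ^ 2 * W x ∂ν := by
    intro t
    have h3 : 0 ≤ ∫ x, (f x - t) ^ 2 * W x ∂ν :=
      integral_nonneg fun x => mul_nonneg (sq_nonneg _) (hW x)
    have j1 : Integrable (fun x => (-(2 * t)) * (f x * W x)) ν := h1.const_mul _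
    have j2 : Integrable (fun x => t ^ 2 * W x) ν := h0.const_mul _
    have j3 : Integrable (fun x => f x ^ 2 * W x + (-(2 * t)) * (f x * W x)) ν := h2.add j1
    have h4 : ∫ x, (f x - t) ^ 2 * W x ∂ν =
        ((∫ x, f x ^ 2 * W x ∂ν) + (-(2 * t)) * (∫ x, f x * W x ∂ν)) +
          t ^ 2 * ∫ x, W x ∂ν := by
      rw [← integral_const_mul, ← integral_const_mul, ← integral_add h2 j1,
        ← integral_add j3 j2]
      refine integral_congr_ae (Eventually.of_forall fun x => ?_)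
      simp only
      ring
    rw [h4] at h3
    nlinarith
  have h5 := discrim_le_zero key
  unfold discrim at h5
  nlinarith

theorem ex_le {s B : ℝ} (hs : 0 ≤ s) {p : E d →L[ℝ] E d} (hp : ∀ x, ‖p x‖ ≤ ‖x‖) {x : E d}
    (hx : ‖x‖ ≤ B) (w : E d) :
    Real.exp (ex s p w x) ≤ Real.exp (Real.sqrt s * B * ‖w‖) := by
  apply Real.exp_le_exp.2
  unfold ex
  have h1 : ⟪p x, w⟫_ℝ ≤ B * ‖w‖ := (real_inner_le_norm _ _).trans
    (mul_le_mul_of_nonneg_right ((hp x).trans hx) (norm_nonneg _))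
  have h2 : 0 ≤ s / 2 * ‖p x‖ ^ 2 := by positivity
  have h3 := mul_le_mul_of_nonneg_left h1 (Real.sqrt_nonneg s)
  linarith

theorem ex_cont (s : ℝ) (p : E d →L[ℝ] E d) :
    Continuous fun z : E d × E d => Real.exp (ex s p z.1 z.2) := by
  unfold ex
  fun_prop

theorem ex_cont' (s : ℝ) (p : E d →L[ℝ] E d) (w : E d) :
    Continuous fun x : E d => Real.exp (ex s p w x) := by
  unfold ex
  fun_prop

theorem gW (hG : X_GEX) {s : ℝ} (hs : 0 ≤ s) (p : E d →L[ℝ] E d) (x : E d) :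
    ∫ w, Real.exp (ex s p w x) ∂(ga d) = 1 := by
  have e : ∀ w : E d, Real.exp (ex s p w x) =
      Real.exp ⟪Real.sqrt s • p x, w⟫_ℝ * Real.exp (-(s / 2 * ‖p x‖ ^ 2)) := by
    intro w
    rw [← Real.exp_add]
    congr 1
    unfold ex
    rw [real_inner_smul_left]
    ring
  simp only [e]
  rw [integral_mul_const, (hG d).2, ← Real.exp_add, norm_smul, Real.norm_eq_abs, mul_pow, sq_abs,
    Real.sq_sqrt hs]
  rw [show s * ‖p x‖ ^ 2 / 2 + -(s / 2 * ‖p x‖ ^ 2) = 0 by ring, Real.exp_zero]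

theorem gWW (hG : X_GEX) {s : ℝ} (hs : 0 ≤ s) (p : E d →L[ℝ] E d) (x x' : E d) :
    ∫ w, Real.exp (ex s p w x) * Real.exp (ex s p w x') ∂(ga d) =
      Real.exp (s * ⟪p x, p x'⟫_ℝ) := by
  have e : ∀ w : E d, Real.exp (ex s p w x) * Real.exp (ex s p w x') =
      Real.exp ⟪Real.sqrt s • (p x + p x'), w⟫_ℝ *
        Real.exp (-(s / 2 * (‖p x‖ ^ 2 + ‖p x'‖ ^ 2))) := by
    intro w
    rw [← Real.exp_add, ← Real.exp_add]
    congr 1
    unfold ex
    rw [real_inner_smul_left, inner_add_left]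
    ring
  simp only [e]
  rw [integral_mul_const, (hG d).2, ← Real.exp_add, norm_smul, Real.norm_eq_abs, mul_pow, sq_abs,
    Real.sq_sqrt hs, norm_add_sq_real]
  congr 1
  ring

/-- integrability in `x` of a bounded function times the weight -/
theorem int_x {s B K : ℝ} (hs : 0 ≤ s) {p : E d →L[ℝ] E d} (hp : ∀ x, ‖p x‖ ≤ ‖x‖)
    {μ : Measure (E d)} [IsFiniteMeasure μ] (hμ : ∀ᵐ x ∂μ, ‖x‖ ≤ B) {F : E d → ℝ}
    (hF : Continuous F) (hK : ∀ x, ‖x‖ ≤ B → |F x| ≤ K) (w : E d) :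
    Integrable (fun x => F x * Real.exp (ex s p w x)) μ := by
  refine Integrable.mono' (integrable_const (K * Real.exp (Real.sqrt s * B * ‖w‖)))
    (hF.mul (ex_cont' s p w)).aestronglyMeasurable ?_
  filter_upwards [hμ] with x hx
  rw [Real.norm_eq_abs, abs_mul, abs_of_pos (Real.exp_pos (ex s p w x))]
  exact mul_le_mul (hK x hx) (ex_le hs hp hx w) (Real.exp_pos _).le
    ((abs_nonneg _).trans (hK x hx))

end SPL

open SPL in
theorem spl (hG : X_GEX) (hBAS : X_BAS) : X_SPL := by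
  intro d B R s μ p hB0 hPB hs hp A hA hR θ
  have hprob := hPB.prob
  obtain ⟨-, -, -, -, -, -, -, hV⟩ := hBAS d B μ s p hB0 hPB hs.le hp
  have hZlow := (hBAS d B μ s p hB0 hPB hs.le hp).1
  have hexp := (hG d).1
  obtain ⟨c, hc⟩ : ∃ c : ℝ, c = Real.sqrt s * B := ⟨_, rfl⟩
  -- notation
  obtain ⟨W, hW⟩ : ∃ W : E d → E d → ℝ, W = fun w x => Real.exp (ex s p w x) := ⟨_, rfl⟩
  have hW0 : ∀ w x, 0 ≤ W w x := fun w x => by rw [hW]; exact (Real.exp_pos _).le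
  have hWc : Continuous fun z : E d × E d => W z.1 z.2 := by rw [hW]; exact ex_cont s p
  have hWle : ∀ w x, ‖x‖ ≤ B → W w x ≤ Real.exp (c * ‖w‖) := by
    intro w x hx
    rw [hW, hc]
    exact ex_le hs.le hp hx w
  have hin : ∀ x : E d, ‖x‖ ≤ B → |⟪x, θ⟫_ℝ| ≤ B * ‖θ‖ := fun x hx =>
    (abs_real_inner_le_norm x θ).trans (mul_le_mul_of_nonneg_right hx (norm_nonneg _))
  have hin2 : ∀ x : E d, ‖x‖ ≤ B → |⟪x, θ⟫_ℝ ^ 2| ≤ (B * ‖θ‖) ^ 2 := fun x hx => by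
    rw [abs_pow]
    exact pow_le_pow_left₀ (abs_nonneg _) (hin x hx) 2
  have hlc : Continuous fun x : E d => ⟪x, θ⟫_ℝ := by fun_prop
  have i0 : ∀ w, Integrable (W w) μ := by
    intro w
    have h := int_x (K := 1) hs.le hp hPB.bdd (F := fun _ => (1 : ℝ)) continuous_const
      (fun x _ => by simp) w
    simp only [one_mul] at h
    rw [hW]
    exact h
  have i1 : ∀ w, Integrable (fun x => ⟪x, θ⟫_ℝ * W w x) μ := by
    intro w
    rw [hW]
    exact int_x hs.le hp hPB.bdd hlc hin w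
  have i2 : ∀ w, Integrable (fun x => ⟪x, θ⟫_ℝ ^ 2 * W w x) μ := by
    intro w
    rw [hW]
    exact int_x hs.le hp hPB.bdd (hlc.pow 2) hin2 w
  -- measures
  obtain ⟨μA, hμA⟩ : ∃ μA : Measure (E d), μA = μ.restrict A := ⟨_, rfl⟩
  obtain ⟨μC, hμC⟩ : ∃ μC : Measure (E d), μC = μ.restrict Aᶜ := ⟨_, rfl⟩
  have fA : IsFiniteMeasure μA := by rw [hμA]; infer_instance
  have fC : IsFiniteMeasure μC := by rw [hμC]; infer_instance
  have bA : ∀ᵐ x ∂μA, ‖x‖ ≤ B := by rw [hμA]; exact ae_restrict_of_ae hPB.bdd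
  have bC : ∀ᵐ x ∂μC, ‖x‖ ≤ B := by rw [hμC]; exact ae_restrict_of_ae hPB.bdd
  -- functions of `w`
  obtain ⟨VA, hVA⟩ : ∃ VA : E d → ℝ, VA = fun w => ∫ x, ⟪x, θ⟫_ℝ * W w x ∂μA := ⟨_, rfl⟩
  obtain ⟨QC, hQC⟩ : ∃ QC : E d → ℝ, QC = fun w => ∫ x, ⟪x, θ⟫_ℝ ^ 2 * W w x ∂μC := ⟨_, rfl⟩
  have hZB : ∀ w, ZB μ A s p w = ∫ x, W w x ∂μA := by
    intro w
    rw [hW, hμA]
    rfl
  obtain ⟨S, hS⟩ : ∃ S : Set (E d), S = {w | ZB μ A s p w < 1 / 2} := ⟨_, rfl⟩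
  have hSm : MeasurableSet S := by
    rw [hS]
    have h1 : Measurable fun w => ZB μ A s p w := by
      simp only [hZB]
      exact (hWc.stronglyMeasurable.integral_prod_right' (ν := μA)).measurable
    exact measurableSet_lt h1 measurable_const
  -- the pointwise bound
  have hpt : ∀ w, Z μ s p w * (⟪mn μ s p w, θ⟫_ℝ * ⟪mn μ s p w, θ⟫_ℝ) ≤
      2 * VA w ^ 2 + S.indicator (fun _ => R ^ 2 * ‖θ‖ ^ 2) w + QC w := by
    intro w
    have hZpos : 0 < Z μ s p w := lt_of_lt_of_le (Real.exp_pos _) (hZlow w)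
    obtain ⟨VC, hVC⟩ : ∃ VC : ℝ, VC = ∫ x, ⟪x, θ⟫_ℝ * W w x ∂μC := ⟨_, rfl⟩
    obtain ⟨ZA, hZA⟩ : ∃ ZA : ℝ, ZA = ∫ x, W w x ∂μA := ⟨_, rfl⟩
    obtain ⟨ZC, hZC⟩ : ∃ ZC : ℝ, ZC = ∫ x, W w x ∂μC := ⟨_, rfl⟩
    obtain ⟨QA, hQA⟩ : ∃ QA : ℝ, QA = ∫ x, ⟪x, θ⟫_ℝ ^ 2 * W w x ∂μA := ⟨_, rfl⟩
    have eZ : Z μ s p w = ZA + ZC := by
      rw [hZA, hZC, hμA, hμC, integral_add_compl hA (i0 w), hW]
      rfl
    have eV : Z μ s p w * ⟪mn μ s p w, θ⟫_ℝ = VA w + VC := by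
      rw [hV w θ, hVA, hVC, hμA, hμC]
      simp only
      rw [integral_add_compl hA (i1 w), hW]
    have hZA0 : 0 ≤ ZA := by rw [hZA]; exact integral_nonneg (hW0 w)
    have hZC0 : 0 ≤ ZC := by rw [hZC]; exact integral_nonneg (hW0 w)
    have hQC0 : 0 ≤ QC w := by
      rw [hQC]
      exact integral_nonneg fun x => mul_nonneg (sq_nonneg _) (hW0 w x)
    have cA : VA w ^ 2 ≤ ZA * QA := by
      rw [hVA, hZA, hQA, hμA]
      exact cs _ (hW0 w) (i0 w).integrableOn (i1 w).integrableOn (i2 w).integrableOn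
    have cC : VC ^ 2 ≤ ZC * QC w := by
      rw [hVC, hZC, hQC, hμC]
      exact cs _ (hW0 w) (i0 w).integrableOn (i1 w).integrableOn (i2 w).integrableOn
    have hQAle : QA ≤ R ^ 2 * ‖θ‖ ^ 2 * ZA := by
      rw [hQA, hZA, hμA, ← integral_const_mul]
      refine setIntegral_mono_on (i2 w).integrableOn ((i0 w).const_mul _).integrableOn hA ?_
      intro x hx
      refine mul_le_mul_of_nonneg_right ?_ (hW0 w x)
      have h1 : |⟪x, θ⟫_ℝ| ≤ R * ‖θ‖ := (abs_real_inner_le_norm x θ).trans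
        (mul_le_mul_of_nonneg_right (hR x hx) (norm_nonneg _))
      calc ⟪x, θ⟫_ℝ ^ 2 = |⟪x, θ⟫_ℝ| ^ 2 := (sq_abs _).symm
        _ ≤ (R * ‖θ‖) ^ 2 := pow_le_pow_left₀ (abs_nonneg _) h1 2
        _ = R ^ 2 * ‖θ‖ ^ 2 := by ring
    obtain ⟨u, hu⟩ : ∃ u : ℝ, u = 2 * VA w ^ 2 + S.indicator (fun _ => R ^ 2 * ‖θ‖ ^ 2) w :=
      ⟨_, rfl⟩
    have hK0 : 0 ≤ R ^ 2 * ‖θ‖ ^ 2 := by positivity
    have hind : 0 ≤ S.indicator (fun _ => R ^ 2 * ‖θ‖ ^ 2) w :=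
      Set.indicator_nonneg (fun _ _ => hK0) w
    have hu0 : 0 ≤ u := by rw [hu]; positivity
    have hAu : VA w ^ 2 ≤ ZA * u := by
      by_cases hw : w ∈ S
      · have h1 : ZA < 1 / 2 := by
          rw [hS] at hw
          rw [hZA, ← hZB w]
          exact hw
        have h2 : R ^ 2 * ‖θ‖ ^ 2 ≤ u := by
          rw [hu, Set.indicator_of_mem hw]
          nlinarith [sq_nonneg (VA w)]
        have h3 : QA ≤ u := by
          have h4 : R ^ 2 * ‖θ‖ ^ 2 * ZA ≤ R ^ 2 * ‖θ‖ ^ 2 * 1 :=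
            mul_le_mul_of_nonneg_left (by linarith) hK0
          linarith
        exact cA.trans (mul_le_mul_of_nonneg_left h3 hZA0)
      · have h1 : 1 / 2 ≤ ZA := by
          by_contra hcon
          push Not at hcon
          apply hw
          rw [hS]
          show ZB μ A s p w < 1 / 2
          rw [hZB w, ← hZA]
          exact hcon
        have h2 : u = 2 * VA w ^ 2 := by
          rw [hu, Set.indicator_of_notMem hw, add_zero]
        rw [h2]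
        nlinarith [sq_nonneg (VA w)]
    have hmain := two_sq hZA0 hZC0 hu0 hQC0 hAu cC
    rw [← eV, ← eZ] at hmain
    rw [← hu]
    have h5 : Z μ s p w * (Z μ s p w * (⟪mn μ s p w, θ⟫_ℝ * ⟪mn μ s p w, θ⟫_ℝ)) ≤
        Z μ s p w * (u + QC w) := by
      refine le_trans (le_of_eq ?_) hmain
      ring
    exact le_of_mul_le_mul_left h5 hZpos
  -- Fubini for `QC`
  obtain ⟨F2, hF2⟩ : ∃ F2 : E d → E d → ℝ, F2 = fun w x => ⟪x, θ⟫_ℝ ^ 2 * W w x := ⟨_, rfl⟩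
  have hF2i : Integrable (Function.uncurry F2) ((ga d).prod μC) := by
    have h1 : Integrable (fun q : E d × E d => (B * ‖θ‖) ^ 2 * Real.exp (c * ‖q.1‖))
        ((ga d).prod μC) := ((hexp c).comp_fst μC).const_mul _
    refine Integrable.mono' h1 ?_ ?_
    · refine Continuous.aestronglyMeasurable ?_
      rw [hF2]
      exact ((hlc.comp continuous_snd).pow 2).mul hWc
    · have h2 : ∀ᵐ q ∂((ga d).prod μC), ‖q.2‖ ≤ B :=
        Measure.quasiMeasurePreserving_snd.ae bC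
      filter_upwards [h2] with q hq
      rw [hF2]
      simp only [Function.uncurry]
      rw [Real.norm_eq_abs, abs_mul, abs_of_nonneg (hW0 q.1 q.2)]
      exact mul_le_mul (hin2 q.2 hq) (hWle q.1 q.2 hq) (hW0 _ _) (sq_nonneg _)
  have hQCi : Integrable QC (ga d) := by
    have h := hF2i.integral_prod_left
    rw [hQC]
    rw [hF2] at h
    exact h
  have hQCv : ∫ w, QC w ∂(ga d) = ∫ x in Aᶜ, ⟪x, θ⟫_ℝ ^ 2 ∂μ := by
    have h := integral_integral_swap hF2i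
    rw [hF2] at h
    rw [hQC]
    simp only at h ⊢
    rw [h, ← hμC]
    refine integral_congr_ae (Eventually.of_forall fun x => ?_)
    simp only
    rw [integral_const_mul, hW]
    simp only
    rw [gW hG hs.le, mul_one]
  -- Fubini for `VA ^ 2`
  obtain ⟨F1, hF1⟩ : ∃ F1 : E d → E d × E d → ℝ,
      F1 = fun w z => (⟪z.1, θ⟫_ℝ * W w z.1) * (⟪z.2, θ⟫_ℝ * W w z.2) := ⟨_, rfl⟩
  have hF1i : Integrable (Function.uncurry F1) ((ga d).prod (μA.prod μA)) := by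
    have h1 : Integrable (fun q : E d × (E d × E d) =>
        (B * ‖θ‖) ^ 2 * Real.exp ((2 * c) * ‖q.1‖)) ((ga d).prod (μA.prod μA)) :=
      ((hexp (2 * c)).comp_fst (μA.prod μA)).const_mul _
    refine Integrable.mono' h1 ?_ ?_
    · refine Continuous.aestronglyMeasurable ?_
      rw [hF1]
      have k1 : Continuous fun q : E d × (E d × E d) => W q.1 q.2.1 :=
        hWc.comp (continuous_fst.prodMk (continuous_fst.comp continuous_snd))
      have k2 : Continuous fun q : E d × (E d × E d) => W q.1 q.2.2 :=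
        hWc.comp (continuous_fst.prodMk (continuous_snd.comp continuous_snd))
      exact ((hlc.comp (continuous_fst.comp continuous_snd)).mul k1).mul
        ((hlc.comp (continuous_snd.comp continuous_snd)).mul k2)
    · have j1 : ∀ᵐ z ∂(μA.prod μA), ‖z.1‖ ≤ B := Measure.quasiMeasurePreserving_fst.ae bA
      have j2 : ∀ᵐ z ∂(μA.prod μA), ‖z.2‖ ≤ B := Measure.quasiMeasurePreserving_snd.ae bA
      have h2 : ∀ᵐ q ∂((ga d).prod (μA.prod μA)), ‖q.2.1‖ ≤ B ∧ ‖q.2.2‖ ≤ B :=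
        Measure.quasiMeasurePreserving_snd.ae (j1.and j2)
      filter_upwards [h2] with q hq
      rw [hF1]
      simp only [Function.uncurry]
      rw [Real.norm_eq_abs, abs_mul, abs_mul, abs_mul, abs_of_nonneg (hW0 q.1 q.2.1),
        abs_of_nonneg (hW0 q.1 q.2.2)]
      have m1 : |⟪q.2.1, θ⟫_ℝ| * W q.1 q.2.1 ≤ (B * ‖θ‖) * Real.exp (c * ‖q.1‖) :=
        mul_le_mul (hin _ hq.1) (hWle _ _ hq.1) (hW0 _ _) (by positivity)
      have m2 : |⟪q.2.2, θ⟫_ℝ| * W q.1 q.2.2 ≤ (B * ‖θ‖) * Real.exp (c * ‖q.1‖) :=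
        mul_le_mul (hin _ hq.2) (hWle _ _ hq.2) (hW0 _ _) (by positivity)
      refine (mul_le_mul m1 m2 (mul_nonneg (abs_nonneg _) (hW0 _ _)) (by positivity)).trans
        (le_of_eq ?_)
      rw [show 2 * c * ‖q.1‖ = c * ‖q.1‖ + c * ‖q.1‖ by ring, Real.exp_add]
      ring
  have hVAsq : ∀ w, VA w ^ 2 = ∫ z, F1 w z ∂(μA.prod μA) := by
    intro w
    rw [hVA, hF1, sq]
    exact (integral_prod_mul (fun x => ⟪x, θ⟫_ℝ * W w x) (fun x => ⟪x, θ⟫_ℝ * W w x)).symm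
  have hVAi : Integrable (fun w => VA w ^ 2) (ga d) := by
    simp only [hVAsq]
    exact hF1i.integral_prod_left
  have hG1 : ∀ z : E d × E d, ∫ w, F1 w z ∂(ga d) =
      ⟪z.1, θ⟫_ℝ * ⟪z.2, θ⟫_ℝ * Real.exp (s * ⟪p z.1, p z.2⟫_ℝ) := by
    intro z
    have e : ∀ w, F1 w z = (⟪z.1, θ⟫_ℝ * ⟪z.2, θ⟫_ℝ) *
        (Real.exp (ex s p w z.1) * Real.exp (ex s p w z.2)) := by
      intro w
      rw [hF1, hW]
      ring
    simp only [e]
    rw [integral_const_mul, gWW hG hs.le]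
  have hVAv : ∫ w, VA w ^ 2 ∂(ga d) = ∫ x in A, ∫ x' in A,
      ⟪x, θ⟫_ℝ * ⟪x', θ⟫_ℝ * Real.exp (s * ⟪p x, p x'⟫_ℝ) ∂μ ∂μ := by
    simp only [hVAsq]
    rw [integral_integral_swap hF1i]
    have h := hF1i.integral_prod_right
    simp only [Function.uncurry, hG1] at h
    simp only [hG1]
    rw [integral_prod _ h, hμA]
  -- conclusion
  have hSi : Integrable (S.indicator fun _ => R ^ 2 * ‖θ‖ ^ 2) (ga d) :=
    (integrable_const _).indicator hSm
  have hSv : ∫ w, S.indicator (fun _ => R ^ 2 * ‖θ‖ ^ 2) w ∂(ga d) =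
      R ^ 2 * ‖θ‖ ^ 2 * (ga d S).toReal := by
    rw [integral_indicator_const _ hSm, smul_eq_mul, mul_comm]
    rfl
  have h1i : Integrable (fun w => 2 * VA w ^ 2) (ga d) := hVAi.const_mul 2
  have h2i : Integrable (fun w => 2 * VA w ^ 2 + S.indicator (fun _ => R ^ 2 * ‖θ‖ ^ 2) w)
      (ga d) := h1i.add hSi
  have h3i : Integrable (fun w => 2 * VA w ^ 2 + S.indicator (fun _ => R ^ 2 * ‖θ‖ ^ 2) w + QC w)
      (ga d) := h2i.add hQCi
  have hfin : Sb μ s p θ θ ≤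
      ∫ w, (2 * VA w ^ 2 + S.indicator (fun _ => R ^ 2 * ‖θ‖ ^ 2) w + QC w) ∂(ga d) := by
    unfold Sb
    refine integral_mono_of_nonneg (Eventually.of_forall fun w => ?_) h3i
      (Eventually.of_forall hpt)
    have hZpos : 0 < Z μ s p w := lt_of_lt_of_le (Real.exp_pos _) (hZlow w)
    exact mul_nonneg hZpos.le (mul_self_nonneg _)
  rw [integral_add h2i hQCi, integral_add h1i hSi, integral_const_mul, hVAv, hSv, hQCv, hS] at hfin
  exact hfin

end Pool.Agent.T2h52.FC
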