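import Pool.Agent.T2h52.FC.Stm

/-!
# ST1: `Sb` is at most half of the identity
-/

set_option autoImplicit false

namespace Pool.Agent.T2h52.FC

open MeasureTheory Set Filter Topology ProbabilityTheory
open scoped ENNReal InnerProductSpace Pointwise
open Pool.Agent.R755.KF (PB)
open Pool.Agent.N555.RZ (mP Spr mP_prob mP_ae)
open Pool.Agent.T2h52.SP
open Pool.Agent.T2h52.SQ
open Pool.Agent.T2h52.SO

namespace St1

/-- the uniform measure on a body has bounded support -/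
theorem pb_mP {d : ℕ} {P : Set (E d)} {a : ℝ} (hP : Bn P a) : ∃ B : ℝ, 0 ≤ B ∧ PB B (mP P) := by
  obtain ⟨B, hB0, hB⟩ := hP.comp.isBounded.exists_pos_norm_le
  refine ⟨B, hB0.le, ⟨?_, ?_⟩⟩
  · refine mP_prob ?_ hP.comp.measure_lt_top.ne
    have h1 : 0 < volume (interior P) := isOpen_interior.measure_pos volume ⟨0, hP.int⟩
    exact (h1.trans_le (measure_mono interior_subset)).ne'
  · filter_upwards [mP_ae hP.comp.isClosed.measurableSet] with x hx using hB x hx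

/-- projections are contractions -/
theorem pj_norm {d k : ℕ} {p : E d →L[ℝ] E d} (hp : Pj p k) (x : E d) : ‖p x‖ ≤ ‖x‖ := by
  obtain ⟨b, S, -, h⟩ := hp
  have h1 : ‖p x‖ ^ 2 = ∑ i ∈ S, ⟪b i, x⟫_ℝ ^ 2 := by
    rw [← real_inner_self_eq_norm_sq, h x, b.orthonormal.inner_sum]
    refine Finset.sum_congr rfl fun i _ => ?_
    simp [sq]
  have h2 : ∑ i, ⟪b i, x⟫_ℝ ^ 2 = ‖x‖ ^ 2 := by
    have := b.sum_sq_norm_inner_right x
    rw [← this]
    refine Finset.sum_congr rfl fun i _ => ?_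
    rw [Real.norm_eq_abs, sq_abs]
  have h3 : ‖p x‖ ^ 2 ≤ ‖x‖ ^ 2 := by
    rw [h1, ← h2]
    exact Finset.sum_le_sum_of_subset_of_nonneg (Finset.subset_univ S) fun i _ _ => sq_nonneg _
  exact le_of_sq_le_sq h3 (norm_nonneg _)

/-- scaling -/
theorem sb_smul {d : ℕ} (μ : Measure (E d)) (s : ℝ) (p : E d →L[ℝ] E d) (c : ℝ) (u : E d) :
    Sb μ s p (c • u) (c • u) = c ^ 2 * Sb μ s p u u := by
  unfold Sb
  rw [← integral_const_mul]
  refine integral_congr_ae (Eventually.of_forall fun w => ?_)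
  simp only [inner_smul_right]
  ring

/-- numbers -/
theorem num (d : ℕ) (hd : 10 ^ 50 ≤ d) :
    2 * (1 / 100 : ℝ) + (400 * Real.log (d + 1) * Real.sqrt d) ^ 2 * (1 / ((d : ℝ) + 1) ^ 100) +
      160 ^ 2 * Real.sqrt (1 / ((d : ℝ) + 1) ^ 18) ≤ 1 / 2 := by
  have hd' : (10 : ℝ) ^ 50 ≤ d := by exact_mod_cast hd
  have hd0 : (0 : ℝ) ≤ d := by positivity
  set D : ℝ := (d : ℝ) + 1 with hD
  have hD1 : (10 : ℝ) ^ 50 ≤ D := by linarith
  have hDp : 0 < D := by linarith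
  have hL0 : 0 ≤ Real.log D := Real.log_nonneg (by linarith)
  have hL : Real.log D ≤ D := by linarith [Real.log_le_sub_one_of_pos hDp]
  have e1 : (400 * Real.log D * Real.sqrt d) ^ 2 ≤ 160000 * D ^ 3 := by
    have h1 : (400 * Real.log D * Real.sqrt d) ^ 2 = 160000 * (Real.log D ^ 2 * d) := by
      rw [mul_pow, mul_pow, Real.sq_sqrt hd0]; ring
    rw [h1]
    have h2 : Real.log D ^ 2 ≤ D ^ 2 := pow_le_pow_left₀ hL0 hL 2
    have h3 : (d : ℝ) ≤ D := by linarith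
    have h4 : Real.log D ^ 2 * d ≤ D ^ 2 * D := mul_le_mul h2 h3 hd0 (by positivity)
    nlinarith [h4]
  have e2 : (400 * Real.log D * Real.sqrt d) ^ 2 * (1 / D ^ 100) ≤ 1 / 100 := by
    calc (400 * Real.log D * Real.sqrt d) ^ 2 * (1 / D ^ 100)
        ≤ 160000 * D ^ 3 * (1 / D ^ 100) := mul_le_mul_of_nonneg_right e1 (by positivity)
      _ = 160000 / D ^ 97 := by
        rw [show (100 : ℕ) = 3 + 97 from rfl, pow_add]
        field_simp
      _ ≤ 1 / 100 := by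
        rw [div_le_div_iff₀ (by positivity) (by norm_num)]
        have h1 : D ≤ D ^ 97 := le_self_pow₀ (by linarith) (by norm_num)
        have h2 : (10 : ℝ) ^ 50 ≤ D ^ 97 := hD1.trans h1
        have h3 : (160000 : ℝ) * 100 ≤ 10 ^ 50 := by norm_num
        linarith
  have e3 : Real.sqrt (1 / D ^ 18) = 1 / D ^ 9 := by
    rw [show (1 : ℝ) / D ^ 18 = (1 / D ^ 9) ^ 2 by rw [div_pow, ← pow_mul]; norm_num]
    exact Real.sqrt_sq (by positivity)
  have e4 : (160 : ℝ) ^ 2 * (1 / D ^ 9) ≤ 1 / 100 := by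
    rw [mul_one_div, div_le_div_iff₀ (by positivity) (by norm_num)]
    have h1 : D ≤ D ^ 9 := le_self_pow₀ (by linarith) (by norm_num)
    have h2 : (10 : ℝ) ^ 50 ≤ D ^ 9 := hD1.trans h1
    have h3 : (160 : ℝ) ^ 2 * 100 ≤ 10 ^ 50 := by norm_num
    linarith
  rw [e3]
  linarith

end St1

/-- ST1 -/
theorem st1 (h1 : X_SPL) (h2 : X_MX1) (h3 : X_LTL) (h4 : X_M4) (h5 : X_TRU) : X_ST1 := by
  intro d k P a s p hd hP hI hp hk hs hs' θ
  obtain ⟨B, hB0, hB⟩ := St1.pb_mP hP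
  obtain ⟨hAm, hAc⟩ := h5 d k P a p hd hP hI hp hk
  have key : ∀ u : E d, ‖u‖ = 1 → Sb (mP P) s p u u ≤ 1 / 2 := by
    intro u hu
    have a1 := h1 d B (400 * Real.log (d + 1) * Real.sqrt d) s (mP P) p hB0 hB hs
      (St1.pj_norm hp) (Bt P p k) hAm (fun x hx => hx.2.1) u
    have a2 := h2 d k P a s p hd hP hI hp hk hs hs' u hu.le
    have a3 := h3 d k P a s p hd hP hI hp hk hs hs'
    have a4 := h4 d P a hP hI u (Bt P p k)ᶜ hAm.compl
    rw [hu] at a1 a4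
    have a5 : Real.sqrt ((mP P) (Bt P p k)ᶜ).toReal ≤ Real.sqrt (1 / ((d : ℝ) + 1) ^ 18) :=
      Real.sqrt_le_sqrt hAc
    have a6 : (400 * Real.log (d + 1) * Real.sqrt d) ^ 2 * (1 : ℝ) ^ 2 *
        (ga d {w | ZB (mP P) (Bt P p k) s p w < 1 / 2}).toReal ≤
        (400 * Real.log (d + 1) * Real.sqrt d) ^ 2 * (1 / ((d : ℝ) + 1) ^ 100) := by
      rw [one_pow, mul_one]
      exact mul_le_mul_of_nonneg_left a3 (sq_nonneg _)
    have a7 := St1.num d hd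
    have a8 : ∫ x in (Bt P p k)ᶜ, ⟪x, u⟫_ℝ ^ 2 ∂(mP P) ≤
        160 ^ 2 * Real.sqrt (1 / ((d : ℝ) + 1) ^ 18) := by
      refine a4.trans ?_
      rw [one_pow, mul_one]
      exact mul_le_mul_of_nonneg_left a5 (by norm_num)
    linarith
  rcases eq_or_ne θ 0 with h0 | h0
  · have : Sb (mP P) s p θ θ = 0 := by
      rw [h0]; simp [Sb]
    rw [this, h0]; simp
  · have hn : ‖θ‖ ≠ 0 := norm_ne_zero_iff.2 h0
    have hu : ‖(‖θ‖⁻¹ • θ : E d)‖ = 1 := by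
      rw [norm_smul, norm_inv, norm_norm, inv_mul_cancel₀ hn]
    have e : θ = ‖θ‖ • (‖θ‖⁻¹ • θ) := by
      rw [smul_smul, mul_inv_cancel₀ hn, one_smul]
    have h6 := key _ hu
    calc Sb (mP P) s p θ θ = Sb (mP P) s p (‖θ‖ • (‖θ‖⁻¹ • θ)) (‖θ‖ • (‖θ‖⁻¹ • θ)) := by rw [← e]
      _ = ‖θ‖ ^ 2 * Sb (mP P) s p (‖θ‖⁻¹ • θ) (‖θ‖⁻¹ • θ) := St1.sb_smul _ _ _ _ _
      _ ≤ ‖θ‖ ^ 2 * (1 / 2) := mul_le_mul_of_nonneg_left h6 (sq_nonneg _)
      _ = 1 / 2 * ‖θ‖ ^ 2 := by ring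

end Pool.Agent.T2h52.FC
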