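import Pool.Agent.T2h52.FC.ST1

/-!
# ST2: the bound on `E Z |a|²`
-/

set_option autoImplicit false

namespace Pool.Agent.T2h52.FC

open MeasureTheory Set Filter Topology ProbabilityTheory
open scoped ENNReal InnerProductSpace Pointwise
open Pool.Agent.R755.KF (PB)
open Pool.Agent.N555.RZ (mP Spr mP_prob mP_ae)
open Pool.Agent.T2h52.SP
open Pool.Agent.T2h52.SQ
open Pool.Agent.T2h52.SO

namespace St2

/-- the standard basis -/
noncomputable abbrev bs (d : ℕ) : OrthonormalBasis (Fin d) ℝ (E d) := EuclideanSpace.basisFun (Fin d) ℝ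

theorem pj_id (d : ℕ) : Pj (ContinuousLinearMap.id ℝ (E d)) d := by
  refine ⟨bs d, Finset.univ, by simp, fun x => ?_⟩
  have := (bs d).sum_repr' x
  rw [ContinuousLinearMap.id_apply]
  exact this.symm

theorem norm_sq_sum {d : ℕ} (x : E d) : ‖x‖ ^ 2 = ∑ i, ⟪x, bs d i⟫_ℝ * ⟪x, bs d i⟫_ℝ := by
  have := (bs d).sum_inner_mul_inner x x
  rw [← real_inner_self_eq_norm_sq, ← this]
  refine Finset.sum_congr rfl fun i _ => ?_
  rw [real_inner_comm x (bs d i)]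

theorem inner_sum' {d : ℕ} (x y : E d) : ∑ i, ⟪x, bs d i⟫_ℝ * ⟪y, bs d i⟫_ℝ = ⟪x, y⟫_ℝ := by
  rw [← (bs d).sum_inner_mul_inner x y]
  refine Finset.sum_congr rfl fun i _ => ?_
  rw [real_inner_comm y (bs d i)]

/-- `ff` is the trace of `Sb` -/
theorem ff_eq (hb : X_BAS) (hg : X_GEX) {d : ℕ} {B s : ℝ} {μ : Measure (E d)} {p : E d →L[ℝ] E d}
    (hB : 0 ≤ B) (hμ : PB B μ) (hs : 0 ≤ s) (hp : ∀ x, ‖p x‖ ≤ ‖x‖) :
    ff μ s p = ∑ i, Sb μ s p (bs d i) (bs d i) := by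
  obtain ⟨b1, b2, b3, b4, -, b6, -⟩ := hb d B μ s p hB hμ hs hp
  unfold ff Sb
  rw [← integral_finset_sum]
  · refine integral_congr_ae (Eventually.of_forall fun w => ?_)
    simp only
    rw [norm_sq_sum, Finset.mul_sum]
  · intro i _
    refine (((hg d).1 (Real.sqrt s * B)).mul_const (B * B)).mono'
      (b3.mul ((b4.inner continuous_const).mul (b4.inner continuous_const))).aestronglyMeasurable
      (Eventually.of_forall fun w => ?_)
    have h0 : 0 ≤ Z μ s p w := (Real.exp_pos _).le.trans (b1 w)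
    have h1 : |⟪mn μ s p w, bs d i⟫_ℝ| ≤ B := by
      refine (abs_real_inner_le_norm _ _).trans ?_
      rw [(bs d).orthonormal.1 i, mul_one]
      exact b6 w
    rw [norm_mul, norm_mul, Real.norm_eq_abs, Real.norm_eq_abs, abs_of_nonneg h0]
    exact mul_le_mul (b2 w) (mul_le_mul h1 h1 (abs_nonneg _) hB) (by positivity) (Real.exp_pos _).le

/-- the sum of the double integrals -/
theorem sum_dbl {d : ℕ} {B s : ℝ} {μ : Measure (E d)} (hμ : PB B μ) (A : Set (E d)) :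
    ∑ i, ∫ x in A, ∫ x' in A, ⟪x, bs d i⟫_ℝ * ⟪x', bs d i⟫_ℝ * Real.exp (s * ⟪x, x'⟫_ℝ) ∂μ ∂μ =
      ∫ x in A, ∫ x' in A, ⟪x, x'⟫_ℝ * Real.exp (s * ⟪x, x'⟫_ℝ) ∂μ ∂μ := by
  have := hμ.prob
  set ν : Measure (E d) := μ.restrict A with hν
  have hbd : ∀ᵐ x ∂ν, ‖x‖ ≤ B := ae_restrict_of_ae hμ.bdd
  have hb1 : ∀ᵐ z ∂(ν.prod ν), ‖z.1‖ ≤ B :=
    (Measure.quasiMeasurePreserving_fst (μ := ν) (ν := ν)).ae hbd
  have hb2 : ∀ᵐ z ∂(ν.prod ν), ‖z.2‖ ≤ B :=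
    (Measure.quasiMeasurePreserving_snd (μ := ν) (ν := ν)).ae hbd
  have hint : ∀ G : E d × E d → ℝ, Continuous G → Integrable G (ν.prod ν) := by
    intro G hG
    have hc : IsCompact (Metric.closedBall (0 : E d) B ×ˢ Metric.closedBall (0 : E d) B) :=
      (isCompact_closedBall _ _).prod (isCompact_closedBall _ _)
    obtain ⟨M, hM⟩ := hc.exists_bound_of_continuousOn hG.continuousOn
    refine (integrable_const M).mono' hG.aestronglyMeasurable ?_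
    filter_upwards [hb1, hb2] with z h1 h2
    exact hM z ⟨by simpa using h1, by simpa using h2⟩
  have hcexp : Continuous fun z : E d × E d => Real.exp (s * ⟪z.1, z.2⟫_ℝ) :=
    Real.continuous_exp.comp (continuous_const.mul (continuous_fst.inner continuous_snd))
  have hGi : ∀ i, Integrable (fun z : E d × E d =>
      ⟪z.1, bs d i⟫_ℝ * ⟪z.2, bs d i⟫_ℝ * Real.exp (s * ⟪z.1, z.2⟫_ℝ)) (ν.prod ν) := by
    intro i
    exact hint _ (((continuous_fst.inner continuous_const).mul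
      (continuous_snd.inner continuous_const)).mul hcexp)
  have hGs : Integrable (fun z : E d × E d =>
      ⟪z.1, z.2⟫_ℝ * Real.exp (s * ⟪z.1, z.2⟫_ℝ)) (ν.prod ν) :=
    hint _ ((continuous_fst.inner continuous_snd).mul hcexp)
  have e1 : ∀ i, ∫ x, ∫ x', ⟪x, bs d i⟫_ℝ * ⟪x', bs d i⟫_ℝ * Real.exp (s * ⟪x, x'⟫_ℝ) ∂ν ∂ν =
      ∫ z, ⟪z.1, bs d i⟫_ℝ * ⟪z.2, bs d i⟫_ℝ * Real.exp (s * ⟪z.1, z.2⟫_ℝ) ∂(ν.prod ν) := by
    intro i
    rw [integral_prod _ (hGi i)]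
  have e2 : ∫ x, ∫ x', ⟪x, x'⟫_ℝ * Real.exp (s * ⟪x, x'⟫_ℝ) ∂ν ∂ν =
      ∫ z, ⟪z.1, z.2⟫_ℝ * Real.exp (s * ⟪z.1, z.2⟫_ℝ) ∂(ν.prod ν) := by
    rw [integral_prod _ hGs]
  rw [e2, Finset.sum_congr rfl fun i _ => e1 i, ← integral_finset_sum _ fun i _ => hGi i]
  refine integral_congr_ae (Eventually.of_forall fun z => ?_)
  simp only
  rw [← Finset.sum_mul, inner_sum']

/-- numbers: `s d ≥ 1` -/
theorem sd_ge (d : ℕ) (hd : 10 ^ 50 ≤ d) :
    10 ^ 14 * Real.log (d + 1) ^ 3 * Real.sqrt d ≤ d := by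
  have hd' : (10 : ℝ) ^ 50 ≤ d := by exact_mod_cast hd
  have hd0 : (0 : ℝ) < d := lt_of_lt_of_le (by norm_num) hd'
  set L : ℝ := Real.log ((d : ℝ) + 1) with hL
  have hL0 : 0 ≤ L := Real.log_nonneg (by linarith)
  set u : ℝ := Real.exp (L / 12) with hu
  have hu0 : 0 < u := Real.exp_pos _
  have hu12 : u ^ 12 = (d : ℝ) + 1 := by
    rw [hu, ← Real.exp_nat_mul, show ((12 : ℕ) : ℝ) * (L / 12) = L by push_cast; ring, hL,
      Real.exp_log (by linarith)]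
  have hu4 : (10 : ℝ) ^ 4 ≤ u := by
    by_contra h
    push Not at h
    have h1 : u ^ 12 ≤ ((10 : ℝ) ^ 4) ^ 12 := pow_le_pow_left₀ hu0.le h.le 12
    rw [hu12] at h1
    have h2 : ((10 : ℝ) ^ 4) ^ 12 < 10 ^ 50 := by norm_num
    linarith
  have hL3 : L ^ 3 ≤ 46656 * u ^ 1 := by
    have h1 : L / 36 ≤ Real.exp (L / 36) := by
      have := Real.add_one_le_exp (L / 36)
      linarith
    have h2 : (L / 36) ^ 3 ≤ Real.exp (L / 36) ^ 3 := pow_le_pow_left₀ (by positivity) h1 3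
    have h3 : Real.exp (L / 36) ^ 3 = u := by
      rw [← Real.exp_nat_mul, hu]
      congr 1
      push_cast
      ring
    rw [h3] at h2
    have h4 : (L / 36) ^ 3 = L ^ 3 / 46656 := by ring
    rw [h4] at h2
    rw [pow_one]
    linarith
  have hsq : (10 ^ 14 * L ^ 3) ^ 2 ≤ (d : ℝ) := by
    have h1 : (10 ^ 14 * L ^ 3) ^ 2 ≤ (10 ^ 14 * (46656 * u)) ^ 2 := by
      refine pow_le_pow_left₀ (by positivity) ?_ 2
      rw [pow_one] at hL3
      linarith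
    have h2 : (10 ^ 14 * (46656 * u)) ^ 2 ≤ 10 ^ 38 * u ^ 2 := by
      have : (10 ^ 14 * (46656 * u)) ^ 2 = (10 ^ 14 * 46656) ^ 2 * u ^ 2 := by ring
      rw [this]
      refine mul_le_mul_of_nonneg_right ?_ (by positivity)
      norm_num
    have h3 : (10 : ℝ) ^ 40 ≤ u ^ 10 := by
      calc (10 : ℝ) ^ 40 = ((10 : ℝ) ^ 4) ^ 10 := by norm_num
        _ ≤ u ^ 10 := pow_le_pow_left₀ (by norm_num) hu4 10
    have h4 : (10 : ℝ) ^ 40 * u ^ 2 ≤ u ^ 12 := by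
      calc (10 : ℝ) ^ 40 * u ^ 2 ≤ u ^ 10 * u ^ 2 := mul_le_mul_of_nonneg_right h3 (by positivity)
        _ = u ^ 12 := by rw [← pow_add]
    have h5 : (10 : ℝ) ^ 40 * u ^ 2 = 100 * (10 ^ 38 * u ^ 2) := by ring
    nlinarith
  have hroot : 10 ^ 14 * L ^ 3 ≤ Real.sqrt d := Real.le_sqrt_of_sq_le hsq
  calc 10 ^ 14 * L ^ 3 * Real.sqrt d ≤ Real.sqrt d * Real.sqrt d :=
        mul_le_mul_of_nonneg_right hroot (Real.sqrt_nonneg _)
    _ = d := Real.mul_self_sqrt hd0.le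

/-- numbers: the error terms -/
theorem err (d : ℕ) (hd : 10 ^ 50 ≤ d) :
    2 * (1 / ((d : ℝ) + 1) ^ 18) +
      d * ((400 * Real.log (d + 1) * Real.sqrt d) ^ 2 * (1 / ((d : ℝ) + 1) ^ 100)) +
      d * (160 ^ 2 * Real.sqrt (1 / ((d : ℝ) + 1) ^ 18)) ≤ 1 := by
  have hd' : (10 : ℝ) ^ 50 ≤ d := by exact_mod_cast hd
  have hd0 : (0 : ℝ) ≤ d := by positivity
  set D : ℝ := (d : ℝ) + 1 with hD
  have hD1 : (10 : ℝ) ^ 50 ≤ D := by linarith
  have hDp : 0 < D := by linarith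
  have hdD : (d : ℝ) ≤ D := by linarith
  have hL0 : 0 ≤ Real.log D := Real.log_nonneg (by linarith)
  have hL : Real.log D ≤ D := by linarith [Real.log_le_sub_one_of_pos hDp]
  have e1 : (400 * Real.log D * Real.sqrt d) ^ 2 ≤ 160000 * D ^ 3 := by
    have h1 : (400 * Real.log D * Real.sqrt d) ^ 2 = 160000 * (Real.log D ^ 2 * d) := by
      rw [mul_pow, mul_pow, Real.sq_sqrt hd0]; ring
    rw [h1]
    have h2 : Real.log D ^ 2 ≤ D ^ 2 := pow_le_pow_left₀ hL0 hL 2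
    have h4 : Real.log D ^ 2 * d ≤ D ^ 2 * D := mul_le_mul h2 hdD hd0 (by positivity)
    nlinarith [h4]
  have e2 : d * ((400 * Real.log D * Real.sqrt d) ^ 2 * (1 / D ^ 100)) ≤ 1 / 100 := by
    calc d * ((400 * Real.log D * Real.sqrt d) ^ 2 * (1 / D ^ 100))
        ≤ D * (160000 * D ^ 3 * (1 / D ^ 100)) :=
          mul_le_mul hdD (mul_le_mul_of_nonneg_right e1 (by positivity)) (by positivity) hDp.le
      _ = 160000 / D ^ 96 := by
        rw [show (100 : ℕ) = 1 + 3 + 96 from rfl, pow_add, pow_add, pow_one]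
        field_simp
      _ ≤ 1 / 100 := by
        rw [div_le_div_iff₀ (by positivity) (by norm_num)]
        have h1 : D ≤ D ^ 96 := le_self_pow₀ (by linarith) (by norm_num)
        have h2 : (10 : ℝ) ^ 50 ≤ D ^ 96 := hD1.trans h1
        have h3 : (160000 : ℝ) * 100 ≤ 10 ^ 50 := by norm_num
        linarith
  have e3 : Real.sqrt (1 / D ^ 18) = 1 / D ^ 9 := by
    rw [show (1 : ℝ) / D ^ 18 = (1 / D ^ 9) ^ 2 by rw [div_pow, ← pow_mul]; norm_num]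
    exact Real.sqrt_sq (by positivity)
  have e4 : d * ((160 : ℝ) ^ 2 * (1 / D ^ 9)) ≤ 1 / 100 := by
    calc d * ((160 : ℝ) ^ 2 * (1 / D ^ 9)) ≤ D * ((160 : ℝ) ^ 2 * (1 / D ^ 9)) :=
          mul_le_mul_of_nonneg_right hdD (by positivity)
      _ = (160 : ℝ) ^ 2 / D ^ 8 := by
        rw [show (9 : ℕ) = 1 + 8 from rfl, pow_add, pow_one]
        field_simp
      _ ≤ 1 / 100 := by
        rw [div_le_div_iff₀ (by positivity) (by norm_num)]
        have h1 : D ≤ D ^ 8 := le_self_pow₀ (by linarith) (by norm_num)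
        have h2 : (10 : ℝ) ^ 50 ≤ D ^ 8 := hD1.trans h1
        have h3 : (160 : ℝ) ^ 2 * 100 ≤ 10 ^ 50 := by norm_num
        linarith
  have e5 : 2 * (1 / D ^ 18) ≤ 1 / 100 := by
    rw [mul_one_div, div_le_div_iff₀ (by positivity) (by norm_num)]
    have h1 : D ≤ D ^ 18 := le_self_pow₀ (by linarith) (by norm_num)
    have h2 : (10 : ℝ) ^ 50 ≤ D ^ 18 := hD1.trans h1
    have h3 : (2 : ℝ) * 100 ≤ 10 ^ 50 := by norm_num
    linarith
  rw [e3]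
  linarith

end St2

open St2 in
/-- ST2 -/
theorem st2 (h1 : X_SPL) (h2 : X_MX2) (h3 : X_LTL) (h4 : X_M4) (h5 : X_TRU) (hb : X_BAS)
    (hg : X_GEX) : X_ST2 := by
  intro d P a s hd hP hI hs
  have hd1 : 1 ≤ d := le_trans (by norm_num) hd
  have hd' : (10 : ℝ) ^ 50 ≤ d := by exact_mod_cast hd
  have hd0 : (0 : ℝ) < d := lt_of_lt_of_le (by norm_num) hd'
  have hLp : 0 < Real.log ((d : ℝ) + 1) := Real.log_pos (by linarith)
  have hden : 0 < 10 ^ 14 * Real.log ((d : ℝ) + 1) ^ 3 * Real.sqrt d := by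
    have := Real.sqrt_pos.2 hd0
    positivity
  have hs0 : 0 < s := by rw [hs]; exact one_div_pos.2 hden
  have hsd : 1 ≤ s * d := by
    rw [hs, one_div, inv_mul_eq_div, le_div_iff₀ hden, one_mul]
    exact sd_ge d hd
  obtain ⟨B, hB0, hB⟩ := St1.pb_mP hP
  have hp := pj_id d
  have hpn : ∀ x : E d, ‖(ContinuousLinearMap.id ℝ (E d)) x‖ ≤ ‖x‖ := fun x => le_rfl
  obtain ⟨hAm, hAc⟩ := h5 d d P a _ hd hP hI hp hd1
  set p := ContinuousLinearMap.id ℝ (E d) with hpdef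
  set A := Bt P p d with hA
  have a3 := h3 d d P a s p hd hP hI hp hd1 hs0 hs.le
  have key : ∀ i, Sb (mP P) s p (bs d i) (bs d i) ≤
      2 * (∫ x in A, ∫ x' in A, ⟪x, bs d i⟫_ℝ * ⟪x', bs d i⟫_ℝ * Real.exp (s * ⟪x, x'⟫_ℝ)
        ∂(mP P) ∂(mP P)) +
      (400 * Real.log (d + 1) * Real.sqrt d) ^ 2 * (1 / ((d : ℝ) + 1) ^ 100) +
      160 ^ 2 * Real.sqrt (1 / ((d : ℝ) + 1) ^ 18) := by
    intro i
    have hn : ‖bs d i‖ = 1 := (bs d).orthonormal.1 i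
    have a1 := h1 d B (400 * Real.log (d + 1) * Real.sqrt d) s (mP P) p hB0 hB hs0
      hpn A hAm (fun x hx => hx.2.1) (bs d i)
    have a4 := h4 d P a hP hI (bs d i) Aᶜ hAm.compl
    rw [hn] at a1 a4
    have a5 : Real.sqrt ((mP P) Aᶜ).toReal ≤ Real.sqrt (1 / ((d : ℝ) + 1) ^ 18) :=
      Real.sqrt_le_sqrt hAc
    have a6 : (400 * Real.log (d + 1) * Real.sqrt d) ^ 2 * (1 : ℝ) ^ 2 *
        (ga d {w | ZB (mP P) A s p w < 1 / 2}).toReal ≤
        (400 * Real.log (d + 1) * Real.sqrt d) ^ 2 * (1 / ((d : ℝ) + 1) ^ 100) := by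
      rw [one_pow, mul_one]
      exact mul_le_mul_of_nonneg_left a3 (sq_nonneg _)
    have a8 : ∫ x in Aᶜ, ⟪x, bs d i⟫_ℝ ^ 2 ∂(mP P) ≤
        160 ^ 2 * Real.sqrt (1 / ((d : ℝ) + 1) ^ 18) := by
      refine a4.trans ?_
      rw [one_pow, mul_one]
      exact mul_le_mul_of_nonneg_left a5 (by norm_num)
    have a9 : (∫ x in A, ∫ x' in A, ⟪x, bs d i⟫_ℝ * ⟪x', bs d i⟫_ℝ * Real.exp (s * ⟪p x, p x'⟫_ℝ)
        ∂(mP P) ∂(mP P)) = ∫ x in A, ∫ x' in A, ⟪x, bs d i⟫_ℝ * ⟪x', bs d i⟫_ℝ *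
          Real.exp (s * ⟪x, x'⟫_ℝ) ∂(mP P) ∂(mP P) := rfl
    rw [a9] at a1
    linarith
  have hsum := Finset.sum_le_sum fun i (_ : i ∈ (Finset.univ : Finset (Fin d))) => key i
  rw [Finset.sum_add_distrib, Finset.sum_add_distrib, ← Finset.mul_sum, Finset.sum_const,
    Finset.sum_const, Finset.card_univ, Fintype.card_fin, nsmul_eq_mul, nsmul_eq_mul,
    sum_dbl hB A] at hsum
  rw [ff_eq hb hg hB0 hB hs0.le hpn]
  have a2 := h2 d P a s hd hP hI hs0 hs.le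
  have a7 := err d hd
  linarith

end Pool.Agent.T2h52.FC
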