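import Mathlib
import Pool.Agent.T2h52.FC.Stm

/-!
# Project FC, task TR2
-/

set_option autoImplicit false

namespace Pool.Agent.T2h52.FC

open MeasureTheory Set Filter Topology ProbabilityTheory
open scoped ENNReal InnerProductSpace Pointwise
open Pool.Agent.R755.KF (PB)
open Pool.Agent.N555.RZ (mP Spr)
open Pool.Agent.T2h52.SP
open Pool.Agent.T2h52.SQ
open Pool.Agent.T2h52.SO

theorem tr2_int {d : ℕ} {B : ℝ} {ν : Measure (E d)} (hν : PB B ν) {G : Type*}
    [NormedAddCommGroup G] {f : E d → G} (hf : Continuous f) : Integrable f ν := by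
  have := hν.prob
  obtain ⟨C, hC⟩ := (isCompact_closedBall (0 : E d) B).exists_bound_of_continuousOn
    hf.continuousOn
  refine Integrable.of_bound hf.aestronglyMeasurable C ?_
  filter_upwards [hν.bdd] with x hx
  exact hC x (mem_closedBall_zero_iff.2 hx)

theorem tr2_int2 {d : ℕ} {B : ℝ} {ν : Measure (E d)} (hν : PB B ν) {f : E d × E d → ℝ}
    (hf : Continuous f) : Integrable f (ν.prod ν) := by
  have := hν.prob
  obtain ⟨C, hC⟩ := ((isCompact_closedBall (0 : E d) B).prod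
    (isCompact_closedBall (0 : E d) B)).exists_bound_of_continuousOn hf.continuousOn
  refine Integrable.of_bound hf.aestronglyMeasurable C ?_
  have h1 : ∀ᵐ p : E d × E d ∂(ν.prod ν), ‖p.1‖ ≤ B :=
    Measure.quasiMeasurePreserving_fst.ae hν.bdd
  have h2 : ∀ᵐ p : E d × E d ∂(ν.prod ν), ‖p.2‖ ≤ B :=
    Measure.quasiMeasurePreserving_snd.ae hν.bdd
  filter_upwards [h1, h2] with p hp1 hp2
  exact hC p ⟨mem_closedBall_zero_iff.2 hp1, mem_closedBall_zero_iff.2 hp2⟩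

theorem tr2_pi {d : ℕ} {B : ℝ} {ν : Measure (E d)} (hν : PB B ν) {f : E d × E d → ℝ}
    (hf : Continuous f) :
    ∫ x : Fin 2 → E d, f (x 0, x 1) ∂(Measure.pi fun _ => ν) = ∫ x, ∫ y, f (x, y) ∂ν ∂ν := by
  have := hν.prob
  rw [← integral_prod f (tr2_int2 hν hf),
    ← (measurePreserving_finTwoArrow ν).integral_comp
      (MeasurableEquiv.finTwoArrow).measurableEmbedding]
  rfl

theorem tr2 : X_TR2 := by
  intro d B ν hB hν
  have hprob := hν.prob
  set m : E d := ∫ z, z ∂ν with hm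
  have hid : Integrable (fun z : E d => z) ν := tr2_int hν continuous_id
  have hsub : ∫ z, (z - m) ∂ν = 0 := by
    rw [integral_sub hid (integrable_const _), integral_const]
    simp [← hm]
  have hsubi : Integrable (fun z : E d => z - m) ν := tr2_int hν (by fun_prop)
  constructor
  · rw [tr2_pi hν (f := fun p : E d × E d => ⟪p.1, p.2⟫_ℝ) (by fun_prop)]
    have h1 : ∀ x : E d, ∫ y, ⟪x, y⟫_ℝ ∂ν = ⟪m, x⟫_ℝ := fun x => by
      rw [integral_inner hid, real_inner_comm]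
    simp_rw [h1]
    rw [real_inner_self_eq_norm_sq]
  · have hpr : ∀ x : Fin 2 → E d, pr m x = ⟪x 0 - m, x 1 - m⟫_ℝ := by
      intro x
      simp [pr, Fin.sum_univ_two]
    simp_rw [hpr]
    rw [tr2_pi hν (f := fun p : E d × E d => ⟪p.1, p.2⟫_ℝ * ⟪p.1 - m, p.2 - m⟫_ℝ) (by fun_prop)]
    -- the vector
    set w : E d := ∫ y, ⟪m, y - m⟫_ℝ • (y - m) ∂ν with hw
    have hwi : Integrable (fun y : E d => ⟪m, y - m⟫_ℝ • (y - m)) ν := tr2_int hν (by fun_prop)
    have h1 : ∀ x : E d, ∫ y, ⟪x, y⟫_ℝ * ⟪x - m, y - m⟫_ℝ ∂ν =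
        ∫ y, ⟪x - m, y - m⟫_ℝ ^ 2 ∂ν + ⟪w, x - m⟫_ℝ := by
      intro x
      have e1 : ∀ y : E d, ⟪x, y⟫_ℝ * ⟪x - m, y - m⟫_ℝ = ⟪x - m, y - m⟫_ℝ ^ 2 +
          (⟪x - m, ⟪m, y - m⟫_ℝ • (y - m)⟫_ℝ + ⟪x, m⟫_ℝ * ⟪x - m, y - m⟫_ℝ) := by
        intro y
        have e2 : ⟪x, y⟫_ℝ = ⟪x - m, y - m⟫_ℝ + ⟪m, y - m⟫_ℝ + ⟪x, m⟫_ℝ := by
          simp only [inner_sub_left, inner_sub_right]
          ring
        rw [inner_smul_right, e2]
        ring
      have i1 : Integrable (fun y : E d => ⟪x - m, y - m⟫_ℝ ^ 2) ν := tr2_int hν (by fun_prop)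
      have i2 : Integrable (fun y : E d => ⟪x - m, ⟪m, y - m⟫_ℝ • (y - m)⟫_ℝ) ν :=
        tr2_int hν (by fun_prop)
      have i3 : Integrable (fun y : E d => ⟪x, m⟫_ℝ * ⟪x - m, y - m⟫_ℝ) ν :=
        tr2_int hν (by fun_prop)
      have i4 : Integrable (fun y : E d => ⟪x - m, ⟪m, y - m⟫_ℝ • (y - m)⟫_ℝ +
          ⟪x, m⟫_ℝ * ⟪x - m, y - m⟫_ℝ) ν := i2.add i3
      rw [integral_congr_ae (Eventually.of_forall e1), integral_add i1 i4, integral_add i2 i3,
        integral_const_mul, integral_inner hwi, integral_inner hsubi, hsub, ← hw, inner_zero_right,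
        mul_zero, add_zero, real_inner_comm]
    simp_rw [h1]
    have i5 : Integrable (fun x : E d => ∫ y, ⟪x - m, y - m⟫_ℝ ^ 2 ∂ν) ν :=
      (tr2_int2 hν (f := fun p : E d × E d => ⟪p.1 - m, p.2 - m⟫_ℝ ^ 2)
        (by fun_prop)).integral_prod_left
    have i6 : Integrable (fun x : E d => ⟪w, x - m⟫_ℝ) ν := tr2_int hν (by fun_prop)
    rw [integral_add i5 i6, integral_inner hsubi, hsub, inner_zero_right, add_zero]
    rfl

end Pool.Agent.T2h52.FC
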