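import Pool.Agent.T2h52.FC.Stm

/-! Four replicas. -/

set_option autoImplicit false

namespace Pool.Agent.T2h52.FC

open MeasureTheory Set Filter Topology ProbabilityTheory
open scoped ENNReal InnerProductSpace Pointwise
open Pool.Agent.R755.KF (PB)
open Pool.Agent.T2h52.SP
open Pool.Agent.T2h52.SQ
open Pool.Agent.T2h52.SO

namespace TR4x

theorem icont {F G : Type} [NormedAddCommGroup F] [NormedSpace ℝ F] [FiniteDimensional ℝ F]
    [MeasurableSpace F] [BorelSpace F] [NormedAddCommGroup G] [SecondCountableTopologyEither F G]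
    {μ : Measure F} [IsFiniteMeasure μ] {B : ℝ} (h : ∀ᵐ x ∂μ, ‖x‖ ≤ B) {f : F → G}
    (hf : Continuous f) : Integrable f μ := by
  have : ProperSpace F := FiniteDimensional.proper ℝ F
  obtain ⟨C, hC⟩ := (isCompact_closedBall (0 : F) B).exists_bound_of_continuousOn
    hf.continuousOn
  refine Integrable.of_bound hf.aestronglyMeasurable C ?_
  filter_upwards [h] with x hx
  exact hC x (by rwa [mem_closedBall_zero_iff])

theorem bprod {F G : Type} [NormedAddCommGroup F] [NormedAddCommGroup G] [MeasurableSpace F]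
    [MeasurableSpace G] {μ : Measure F} {ν : Measure G} [SFinite μ] [SFinite ν] {B : ℝ}
    (h : ∀ᵐ x ∂μ, ‖x‖ ≤ B) (h' : ∀ᵐ x ∂ν, ‖x‖ ≤ B) : ∀ᵐ z ∂(μ.prod ν), ‖z‖ ≤ B := by
  filter_upwards [Measure.quasiMeasurePreserving_fst.ae h,
    Measure.quasiMeasurePreserving_snd.ae h'] with z h1 h2
  exact norm_prod_le_iff.2 ⟨h1, h2⟩

variable {d : ℕ} {ν : Measure (E d)} [IsProbabilityMeasure ν] {B : ℝ}

theorem one_int : ∫ _x : E d, (1 : ℝ) ∂ν = 1 := by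
  rw [integral_const, probReal_univ, one_smul]

theorem pm (f g : E d → ℝ) :
    ∫ z : E d × E d, f z.1 * g z.2 ∂(ν.prod ν) = (∫ x, f x ∂ν) * ∫ x, g x ∂ν :=
  integral_prod_mul f g

theorem pm1 (f : E d → ℝ) : ∫ z : E d × E d, f z.1 ∂(ν.prod ν) = ∫ x, f x ∂ν := by
  have h := pm (ν := ν) f (fun _ => 1)
  rw [one_int, mul_one] at h
  rw [← h]
  simp only [mul_one]

theorem pm2 (f : E d → ℝ) : ∫ z : E d × E d, f z.2 ∂(ν.prod ν) = ∫ x, f x ∂ν := by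
  have h := pm (ν := ν) (fun _ => 1) f
  rw [one_int, one_mul] at h
  rw [← h]
  simp only [one_mul]

theorem P1 (h : ∀ᵐ x ∂ν, ‖x‖ ≤ B) {f : E d → ℝ} (hf : Continuous f) (h0 : ∫ x, f x ∂ν = 0) :
    ∫ z : E d × E d, (f z.1 - f z.2) ^ 2 ∂(ν.prod ν) = 2 * ∫ x, f x ^ 2 ∂ν := by
  have e : ∀ z : E d × E d, (f z.1 - f z.2) ^ 2 =
      f z.1 ^ 2 + f z.2 ^ 2 - 2 * (f z.1 * f z.2) := fun z => by ring
  have hc1 : Continuous fun z : E d × E d => f z.1 := hf.comp continuous_fst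
  have hc2 : Continuous fun z : E d × E d => f z.2 := hf.comp continuous_snd
  simp only [e]
  rw [integral_sub, integral_add, integral_const_mul, pm1 (fun x => f x ^ 2),
    pm2 (fun x => f x ^ 2), pm f f, h0]
  · ring
  · exact icont (bprod h h) (by fun_prop)
  · exact icont (bprod h h) (by fun_prop)
  · exact icont (bprod h h) (by fun_prop)
  · exact icont (bprod h h) (by fun_prop)

theorem P2 (h : ∀ᵐ x ∂ν, ‖x‖ ≤ B) {f g : E d → ℝ} (hf : Continuous f) (hg : Continuous g)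
    (h0 : ∫ x, f x ∂ν = 0) (g0 : ∫ x, g x ∂ν = 0) :
    ∫ z : E d × E d, (f z.1 - f z.2) ^ 2 * (g z.1 + g z.2) ∂(ν.prod ν) =
      2 * ∫ x, f x ^ 2 * g x ∂ν := by
  have e : ∀ z : E d × E d, (f z.1 - f z.2) ^ 2 * (g z.1 + g z.2) =
      ((f z.1 ^ 2 * g z.1) + (f z.2 ^ 2 * g z.2)) +
        (f z.1 ^ 2 * g z.2 + g z.1 * f z.2 ^ 2) -
        (2 * ((f z.1 * g z.1) * f z.2) + 2 * (f z.1 * (f z.2 * g z.2))) := fun z => by ring
  have hc1 : Continuous fun z : E d × E d => f z.1 := hf.comp continuous_fst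
  have hc2 : Continuous fun z : E d × E d => f z.2 := hf.comp continuous_snd
  have hc3 : Continuous fun z : E d × E d => g z.1 := hg.comp continuous_fst
  have hc4 : Continuous fun z : E d × E d => g z.2 := hg.comp continuous_snd
  simp only [e]
  rw [integral_sub, integral_add, integral_add, integral_add, integral_add,
    integral_const_mul, integral_const_mul,
    pm1 (fun x => f x ^ 2 * g x), pm2 (fun x => f x ^ 2 * g x),
    pm (fun x => f x ^ 2) g, pm g (fun x => f x ^ 2), pm (fun x => f x * g x) f,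
    pm f (fun x => f x * g x), h0, g0]
  · ring
  all_goals exact icont (bprod h h) (by fun_prop)

theorem ctr (h : ∀ᵐ x ∂ν, ‖x‖ ≤ B) (v : E d) : ∫ x, ⟪x - ∫ z, z ∂ν, v⟫_ℝ ∂ν = 0 := by
  have hi : Integrable (fun x : E d => x) ν := icont h continuous_id
  have h1 : ∀ x : E d, ⟪x - ∫ z, z ∂ν, v⟫_ℝ = ⟪v, x⟫_ℝ - ⟪v, ∫ z, z ∂ν⟫_ℝ := fun x => by
    rw [real_inner_comm, inner_sub_right]
  simp only [h1]
  rw [integral_sub (hi.const_inner v) (integrable_const _), integral_inner hi, integral_const,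
    probReal_univ, one_smul, sub_self]

theorem P3 (h : ∀ᵐ x ∂ν, ‖x‖ ≤ B) {f : E d → ℝ} (hf : Continuous f) :
    ∫ z : E d × E d, (f z.1 - f z.2) ^ 2 * ⟪z.1 - ∫ z, z ∂ν, z.2 - ∫ z, z ∂ν⟫_ℝ ∂(ν.prod ν) ≤
      0 := by
  obtain ⟨m, hm⟩ : ∃ m : E d, m = ∫ z, z ∂ν := ⟨_, rfl⟩
  have hct := ctr (ν := ν) h
  rw [← hm] at hct ⊢
  have hci : ∀ i : Fin d, Continuous fun x : E d => (x - m) i := fun i => by fun_prop
  have h0 : ∀ i : Fin d, ∫ x : E d, (x - m) i ∂ν = 0 := fun i => by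
    have h1 := hct (EuclideanSpace.single i 1)
    rw [← h1]
    refine integral_congr_ae (Eventually.of_forall fun x => ?_)
    show (x - m) i = ⟪x - m, EuclideanSpace.single i 1⟫_ℝ
    rw [EuclideanSpace.inner_single_right]
    simp
  have e : ∀ z : E d × E d, (f z.1 - f z.2) ^ 2 * ⟪z.1 - m, z.2 - m⟫_ℝ =
      ∑ i : Fin d, ((f z.1 ^ 2 * (z.1 - m) i) * (z.2 - m) i +
        (z.1 - m) i * (f z.2 ^ 2 * (z.2 - m) i) -
        2 * ((f z.1 * (z.1 - m) i) * (f z.2 * (z.2 - m) i))) := fun z => by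
    rw [PiLp.inner_apply, Finset.mul_sum]
    refine Finset.sum_congr rfl fun i _ => ?_
    have : ⟪(z.1 - m) i, (z.2 - m) i⟫_ℝ = (z.2 - m) i * (z.1 - m) i := rfl
    rw [this]
    ring
  have hc1 : Continuous fun z : E d × E d => f z.1 := hf.comp continuous_fst
  have hc2 : Continuous fun z : E d × E d => f z.2 := hf.comp continuous_snd
  have hc3 : ∀ i, Continuous fun z : E d × E d => (z.1 - m) i := fun i =>
    (hci i).comp continuous_fst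
  have hc4 : ∀ i, Continuous fun z : E d × E d => (z.2 - m) i := fun i =>
    (hci i).comp continuous_snd
  simp only [e]
  rw [integral_finsetSum]
  · refine Finset.sum_nonpos fun i _ => ?_
    rw [integral_sub, integral_add, integral_const_mul,
      pm (fun x => f x ^ 2 * (x - m) i) (fun x => (x - m) i),
      pm (fun x => (x - m) i) (fun x => f x ^ 2 * (x - m) i),
      pm (fun x => f x * (x - m) i) (fun x => f x * (x - m) i), h0]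
    · nlinarith [mul_self_nonneg (∫ x, f x * (x - m) i ∂ν)]
    all_goals exact icont (bprod h h) (by
      have := hc3 i
      have := hc4 i
      fun_prop)
  · intro i _
    exact icont (bprod h h) (by
      have := hc3 i
      have := hc4 i
      fun_prop)

/-- four points -/
theorem pi4 (F : (Fin 4 → E d) → ℝ) (hF : Continuous F) :
    ∫ x, F x ∂(Measure.pi fun _ : Fin 4 => ν) =
      ∫ z : (E d × E d) × (E d × E d), F ![z.1.1, z.1.2, z.2.1, z.2.2]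
        ∂((ν.prod ν).prod (ν.prod ν)) := by
  have hc : Continuous fun z : (E d × E d) × (E d × E d) =>
      (![z.1.1, z.1.2, z.2.1, z.2.2] : Fin 4 → E d) := by
    refine continuous_pi fun i => ?_
    fin_cases i <;> simp <;> fun_prop
  have h1 : (Measure.pi fun _ : Fin 4 => ν) = ((ν.prod ν).prod (ν.prod ν)).map
      (fun z : (E d × E d) × (E d × E d) => (![z.1.1, z.1.2, z.2.1, z.2.2] : Fin 4 → E d)) := by
    refine Measure.pi_eq fun s hs => ?_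
    rw [Measure.map_apply hc.measurable (MeasurableSet.univ_pi hs)]
    have h2 : (fun z : (E d × E d) × (E d × E d) =>
        (![z.1.1, z.1.2, z.2.1, z.2.2] : Fin 4 → E d)) ⁻¹' (Set.univ.pi s) =
        (s 0 ×ˢ s 1) ×ˢ (s 2 ×ˢ s 3) := by
      ext z
      simp only [Set.mem_preimage, Set.mem_pi, Set.mem_univ, true_implies, Set.mem_prod,
        Fin.forall_fin_succ]
      simp
      tauto
    rw [h2, Measure.prod_prod, Measure.prod_prod, Measure.prod_prod, Fin.prod_univ_four]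
    ring
  rw [h1, integral_map hc.aemeasurable hF.aestronglyMeasurable]

theorem S2_eq (h : ∀ᵐ x ∂ν, ‖x‖ ≤ B) :
    ∫ z : (E d × E d) × (E d × E d), ⟪z.1.1 - z.1.2, z.2.1 - z.2.2⟫_ℝ ^ 2
        ∂((ν.prod ν).prod (ν.prod ν)) = 4 * S2 ν := by
  unfold S2
  obtain ⟨m, hm⟩ : ∃ m : E d, m = ∫ z, z ∂ν := ⟨_, rfl⟩
  have hct := ctr (ν := ν) h
  rw [← hm] at hct ⊢
  have hct' : ∀ v : E d, ∫ x, ⟪v, x - m⟫_ℝ ∂ν = 0 := fun v => by
    rw [← hct v]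
    exact integral_congr_ae (Eventually.of_forall fun x => real_inner_comm _ _)
  rw [integral_prod_symm _ (icont (bprod (bprod h h) (bprod h h)) (by fun_prop))]
  have h1 : ∀ y : E d × E d, ∫ x : E d × E d, ⟪x.1 - x.2, y.1 - y.2⟫_ℝ ^ 2 ∂(ν.prod ν) =
      2 * ∫ x, ⟪x - m, y.1 - y.2⟫_ℝ ^ 2 ∂ν := by
    intro y
    have h2 := P1 h (f := fun x => ⟪x - m, y.1 - y.2⟫_ℝ) (by fun_prop) (hct _)
    rw [← h2]
    refine integral_congr_ae (Eventually.of_forall fun x => ?_)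
    show ⟪x.1 - x.2, y.1 - y.2⟫_ℝ ^ 2 = (⟪x.1 - m, y.1 - y.2⟫_ℝ - ⟪x.2 - m, y.1 - y.2⟫_ℝ) ^ 2
    rw [← inner_sub_left, sub_sub_sub_cancel_right]
  simp only [h1]
  rw [integral_const_mul, integral_integral_swap
    (icont (bprod (bprod h h) h) (by
      show Continuous fun p : (E d × E d) × E d => ⟪p.2 - m, p.1.1 - p.1.2⟫_ℝ ^ 2
      fun_prop))]
  have h3 : ∀ x : E d, ∫ y : E d × E d, ⟪x - m, y.1 - y.2⟫_ℝ ^ 2 ∂(ν.prod ν) =
      2 * ∫ x', ⟪x - m, x' - m⟫_ℝ ^ 2 ∂ν := by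
    intro x
    have h2 := P1 h (f := fun x' => ⟪x - m, x' - m⟫_ℝ) (by fun_prop) (hct' _)
    rw [← h2]
    refine integral_congr_ae (Eventually.of_forall fun y => ?_)
    show ⟪x - m, y.1 - y.2⟫_ℝ ^ 2 = (⟪x - m, y.1 - m⟫_ℝ - ⟪x - m, y.2 - m⟫_ℝ) ^ 2
    rw [← inner_sub_right, sub_sub_sub_cancel_right]
  simp only [h3]
  rw [integral_const_mul]
  ring

theorem S3_eq (h : ∀ᵐ x ∂ν, ‖x‖ ≤ B) {m : E d} (hm : m = ∫ z, z ∂ν) :
    ∫ z : (E d × E d) × (E d × E d), ⟪z.1.1 - z.1.2, z.2.1 - z.2.2⟫_ℝ ^ 2 *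
        ⟪(z.1.1 - m) + (z.1.2 - m), (z.2.1 - m) + (z.2.2 - m)⟫_ℝ
        ∂((ν.prod ν).prod (ν.prod ν)) = 4 * S3 ν := by
  unfold S3
  have hct := ctr (ν := ν) h
  rw [← hm] at hct ⊢
  have hct' : ∀ v : E d, ∫ x, ⟪v, x - m⟫_ℝ ∂ν = 0 := fun v => by
    rw [← hct v]
    exact integral_congr_ae (Eventually.of_forall fun x => real_inner_comm _ _)
  rw [integral_prod_symm _ (icont (bprod (bprod h h) (bprod h h)) (by fun_prop))]
  have h1 : ∀ y : E d × E d, ∫ x : E d × E d, ⟪x.1 - x.2, y.1 - y.2⟫_ℝ ^ 2 *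
      ⟪(x.1 - m) + (x.2 - m), (y.1 - m) + (y.2 - m)⟫_ℝ ∂(ν.prod ν) =
      2 * ∫ x, ⟪x - m, y.1 - y.2⟫_ℝ ^ 2 * ⟪x - m, (y.1 - m) + (y.2 - m)⟫_ℝ ∂ν := by
    intro y
    have h2 := P2 h (f := fun x => ⟪x - m, y.1 - y.2⟫_ℝ)
      (g := fun x => ⟪x - m, (y.1 - m) + (y.2 - m)⟫_ℝ) (by fun_prop) (by fun_prop) (hct _)
      (hct _)
    rw [← h2]
    refine integral_congr_ae (Eventually.of_forall fun x => ?_)
    show ⟪x.1 - x.2, y.1 - y.2⟫_ℝ ^ 2 * ⟪(x.1 - m) + (x.2 - m), (y.1 - m) + (y.2 - m)⟫_ℝ =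
      (⟪x.1 - m, y.1 - y.2⟫_ℝ - ⟪x.2 - m, y.1 - y.2⟫_ℝ) ^ 2 *
      (⟪x.1 - m, (y.1 - m) + (y.2 - m)⟫_ℝ + ⟪x.2 - m, (y.1 - m) + (y.2 - m)⟫_ℝ)
    rw [← inner_sub_left, sub_sub_sub_cancel_right, ← inner_add_left]
  simp only [h1]
  rw [integral_const_mul, integral_integral_swap
    (icont (bprod (bprod h h) h) (by
      show Continuous fun p : (E d × E d) × E d => ⟪p.2 - m, p.1.1 - p.1.2⟫_ℝ ^ 2 *
        ⟪p.2 - m, (p.1.1 - m) + (p.1.2 - m)⟫_ℝ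
      fun_prop))]
  have h3 : ∀ x : E d, ∫ y : E d × E d, ⟪x - m, y.1 - y.2⟫_ℝ ^ 2 *
      ⟪x - m, (y.1 - m) + (y.2 - m)⟫_ℝ ∂(ν.prod ν) = 2 * ∫ x', ⟪x - m, x' - m⟫_ℝ ^ 3 ∂ν := by
    intro x
    have h2 := P2 h (f := fun x' => ⟪x - m, x' - m⟫_ℝ) (g := fun x' => ⟪x - m, x' - m⟫_ℝ)
      (by fun_prop) (by fun_prop) (hct' _) (hct' _)
    have h4 : ∀ x' : E d, ⟪x - m, x' - m⟫_ℝ ^ 2 * ⟪x - m, x' - m⟫_ℝ = ⟪x - m, x' - m⟫_ℝ ^ 3 :=
      fun x' => by ring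
    simp only [h4] at h2
    rw [← h2]
    refine integral_congr_ae (Eventually.of_forall fun y => ?_)
    show ⟪x - m, y.1 - y.2⟫_ℝ ^ 2 * ⟪x - m, (y.1 - m) + (y.2 - m)⟫_ℝ =
      (⟪x - m, y.1 - m⟫_ℝ - ⟪x - m, y.2 - m⟫_ℝ) ^ 2 *
      (⟪x - m, y.1 - m⟫_ℝ + ⟪x - m, y.2 - m⟫_ℝ)
    rw [← inner_sub_right, sub_sub_sub_cancel_right, ← inner_add_right]
  simp only [h3]
  rw [integral_const_mul]
  ring

theorem A_le (h : ∀ᵐ x ∂ν, ‖x‖ ≤ B) {m : E d} (hm : m = ∫ z, z ∂ν) :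
    ∫ z : (E d × E d) × (E d × E d), ⟪z.1.1 - z.1.2, z.2.1 - z.2.2⟫_ℝ ^ 2 *
        ⟪z.1.1 - m, z.1.2 - m⟫_ℝ ∂((ν.prod ν).prod (ν.prod ν)) ≤ 0 := by
  rw [integral_prod_symm _ (icont (bprod (bprod h h) (bprod h h)) (by fun_prop))]
  refine integral_nonpos fun y => ?_
  have h2 := P3 h (f := fun x => ⟪x, y.1 - y.2⟫_ℝ) (by fun_prop)
  rw [← hm] at h2
  refine le_trans (le_of_eq ?_) h2
  refine integral_congr_ae (Eventually.of_forall fun x => ?_)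
  show ⟪x.1 - x.2, y.1 - y.2⟫_ℝ ^ 2 * ⟪x.1 - m, x.2 - m⟫_ℝ =
    (⟪x.1, y.1 - y.2⟫_ℝ - ⟪x.2, y.1 - y.2⟫_ℝ) ^ 2 * ⟪x.1 - m, x.2 - m⟫_ℝ
  rw [← inner_sub_left]

theorem B_le (h : ∀ᵐ x ∂ν, ‖x‖ ≤ B) {m : E d} (hm : m = ∫ z, z ∂ν) :
    ∫ z : (E d × E d) × (E d × E d), ⟪z.1.1 - z.1.2, z.2.1 - z.2.2⟫_ℝ ^ 2 *
        ⟪z.2.1 - m, z.2.2 - m⟫_ℝ ∂((ν.prod ν).prod (ν.prod ν)) ≤ 0 := by
  rw [integral_prod _ (icont (bprod (bprod h h) (bprod h h)) (by fun_prop))]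
  refine integral_nonpos fun y => ?_
  have h2 := P3 h (f := fun x => ⟪y.1 - y.2, x⟫_ℝ) (by fun_prop)
  rw [← hm] at h2
  refine le_trans (le_of_eq ?_) h2
  refine integral_congr_ae (Eventually.of_forall fun x => ?_)
  show ⟪y.1 - y.2, x.1 - x.2⟫_ℝ ^ 2 * ⟪x.1 - m, x.2 - m⟫_ℝ =
    (⟪y.1 - y.2, x.1⟫_ℝ - ⟪y.1 - y.2, x.2⟫_ℝ) ^ 2 * ⟪x.1 - m, x.2 - m⟫_ℝ
  rw [← inner_sub_right]

theorem pr4 (m : E d) (x : Fin 4 → E d) : pr m x = ⟪x 0 - m, x 1 - m⟫_ℝ + ⟪x 2 - m, x 3 - m⟫_ℝ +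
    ⟪(x 0 - m) + (x 1 - m), (x 2 - m) + (x 3 - m)⟫_ℝ := by
  unfold pr
  rw [inner_add_left, inner_add_right, inner_add_right]
  simp only [Fin.sum_univ_four]
  simp
  ring

end TR4x

open TR4x in
theorem tr4 : X_TR4 := by
  intro d B ν hB hν
  have := hν.prob
  have h := hν.bdd
  obtain ⟨m, hm⟩ : ∃ m : E d, m = ∫ z, z ∂ν := ⟨_, rfl⟩
  rw [← hm]
  constructor
  · rw [pi4 _ (by fun_prop)]
    have h1 := S2_eq (ν := ν) h
    show ∫ z : (E d × E d) × (E d × E d), 1 / 4 * ⟪z.1.1 - z.1.2, z.2.1 - z.2.2⟫_ℝ ^ 2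
        ∂((ν.prod ν).prod (ν.prod ν)) = S2 ν
    rw [integral_const_mul, h1]
    ring
  · have e : ∀ x : Fin 4 → E d, 1 / 4 * ⟪x 0 - x 1, x 2 - x 3⟫_ℝ ^ 2 * pr m x =
        1 / 4 * (⟪x 0 - x 1, x 2 - x 3⟫_ℝ ^ 2 * ⟪x 0 - m, x 1 - m⟫_ℝ +
          ⟪x 0 - x 1, x 2 - x 3⟫_ℝ ^ 2 * ⟪x 2 - m, x 3 - m⟫_ℝ +
          ⟪x 0 - x 1, x 2 - x 3⟫_ℝ ^ 2 *
            ⟪(x 0 - m) + (x 1 - m), (x 2 - m) + (x 3 - m)⟫_ℝ) := fun x => by
      rw [pr4]
      ring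
    simp only [e]
    rw [pi4 _ (by fun_prop)]
    have h1 := S3_eq (ν := ν) h hm
    have h2 := A_le (ν := ν) h hm
    have h3 := B_le (ν := ν) h hm
    show ∫ z : (E d × E d) × (E d × E d), 1 / 4 *
        (⟪z.1.1 - z.1.2, z.2.1 - z.2.2⟫_ℝ ^ 2 * ⟪z.1.1 - m, z.1.2 - m⟫_ℝ +
          ⟪z.1.1 - z.1.2, z.2.1 - z.2.2⟫_ℝ ^ 2 * ⟪z.2.1 - m, z.2.2 - m⟫_ℝ +
          ⟪z.1.1 - z.1.2, z.2.1 - z.2.2⟫_ℝ ^ 2 *
            ⟪(z.1.1 - m) + (z.1.2 - m), (z.2.1 - m) + (z.2.2 - m)⟫_ℝ)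
        ∂((ν.prod ν).prod (ν.prod ν)) ≤ S3 ν
    rw [integral_const_mul, integral_add, integral_add, h1]
    · linarith
    all_goals exact icont (bprod (bprod h h) (bprod h h)) (by fun_prop)

end Pool.Agent.T2h52.FC
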