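import Pool.Agent.T2h52.FC.Stm

/-! TRU: the truncated body has almost full measure -/

set_option autoImplicit false

namespace Pool.Agent.T2h52.FC

open MeasureTheory Set Filter Topology ProbabilityTheory
open scoped ENNReal InnerProductSpace Pointwise
open Pool.Agent.R755.KF (PB)
open Pool.Agent.N555.RZ (mP Spr)
open Pool.Agent.T2h52.SP
open Pool.Agent.T2h52.SQ
open Pool.Agent.T2h52.SO

namespace TRUaux

lemma vol_ne {d : ℕ} {P : Set (E d)} {a : ℝ} (hP : Bn P a) : volume P ≠ 0 :=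
  (Measure.measure_pos_of_mem_nhds volume (mem_interior_iff_mem_nhds.1 hP.int)).ne'

lemma mP_int {d : ℕ} {P : Set (E d)} {a : ℝ} (hP : Bn P a) {f : E d → ℝ} (hf : Continuous f) :
    Integrable f (mP P) := by
  unfold mP
  exact (hf.continuousOn.integrableOn_compact hP.comp).smul_measure (ENNReal.inv_ne_top.2 (vol_ne hP))

/-- the norm of a partial sum -/
lemma norm_le {d : ℕ} (b : OrthonormalBasis (Fin d) ℝ (E d)) (S : Finset (Fin d)) (x : E d)
    {t : ℝ} (ht : 0 ≤ t) (h : ∀ i ∈ S, |⟪x, b i⟫_ℝ| ≤ t) :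
    ‖∑ i ∈ S, ⟪b i, x⟫_ℝ • b i‖ ≤ t * Real.sqrt S.card := by
  have h1 : ‖∑ i ∈ S, ⟪b i, x⟫_ℝ • b i‖ ^ 2 = ∑ i ∈ S, ⟪b i, x⟫_ℝ ^ 2 := by
    rw [← real_inner_self_eq_norm_sq, b.orthonormal.inner_sum]
    refine Finset.sum_congr rfl fun i _ => ?_
    rw [sq]
    rfl
  have h2 : ∑ i ∈ S, ⟪b i, x⟫_ℝ ^ 2 ≤ ∑ _i ∈ S, t ^ 2 := by
    refine Finset.sum_le_sum fun i hi => ?_
    rw [real_inner_comm, ← sq_abs]
    exact pow_le_pow_left₀ (abs_nonneg _) (h i hi) 2
  rw [Finset.sum_const, nsmul_eq_mul] at h2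
  have h3 : ‖∑ i ∈ S, ⟪b i, x⟫_ℝ • b i‖ ^ 2 ≤ (t * Real.sqrt S.card) ^ 2 := by
    rw [h1, mul_pow, Real.sq_sqrt (Nat.cast_nonneg _)]
    linarith
  exact (pow_le_pow_iff_left₀ (norm_nonneg _) (by positivity) two_ne_zero).1 h3

end TRUaux

open TRUaux

theorem tru (hE : X_EXP) : X_TRU := by
  intro d k P a p hd hP hI hp hk
  obtain ⟨b, S, hS, hpx⟩ := hp
  have hprob : IsProbabilityMeasure (mP P) :=
    Pool.Agent.N555.RZ.mP_prob (vol_ne hP) hP.comp.measure_lt_top.ne
  obtain ⟨L, hL⟩ : ∃ L : ℝ, L = Real.log (d + 1) := ⟨_, rfl⟩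
  have hd0 : (0 : ℝ) < (d : ℝ) + 1 := by positivity
  have hL0 : 0 ≤ L := by
    rw [hL]
    exact Real.log_nonneg (by linarith [(Nat.cast_nonneg d : (0 : ℝ) ≤ d)])
  refine ⟨?_, ?_⟩
  · have e : Bt P p k = P ∩ ({x | ‖x‖ ≤ 400 * Real.log (d + 1) * Real.sqrt d} ∩
        {x | ‖p x‖ ≤ 400 * Real.log (d + 1) * Real.sqrt k}) := rfl
    rw [e]
    exact (hP.comp.isClosed.inter ((isClosed_le continuous_norm continuous_const).inter
      (isClosed_le p.continuous.norm continuous_const))).measurableSet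
  · -- the exceptional sets
    have hsub : (Bt P p k)ᶜ ⊆ Pᶜ ∪ ⋃ i : Fin d, {x : E d | Real.exp (20 * L) ≤
        Real.exp (|⟪x, b i⟫_ℝ| / 20)} := by
      intro x hx
      by_contra hcon
      rw [mem_union, not_or, mem_iUnion, not_exists] at hcon
      obtain ⟨h1, h2⟩ := hcon
      rw [notMem_compl_iff] at h1
      apply hx
      have h3 : ∀ i, |⟪x, b i⟫_ℝ| ≤ 400 * L := by
        intro i
        have h4 : ¬ Real.exp (20 * L) ≤ Real.exp (|⟪x, b i⟫_ℝ| / 20) := h2 i
        rw [Real.exp_le_exp] at h4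
        push Not at h4
        linarith
      have ht : 0 ≤ 400 * L := by positivity
      refine ⟨h1, ?_, ?_⟩
      · have h4 := norm_le b Finset.univ x ht fun i _ => h3 i
        rw [b.sum_repr' x, Finset.card_univ, Fintype.card_fin, hL] at h4
        exact h4
      · have h4 := norm_le b S x ht fun i _ => h3 i
        rw [← hpx x, hS, hL] at h4
        exact h4
    have hPc : (mP P) Pᶜ = 0 := by
      have h1 := Pool.Agent.N555.RZ.mP_ae (K := P) hP.comp.isClosed.measurableSet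
      exact h1
    have hi : ∀ i : Fin d, (mP P) {x : E d | Real.exp (20 * L) ≤
        Real.exp (|⟪x, b i⟫_ℝ| / 20)} ≤ ENNReal.ofReal (4 / ((d : ℝ) + 1) ^ 20) := by
      intro i
      have h1 := mul_meas_ge_le_integral_of_nonneg (μ := mP P)
        (f := fun x : E d => Real.exp (|⟪x, b i⟫_ℝ| / 20))
        (Eventually.of_forall fun x => (Real.exp_pos _).le) (mP_int hP (by fun_prop))
        (Real.exp (20 * L))
      have h2 := hE d P a hP hI (b i) (by rw [b.norm_eq_one])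
      have h3 : Real.exp (20 * L) = ((d : ℝ) + 1) ^ 20 := by
        have e : (20 : ℝ) * L = ((20 : ℕ) : ℝ) * L := by norm_num
        rw [e, Real.exp_nat_mul, hL, Real.exp_log hd0]
      rw [h3] at h1 ⊢
      have h4 : (mP P).real {x : E d | ((d : ℝ) + 1) ^ 20 ≤ Real.exp (|⟪x, b i⟫_ℝ| / 20)} ≤
          4 / ((d : ℝ) + 1) ^ 20 := by
        rw [le_div_iff₀ (by positivity), mul_comm]
        exact h1.trans h2
      rw [← ENNReal.ofReal_toReal (measure_ne_top (mP P) _)]
      exact ENNReal.ofReal_le_ofReal h4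
    have htot : (mP P) (Bt P p k)ᶜ ≤ ENNReal.ofReal (d * (4 / ((d : ℝ) + 1) ^ 20)) := by
      refine (measure_mono hsub).trans ((measure_union_le _ _).trans ?_)
      rw [hPc, zero_add]
      refine (measure_iUnion_le _).trans ?_
      rw [tsum_fintype]
      refine (Finset.sum_le_sum fun i _ => hi i).trans ?_
      rw [Finset.sum_const, Finset.card_univ, Fintype.card_fin, nsmul_eq_mul,
        ENNReal.ofReal_mul (Nat.cast_nonneg d), ENNReal.ofReal_natCast]
    refine (ENNReal.toReal_le_of_le_ofReal (by positivity) htot).trans ?_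
    rw [le_div_iff₀ (by positivity)]
    have hd1 : (10 : ℝ) ^ 50 ≤ d := by exact_mod_cast hd
    have hd2 : (d : ℝ) * (4 / ((d : ℝ) + 1) ^ 20) * ((d : ℝ) + 1) ^ 18 =
        4 * d / ((d : ℝ) + 1) ^ 2 := by
      field_simp
    rw [hd2, div_le_one (by positivity)]
    nlinarith

end Pool.Agent.T2h52.FC
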