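import Pool.Agent.T2h52.FC.Fin

/-!
# Norms of nontrivial type
-/

set_option autoImplicit false

namespace Pool.Agent.T2h52.FC

open MeasureTheory Set Filter Topology
open scoped ENNReal InnerProductSpace Pointwise
open Pool.Agent.TH591.Lie (polarAt)
open Pool.Agent.T2h52.SP
open Pool.Agent.T2h52.SQ
open Pool.Agent.T2h52.SO

/-- symmetric bodies the norm of which has type `p > 1` -/
theorem typ1 (hM : X_MBT) {d : ℕ} {K : Set (E d)} {o : E d} {p T : ℝ} (hd : 2 ≤ d)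
    (hK : Convex ℝ K) (hKc : IsCompact K) (ho : o ∈ interior K)
    (hsym : ∀ x ∈ K, o + (o - x) ∈ K) (hp : 1 < p) (hp2 : p ≤ 2) (hT : 1 ≤ T)
    (hty : ∀ (m : ℕ) (x : Fin m → E d),
      (∑ δ : Fin m → Bool, gauge ((fun y => y - o) '' K) (∑ i, (if δ i then (1 : ℝ) else -1) • x i)) /
        2 ^ m ≤ T * (∑ i, gauge ((fun y => y - o) '' K) (x i) ^ p) ^ (1 / p))
    (hnum : (10 ^ 14 * T * Real.log (d + 1) ^ 3) ^ (2000 * (p / (p - 1))) ≤ (d : ℝ)) :
    Cv (polarAt K o) := by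
  have hL : 1 ≤ Real.log ((d : ℝ) + 1) := log_one hd
  set L := Real.log ((d : ℝ) + 1) with hLd
  have hL0 : 0 < L := by linarith
  have hT0 : 0 < T := by linarith
  have hp0 : 0 < p := by linarith
  have hp1 : 0 < p - 1 := by linarith
  obtain ⟨r, hr⟩ : ∃ r : ℝ, r = p / (p - 1) := ⟨_, rfl⟩
  rw [← hr] at hnum
  have hr2 : 2 ≤ r := by
    rw [hr, le_div_iff₀ hp1]
    linarith
  obtain ⟨X, hX⟩ : ∃ X : ℝ, X = 10 ^ 14 * T * L ^ 3 := ⟨_, rfl⟩
  rw [← hX] at hnum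
  obtain ⟨Y, hY⟩ : ∃ Y : ℝ, Y = 2 * 10 ^ 11 * T * L ^ 2 := ⟨_, rfl⟩
  have hL2 : 1 ≤ L ^ 2 := one_le_pow₀ hL
  have hL3 : 1 ≤ L ^ 3 := one_le_pow₀ hL
  have hTL2 : 1 ≤ T * L ^ 2 := one_le_mul_of_one_le_of_one_le hT hL2
  have hTL3 : 1 ≤ T * L ^ 3 := one_le_mul_of_one_le_of_one_le hT hL3
  have hY1 : 1 ≤ Y := by rw [hY]; nlinarith
  have hY0 : 0 < Y := by linarith
  have hX14 : 10 ^ 14 ≤ X := by rw [hX]; nlinarith
  have hX1 : 1 ≤ X := le_trans (by norm_num) hX14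
  have hX0 : 0 < X := by linarith
  have hYX : Y ≤ X := by
    rw [hX, hY]
    have : T * L ^ 2 ≤ T * L ^ 3 :=
      mul_le_mul_of_nonneg_left (pow_le_pow_right₀ hL (by norm_num)) hT0.le
    nlinarith
  have hYr : 1 ≤ Y ^ r := Real.one_le_rpow hY1 (by linarith)
  obtain ⟨n, hn⟩ : ∃ n : ℕ, n = ⌈Y ^ r⌉₊ := ⟨_, rfl⟩
  have hnY : Y ^ r ≤ n := by
    rw [hn]
    exact Nat.le_ceil _
  have hnY2 : (n : ℝ) ≤ 2 * Y ^ r := by
    have h1 : (n : ℝ) < Y ^ r + 1 := by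
      rw [hn]
      exact Nat.ceil_lt_add_one (by positivity)
    linarith
  have hn1 : 1 ≤ n := by
    have h1 : (1 : ℝ) ≤ n := hYr.trans hnY
    exact_mod_cast h1
  have hn0 : (0 : ℝ) < n := by exact_mod_cast hn1
  have hnX : (10 ^ 31 * (n : ℝ) * 1 ^ 3 * L ^ 3) ^ 512 ≤ (d : ℝ) := by
    have h1 : 10 ^ 31 * (n : ℝ) * 1 ^ 3 * L ^ 3 ≤ X ^ (r + 3) := by
      have h2 : X ^ (r + 3) = X ^ r * X ^ 3 := by
        rw [Real.rpow_add hX0]
        congr 1
        exact_mod_cast Real.rpow_natCast X 3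
      rw [h2]
      have h3 : Y ^ r ≤ X ^ r := Real.rpow_le_rpow hY0.le hYX (by linarith)
      have h4 : 2 * 10 ^ 31 * L ^ 3 ≤ X ^ 3 := by
        have h5 : (10 ^ 14 : ℝ) ^ 2 ≤ X ^ 2 := pow_le_pow_left₀ (by norm_num) hX14 2
        have h6 : 10 ^ 14 * L ^ 3 ≤ X := by
          rw [hX]
          have : L ^ 3 ≤ T * L ^ 3 := le_mul_of_one_le_left (by positivity) hT
          nlinarith
        have h7 : (10 ^ 14 : ℝ) ^ 2 * (10 ^ 14 * L ^ 3) ≤ X ^ 2 * X :=
          mul_le_mul h5 h6 (by positivity) (by positivity)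
        have h8 : X ^ 2 * X = X ^ 3 := by ring
        rw [h8] at h7
        refine le_trans ?_ h7
        nlinarith
      calc 10 ^ 31 * (n : ℝ) * 1 ^ 3 * L ^ 3 ≤ 10 ^ 31 * (2 * Y ^ r) * 1 ^ 3 * L ^ 3 := by gcongr
        _ = Y ^ r * (2 * 10 ^ 31 * L ^ 3) := by ring
        _ ≤ X ^ r * X ^ 3 := mul_le_mul h3 h4 (by positivity) (by positivity)
    calc (10 ^ 31 * (n : ℝ) * 1 ^ 3 * L ^ 3) ^ 512 ≤ (X ^ (r + 3)) ^ 512 :=
          pow_le_pow_left₀ (by positivity) h1 512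
      _ = X ^ ((r + 3) * 512) := by
          rw [← Real.rpow_natCast (X ^ (r + 3)) 512, ← Real.rpow_mul hX0.le]
          norm_num
      _ ≤ X ^ (2000 * r) := Real.rpow_le_rpow_of_exponent_le hX1 (by linarith)
      _ ≤ d := hnum
  rcases Dich.cross hM (a := 1) hd hK hKc ho le_rfl (fun x hx => by
    have e : o - (1 : ℝ)⁻¹ • (x - o) = o + (o - x) := by
      rw [inv_one, one_smul]; abel
    rw [e]
    exact hsym x hx) hn1 hnX with h | ⟨x, hx, hc⟩
  · exact h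
  exfalso
  set S : Set (E d) := (fun y => y - o) '' K with hS
  have hScv : Convex ℝ S := by
    have : S = (fun y => -o + y) '' K := by
      rw [hS]
      congr 1
      funext y
      abel
    rw [this]
    exact hK.vadd (-o)
  have hS0 : S ∈ 𝓝 (0 : E d) := by
    have h1 : K ∈ 𝓝 o := mem_interior_iff_mem_nhds.mp ho
    have h2 : (fun y : E d => y + o) ⁻¹' K ∈ 𝓝 (0 : E d) := by
      refine (Continuous.continuousAt (by fun_prop)).preimage_mem_nhds ?_
      rw [zero_add]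
      exact h1
    refine mem_of_superset h2 fun y hy => ⟨y + o, hy, ?_⟩
    show y + o - o = y
    abel
  have hSa : Absorbent ℝ S := absorbent_nhds_zero hS0
  have hg1 : ∀ i, gauge S (x i - o) ≤ 1 := fun i => gauge_le_one_of_mem ⟨x i, hx i, rfl⟩
  have hlow : ∀ δ : Fin n → Bool, n / (10 ^ 11 * L ^ 2) ≤
      gauge S (∑ i, (if δ i then (1 : ℝ) else -1) • (x i - o)) := by
    intro δ
    refine le_of_forall_pos_lt_add fun ε hε => ?_
    set u := ∑ i, (if δ i then (1 : ℝ) else -1) • (x i - o) with hu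
    obtain ⟨t, ht0, ht1, ht2⟩ := exists_lt_of_gauge_lt hSa (lt_add_of_pos_right (gauge S u) hε)
    obtain ⟨y, ⟨z, hz, rfl⟩, hy⟩ := ht2
    simp only at hy
    have h3 : o + ∑ i, ((if δ i then (1 : ℝ) else -1) / t) • (x i - o) ∈ K := by
      have e : ∑ i, ((if δ i then (1 : ℝ) else -1) / t) • (x i - o) = z - o := by
        have e1 : ∑ i, ((if δ i then (1 : ℝ) else -1) / t) • (x i - o) = t⁻¹ • u := by
          rw [hu, Finset.smul_sum]
          refine Finset.sum_congr rfl fun i _ => ?_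
          rw [smul_smul, div_eq_inv_mul]
        rw [e1, ← hy, smul_smul, inv_mul_cancel₀ ht0.ne', one_smul]
      rw [e, add_sub_cancel]
      exact hz
    have h4 := hc _ h3
    have h5 : ∑ i, |(if δ i then (1 : ℝ) else -1) / t| = n / t := by
      have : ∀ i : Fin n, |(if δ i then (1 : ℝ) else -1) / t| = 1 / t := fun i => by
        rw [abs_div, abs_of_pos ht0]
        split_ifs <;> simp
      simp only [this]
      simp [div_eq_mul_inv]
    rw [h5, one_pow, mul_one, div_le_iff₀ ht0] at h4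
    have h6 : n / (10 ^ 11 * L ^ 2) ≤ t := by
      rw [div_le_iff₀ (by positivity)]
      linarith
    linarith
  have hT1 := hty n fun i => x i - o
  have hT2 : n / (10 ^ 11 * L ^ 2) ≤ (∑ δ : Fin n → Bool,
      gauge S (∑ i, (if δ i then (1 : ℝ) else -1) • (x i - o))) / 2 ^ n := by
    rw [le_div_iff₀ (by positivity)]
    have h1 := Finset.sum_le_sum fun (δ : Fin n → Bool) (_ : δ ∈ Finset.univ) => hlow δ
    rw [Finset.sum_const, Finset.card_univ, Fintype.card_fun, Fintype.card_bool, Fintype.card_fin,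
      nsmul_eq_mul] at h1
    push_cast at h1
    linarith
  have hT3 : (∑ i, gauge S (x i - o) ^ p) ^ (1 / p) ≤ (n : ℝ) ^ (1 / p) := by
    refine Real.rpow_le_rpow (Finset.sum_nonneg fun i _ => Real.rpow_nonneg (gauge_nonneg _) _) ?_
      (by positivity)
    calc ∑ i, gauge S (x i - o) ^ p ≤ ∑ _i : Fin n, (1 : ℝ) := Finset.sum_le_sum fun i _ =>
          Real.rpow_le_one (gauge_nonneg _) (hg1 i) hp0.le
      _ = n := by simp
  have hT4 : (n : ℝ) / (10 ^ 11 * L ^ 2) ≤ T * (n : ℝ) ^ (1 / p) :=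
    hT2.trans (hT1.trans (mul_le_mul_of_nonneg_left hT3 hT0.le))
  have e1 : (n : ℝ) = (n : ℝ) ^ (1 / p) * (n : ℝ) ^ (1 / r) := by
    rw [← Real.rpow_add hn0]
    have : 1 / p + 1 / r = 1 := by
      rw [hr]
      field_simp
      ring
    rw [this, Real.rpow_one]
  have e2 : Y ≤ (n : ℝ) ^ (1 / r) := by
    have h1 := Real.rpow_le_rpow (by positivity) hnY (by positivity : 0 ≤ 1 / r)
    rwa [← Real.rpow_mul hY0.le, mul_one_div_cancel (by linarith), Real.rpow_one] at h1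
  rw [div_le_iff₀ (by positivity)] at hT4
  have hnp : 0 < (n : ℝ) ^ (1 / p) := Real.rpow_pos_of_pos hn0 _
  have h1 : (n : ℝ) ^ (1 / p) * Y ≤ T * (n : ℝ) ^ (1 / p) * (10 ^ 11 * L ^ 2) := by
    refine le_trans ?_ hT4
    conv_rhs => rw [e1]
    exact mul_le_mul_of_nonneg_left e2 hnp.le
  have h2 : (n : ℝ) ^ (1 / p) * Y = 2 * (T * (n : ℝ) ^ (1 / p) * (10 ^ 11 * L ^ 2)) := by
    rw [hY]; ring
  have h3 : 0 < T * (n : ℝ) ^ (1 / p) * (10 ^ 11 * L ^ 2) := by positivity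
  linarith

end Pool.Agent.T2h52.FC
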