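import Mathlib
import Pool.Agent.T2h52.FC.Stm

/-!
# Project FC, task VLM
-/

set_option autoImplicit false

namespace Pool.Agent.T2h52.FC

open MeasureTheory Set Filter Topology ProbabilityTheory
open scoped ENNReal InnerProductSpace Pointwise
open Pool.Agent.R755.KF (PB)
open Pool.Agent.N555.RZ (mP Spr)
open Pool.Agent.T2h52.SP
open Pool.Agent.T2h52.SQ
open Pool.Agent.T2h52.SO

theorem vlm_bound {d : ℕ} {B : ℝ} {ν : Measure (E d)} (hν : PB B ν) {G : Type*}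
    [NormedAddCommGroup G] {f : E d → G} (hf : Continuous f) : ∃ C, 0 ≤ C ∧ ∀ᵐ x ∂ν, ‖f x‖ ≤ C := by
  obtain ⟨C, hC⟩ := (isCompact_closedBall (0 : E d) B).exists_bound_of_continuousOn
    hf.continuousOn
  refine ⟨max C 0, le_max_right _ _, ?_⟩
  filter_upwards [hν.bdd] with x hx
  exact (hC x (mem_closedBall_zero_iff.2 hx)).trans (le_max_left _ _)

theorem vlm_int {d : ℕ} {B : ℝ} {ν : Measure (E d)} (hν : PB B ν) {f : E d → ℝ}
    (hf : Continuous f) : Integrable f ν := by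
  have := hν.prob
  obtain ⟨C, -, hC⟩ := vlm_bound hν hf
  exact Integrable.of_bound hf.aestronglyMeasurable C hC

theorem vlm_comb {d : ℕ} {ν : Measure (E d)} [IsProbabilityMeasure ν] {f g : E d → ℝ}
    (hf : Integrable f ν) (hg : Integrable g ν) (a b c : ℝ) :
    ∫ x, (a + b * f x + c * g x) ∂ν = a + b * ∫ x, f x ∂ν + c * ∫ x, g x ∂ν := by
  have h1 : Integrable (fun x => a + b * f x) ν := (integrable_const a).add (hf.const_mul b)
  rw [integral_add h1 (hg.const_mul c), integral_add (integrable_const a) (hf.const_mul b),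
    integral_const_mul, integral_const_mul, integral_const]
  simp

theorem vlm_comb' {d : ℕ} {ν : Measure (E d)} [IsProbabilityMeasure ν] {f g : E d → ℝ}
    (hf : Integrable f ν) (hg : Integrable g ν) (a b c : ℝ) :
    Integrable (fun x => a + b * f x + c * g x) ν :=
  ((integrable_const a).add (hf.const_mul b)).add (hg.const_mul c)

theorem vlm_exp_three {x : ℝ} (hx : |x| ≤ 1) : 1 + x + x ^ 2 / 2 - |x| ^ 3 ≤ Real.exp x := by
  have h := Real.exp_bound hx (n := 3) (by norm_num)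
  simp only [Finset.sum_range_succ, Finset.sum_range_zero] at h
  norm_num [Nat.factorial] at h
  have h1 := (abs_le.1 h).1
  have h2 : 0 ≤ |x| ^ 3 := by positivity
  nlinarith

theorem vlm_exp_two {x : ℝ} (hx : |x| ≤ 1) : Real.exp x ≤ 1 + x + x ^ 2 := by
  have h := Real.abs_exp_sub_one_sub_id_le hx
  have := (abs_le.1 h).2
  linarith

theorem vlm_num1 (v M δ : ℝ) (hδ : 0 < δ) (hM1 : 1 ≤ M) (hδM : δ * M ≤ 1) (hv0 : 0 ≤ v) :
    0 ≤ 1 + (δ ^ 2 * v / 2 - M ^ 3 * δ ^ 3) := by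
  have h1 : (δ * M) ^ 3 ≤ 1 := pow_le_one₀ (by positivity) hδM
  have h2 : 0 ≤ δ ^ 2 * v / 2 := by positivity
  have h3 : M ^ 3 * δ ^ 3 = (δ * M) ^ 3 := by ring
  rw [h3]
  linarith

theorem vlm_num (v G M δ : ℝ) (hM1 : 1 ≤ M) (hδ : 0 < δ) (hδM : δ * M ≤ 1) (_hv0 : 0 ≤ v)
    (hG1 : |G| ≤ M) (h : (1 + (δ ^ 2 * v / 2 - M ^ 3 * δ ^ 3)) ^ 2 ≤
      (1 + (δ ^ 2 * G + M ^ 2 * δ ^ 4)) ^ 2) : v - 2 * G ≤ 12 * M ^ 3 * δ := by
  have hM0 : 0 < M := by linarith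
  have hδ1 : δ ≤ 1 := by
    calc δ = δ * 1 := (mul_one _).symm
      _ ≤ δ * M := mul_le_mul_of_nonneg_left hM1 hδ.le
      _ ≤ 1 := hδM
  set u : ℝ := δ ^ 2 * v / 2 - M ^ 3 * δ ^ 3 with hu
  set w : ℝ := δ ^ 2 * G + M ^ 2 * δ ^ 4 with hw
  have h4 : |w| ≤ 2 * M ^ 2 * δ ^ 2 := by
    have h5 : |δ ^ 2 * G| ≤ δ ^ 2 * M := by
      rw [abs_mul, abs_of_nonneg (by positivity : (0 : ℝ) ≤ δ ^ 2)]
      exact mul_le_mul_of_nonneg_left hG1 (by positivity)
    have h6 : |M ^ 2 * δ ^ 4| = M ^ 2 * δ ^ 4 := abs_of_nonneg (by positivity)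
    have h7 := abs_add_le (δ ^ 2 * G) (M ^ 2 * δ ^ 4)
    have h8 : M ^ 2 * δ ^ 4 ≤ M ^ 2 * δ ^ 2 :=
      mul_le_mul_of_nonneg_left (pow_le_pow_of_le_one hδ.le hδ1 (by norm_num)) (by positivity)
    have h9 : δ ^ 2 * M ≤ M ^ 2 * δ ^ 2 := by
      have : M ≤ M ^ 2 := by rw [pow_two]; exact le_mul_of_one_le_left hM0.le hM1
      calc δ ^ 2 * M ≤ δ ^ 2 * M ^ 2 := mul_le_mul_of_nonneg_left this (by positivity)
        _ = _ := mul_comm _ _
    rw [hw]
    linarith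
  have h5 : w ^ 2 ≤ (2 * M ^ 2 * δ ^ 2) ^ 2 := by
    rw [← sq_abs]
    exact pow_le_pow_left₀ (abs_nonneg _) h4 2
  have h6 : 2 * u ≤ 2 * w + w ^ 2 := by
    have h7 := sq_nonneg u
    have e1 : (1 + u) ^ 2 = 1 + 2 * u + u ^ 2 := by ring
    have e2 : (1 + w) ^ 2 = 1 + 2 * w + w ^ 2 := by ring
    rw [e1, e2] at h
    linarith
  have h7 : δ ^ 2 * (v - 2 * G) ≤ 2 * (M ^ 3 * δ ^ 3) + 2 * (M ^ 2 * δ ^ 4) +
      4 * (M ^ 4 * δ ^ 4) := by
    have e : (2 * M ^ 2 * δ ^ 2) ^ 2 = 4 * (M ^ 4 * δ ^ 4) := by ring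
    rw [e] at h5
    have e2 : δ ^ 2 * (v - 2 * G) = 2 * u - 2 * w + 2 * (M ^ 3 * δ ^ 3) + 2 * (M ^ 2 * δ ^ 4) := by
      rw [hu, hw]; ring
    rw [e2]
    linarith
  have h8 : δ ^ 2 * (v - 2 * G) ≤ δ ^ 2 * (12 * M ^ 3 * δ) := by
    have e1 : M ^ 2 * δ ^ 4 ≤ M ^ 3 * δ ^ 3 := by
      have h9 : 0 ≤ M ^ 2 * δ ^ 3 * (M - δ) := mul_nonneg (by positivity) (by linarith)
      have h10 : M ^ 3 * δ ^ 3 - M ^ 2 * δ ^ 4 = M ^ 2 * δ ^ 3 * (M - δ) := by ring
      linarith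
    have e2 : M ^ 4 * δ ^ 4 ≤ M ^ 3 * δ ^ 3 := by
      have h9 : M ^ 4 * δ ^ 4 = M ^ 3 * δ ^ 3 * (δ * M) := by ring
      rw [h9]
      exact mul_le_of_le_one_right (by positivity) hδM
    have e3 : δ ^ 2 * (12 * M ^ 3 * δ) = 12 * (M ^ 3 * δ ^ 3) := by ring
    rw [e3]
    have e4 : 0 ≤ M ^ 3 * δ ^ 3 := by positivity
    linarith
  exact le_of_mul_le_mul_left h8 (by positivity)

theorem vlm : X_VLM := by
  intro d B ν f g hB hν hf hg h
  have hprob := hν.prob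
  set m : ℝ := ∫ x, f x ∂ν with hm
  -- the centred function
  set F : E d → ℝ := fun x => f x - m with hF
  have hFc : Continuous F := hf.sub continuous_const
  obtain ⟨M1, hM1, hb1⟩ := vlm_bound hν hFc
  obtain ⟨M2, hM2, hb2⟩ := vlm_bound hν hg
  set M : ℝ := M1 + M2 + 1 with hM
  have hMpos : 0 < M := by positivity
  have hMF : ∀ᵐ x ∂ν, |F x| ≤ M := by
    filter_upwards [hb1] with x hx
    rw [Real.norm_eq_abs] at hx
    linarith
  have hMg : ∀ᵐ x ∂ν, |g x| ≤ M := by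
    filter_upwards [hb2] with x hx
    rw [Real.norm_eq_abs] at hx
    linarith
  have hF0 : ∫ x, F x ∂ν = 0 := by
    rw [hF, integral_sub (vlm_int hν hf) (integrable_const _), integral_const]
    simp [hm]
  set v : ℝ := ∫ x, F x ^ 2 ∂ν with hv
  set G : ℝ := ∫ x, g x ∂ν with hG
  have hvar : ∫ x, f x ^ 2 ∂ν - m ^ 2 = v := by
    have h1 : ∀ x, F x ^ 2 = m ^ 2 + (-(2 * m)) * f x + 1 * f x ^ 2 := fun x => by
      rw [hF]; ring
    rw [hv, integral_congr_ae (Eventually.of_forall h1),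
      vlm_comb (vlm_int hν hf) (vlm_int hν (f := fun x => f x ^ 2) (hf.pow 2)), ← hm]
    ring
  rw [hvar]
  -- the inequality for the centred function
  have h' : ∀ δ : ℝ, (∫ x, Real.exp (δ * F x) ∂ν) * (∫ x, Real.exp (-(δ * F x)) ∂ν) ≤
      (∫ x, Real.exp (δ ^ 2 * g x) ∂ν) ^ 2 := by
    intro δ
    refine le_trans (le_of_eq ?_) (h δ)
    have e1 : ∀ x, Real.exp (δ * F x) = Real.exp (-(δ * m)) * Real.exp (δ * f x) := fun x => by
      rw [← Real.exp_add, hF]; congr 1; ring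
    have e2 : ∀ x, Real.exp (-(δ * F x)) = Real.exp (δ * m) * Real.exp (-(δ * f x)) := fun x => by
      rw [← Real.exp_add, hF]; congr 1; ring
    rw [integral_congr_ae (Eventually.of_forall e1), integral_congr_ae (Eventually.of_forall e2),
      integral_const_mul, integral_const_mul]
    have e3 : Real.exp (-(δ * m)) * Real.exp (δ * m) = 1 := by
      rw [← Real.exp_add]; simp
    calc _ = (Real.exp (-(δ * m)) * Real.exp (δ * m)) *
        ((∫ x, Real.exp (δ * f x) ∂ν) * ∫ x, Real.exp (-(δ * f x)) ∂ν) := by ring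
      _ = _ := by rw [e3, one_mul]
  have hG1 : |G| ≤ M := by
    have h1 := norm_integral_le_of_norm_le_const (μ := ν) (f := g) (C := M) (by
      filter_upwards [hMg] with x hx
      rwa [Real.norm_eq_abs])
    simpa using h1
  -- expansion
  have hexp : ∀ δ : ℝ, 0 < δ → δ * M ≤ 1 → v - 2 * G ≤ 12 * M ^ 3 * δ := by
    intro δ hδ hδM
    have hsmall : ∀ᵐ x ∂ν, |δ * F x| ≤ 1 ∧ |δ * F x| ^ 3 ≤ M ^ 3 * δ ^ 3 := by
      filter_upwards [hMF] with x hx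
      have h1 : |δ * F x| ≤ δ * M := by
        rw [abs_mul, abs_of_pos hδ]
        exact mul_le_mul_of_nonneg_left hx hδ.le
      refine ⟨h1.trans hδM, ?_⟩
      calc |δ * F x| ^ 3 ≤ (δ * M) ^ 3 := pow_le_pow_left₀ (abs_nonneg _) h1 3
        _ = _ := by ring
    have hlow : ∀ ε : ℝ, (ε = 1 ∨ ε = -1) →
        1 + δ ^ 2 * v / 2 - M ^ 3 * δ ^ 3 ≤ ∫ x, Real.exp (ε * (δ * F x)) ∂ν := by
      intro ε hε
      have hε2 : ε ^ 2 = 1 := by rcases hε with h | h <;> rw [h] <;> norm_num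
      have hεa : |ε| = 1 := by rcases hε with h | h <;> rw [h] <;> norm_num
      have h1 : ∫ x, ((1 - M ^ 3 * δ ^ 3) + (ε * δ) * F x + (δ ^ 2 / 2) * F x ^ 2) ∂ν =
          1 + δ ^ 2 * v / 2 - M ^ 3 * δ ^ 3 := by
        rw [vlm_comb (vlm_int hν hFc) (vlm_int hν (f := fun x => F x ^ 2) (hFc.pow 2)), hF0, ← hv]
        ring
      rw [← h1]
      refine integral_mono_ae
        (vlm_comb' (vlm_int hν hFc) (vlm_int hν (f := fun x => F x ^ 2) (hFc.pow 2)) _ _ _)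
        (vlm_int hν (by fun_prop)) ?_
      · filter_upwards [hsmall] with x hx
        have h2 : |ε * (δ * F x)| ≤ 1 := by rw [abs_mul, hεa, one_mul]; exact hx.1
        have h3 := vlm_exp_three h2
        have h4 : |ε * (δ * F x)| ^ 3 ≤ M ^ 3 * δ ^ 3 := by
          rw [abs_mul, hεa, one_mul]; exact hx.2
        have h5 : (ε * (δ * F x)) ^ 2 = δ ^ 2 * F x ^ 2 := by
          rw [mul_pow, hε2, one_mul, mul_pow]
        rw [h5] at h3
        linarith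
    have hl1 := hlow 1 (Or.inl rfl)
    have hl2 := hlow (-1) (Or.inr rfl)
    simp only [one_mul, neg_mul] at hl1 hl2
    -- upper bound
    have hup : ∫ x, Real.exp (δ ^ 2 * g x) ∂ν ≤ 1 + δ ^ 2 * G + M ^ 2 * δ ^ 4 := by
      have hδ1 : δ ^ 2 * M ≤ 1 := by
        have hM1' : 1 ≤ M := by rw [hM]; linarith
        have h1 : δ ≤ 1 := by nlinarith
        nlinarith
      have h1 : ∫ x, ((1 + M ^ 2 * δ ^ 4) + δ ^ 2 * g x + 0 * g x) ∂ν =
          1 + δ ^ 2 * G + M ^ 2 * δ ^ 4 := by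
        rw [vlm_comb (vlm_int hν hg) (vlm_int hν hg), ← hG]
        ring
      rw [← h1]
      refine integral_mono_ae (vlm_int hν (by fun_prop))
        (vlm_comb' (vlm_int hν hg) (vlm_int hν hg) _ _ _) ?_
      · filter_upwards [hMg] with x hx
        have h2 : |δ ^ 2 * g x| ≤ δ ^ 2 * M := by
          rw [abs_mul, abs_of_nonneg (by positivity : (0 : ℝ) ≤ δ ^ 2)]
          exact mul_le_mul_of_nonneg_left hx (by positivity)
        have h3 := vlm_exp_two (h2.trans hδ1)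
        have h4 : (δ ^ 2 * g x) ^ 2 ≤ (δ ^ 2 * M) ^ 2 := by
          rw [← sq_abs]
          exact pow_le_pow_left₀ (abs_nonneg _) h2 2
        have h5 : (δ ^ 2 * M) ^ 2 = M ^ 2 * δ ^ 4 := by ring
        linarith
    have hpos3 : 0 ≤ ∫ x, Real.exp (δ ^ 2 * g x) ∂ν := integral_nonneg fun x => (Real.exp_pos _).le
    have hM1' : 1 ≤ M := by rw [hM]; linarith
    have hv0 : 0 ≤ v := integral_nonneg fun x => by positivity
    refine vlm_num v G M δ hM1' hδ hδM hv0 hG1 ?_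
    have hu1 : 0 ≤ 1 + (δ ^ 2 * v / 2 - M ^ 3 * δ ^ 3) := vlm_num1 v M δ hδ hM1' hδM hv0
    have h2 : (1 + (δ ^ 2 * v / 2 - M ^ 3 * δ ^ 3)) * (1 + (δ ^ 2 * v / 2 - M ^ 3 * δ ^ 3)) ≤
        (∫ x, Real.exp (δ * F x) ∂ν) * (∫ x, Real.exp (-(δ * F x)) ∂ν) :=
      mul_le_mul (by linarith) (by linarith) hu1
        (integral_nonneg fun x => (Real.exp_pos _).le)
    have h3 : (∫ x, Real.exp (δ ^ 2 * g x) ∂ν) ^ 2 ≤ (1 + (δ ^ 2 * G + M ^ 2 * δ ^ 4)) ^ 2 :=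
      pow_le_pow_left₀ hpos3 (by linarith) 2
    rw [pow_two (1 + (δ ^ 2 * v / 2 - M ^ 3 * δ ^ 3))]
    exact h2.trans ((h' δ).trans h3)
  by_contra hcon
  push Not at hcon
  set A : ℝ := v - 2 * G with hA
  have hApos : 0 < A := by linarith
  have h1 := hexp (min (1 / M) (A / (24 * M ^ 3))) (by positivity) (by
    calc min (1 / M) (A / (24 * M ^ 3)) * M ≤ 1 / M * M :=
          mul_le_mul_of_nonneg_right (min_le_left _ _) hMpos.le
      _ = 1 := by field_simp)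
  have h2 : 12 * M ^ 3 * min (1 / M) (A / (24 * M ^ 3)) ≤ 12 * M ^ 3 * (A / (24 * M ^ 3)) :=
    mul_le_mul_of_nonneg_left (min_le_right _ _) (by positivity)
  have h3 : 12 * M ^ 3 * (A / (24 * M ^ 3)) = A / 2 := by field_simp; norm_num
  linarith

end Pool.Agent.T2h52.FC
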