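import Pool.Agent.T2h52.FC.GMG
import Pool.Agent.T2h52.FC.GEX
import Pool.Agent.T2h52.FC.GIR
import Pool.Agent.T2h52.FC.IBP
import Pool.Agent.T2h52.FC.PLE
import Pool.Agent.T2h52.FC.GPL
import Pool.Agent.T2h52.FC.CMP
import Pool.Agent.T2h52.FC.BAS
import Pool.Agent.T2h52.FC.INT
import Pool.Agent.T2h52.FC.LIN
import Pool.Agent.T2h52.FC.SOP
import Pool.Agent.T2h52.FC.EXP
import Pool.Agent.T2h52.FC.M4
import Pool.Agent.T2h52.FC.TRU
import Pool.Agent.T2h52.FC.LOC
import Pool.Agent.T2h52.FC.VAR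
import Pool.Agent.T2h52.FC.LTL
import Pool.Agent.T2h52.FC.SPL
import Pool.Agent.T2h52.FC.MX1
import Pool.Agent.T2h52.FC.MX2
import Pool.Agent.T2h52.FC.ST1
import Pool.Agent.T2h52.FC.ST2
import Pool.Agent.T2h52.FC.HT
import Pool.Agent.T2h52.FC.EXI
import Pool.Agent.T2h52.FC.KND
import Pool.Agent.T2h52.FC.KNB
import Pool.Agent.T2h52.FC.QUO
import Pool.Agent.T2h52.FC.RPC
import Pool.Agent.T2h52.FC.REP
import Pool.Agent.T2h52.FC.TR2
import Pool.Agent.T2h52.FC.TR4
import Pool.Agent.T2h52.FC.BLP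
import Pool.Agent.T2h52.FC.VLM
import Pool.Agent.T2h52.FC.NES
import Pool.Agent.T2h52.FC.CAL
import Pool.Agent.T2h52.FC.GRO
import Pool.Agent.T2h52.FC.DEN
import Pool.Agent.T2h52.FC.SCH
import Pool.Agent.T2h52.FC.BCO
import Pool.Agent.T2h52.FC.BEX
import Pool.Agent.T2h52.FC.MEH
import Pool.Agent.T2h52.FC.RIC
import Pool.Agent.T2h52.FC.NET
import Pool.Agent.T2h52.FC.KCO
import Pool.Agent.T2h52.FC.KCL
import Pool.Agent.T2h52.FC.SPC
import Pool.Agent.T2h52.FC.FIB
import Pool.Agent.T2h52.FC.SMA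
import Pool.Agent.T2h52.FC.NU1
import Pool.Agent.T2h52.FC.MB
import Pool.Agent.T2h52.FC.MBT
import Pool.Agent.T2h52.FC.Typ

/-!
# The Gaussian mean of an isotropic convex body: the theorems without hypotheses
-/

set_option autoImplicit false

namespace Pool.Agent.T2h52.FC

open Pool.Agent.T2h52.SO

theorem z_ibp : X_IBP := ibp gmg

theorem z_gir : X_GIR := gir gmg

theorem z_int : X_INT := int gex

theorem z_sop : X_SOP := sop bas gex z_int

theorem z_tru : X_TRU := tru exp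

theorem z_var : X_VAR := var gex exp z_tru

theorem z_ltl : X_LTL := ltl gex z_tru z_var (loc (gpl ple))

theorem z_spl : X_SPL := spl gex bas

theorem z_st1 : X_ST1 := st1 z_spl (mx1 exp z_tru) z_ltl m4 z_tru

theorem z_st2 : X_ST2 := st2 z_spl (mx2 exp z_tru) z_ltl m4 z_tru bas gex

theorem z_rep : X_REP := rep (ht gex z_ibp) (knd exi) (knb exi) quo (rpc (knd exi) quo)

theorem z_gro : X_GRO := gro gex bas tr2 tr4 z_rep nes vlm (blp ple) cal

theorem z_meh : X_MEH := meh gex z_ibp (den gex) sch bco (bex gex)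

theorem z_kco : X_KCO := kco net z_meh bco ric gex

theorem z_mb : X_MB :=
  mb gmg sma z_sop z_gro z_st2 (spc cmp) (kcl (lin gex z_gir bas z_int) z_kco) (fib cmp) z_st1 nu1

theorem z_mbt : X_MBT := mbt z_trb two z_mb

end Pool.Agent.T2h52.FC
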