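import Pool.Agent.T2h52.FC.Stm

/-!
# Project FC, task BLP (helper58)
-/

set_option autoImplicit false

namespace Pool.Agent.T2h52.FC

open MeasureTheory Set Filter Topology ProbabilityTheory
open scoped ENNReal InnerProductSpace Pointwise
open Pool.Agent.R755.KF (PB)
open Pool.Agent.N555.RZ (mP Spr)
open Pool.Agent.T2h52.SP
open Pool.Agent.T2h52.SQ
open Pool.Agent.T2h52.SO

namespace Blp

theorem ex_cont {d : ℕ} (s : ℝ) (w : E d) : Continuous (ex s (I1 d) w) := by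
  unfold ex
  fun_prop

theorem int_nu {d : ℕ} (P : Set (E d)) (s : ℝ) (w : E d) (G : E d → ℝ) :
    ∫ x, Real.exp (G x) ∂(nu (mP P) s (I1 d) w) =
      (((volume P)⁻¹).toReal / (∫ x, Real.exp (ex s (I1 d) w x) ∂(mP P))) *
        ∫ x in P, Real.exp (G x + ex s (I1 d) w x) := by
  unfold nu
  rw [integral_tilted]
  generalize (∫ x, Real.exp (ex s (I1 d) w x) ∂(mP P)) = D
  have h1 : ∀ x, (Real.exp (ex s (I1 d) w x) / D) • Real.exp (G x) =
      D⁻¹ * Real.exp (G x + ex s (I1 d) w x) := by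
    intro x
    rw [Real.exp_add, smul_eq_mul]
    ring
  simp_rw [h1]
  rw [integral_const_mul]
  unfold mP
  rw [integral_smul_measure, smul_eq_mul]
  ring

theorem lint {d : ℕ} {P : Set (E d)} (hP : IsCompact P) {G : E d → ℝ} (hG : Continuous G) :
    ∫⁻ x, P.indicator (fun x => ENNReal.ofReal (Real.exp (G x))) x =
      ENNReal.ofReal (∫ x in P, Real.exp (G x)) := by
  rw [lintegral_indicator hP.measurableSet, ofReal_integral_eq_lintegral_ofReal]
  · exact (Real.continuous_exp.comp hG).continuousOn.integrableOn_compact hP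
  · exact Eventually.of_forall fun x => (Real.exp_pos _).le

theorem ineq {d : ℕ} {s δ : ℝ} (hs : 0 < s) (w m : E d) (H : E d →L[ℝ] E d)
    (hH : ∀ x y, ⟪H x, y⟫_ℝ = ⟪x, H y⟫_ℝ) (x y : E d) :
    (δ * ⟪x - m, H (x - m)⟫_ℝ + ex s (I1 d) w x) + (-(δ * ⟪y - m, H (y - m)⟫_ℝ) + ex s (I1 d) w y) ≤
      2 * (δ ^ 2 * (2 / s * ‖H ((1 / 2 : ℝ) • (x + y) - m)‖ ^ 2) +
        ex s (I1 d) w ((1 / 2 : ℝ) • (x + y))) := by
  obtain ⟨z, hz⟩ : ∃ z : E d, z = (1 / 2 : ℝ) • (x + y) := ⟨_, rfl⟩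
  obtain ⟨e, he⟩ : ∃ e : E d, e = (1 / 2 : ℝ) • (x - y) := ⟨_, rfl⟩
  have hx : x = z + e := by
    rw [hz, he]
    module
  have hy : y = z - e := by
    rw [hz, he]
    module
  rw [← hz, hx, hy]
  obtain ⟨q, hq⟩ : ∃ q : E d, q = z - m := ⟨_, rfl⟩
  have e1 : z + e - m = q + e := by rw [hq]; abel
  have e2 : z - e - m = q - e := by rw [hq]; abel
  rw [e1, e2, ← hq]
  have h1 : ⟪q + e, H (q + e)⟫_ℝ - ⟪q - e, H (q - e)⟫_ℝ = 4 * ⟪e, H q⟫_ℝ := by
    rw [map_add, map_sub, inner_add_left, inner_add_right, inner_add_right, inner_sub_left,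
      inner_sub_right, inner_sub_right]
    have h2 : ⟪q, H e⟫_ℝ = ⟪e, H q⟫_ℝ := by
      rw [← hH q e, real_inner_comm]
    rw [h2]
    ring
  have h3 : ex s (I1 d) w (z + e) + ex s (I1 d) w (z - e) = 2 * ex s (I1 d) w z - s * ‖e‖ ^ 2 := by
    unfold ex
    simp only [ContinuousLinearMap.coe_id', id_eq]
    have h4 : ‖z + e‖ ^ 2 + ‖z - e‖ ^ 2 = 2 * (‖z‖ ^ 2 + ‖e‖ ^ 2) := by
      have := parallelogram_law_with_norm ℝ z e
      nlinarith [this]
    rw [inner_add_left, inner_sub_left]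
    linear_combination (-(s / 2)) * h4
  have h5 : 0 ≤ s * ‖e - (2 * δ / s) • H q‖ ^ 2 := by positivity
  have h6 : s * ‖e - (2 * δ / s) • H q‖ ^ 2 = s * ‖e‖ ^ 2 - 4 * δ * ⟪e, H q⟫_ℝ +
      4 * δ ^ 2 / s * ‖H q‖ ^ 2 := by
    rw [norm_sub_sq_real, inner_smul_right, norm_smul, mul_pow, Real.norm_eq_abs, sq_abs]
    field_simp
    ring
  have h7 : δ * ⟪q + e, H (q + e)⟫_ℝ - δ * ⟪q - e, H (q - e)⟫_ℝ = δ * (4 * ⟪e, H q⟫_ℝ) := by
    rw [← h1]
    ring
  have h8 : 2 * (δ ^ 2 * (2 / s * ‖H q‖ ^ 2)) = 4 * δ ^ 2 / s * ‖H q‖ ^ 2 := by ring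
  linarith

end Blp

open Blp in
theorem blp (hPLE : X_PLE) : X_BLP := by
  intro d P a s w m H hP hs hH δ
  have hc := hP.comp
  obtain ⟨U, hU⟩ : ∃ U : E d → ℝ, U = fun x => δ * ⟪x - m, H (x - m)⟫_ℝ := ⟨_, rfl⟩
  obtain ⟨V, hV⟩ : ∃ V : E d → ℝ, V = fun x => -(δ * ⟪x - m, H (x - m)⟫_ℝ) := ⟨_, rfl⟩
  obtain ⟨G, hG⟩ : ∃ G : E d → ℝ, G = fun x => δ ^ 2 * (2 / s * ‖H (x - m)‖ ^ 2) := ⟨_, rfl⟩
  have cU : Continuous U := by rw [hU]; fun_prop
  have cV : Continuous V := by rw [hV]; fun_prop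
  have cG : Continuous G := by rw [hG]; fun_prop
  have cE := ex_cont s w
  have e1 := int_nu P s w U
  have e2 := int_nu P s w V
  have e3 := int_nu P s w G
  rw [hU] at e1
  rw [hV] at e2
  rw [hG] at e3
  rw [e1, e2, e3]
  have key := hPLE d
    (P.indicator fun x => ENNReal.ofReal (Real.exp (U x + ex s (I1 d) w x)))
    (P.indicator fun x => ENNReal.ofReal (Real.exp (V x + ex s (I1 d) w x)))
    (P.indicator fun x => ENNReal.ofReal (Real.exp (G x + ex s (I1 d) w x)))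
    (Measurable.indicator (by fun_prop) hc.measurableSet)
    (Measurable.indicator (by fun_prop) hc.measurableSet)
    (Measurable.indicator (by fun_prop) hc.measurableSet)
    (by
      intro x y
      by_cases hx : x ∈ P
      · by_cases hy : y ∈ P
        · have hz : (1 / 2 : ℝ) • (x + y) ∈ P := by
            have := hP.conv hx hy (by norm_num : (0 : ℝ) ≤ 1 / 2) (by norm_num : (0 : ℝ) ≤ 1 / 2)
              (by norm_num)
            rw [smul_add]
            exact this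
          rw [indicator_of_mem hx, indicator_of_mem hy, indicator_of_mem hz,
            ← ENNReal.ofReal_mul (Real.exp_pos _).le, ← ENNReal.ofReal_pow (Real.exp_pos _).le]
          apply ENNReal.ofReal_le_ofReal
          rw [← Real.exp_add, ← Real.exp_nat_mul]
          apply Real.exp_le_exp.2
          have := ineq (δ := δ) hs w m H hH x y
          rw [hU, hV, hG]
          push_cast
          exact this
        · rw [indicator_of_notMem hy, mul_zero]
          exact zero_le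
      · rw [indicator_of_notMem hx, zero_mul]
        exact zero_le)
  have l1 := lint hc (G := fun x => U x + ex s (I1 d) w x) (cU.add cE)
  have l2 := lint hc (G := fun x => V x + ex s (I1 d) w x) (cV.add cE)
  have l3 := lint hc (G := fun x => G x + ex s (I1 d) w x) (cG.add cE)
  rw [l1, l2, l3] at key
  have hpos : ∀ F : E d → ℝ, 0 ≤ ∫ x in P, Real.exp (F x) := fun F =>
    integral_nonneg fun x => (Real.exp_pos _).le
  rw [← ENNReal.ofReal_mul (hpos _), ← ENNReal.ofReal_pow (hpos _),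
    ENNReal.ofReal_le_ofReal_iff (by have := hpos fun x => G x + ex s (I1 d) w x; positivity)] at key
  rw [hU, hV, hG] at key
  obtain ⟨κ, hκ⟩ : ∃ κ : ℝ, κ = ((volume P)⁻¹).toReal / (∫ x, Real.exp (ex s (I1 d) w x) ∂(mP P)) :=
    ⟨_, rfl⟩
  rw [← hκ]
  have h2 : 0 ≤ κ ^ 2 := sq_nonneg _
  have h3 := mul_le_mul_of_nonneg_left key h2
  refine le_trans (le_of_eq ?_) (h3.trans (le_of_eq ?_))
  · ring
  · ring

end Pool.Agent.T2h52.FC
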