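import Pool.Agent.T2h52.FC.Stm
import Pool.Agent.T2h52.SO.All
import Pool.Agent.T2h52.SO.Fin
import Pool.Agent.T2h52.SQ.CRT
import Pool.Agent.N555.RZ.Trans

/-!
# Approximate cross-body sections
-/

set_option autoImplicit false

namespace Pool.Agent.T2h52.FC

open MeasureTheory Set Filter Topology
open scoped ENNReal InnerProductSpace Pointwise
open Pool.Agent.N555.RZ (mP Spr)
open Pool.Agent.TH591.Lie (polarAt)
open Pool.Agent.T2h52.SP
open Pool.Agent.T2h52.SQ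
open Pool.Agent.T2h52.SO

namespace Dich

theorem bd_smul {d : ℕ} {S : Set (E d)} {a : ℝ} (ha : 1 ≤ a) (hS : Bd S) : Bd (a • S) := by
  have ha0 : 0 < a := by linarith
  have hsub : S ⊆ a • S := by
    intro x hx
    refine ⟨a⁻¹ • x, ?_, by simp [smul_smul, mul_inv_cancel₀ ha0.ne']⟩
    exact hS.conv.smul_mem_of_zero_mem (interior_subset hS.int) hx
      ⟨by positivity, inv_le_one_of_one_le₀ ha⟩
  refine ⟨hS.conv.smul a, hS.comp.smul a, interior_mono hsub hS.int, ?_⟩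
  rintro x ⟨y, hy, rfl⟩
  exact ⟨-y, hS.sym y hy, by simp⟩

/-- a symmetric body between `P` and `a P` -/
theorem core {d : ℕ} {P : Set (E d)} {a : ℝ} (hP : Bo P a) : Bd (a • sc P) ∧
    ∀ u, gauge (a • sc P) u ≤ gauge P u ∧ gauge P u ≤ a * gauge (a • sc P) u := by
  have ha := hP.one
  have ha0 : 0 < a := by linarith
  have hS := (gsy d P a hP).1
  have hQ := bd_smul ha hS
  have hP0 : Absorbent ℝ P := absorbent_nhds_zero (mem_interior_iff_mem_nhds.mp hP.int)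
  have hQ0 : Absorbent ℝ (a • sc P) :=
    absorbent_nhds_zero (mem_interior_iff_mem_nhds.mp hQ.int)
  have h1 : P ⊆ a • sc P := by
    intro x hx
    refine ⟨a⁻¹ • x, ⟨?_, hP.asym x hx⟩, by simp [smul_smul, mul_inv_cancel₀ ha0.ne']⟩
    exact hP.conv.smul_mem_of_zero_mem (interior_subset hP.int) hx
      ⟨by positivity, inv_le_one_of_one_le₀ ha⟩
  have h2 : a • sc P ⊆ a • P := smul_set_mono fun x hx => hx.1
  refine ⟨hQ, fun u => ⟨gauge_mono hP0 h1 u, ?_⟩⟩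
  have h3 := gauge_mono hQ0 h2 u
  rw [gauge_smul_left_of_nonneg ha0.le] at h3
  have h4 : a⁻¹ * gauge P u ≤ gauge (a • sc P) u := h3
  rwa [inv_mul_le_iff₀ ha0] at h4

theorem nums {D L a n l : ℝ} (hL : 1 ≤ L) (ha : 1 ≤ a) (hn : 1 ≤ n) (hD : 1 ≤ D)
    (hl : l = a * (2 * (10 ^ 14 * L ^ ((3 : ℝ) / 2) * D ^ ((15 : ℝ) / 64))))
    (hX : (10 ^ 31 * n * a ^ 3 * L ^ 3) ^ 512 ≤ D) :
    1 ≤ l ∧ 10 ^ 280 * l ^ 4 ≤ D ∧
    10 ^ 17 * n ^ 4 * (2 * a) ^ 8 ≤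
      (D ^ ((1 : ℝ) / 8) / (10 ^ 47 * a * l ^ ((1 : ℝ) / 2))) * (1 / (46080 * L)) ^ 10 := by
  have hD0 : 0 < D := by linarith
  have hL0 : 0 < L := by linarith
  have ha0 : 0 < a := by linarith
  have hn0 : 0 < n := by linarith
  have hL32 : 1 ≤ L ^ ((3 : ℝ) / 2) := Real.one_le_rpow hL (by norm_num)
  have hL32' : L ^ ((3 : ℝ) / 2) ≤ L ^ 2 := by
    rw [← Real.rpow_natCast L 2]
    exact Real.rpow_le_rpow_of_exponent_le hL (by norm_num)
  have hD64 : 1 ≤ D ^ ((15 : ℝ) / 64) := Real.one_le_rpow hD (by norm_num)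
  have hl1 : 1 ≤ l := by
    rw [hl]
    have h1 : 1 ≤ L ^ ((3 : ℝ) / 2) * D ^ ((15 : ℝ) / 64) := one_le_mul_of_one_le_of_one_le hL32 hD64
    have h2 : 1 ≤ 2 * (10 ^ 14 * L ^ ((3 : ℝ) / 2) * D ^ ((15 : ℝ) / 64)) := by nlinarith
    exact one_le_mul_of_one_le_of_one_le ha h2
  have hl0 : 0 < l := by linarith
  set X : ℝ := 10 ^ 31 * n * a ^ 3 * L ^ 3 with hXd
  have haL : 1 ≤ n * a ^ 3 * L ^ 3 := one_le_mul_of_one_le_of_one_le
    (one_le_mul_of_one_le_of_one_le hn (one_le_pow₀ ha)) (one_le_pow₀ hL)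
  have hX31 : (10 : ℝ) ^ 31 ≤ X := by
    rw [hXd]
    nlinarith
  have hX1 : 1 ≤ X := le_trans (by norm_num) hX31
  have hX0 : 0 < X := by linarith
  have hpow : ∀ (k m : ℕ), 0 < m → k * m = 512 → X ^ k ≤ D ^ ((1 : ℝ) / m) := by
    intro k m hm hkm
    have h2 := Real.rpow_le_rpow (by positivity) hX (by positivity : (0 : ℝ) ≤ 1 / m)
    have h3 : (X ^ 512) ^ ((1 : ℝ) / m) = X ^ k := by
      rw [← hkm, pow_mul, ← Real.rpow_natCast (X ^ k) m, ← Real.rpow_mul (by positivity)]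
      rw [mul_one_div_cancel (by positivity), Real.rpow_one]
    rwa [h3] at h2
  have hX32 : X ^ 32 ≤ D ^ ((1 : ℝ) / 16) := by
    have := hpow 32 16 (by norm_num) (by norm_num)
    exact_mod_cast this
  have hX4 : X ^ 4 ≤ D ^ ((1 : ℝ) / 128) := by
    have := hpow 4 128 (by norm_num) (by norm_num)
    exact_mod_cast this
  have hXa : 10 ^ 31 * (a ^ 3 * L ^ 3) ≤ X := by
    rw [hXd]
    have : 0 < a ^ 3 * L ^ 3 := by positivity
    have h2 : a ^ 3 * L ^ 3 ≤ n * (a ^ 3 * L ^ 3) := le_mul_of_one_le_left this.le hn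
    nlinarith
  refine ⟨hl1, ?_, ?_⟩
  · have e1 : (D ^ ((15 : ℝ) / 64)) ^ 4 = D ^ ((15 : ℝ) / 16) := by
      rw [← Real.rpow_natCast, ← Real.rpow_mul hD0.le]
      norm_num
    have e2 : (L ^ ((3 : ℝ) / 2)) ^ 4 = L ^ 6 := by
      rw [← Real.rpow_natCast, ← Real.rpow_mul hL0.le, ← Real.rpow_natCast]
      norm_num
    have e5 : (10 : ℝ) ^ 30 * 10 ^ 280 * (16 * 10 ^ 56) * (a ^ 4 * L ^ 6) ≤ X ^ 32 := by
      have h2 : (10 ^ 31 * (a ^ 3 * L ^ 3)) ^ 2 ≤ X ^ 2 := pow_le_pow_left₀ (by positivity) hXa 2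
      have h3 : ((10 : ℝ) ^ 31) ^ 30 ≤ X ^ 30 := pow_le_pow_left₀ (by norm_num) hX31 30
      have h4 : (10 ^ 31 * (a ^ 3 * L ^ 3)) ^ 2 * ((10 : ℝ) ^ 31) ^ 30 ≤ X ^ 2 * X ^ 30 :=
        mul_le_mul h2 h3 (by positivity) (by positivity)
      have h5 : X ^ 2 * X ^ 30 = X ^ 32 := by ring
      rw [h5] at h4
      refine le_trans ?_ h4
      have h6 : a ^ 4 * L ^ 6 ≤ a ^ 6 * L ^ 6 :=
        mul_le_mul_of_nonneg_right (pow_le_pow_right₀ ha (by norm_num)) (by positivity)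
      have h7 : (10 ^ 31 * (a ^ 3 * L ^ 3)) ^ 2 = (10 : ℝ) ^ 62 * (a ^ 6 * L ^ 6) := by ring
      rw [h7]
      have h8 : ((10 : ℝ) ^ 31) ^ 30 = 10 ^ 200 * 10 ^ 200 * 10 ^ 200 * 10 ^ 200 * 10 ^ 130 := by
        rw [← pow_mul, ← pow_add, ← pow_add, ← pow_add, ← pow_add]
      have h9 : (10 : ℝ) ^ 280 = 10 ^ 200 * 10 ^ 80 := by rw [← pow_add]
      rw [h8, h9]
      have h10 : (0 : ℝ) < 10 ^ 200 := by positivity
      have h11 : (1 : ℝ) ≤ 10 ^ 200 := one_le_pow₀ (by norm_num)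
      have h12 : (16 : ℝ) * 10 ^ 56 * 10 ^ 80 * 10 ^ 30 ≤ 10 ^ 200 := by norm_num
      have h13 : 0 < a ^ 4 * L ^ 6 := by positivity
      calc (10 : ℝ) ^ 30 * (10 ^ 200 * 10 ^ 80) * (16 * 10 ^ 56) * (a ^ 4 * L ^ 6)
          = (10 ^ 200 * (16 * 10 ^ 56 * 10 ^ 80 * 10 ^ 30)) * (a ^ 4 * L ^ 6) := by ring
        _ ≤ (10 ^ 200 * 10 ^ 200) * (a ^ 6 * L ^ 6) :=
            mul_le_mul (mul_le_mul_of_nonneg_left h12 h10.le) h6 h13.le (by positivity)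
        _ ≤ (10 ^ 200 * 10 ^ 200) * (a ^ 6 * L ^ 6) * (10 ^ 62 * (10 ^ 200 * 10 ^ 200 * 10 ^ 130)) := by
            refine le_mul_of_one_le_right (by positivity) ?_
            exact one_le_mul_of_one_le_of_one_le (one_le_pow₀ (by norm_num))
              (one_le_mul_of_one_le_of_one_le (one_le_mul_of_one_le_of_one_le h11 h11)
                (one_le_pow₀ (by norm_num)))
        _ = _ := by ring
    have e3 : 10 ^ 280 * l ^ 4 = (10 ^ 280 * (16 * 10 ^ 56) * (a ^ 4 * L ^ 6)) *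
        D ^ ((15 : ℝ) / 16) := by
      rw [hl]
      calc 10 ^ 280 * (a * (2 * (10 ^ 14 * L ^ ((3 : ℝ) / 2) * D ^ ((15 : ℝ) / 64)))) ^ 4
          = 10 ^ 280 * (16 * 10 ^ 56) * (a ^ 4 * (L ^ ((3 : ℝ) / 2)) ^ 4) *
              (D ^ ((15 : ℝ) / 64)) ^ 4 := by ring
        _ = _ := by rw [e1, e2]
    have e6 : D = D ^ ((1 : ℝ) / 16) * D ^ ((15 : ℝ) / 16) := by
      rw [← Real.rpow_add hD0]
      norm_num
    rw [e3]
    conv_rhs => rw [e6]
    refine mul_le_mul_of_nonneg_right (le_trans ?_ (e5.trans hX32)) (by positivity)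
    have h1 : (1 : ℝ) ≤ 10 ^ 30 := one_le_pow₀ (by norm_num)
    have h2 : (0 : ℝ) ≤ 10 ^ 280 * (16 * 10 ^ 56) * (a ^ 4 * L ^ 6) := by positivity
    calc (10 : ℝ) ^ 280 * (16 * 10 ^ 56) * (a ^ 4 * L ^ 6)
        ≤ 10 ^ 30 * (10 ^ 280 * (16 * 10 ^ 56) * (a ^ 4 * L ^ 6)) := le_mul_of_one_le_left h2 h1
      _ = _ := by ring
  · have f3 : l = (2 * 10 ^ 14 * a * L ^ ((3 : ℝ) / 2)) * D ^ ((15 : ℝ) / 64) := by
      rw [hl]; ring
    have f4 : l ^ ((1 : ℝ) / 2) ≤ (2 * 10 ^ 7 * a * L) * D ^ ((15 : ℝ) / 128) := by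
      rw [f3, Real.mul_rpow (by positivity) (by positivity), ← Real.rpow_mul hD0.le]
      have h2 : (15 : ℝ) / 64 * (1 / 2) = 15 / 128 := by norm_num
      rw [h2]
      refine mul_le_mul_of_nonneg_right ?_ (by positivity)
      rw [← Real.sqrt_eq_rpow, Real.sqrt_le_left (by positivity)]
      have h3 : (2 * 10 ^ 7 * a * L) ^ 2 = 4 * 10 ^ 14 * (a ^ 2 * L ^ 2) := by ring
      rw [h3]
      have h4 : a * L ^ ((3 : ℝ) / 2) ≤ a ^ 2 * L ^ 2 := by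
        refine mul_le_mul ?_ hL32' (by positivity) (by positivity)
        nlinarith
      have h5 : 0 < a * L ^ ((3 : ℝ) / 2) := by positivity
      nlinarith
    have e7 : D ^ ((1 : ℝ) / 8) = D ^ ((1 : ℝ) / 128) * D ^ ((15 : ℝ) / 128) := by
      rw [← Real.rpow_add hD0]
      norm_num
    have hl12 : 0 < l ^ ((1 : ℝ) / 2) := Real.rpow_pos_of_pos hl0 _
    have e8 : (1 / (46080 * L)) ^ 10 = 1 / (46080 ^ 10 * L ^ 10) := by
      rw [div_pow, one_pow, mul_pow]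
    have e9 : D ^ ((1 : ℝ) / 8) / (10 ^ 47 * a * l ^ ((1 : ℝ) / 2)) * (1 / (46080 ^ 10 * L ^ 10)) =
        D ^ ((1 : ℝ) / 8) / ((10 ^ 47 * a * l ^ ((1 : ℝ) / 2)) * (46080 ^ 10 * L ^ 10)) := by
      rw [mul_one_div, div_div]
    rw [e8, e9, le_div_iff₀ (by positivity), e7]
    have f5 : 10 ^ 17 * n ^ 4 * (2 * a) ^ 8 * (10 ^ 47 * a * (2 * 10 ^ 7 * a * L)) *
        (46080 ^ 10 * L ^ 10) ≤ X ^ 4 := by
      have h1 : X ^ 4 = 10 ^ 124 * (n ^ 4 * (a ^ 12 * L ^ 12)) := by rw [hXd]; ring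
      have h2 : 10 ^ 17 * n ^ 4 * (2 * a) ^ 8 * (10 ^ 47 * a * (2 * 10 ^ 7 * a * L)) *
        (46080 ^ 10 * L ^ 10) = (512 * 10 ^ 71 * 46080 ^ 10) * (n ^ 4 * (a ^ 10 * L ^ 11)) := by ring
      rw [h1, h2]
      have h3 : a ^ 10 * L ^ 11 ≤ a ^ 12 * L ^ 12 :=
        mul_le_mul (pow_le_pow_right₀ ha (by norm_num)) (pow_le_pow_right₀ hL (by norm_num))
          (by positivity) (by positivity)
      exact mul_le_mul (by norm_num) (mul_le_mul_of_nonneg_left h3 (by positivity))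
        (by positivity) (by positivity)
    calc 10 ^ 17 * n ^ 4 * (2 * a) ^ 8 * ((10 ^ 47 * a * l ^ ((1 : ℝ) / 2)) * (46080 ^ 10 * L ^ 10))
        ≤ 10 ^ 17 * n ^ 4 * (2 * a) ^ 8 * ((10 ^ 47 * a * ((2 * 10 ^ 7 * a * L) *
            D ^ ((15 : ℝ) / 128))) * (46080 ^ 10 * L ^ 10)) := by gcongr
      _ = (10 ^ 17 * n ^ 4 * (2 * a) ^ 8 * (10 ^ 47 * a * (2 * 10 ^ 7 * a * L)) *
        (46080 ^ 10 * L ^ 10)) * D ^ ((15 : ℝ) / 128) := by ring
      _ ≤ X ^ 4 * D ^ ((15 : ℝ) / 128) := mul_le_mul_of_nonneg_right f5 (by positivity)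
      _ ≤ _ := mul_le_mul_of_nonneg_right hX4 (by positivity)

/-- the dichotomy for `P` -/
theorem dich (hM : X_MBT) {d n : ℕ} {P : Set (E d)} {a : ℝ} {b : E d} (hd : 2 ≤ d) (hP : Bo P a)
    (hb : Bc P b) (hn : 1 ≤ n)
    (hX : (10 ^ 31 * (n : ℝ) * a ^ 3 * Real.log (d + 1) ^ 3) ^ 512 ≤ (d : ℝ)) :
    Cv P ∨ ∃ φ : Fin n → E d →L[ℝ] ℝ, (∀ i, ∀ x ∈ P, φ i x ≤ 1) ∧
      ∀ δ : Fin n → Bool, ∃ z ∈ P, ∀ i, (1 / (46080 * Real.log (d + 1))) ^ 2 / (8 * a) ≤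
        (if δ i then (1 : ℝ) else -1) * φ i (z - b) := by
  obtain ⟨hQ, hs⟩ := core hP
  obtain ⟨A, hA⟩ := z_iso d P a b hP hb
  obtain ⟨b1, b2, b3, b4⟩ := img d P (a • sc P) A a b hP hb hQ hs
  have hg0 := hM d (A '' P) (A '' (a • sc P)) a (A b) hd b1 b2 hA b3 fun u => (b4 u).1
  have ha := hP.one
  have hL : 1 ≤ Real.log ((d : ℝ) + 1) := log_one hd
  obtain ⟨l, hl⟩ : ∃ l : ℝ, l = a * (2 * (10 ^ 14 * Real.log ((d : ℝ) + 1) ^ ((3 : ℝ) / 2) *
      (d : ℝ) ^ ((15 : ℝ) / 64))) := ⟨_, rfl⟩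
  have hg : gm (gauge (A '' P)) ≤ l := by
    refine (Pool.Agent.T2h52.SQ.gm_mul b3 fun u => (b4 u).2).trans ?_
    rw [hl]
    exact mul_le_mul_of_nonneg_left hg0 (by linarith)
  have hd1 : (1 : ℝ) ≤ d := by
    have : 1 ≤ d := by omega
    exact_mod_cast this
  have hn1 : (1 : ℝ) ≤ n := by exact_mod_cast hn
  obtain ⟨n1, n2, n3⟩ := nums hL ha hn1 hd1 hl hX
  have hspr := z_spr d (A '' P) a l (A b) b1 b2 hA n1 hg n2
  by_cases hflat : ∫ z, ∫ z', |fderiv ℝ (gauge (A '' P)) z (z' - A b)| ∂(mP (A '' P)) ∂(mP (A '' P)) ≤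
      1 / (46080 * Real.log (d + 1))
  · exact Or.inl (Pool.Agent.N555.RZ.cover_trans A (z_fco d (A '' P) a (A b) hd b1 b2 hflat))
  · rw [not_le] at hflat
    refine Or.inr ?_
    have hl0 : 0 < Real.log ((d : ℝ) + 1) := by linarith
    obtain ⟨φ, h1, h2⟩ := z_mna d n (A '' P) a _ (1 / (46080 * Real.log (d + 1))) (A b) hn b1 b2 hA
      hspr (by positivity) hflat.le n3
    refine ⟨fun i => (φ i).comp (LinearMap.toContinuousLinearMap (A : E d →ₗ[ℝ] E d)), ?_, ?_⟩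
    · intro i x hx
      exact h1 i _ ⟨x, hx, rfl⟩
    · intro δ
      obtain ⟨z, ⟨y, hy, rfl⟩, hz⟩ := h2 δ
      refine ⟨y, hy, fun i => ?_⟩
      have h3 := hz i
      have e : (φ i).comp (LinearMap.toContinuousLinearMap (A : E d →ₗ[ℝ] E d)) (y - b) =
          φ i (A y - A b) := by
        show φ i (A (y - b)) = _
        rw [map_sub]
      rw [e]
      exact h3

/-- the polar body -/
theorem bo_polar {d : ℕ} {K : Set (E d)} {o : E d} {a : ℝ} (hKc : IsCompact K)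
    (ho : o ∈ interior K) (ha : 1 ≤ a) (has : ∀ x ∈ K, o - a⁻¹ • (x - o) ∈ K) :
    Bo (polarAt K o) a := by
  obtain ⟨R, hR⟩ : ∃ R : ℝ, ∀ y ∈ K, ‖y - o‖ ≤ R := by
    obtain ⟨R, hR⟩ := hKc.isBounded.subset_closedBall o
    exact ⟨R, fun y hy => by simpa [dist_eq_norm] using hR hy⟩
  have hR0 : 0 ≤ R := (norm_nonneg _).trans (hR o (interior_subset ho))
  refine ⟨Pool.Agent.TH591.Lie.polarAt_convex K o, Pool.Agent.TH591.Lie.polarAt_compact K o ho, ?_,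
    ha, ?_⟩
  · rw [mem_interior]
    refine ⟨Metric.ball 0 (1 / (R + 1)), ?_, Metric.isOpen_ball, by simp; positivity⟩
    intro v hv y hy
    rw [mem_ball_zero_iff] at hv
    calc ⟪v, y - o⟫_ℝ ≤ ‖v‖ * ‖y - o‖ := real_inner_le_norm _ _
      _ ≤ 1 / (R + 1) * R := by
          gcongr
          exact hR y hy
      _ ≤ 1 := by
          rw [one_div, inv_mul_le_iff₀ (by positivity)]
          linarith
  · intro v hv y hy
    have h1 : ⟪v, o - a⁻¹ • (y - o) - o⟫_ℝ ≤ 1 := hv _ (has y hy)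
    have e : o - a⁻¹ • (y - o) - o = -(a⁻¹ • (y - o)) := by abel
    rw [e, inner_neg_right, inner_smul_right] at h1
    rw [inner_neg_left, real_inner_smul_left]
    exact h1

/-- the bipolar theorem -/
theorem bipolar {d : ℕ} {K : Set (E d)} {o v : E d} (hK : Convex ℝ K) (hKc : IsCompact K)
    (ho : o ∈ interior K) (h : ∀ z ∈ polarAt K o, ⟪v, z⟫_ℝ ≤ 1) : o + v ∈ K := by
  by_contra hv
  obtain ⟨f, u, h1, h2⟩ := geometric_hahn_banach_closed_point hK hKc.isClosed hv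
  obtain ⟨w, hw⟩ : ∃ w : E d, ∀ x, f x = ⟪w, x⟫_ℝ :=
    ⟨(InnerProductSpace.toDual ℝ (E d)).symm f, fun x => by simp⟩
  have ho' := h1 o (interior_subset ho)
  have ht : 0 < u - f o := by linarith
  have hz : (u - f o)⁻¹ • w ∈ polarAt K o := by
    intro y hy
    rw [real_inner_smul_left, inner_sub_right, ← hw, ← hw, inv_mul_le_iff₀ ht]
    have := h1 y hy
    linarith
  have h3 := h _ hz
  rw [inner_smul_right, real_inner_comm, ← hw, inv_mul_le_iff₀ ht] at h3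
  rw [map_add] at h2
  linarith

/-- **approximate cross-body sections** -/
theorem cross (hM : X_MBT) {d n : ℕ} {K : Set (E d)} {o : E d} {a : ℝ} (hd : 2 ≤ d)
    (hK : Convex ℝ K) (hKc : IsCompact K) (ho : o ∈ interior K) (ha : 1 ≤ a)
    (has : ∀ x ∈ K, o - a⁻¹ • (x - o) ∈ K) (hn : 1 ≤ n)
    (hX : (10 ^ 31 * (n : ℝ) * a ^ 3 * Real.log (d + 1) ^ 3) ^ 512 ≤ (d : ℝ)) :
    Cv (polarAt K o) ∨ ∃ x : Fin n → E d, (∀ i, x i ∈ K) ∧
      ∀ c : Fin n → ℝ, o + ∑ i, c i • (x i - o) ∈ K →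
        ∑ i, |c i| ≤ 10 ^ 11 * a ^ 2 * Real.log (d + 1) ^ 2 := by
  have hP := bo_polar hKc ho ha has
  obtain ⟨b, hb⟩ := exists_bc hP
  have hL : 1 ≤ Real.log ((d : ℝ) + 1) := log_one hd
  set L := Real.log ((d : ℝ) + 1) with hLd
  have ha0 : 0 < a := by linarith
  rcases dich hM hd hP hb hn hX with h | ⟨φ, h1, h2⟩
  · exact Or.inl h
  refine Or.inr ?_
  have hv : ∀ i, ∃ v : E d, ∀ x, φ i x = ⟪v, x⟫_ℝ := fun i =>
    ⟨(InnerProductSpace.toDual ℝ (E d)).symm (φ i), fun x => by simp⟩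
  choose v hv using hv
  have hbP : b ∈ polarAt K o := interior_subset (bar d _ a b hP hb)
  refine ⟨fun i => o + v i, fun i => bipolar hK hKc ho fun z hz => ?_, fun c hc => ?_⟩
  · rw [← hv]
    exact h1 i z hz
  · have e0 : ∀ i, (o + v i) - o = v i := fun i => by abel
    simp only [e0] at hc
    set u : E d := ∑ i, c i • v i with hu
    obtain ⟨z, hz, hz2⟩ := h2 fun i => decide (0 ≤ c i)
    have h3 : ⟪z, u⟫_ℝ ≤ 1 := by
      have := hz (o + u) hc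
      rwa [add_sub_cancel_left] at this
    have h4 : -⟪b, u⟫_ℝ ≤ a := by
      have h5 := hbP _ (has _ hc)
      have e : o - a⁻¹ • (o + u - o) - o = -(a⁻¹ • u) := by
        rw [add_sub_cancel_left]; abel
      rw [e, inner_neg_right, inner_smul_right] at h5
      have h6 : -⟪b, u⟫_ℝ = a * -(a⁻¹ * ⟪b, u⟫_ℝ) := by
        field_simp
      rw [h6]
      nlinarith
    have h5 : ∑ i, |c i| * ((1 / (46080 * L)) ^ 2 / (8 * a)) ≤ ⟪z - b, u⟫_ℝ := by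
      rw [hu, inner_sum]
      refine Finset.sum_le_sum fun i _ => ?_
      have h6 := hz2 i
      rw [inner_smul_right, real_inner_comm, ← hv]
      by_cases hci : 0 ≤ c i
      · simp only [hci, decide_true, if_true, one_mul] at h6
        rw [abs_of_nonneg hci]
        exact mul_le_mul_of_nonneg_left h6 hci
      · simp only [hci, decide_false, Bool.false_eq_true, if_false] at h6
        rw [abs_of_neg (not_le.mp hci)]
        have h7 : 0 ≤ -c i := by linarith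
        have := mul_le_mul_of_nonneg_left h6 h7
        linarith
    rw [← Finset.sum_mul, inner_sub_left] at h5
    have h6 : (∑ i, |c i|) * ((1 / (46080 * L)) ^ 2 / (8 * a)) ≤ 2 * a := by linarith
    have hL0 : 0 < L := by linarith
    have e1 : (1 / (46080 * L)) ^ 2 / (8 * a) = 1 / (46080 ^ 2 * 8 * a * L ^ 2) := by
      field_simp
    rw [e1, mul_one_div, div_le_iff₀ (by positivity)] at h6
    refine h6.trans ?_
    have : 0 < a ^ 2 * L ^ 2 := by positivity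
    nlinarith

end Dich

end Pool.Agent.T2h52.FC
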