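import Pool.Agent.T2h52.FC.Stm

set_option autoImplicit false

namespace Pool.Agent.T2h52.FC

open Real

set_option exponentiation.threshold 2000 in
theorem nu2 : X_NU2 := by
  intro d q B C l hd hq hB hC hl hX
  have hdR : (2 : ℝ) ≤ d := by exact_mod_cast hd
  set L : ℝ := Real.log (d + 1) with hLd
  have hL : 1 ≤ L := by
    rw [hLd, Real.le_log_iff_exp_le (by linarith)]
    have := Real.exp_one_lt_d9
    linarith
  set D : ℝ := (d : ℝ) with hD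
  have hD1 : 1 ≤ D := by linarith
  have hD0 : 0 < D := by linarith
  set X : ℝ := 10 ^ 14 * B * C ^ 2 * L ^ 3 with hXd
  have hC2 : 1 ≤ C ^ 2 := one_le_pow₀ hC
  have hL3 : 1 ≤ L ^ 3 := one_le_pow₀ hL
  have hB0 : 0 < B := by linarith
  have hC0 : 0 < C := by linarith
  have hL0 : 0 < L := by linarith
  have hXBC : 10 ^ 14 * (C ^ 2 * L ^ 3) ≤ X := by
    rw [hXd]
    have : C ^ 2 * L ^ 3 ≤ B * (C ^ 2 * L ^ 3) := le_mul_of_one_le_left (by positivity) hB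
    nlinarith
  have hX14 : 10 ^ 14 ≤ X := by
    have : 1 ≤ C ^ 2 * L ^ 3 := one_le_mul_of_one_le_of_one_le hC2 hL3
    nlinarith
  have hX1 : 1 ≤ X := le_trans (by norm_num) hX14
  have hX0 : 0 < X := by linarith
  have hL32 : 1 ≤ L ^ ((3 : ℝ) / 2) := Real.one_le_rpow hL (by norm_num)
  have hL32' : L ^ ((3 : ℝ) / 2) ≤ L ^ 3 := by
    rw [← Real.rpow_natCast L 3]
    exact Real.rpow_le_rpow_of_exponent_le hL (by norm_num)
  have hD64 : 1 ≤ D ^ ((15 : ℝ) / 64) := Real.one_le_rpow hD1 (by norm_num)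
  have hl1 : 1 ≤ l := by
    rw [hl]
    have : 1 ≤ L ^ ((3 : ℝ) / 2) * D ^ ((15 : ℝ) / 64) := one_le_mul_of_one_le_of_one_le hL32 hD64
    nlinarith
  refine ⟨hl1, ?_, ?_⟩
  · -- (2)
    have e1 : (D ^ ((15 : ℝ) / 64)) ^ 4 = D ^ ((15 : ℝ) / 16) := by
      rw [← Real.rpow_natCast, ← Real.rpow_mul hD0.le]
      norm_num
    have e2 : (L ^ ((3 : ℝ) / 2)) ^ 4 = L ^ 6 := by
      rw [← Real.rpow_natCast, ← Real.rpow_mul hL0.le, ← Real.rpow_natCast]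
      norm_num
    have e3 : 10 ^ 280 * (C * l) ^ 4 = (16 * 10 ^ 336 * C ^ 4 * L ^ 6) * D ^ ((15 : ℝ) / 16) := by
      rw [hl]
      calc 10 ^ 280 * (C * (2 * (10 ^ 14 * L ^ ((3 : ℝ) / 2) * D ^ ((15 : ℝ) / 64)))) ^ 4
          = (16 * 10 ^ 336 * C ^ 4) * (L ^ ((3 : ℝ) / 2)) ^ 4 * (D ^ ((15 : ℝ) / 64)) ^ 4 := by ring
        _ = _ := by rw [e1, e2]
    have e4 : X ^ (250 : ℕ) ≤ D ^ ((1 : ℝ) / 16) := by
      have h1 : X ^ ((250 : ℝ) * 16) ≤ D := le_trans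
        (Real.rpow_le_rpow_of_exponent_le hX1 (by linarith)) hX
      have h2 := Real.rpow_le_rpow (by positivity) h1 (by norm_num : (0 : ℝ) ≤ 1 / 16)
      rw [← Real.rpow_mul hX0.le] at h2
      rw [← Real.rpow_natCast]
      convert h2 using 2
      norm_num
    have e5 : 16 * 10 ^ 336 * C ^ 4 * L ^ 6 ≤ X ^ (250 : ℕ) := by
      have h1 : X ^ 30 ≤ X ^ (250 : ℕ) := pow_le_pow_right₀ hX1 (by norm_num)
      have h2 : (10 ^ 14 * (C ^ 2 * L ^ 3)) ^ 2 ≤ X ^ 2 := pow_le_pow_left₀ (by positivity) hXBC 2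
      have h3 : (10 ^ 14 : ℝ) ^ 28 ≤ X ^ 28 := pow_le_pow_left₀ (by norm_num) hX14 28
      have h4 : (10 ^ 14 * (C ^ 2 * L ^ 3)) ^ 2 * (10 ^ 14 : ℝ) ^ 28 ≤ X ^ 2 * X ^ 28 :=
        mul_le_mul h2 h3 (by positivity) (by positivity)
      have h5 : X ^ 2 * X ^ 28 = X ^ 30 := by ring
      have h6 : 16 * 10 ^ 336 * C ^ 4 * L ^ 6 ≤
          (10 ^ 14 * (C ^ 2 * L ^ 3)) ^ 2 * (10 ^ 14 : ℝ) ^ 28 := by
        have : (10 ^ 14 * (C ^ 2 * L ^ 3)) ^ 2 * (10 ^ 14 : ℝ) ^ 28 =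
          10 ^ 420 * (C ^ 4 * L ^ 6) := by ring
        rw [this]
        have h7 : 0 < C ^ 4 * L ^ 6 := by positivity
        have h8 : (16 * 10 ^ 336 : ℝ) ≤ 10 ^ 420 := by norm_num
        nlinarith
      linarith
    rw [e3]
    have e6 : D = D ^ ((1 : ℝ) / 16) * D ^ ((15 : ℝ) / 16) := by
      rw [← Real.rpow_add hD0]
      norm_num
    conv_rhs => rw [e6]
    exact mul_le_mul_of_nonneg_right (le_trans e5 e4) (by positivity)
  · -- (3)
    have f1 : 10 ^ 12 * B * (2 * C) ^ 2 * L ^ 3 ≤ X := by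
      rw [hXd]
      have : 0 < B * C ^ 2 * L ^ 3 := by positivity
      nlinarith
    have f2 : (10 ^ 12 * B * (2 * C) ^ 2 * L ^ 3) ^ (11 * q) ≤ X ^ (11 * q) :=
      Real.rpow_le_rpow (by positivity) f1 (by linarith)
    set Y : ℝ := 2 * 10 ^ 14 * C * L ^ ((3 : ℝ) / 2) with hY
    have hY1 : 1 ≤ Y := by
      rw [hY]
      have : 1 ≤ C * L ^ ((3 : ℝ) / 2) := one_le_mul_of_one_le_of_one_le hC hL32
      nlinarith
    have f3 : C * l = Y * D ^ ((15 : ℝ) / 64) := by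
      rw [hl, hY]; ring
    have f4 : (C * l) ^ ((1 : ℝ) / 2) ≤ Y * D ^ ((15 : ℝ) / 128) := by
      rw [f3, Real.mul_rpow (by linarith) (by positivity), ← Real.rpow_mul hD0.le]
      have h1 : Y ^ ((1 : ℝ) / 2) ≤ Y := by
        conv_rhs => rw [← Real.rpow_one Y]
        exact Real.rpow_le_rpow_of_exponent_le hY1 (by norm_num)
      have h2 : (15 : ℝ) / 64 * (1 / 2) = 15 / 128 := by norm_num
      rw [h2]
      exact mul_le_mul_of_nonneg_right h1 (by positivity)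
    have f5 : 10 ^ 47 * C * Y ≤ X ^ (5 : ℕ) := by
      have h2 : 10 ^ 14 * (C ^ 2 * L ^ 3) * (10 ^ 14 : ℝ) ^ 4 ≤ X * X ^ 4 :=
        mul_le_mul hXBC (pow_le_pow_left₀ (by norm_num) hX14 4) (by positivity) (by positivity)
      have h3 : X * X ^ 4 = X ^ 5 := by ring
      have h4 : 10 ^ 47 * C * Y ≤ 10 ^ 14 * (C ^ 2 * L ^ 3) * (10 ^ 14 : ℝ) ^ 4 := by
        rw [hY]
        have h5 : C ^ 2 * L ^ ((3 : ℝ) / 2) ≤ C ^ 2 * L ^ 3 :=
          mul_le_mul_of_nonneg_left hL32' (by positivity)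
        have h6 : 0 < C ^ 2 * L ^ ((3 : ℝ) / 2) := by positivity
        have e : 10 ^ 47 * C * (2 * 10 ^ 14 * C * L ^ ((3 : ℝ) / 2)) =
          2 * 10 ^ 61 * (C ^ 2 * L ^ ((3 : ℝ) / 2)) := by ring
        have e' : 10 ^ 14 * (C ^ 2 * L ^ 3) * (10 ^ 14 : ℝ) ^ 4 = 10 ^ 70 * (C ^ 2 * L ^ 3) := by
          ring
        rw [e, e']
        nlinarith
      linarith
    have f6 : X ^ (11 * q) * X ^ (5 : ℕ) ≤ D ^ ((1 : ℝ) / 128) := by
      have h1 : X ^ (11 * q) * X ^ (5 : ℕ) = X ^ (11 * q + 5) := by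
        rw [Real.rpow_add hX0, ← Real.rpow_natCast X 5]
        norm_num
      have h2 : X ^ (11 * q + 5) ≤ X ^ (2000 * q * (1 / 128)) :=
        Real.rpow_le_rpow_of_exponent_le hX1 (by linarith)
      have h3 := Real.rpow_le_rpow (by positivity) hX (by norm_num : (0 : ℝ) ≤ 1 / 128)
      rw [← Real.rpow_mul hX0.le] at h3
      rw [h1]
      exact le_trans h2 h3
    have f7 : D ^ ((1 : ℝ) / 8) = D ^ ((1 : ℝ) / 128) * D ^ ((15 : ℝ) / 128) := by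
      rw [← Real.rpow_add hD0]
      norm_num
    rw [f7]
    calc (10 ^ 12 * B * (2 * C) ^ 2 * L ^ 3) ^ (11 * q) * (10 ^ 47 * C * (C * l) ^ ((1 : ℝ) / 2))
        ≤ X ^ (11 * q) * (10 ^ 47 * C * (Y * D ^ ((15 : ℝ) / 128))) := by
          apply mul_le_mul f2 _ (by positivity) (by positivity)
          exact mul_le_mul_of_nonneg_left f4 (by positivity)
      _ = X ^ (11 * q) * (10 ^ 47 * C * Y) * D ^ ((15 : ℝ) / 128) := by ring
      _ ≤ X ^ (11 * q) * X ^ (5 : ℕ) * D ^ ((15 : ℝ) / 128) := by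
          apply mul_le_mul_of_nonneg_right _ (by positivity)
          exact mul_le_mul_of_nonneg_left f5 (by positivity)
      _ ≤ _ := mul_le_mul_of_nonneg_right f6 (by positivity)

end Pool.Agent.T2h52.FC
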