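import Pool.Agent.T2h52.FC.Dich
import Pool.Agent.T2h52.FC.NU2

/-!
# Norms of finite cotype: the final assembly
-/

set_option autoImplicit false

namespace Pool.Agent.T2h52.FC

open MeasureTheory Set Filter Topology
open scoped ENNReal InnerProductSpace Pointwise
open Pool.Agent.N555.RZ (mP Spr)
open Pool.Agent.TH591.Lie (polarAt)
open Pool.Agent.T2h52.SP
open Pool.Agent.T2h52.SQ
open Pool.Agent.T2h52.SO

/-- norms of finite cotype -/
theorem cot (hM : X_MBT) {d : ℕ} {K : Set (E d)} {o : E d} {C q B : ℝ} {n : E d → ℝ} (hd : 2 ≤ d)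
    (hq : 2 ≤ q) (hB : 1 ≤ B) (hC : 1 ≤ C)
    (hKc : IsCompact K) (hK : Convex ℝ K) (ho : o ∈ interior K)
    (hna : ∀ u v, n (u + v) ≤ n u + n v) (hns : ∀ (c : ℝ) u, n (c • u) = |c| * n u)
    (hn1 : ∀ u : E d, ∃ y ∈ K, n u ≤ ⟪u, y - o⟫_ℝ)
    (hn2 : ∀ u : E d, ∀ y ∈ K, ⟪u, y - o⟫_ℝ ≤ C * n u)
    (hco : ∀ (m : ℕ) (x : Fin m → E d), (∑ i, n (x i) ^ q) ^ (1 / q) ≤
      B * Real.sqrt (sm n x))
    (hnum : (10 ^ 14 * B * C ^ 2 * Real.log (d + 1) ^ 3) ^ (2000 * q) ≤ (d : ℝ)) :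
    ∃ T : Finset (E d), polarAt K o ⊆ ⋃ t ∈ T, (fun x => t + x) '' interior (polarAt K o) ∧
      T.card < 2 ^ d := by
  obtain ⟨hP, hQ, hgQ, hg⟩ := SO.pol d C K o n hKc hK ho hC hna hns hn1 hn2
  set Q : Set (E d) := {u : E d | n u ≤ 1} with hQd
  have hgn : gauge Q = n := funext hgQ
  have hs : ∀ u, gauge Q u ≤ gauge (polarAt K o) u ∧ gauge (polarAt K o) u ≤ C * gauge Q u :=
    fun u => by rw [hgQ u]; exact hg u
  obtain ⟨n0, n1, n2⟩ := nu2 d q B C _ hd hq hB hC rfl hnum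
  obtain ⟨b, hb⟩ := exists_bc hP
  refine cov_gen img z_iso z_crt hP hb hQ hs _ q B hd hq hB n0 (fun A hA hB hB2 hi => ?_) n1 ?_ n2
  · have hQ' := (img d (polarAt K o) Q A C b hP hb hQ hs).2.2.1
    exact hM d (A '' polarAt K o) (A '' Q) C (A b) hd hB hB2 hA hQ' hi
  · rw [hgn]
    exact hco

/-- the dimension is at least `2` -/
theorem two_le {d : ℕ} {X e : ℝ} (hd : 1 ≤ d) (hX : 10 ^ 14 * Real.log (d + 1) ^ 3 ≤ X) (he : 1 ≤ e)
    (h : X ^ e ≤ (d : ℝ)) : 2 ≤ d := by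
  by_contra hc
  have hd1 : d = 1 := by omega
  subst hd1
  have e0 : ((1 : ℕ) : ℝ) + 1 = 2 := by norm_num
  rw [e0] at hX
  have h1 : (69 / 100 : ℝ) ≤ Real.log 2 := by
    have := Real.log_two_gt_d9
    linarith
  have h2 : (69 / 100 : ℝ) ^ 3 ≤ Real.log 2 ^ 3 := pow_le_pow_left₀ (by norm_num) h1 3
  have h3 : (2 : ℝ) ≤ X := by
    refine le_trans ?_ hX
    have h6 : (3 / 10 : ℝ) ≤ (69 / 100) ^ 3 := by norm_num
    linarith
  have h4 : X ≤ X ^ e := by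
    conv_lhs => rw [← Real.rpow_one X]
    exact Real.rpow_le_rpow_of_exponent_le (by linarith) he
  have h5 : X ^ e ≤ 1 := by simpa using h
  linarith

end Pool.Agent.T2h52.FC
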