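import Pool.Agent.T2h52.FC.Stm

/-! # The standard Gaussian measure has the Gaussian density (`X_GMG`) -/

set_option autoImplicit false

namespace Pool.Agent.T2h52.FC

open MeasureTheory Set Filter Topology ProbabilityTheory
open scoped ENNReal InnerProductSpace Pointwise
open Pool.Agent.T2h52.SP

namespace GMG

/-- the normalizing constant -/
noncomputable def cc (d : ℕ) : ℝ := ∫ y : E d, Real.exp (-(‖y‖ ^ 2 / 2))

/-- the density -/
noncomputable def de {d : ℕ} (y : E d) : ℝ := (cc d)⁻¹ * Real.exp (-(‖y‖ ^ 2 / 2))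

theorem cc_eq (d : ℕ) : cc d = (2 * Real.pi) ^ ((d : ℝ) / 2) := by
  have h := GaussianFourier.integral_rexp_neg_mul_sq_norm (V := E d) (b := 1 / 2) (by norm_num)
  unfold cc
  have h1 : (fun y : E d => Real.exp (-(‖y‖ ^ 2 / 2))) =
      fun y : E d => Real.exp (-(1 / 2) * ‖y‖ ^ 2) := by
    funext y
    congr 1
    ring
  rw [h1, h]
  congr 1
  · ring
  · rw [finrank_euclideanSpace, Fintype.card_fin]

theorem cc_pos (d : ℕ) : 0 < cc d := by
  rw [cc_eq]
  exact Real.rpow_pos_of_pos (by positivity) _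

theorem de_nonneg {d : ℕ} (y : E d) : 0 ≤ de y :=
  mul_nonneg (inv_nonneg.2 (cc_pos d).le) (Real.exp_pos _).le

theorem de_cont (d : ℕ) : Continuous (de : E d → ℝ) := by
  unfold de
  fun_prop

theorem exp_int (d : ℕ) : Integrable (fun y : E d => Real.exp (-(‖y‖ ^ 2 / 2))) := by
  by_contra h
  have h1 : cc d = 0 := integral_undef h
  exact absurd h1 (cc_pos d).ne'

theorem de_int (d : ℕ) : Integrable (de : E d → ℝ) := (exp_int d).const_mul _

/-- the measure with this density -/
noncomputable def nd (d : ℕ) : Measure (E d) := volume.withDensity fun y => ENNReal.ofReal (de y)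

theorem nd_int {d : ℕ} {F : Type*} [NormedAddCommGroup F] [NormedSpace ℝ F] (g : E d → F) :
    ∫ y, g y ∂(nd d) = ∫ y, de y • g y := by
  unfold nd
  rw [integral_withDensity_eq_integral_toReal_smul (de_cont d).measurable.ennreal_ofReal
    (Filter.Eventually.of_forall fun _ => ENNReal.ofReal_lt_top)]
  refine integral_congr_ae (Filter.Eventually.of_forall fun y => ?_)
  simp only []
  rw [ENNReal.toReal_ofReal (de_nonneg y)]

instance (d : ℕ) : IsFiniteMeasure (nd d) := by
  unfold nd
  exact isFiniteMeasure_withDensity_ofReal (de_int d).2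

theorem nd_eq (d : ℕ) : nd d = ga d := by
  refine Measure.ext_of_charFun (funext fun t => ?_)
  rw [charFun_stdGaussian, charFun_apply, nd_int]
  have h := GaussianFourier.integral_cexp_neg_mul_sq_norm_add (V := E d) (b := 1 / 2) (by norm_num)
    Complex.I t
  have h1 : (fun y : E d => de y • Complex.exp (((⟪y, t⟫_ℝ : ℝ) : ℂ) * Complex.I)) =
      fun y : E d => ((cc d)⁻¹ : ℂ) * Complex.exp (-(1 / 2) * ‖y‖ ^ 2 + Complex.I * ⟪t, y⟫_ℝ) := by
    funext y
    rw [Complex.exp_add, Complex.real_smul, de, real_inner_comm]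
    push_cast
    rw [mul_comm Complex.I, mul_assoc]
    congr 3
    ring
  rw [h1, integral_const_mul, h, cc_eq, finrank_euclideanSpace, Fintype.card_fin]
  have h2 : ((Real.pi : ℂ) / (1 / 2)) ^ ((d : ℂ) / 2) =
      (((2 * Real.pi) ^ ((d : ℝ) / 2) : ℝ) : ℂ) := by
    rw [Complex.ofReal_cpow (by positivity)]
    push_cast
    congr 1
    ring
  have h3 : (((2 * Real.pi) ^ ((d : ℝ) / 2) : ℝ) : ℂ) ≠ 0 := by
    rw [Complex.ofReal_ne_zero]
    exact (Real.rpow_pos_of_pos (by positivity) _).ne'
  rw [h2, ← mul_assoc, inv_mul_cancel₀ h3, one_mul]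
  congr 1
  rw [Complex.I_sq]
  ring

end GMG

theorem gmg : X_GMG := by
  intro d g
  rw [← GMG.nd_eq, GMG.nd_int]
  unfold gm
  rw [← integral_const_mul]
  refine integral_congr_ae (Filter.Eventually.of_forall fun y => ?_)
  simp only [GMG.de, GMG.cc, smul_eq_mul]
  ring

end Pool.Agent.T2h52.FC
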