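import Pool.Agent.T2h52.FC.Stm

/-!
# Project FC: task MEH (Mehler's expansion), part A: the kernel forms
-/

set_option autoImplicit false

namespace Pool.Agent.T2h52.FC

open MeasureTheory Set Filter Topology ProbabilityTheory
open scoped ENNReal InnerProductSpace Pointwise
open Pool.Agent.T2h52.SP

namespace MEH

variable {d : ℕ}

/-- finite combinations of exponentials -/
abbrev TT (d : ℕ) : Type := E d →₀ ℝ

/-- the bilinear form of a kernel -/
noncomputable def KB (K : E d → E d → ℝ) : TT d →ₗ[ℝ] TT d →ₗ[ℝ] ℝ :=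
  Finsupp.linearCombination ℝ (fun t => Finsupp.linearCombination ℝ (fun u => K t u))

theorem KB_single (K : E d → E d → ℝ) (t u : E d) (a c : ℝ) :
    KB K (Finsupp.single t a) (Finsupp.single u c) = a * (c * K t u) := by
  simp [KB, Finsupp.linearCombination_single]

theorem bil_induction {P : TT d → TT d → Prop} (h0l : ∀ β, P 0 β) (h0r : ∀ α, P α 0)
    (hl : ∀ α α' β, P α β → P α' β → P (α + α') β) (hr : ∀ α β β', P α β → P α β' → P α (β + β'))
    (hs : ∀ t u a c, P (Finsupp.single t a) (Finsupp.single u c)) (α β : TT d) : P α β := by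
  induction α using Finsupp.induction_linear with
  | zero => exact h0l β
  | add α α' h1 h2 => exact hl _ _ _ h1 h2
  | single t a =>
    induction β using Finsupp.induction_linear with
    | zero => exact h0r _
    | add β β' h1 h2 => exact hr _ _ _ h1 h2
    | single u c => exact hs t u a c

theorem KB_symm (K : E d → E d → ℝ) (hK : ∀ t u, K t u = K u t) (α β : TT d) :
    KB K α β = KB K β α := by
  refine bil_induction (P := fun α β => KB K α β = KB K β α) ?_ ?_ ?_ ?_ ?_ α β
  · intro β; simp
  · intro α; simp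
  · intro α α' β h1 h2
    rw [map_add, LinearMap.add_apply, h1, h2, map_add]
  · intro α β β' h1 h2
    rw [map_add, h1, h2, map_add, LinearMap.add_apply]
  · intro t u a c
    rw [KB_single, KB_single, hK t u]
    ring

theorem KB_apply (K : E d → E d → ℝ) (α β : TT d) :
    KB K α β = ∑ t ∈ α.support, ∑ u ∈ β.support, α t * (β u * K t u) := by
  rw [KB, Finsupp.linearCombination_apply, Finsupp.sum, LinearMap.sum_apply]
  refine Finset.sum_congr rfl fun t _ => ?_
  rw [LinearMap.smul_apply, Finsupp.linearCombination_apply, Finsupp.sum, smul_eq_mul,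
    Finset.mul_sum]
  refine Finset.sum_congr rfl fun u _ => ?_
  rw [smul_eq_mul]

/-- the kernel of degree `k` -/
noncomputable def Kk (k : ℕ) (t u : E d) : ℝ := ⟪t, u⟫_ℝ ^ k / (k.factorial : ℝ)

theorem KB_nonneg (hS : X_SCH) (k : ℕ) (α : TT d) : 0 ≤ KB (Kk k) α α := by
  classical
  rw [KB_apply]
  have e := α.support.equivFin
  have h := hS d α.support.card k (fun i => ((e.symm i : α.support) : E d))
    (fun i => α ((e.symm i : α.support) : E d))
  have h1 : ∀ G : E d → ℝ, ∑ t ∈ α.support, G t =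
      ∑ i : Fin α.support.card, G ((e.symm i : α.support) : E d) := by
    intro G
    rw [← Finset.sum_coe_sort α.support G]
    exact (Equiv.sum_comp e.symm (fun x : α.support => G (x : E d))).symm
  have h2 : ∑ t ∈ α.support, ∑ u ∈ α.support, α t * (α u * Kk k t u) =
      (∑ a, ∑ b, α ((e.symm a : α.support) : E d) * α ((e.symm b : α.support) : E d) *
        ⟪((e.symm a : α.support) : E d), ((e.symm b : α.support) : E d)⟫_ℝ ^ k) /
        (k.factorial : ℝ) := by
    rw [h1, Finset.sum_div]
    refine Finset.sum_congr rfl fun i _ => ?_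
    rw [h1, Finset.sum_div]
    refine Finset.sum_congr rfl fun j _ => ?_
    rw [Kk]
    ring
  rw [h2]
  exact div_nonneg h (Nat.cast_nonneg _)

theorem KB_cs (K : E d → E d → ℝ) (hK : ∀ t u, K t u = K u t) (hp : ∀ α : TT d, 0 ≤ KB K α α)
    (α β : TT d) : KB K α β ^ 2 ≤ KB K α α * KB K β β := by
  have h : ∀ s : ℝ, 0 ≤ KB K β β * (s * s) + (2 * KB K α β) * s + KB K α α := by
    intro s
    have h1 := hp (α + s • β)
    have h2 : KB K (α + s • β) (α + s • β) =
        KB K β β * (s * s) + (2 * KB K α β) * s + KB K α α := by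
      simp only [map_add, LinearMap.add_apply, map_smul, LinearMap.smul_apply, smul_eq_mul]
      rw [KB_symm K hK β α]
      ring
    rwa [h2] at h1
  have h3 := discrim_le_zero h
  rw [discrim] at h3
  nlinarith

theorem hasSum_Kk (ρ : ℝ) (t u : E d) :
    HasSum (fun k : ℕ => Kk k t u * ρ ^ k) (Real.exp (ρ * ⟪t, u⟫_ℝ)) := by
  have h := NormedSpace.expSeries_div_hasSum_exp (ρ * ⟪t, u⟫_ℝ)
  rw [← Real.exp_eq_exp_ℝ] at h
  refine h.congr_fun ?_ 
  intro k
  rw [Kk, mul_pow]
  ring

/-- the kernel of the whole series -/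
noncomputable def Ke (ρ : ℝ) (t u : E d) : ℝ := Real.exp (ρ * ⟪t, u⟫_ℝ)

theorem hasSum_KB (ρ : ℝ) (α β : TT d) :
    HasSum (fun k : ℕ => KB (Kk k) α β * ρ ^ k) (KB (Ke ρ) α β) := by
  refine bil_induction (P := fun α β =>
    HasSum (fun k : ℕ => KB (Kk k) α β * ρ ^ k) (KB (Ke ρ) α β)) ?_ ?_ ?_ ?_ ?_ α β
  · intro β
    simp
  · intro α
    simp
  · intro α α' β h1 h2
    have h3 := h1.add h2
    rw [map_add, LinearMap.add_apply]
    refine h3.congr_fun ?_
    intro k
    rw [map_add, LinearMap.add_apply, add_mul]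
  · intro α β β' h1 h2
    have h3 := h1.add h2
    rw [map_add]
    refine h3.congr_fun ?_
    intro k
    rw [map_add, add_mul]
  · intro t u a c
    rw [KB_single, Ke]
    have h3 := ((hasSum_Kk ρ t u).mul_left c).mul_left a
    refine h3.congr_fun ?_
    intro k
    rw [KB_single]
    ring

theorem Kk_symm (k : ℕ) (t u : E d) : Kk k t u = Kk k u t := by
  rw [Kk, Kk, real_inner_comm]

theorem KB_diag_le (hS : X_SCH) (k : ℕ) (α : TT d) : KB (Kk k) α α ≤ KB (Ke 1) α α := by
  have h := hasSum_KB 1 α α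
  simp only [one_pow, mul_one] at h
  exact le_hasSum h k fun j _ => KB_nonneg hS j α

/-- the main bound -/
theorem KB_abs_le (hS : X_SCH) (k : ℕ) (α β : TT d) :
    |KB (Kk k) α β| ≤ Real.sqrt (KB (Ke 1) α α) * Real.sqrt (KB (Ke 1) β β) := by
  have h1 := KB_cs (Kk k) (Kk_symm k) (fun α => KB_nonneg hS k α) α β
  have ha := KB_nonneg hS k α
  have hb := KB_nonneg hS k β
  rw [← Real.sqrt_mul (ha.trans (KB_diag_le hS k α))]
  refine Real.abs_le_sqrt (h1.trans ?_)
  exact mul_le_mul (KB_diag_le hS k α) (KB_diag_le hS k β) hb (ha.trans (KB_diag_le hS k α))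

end MEH

end Pool.Agent.T2h52.FC
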