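import Pool.Agent.T2h52.FC.MEHA

/-!
# Project FC: task MEH (Mehler's expansion), part B: functions
-/

set_option autoImplicit false

namespace Pool.Agent.T2h52.FC

open MeasureTheory Set Filter Topology ProbabilityTheory
open scoped ENNReal InnerProductSpace Pointwise
open Pool.Agent.T2h52.SP

namespace MEH

variable {d : ℕ}

/-- normalised exponential -/
noncomputable def ee (t : E d) (w : E d) : ℝ := Real.exp (-(‖t‖ ^ 2 / 2)) * Real.exp ⟪t, w⟫_ℝ

/-- the function of a finite combination -/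
noncomputable def fe (α : TT d) (w : E d) : ℝ := α.sum fun t a => a * ee t w

theorem fe_zero : fe (0 : TT d) = fun _ => 0 := by
  funext w
  simp [fe]

theorem fe_add (α β : TT d) : fe (α + β) = fun w => fe α w + fe β w := by
  funext w
  rw [fe, Finsupp.sum_add_index']
  · rfl
  · intro t; simp
  · intro t a b; ring

theorem fe_single (t : E d) (a : ℝ) : fe (Finsupp.single t a) = fun w => a * ee t w := by
  funext w
  rw [fe, Finsupp.sum_single_index]
  simp

theorem memLp_ee (hX : X_BEX) (t : E d) : MemLp (ee t) 2 (ga d) :=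
  ((hX d 0 t t (by norm_num)).1).const_mul _

theorem memLp_fe (hX : X_BEX) (α : TT d) : MemLp (fe α) 2 (ga d) := by
  induction α using Finsupp.induction_linear with
  | zero => rw [fe_zero]; exact MemLp.zero'
  | add α β h1 h2 => rw [fe_add]; exact h1.add h2
  | single t a => rw [fe_single]; exact (memLp_ee hX t).const_mul a

/-! ### `Bm` -/

theorem Bm_eq (hB : X_BCO) {ρ : ℝ} (hρ : |ρ| ≤ 1) {f g : E d → ℝ} (hf : MemLp f 2 (ga d))
    (hg : MemLp g 2 (ga d)) :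
    Bm ρ f g = ∫ z : E d × E d, f z.1 * g (ρ • z.1 + Real.sqrt (1 - ρ ^ 2) • z.2)
      ∂((ga d).prod (ga d)) := by
  rw [Bm, integral_prod _ (hB d ρ f g hρ hf hg).2.1]

theorem Bm_add_left (hB : X_BCO) {ρ : ℝ} (hρ : |ρ| ≤ 1) {f f' g : E d → ℝ}
    (hf : MemLp f 2 (ga d)) (hf' : MemLp f' 2 (ga d)) (hg : MemLp g 2 (ga d)) :
    Bm ρ (fun w => f w + f' w) g = Bm ρ f g + Bm ρ f' g := by
  rw [Bm_eq hB hρ (f := fun w => f w + f' w) (hf.add hf') hg, Bm_eq hB hρ hf hg,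
    Bm_eq hB hρ hf' hg, ← integral_add (hB d ρ f g hρ hf hg).2.1 (hB d ρ f' g hρ hf' hg).2.1]
  refine integral_congr_ae (Eventually.of_forall fun z => ?_)
  simp only
  ring

theorem Bm_add_right (hB : X_BCO) {ρ : ℝ} (hρ : |ρ| ≤ 1) {f g g' : E d → ℝ}
    (hf : MemLp f 2 (ga d)) (hg : MemLp g 2 (ga d)) (hg' : MemLp g' 2 (ga d)) :
    Bm ρ f (fun w => g w + g' w) = Bm ρ f g + Bm ρ f g' := by
  rw [Bm_eq hB hρ (g := fun w => g w + g' w) hf (hg.add hg'), Bm_eq hB hρ hf hg,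
    Bm_eq hB hρ hf hg', ← integral_add (hB d ρ f g hρ hf hg).2.1 (hB d ρ f g' hρ hf hg').2.1]
  refine integral_congr_ae (Eventually.of_forall fun z => ?_)
  simp only
  ring

theorem Bm_zero_left (ρ : ℝ) (g : E d → ℝ) : Bm ρ (fun _ => 0) g = 0 := by
  simp [Bm]

theorem Bm_zero_right (ρ : ℝ) (f : E d → ℝ) : Bm ρ f (fun _ => 0) = 0 := by
  simp [Bm]

theorem Bm_smul (ρ a c : ℝ) (f g : E d → ℝ) :
    Bm ρ (fun w => a * f w) (fun w => c * g w) = a * (c * Bm ρ f g) := by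
  rw [Bm, Bm, ← integral_const_mul, ← integral_const_mul]
  refine integral_congr_ae (Eventually.of_forall fun w => ?_)
  simp only
  rw [← integral_const_mul, ← integral_const_mul]
  refine integral_congr_ae (Eventually.of_forall fun w' => ?_)
  simp only
  ring

theorem Bm_ee (hX : X_BEX) {ρ : ℝ} (hρ : |ρ| ≤ 1) (t u : E d) : Bm ρ (ee t) (ee u) = Ke ρ t u := by
  have h := (hX d ρ t u hρ).2
  have h1 := Bm_smul ρ (Real.exp (-(‖t‖ ^ 2 / 2))) (Real.exp (-(‖u‖ ^ 2 / 2)))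
    (fun w : E d => Real.exp ⟪t, w⟫_ℝ) (fun w : E d => Real.exp ⟪u, w⟫_ℝ)
  have h2 : Bm ρ (ee t) (ee u) = Bm ρ (fun w : E d => Real.exp (-(‖t‖ ^ 2 / 2)) * Real.exp ⟪t, w⟫_ℝ)
      (fun w : E d => Real.exp (-(‖u‖ ^ 2 / 2)) * Real.exp ⟪u, w⟫_ℝ) := rfl
  rw [h2, h1, h, Ke, ← Real.exp_add, ← Real.exp_add]
  congr 1
  ring

theorem Bm_fe (hX : X_BEX) (hB : X_BCO) {ρ : ℝ} (hρ : |ρ| ≤ 1) (α β : TT d) :
    Bm ρ (fe α) (fe β) = KB (Ke ρ) α β := by
  refine bil_induction (P := fun α β => Bm ρ (fe α) (fe β) = KB (Ke ρ) α β) ?_ ?_ ?_ ?_ ?_ α β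
  · intro β
    rw [fe_zero, Bm_zero_left]; simp
  · intro α
    rw [fe_zero, Bm_zero_right]; simp
  · intro α α' β h1 h2
    rw [fe_add, Bm_add_left hB hρ (memLp_fe hX α) (memLp_fe hX α') (memLp_fe hX β), h1, h2,
      map_add, LinearMap.add_apply]
  · intro α β β' h1 h2
    rw [fe_add, Bm_add_right hB hρ (memLp_fe hX α) (memLp_fe hX β) (memLp_fe hX β'), h1, h2,
      map_add]
  · intro t u a c
    rw [fe_single, fe_single, Bm_smul, Bm_ee hX hρ, KB_single]

theorem KB_one (hX : X_BEX) (hB : X_BCO) (α : TT d) : KB (Ke 1) α α = ∫ w, fe α w ^ 2 ∂(ga d) := by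
  rw [← Bm_fe hX hB (ρ := 1) (by norm_num), Bm]
  refine integral_congr_ae (Eventually.of_forall fun w => ?_)
  simp only [one_pow, sub_self, Real.sqrt_zero, zero_smul, add_zero, one_smul]
  rw [integral_const]
  simp [pow_two]

/-- the norm -/
noncomputable def N2 (f : E d → ℝ) : ℝ := Real.sqrt (∫ w, f w ^ 2 ∂(ga d))

theorem norm_toLp {f : E d → ℝ} (hf : MemLp f 2 (ga d)) : ‖hf.toLp f‖ = N2 f := by
  rw [norm_eq_sqrt_real_inner, L2.inner_def, N2]
  congr 1
  refine integral_congr_ae ?_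
  filter_upwards [hf.coeFn_toLp] with w hw
  rw [hw]
  simp [pow_two]

theorem N2_nonneg (f : E d → ℝ) : 0 ≤ N2 f := Real.sqrt_nonneg _

/-- the bound on the span -/
theorem KB_abs_le' (hS : X_SCH) (hX : X_BEX) (hB : X_BCO) (k : ℕ) (α β : TT d) :
    |KB (Kk k) α β| ≤ N2 (fe α) * N2 (fe β) := by
  have h := KB_abs_le hS k α β
  rwa [KB_one hX hB, KB_one hX hB] at h

/-! ### Density -/

/-- the exponentials in `L²` -/
noncomputable def EL (hX : X_BEX) (t : E d) : Lp ℝ 2 (ga d) := (memLp_ee hX t).toLp (ee t)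

theorem linComb_EL (hX : X_BEX) (α : TT d) :
    Finsupp.linearCombination ℝ (EL hX) α = (memLp_fe hX α).toLp (fe α) := by
  induction α using Finsupp.induction_linear with
  | zero =>
    rw [map_zero]
    symm
    rw [MemLp.toLp_eq_toLp_iff (g := fun _ => 0) (memLp_fe hX (0 : TT d)) MemLp.zero' |>.2]
    · rfl
    · rw [fe_zero]
  | add α β h1 h2 =>
    rw [map_add, h1, h2, ← MemLp.toLp_add, MemLp.toLp_eq_toLp_iff, fe_add]
    rfl
  | single t a =>
    rw [Finsupp.linearCombination_single, EL, ← MemLp.toLp_const_smul, MemLp.toLp_eq_toLp_iff,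
      fe_single]
    rfl

theorem dense_EL (hX : X_BEX) (hD : X_DEN) :
    (Submodule.span ℝ (range (EL (d := d) hX))).topologicalClosure = ⊤ := by
  rw [Submodule.topologicalClosure_eq_top_iff, Submodule.eq_bot_iff]
  intro F hF
  have h1 : ∀ t : E d, ∫ w, F w * Real.exp ⟪t, w⟫_ℝ ∂(ga d) = 0 := by
    intro t
    have h2 := (Submodule.mem_orthogonal _ _).1 hF (EL hX t) (Submodule.subset_span ⟨t, rfl⟩)
    rw [L2.inner_def] at h2
    have h3 : ∫ w, ⟪(EL hX t : Lp ℝ 2 (ga d)) w, F w⟫_ℝ ∂(ga d) =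
        Real.exp (-(‖t‖ ^ 2 / 2)) * ∫ w, F w * Real.exp ⟪t, w⟫_ℝ ∂(ga d) := by
      rw [← integral_const_mul]
      refine integral_congr_ae ?_
      filter_upwards [(memLp_ee hX t).coeFn_toLp] with w hw
      rw [EL, hw, ee]
      simp
      ring
    rw [h3] at h2
    exact (mul_eq_zero.1 h2).resolve_left (Real.exp_pos _).ne'
  have h4 := hD d F (Lp.memLp F) h1
  exact (Lp.eq_zero_iff_ae_eq_zero).2 h4

theorem exists_approx (hX : X_BEX) (hD : X_DEN) {f : E d → ℝ} (hf : MemLp f 2 (ga d)) {ε : ℝ}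
    (hε : 0 < ε) : ∃ α : TT d, N2 (fun w => f w - fe α w) < ε := by
  have h1 : hf.toLp f ∈ (Submodule.span ℝ (range (EL (d := d) hX))).topologicalClosure := by
    rw [dense_EL hX hD]; trivial
  obtain ⟨x, hx, hx2⟩ := Metric.mem_closure_iff.1 h1 ε hε
  obtain ⟨α, rfl⟩ := (Finsupp.mem_span_range_iff_exists_finsupp).1 hx
  refine ⟨α, ?_⟩
  have h2 := linComb_EL hX α
  rw [Finsupp.linearCombination_apply] at h2
  rw [h2, dist_eq_norm, ← MemLp.toLp_sub] at hx2
  rw [norm_toLp (hf.sub (memLp_fe hX α))] at hx2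
  exact hx2

end MEH

end Pool.Agent.T2h52.FC
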