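import Pool.Agent.T2h52.FC.Stm
import Pool.Agent.N555.RZ.Mom
import Pool.Agent.N555.RZ.Iso

/-!
# MX1, MX2: common part
-/

set_option autoImplicit false

namespace Pool.Agent.T2h52.FC.MXaux

open MeasureTheory Set Filter Topology ProbabilityTheory
open scoped ENNReal InnerProductSpace Pointwise
open Pool.Agent.R755.KF (PB)
open Pool.Agent.N555.RZ
open Pool.Agent.T2h52.SP
open Pool.Agent.T2h52.SQ
open Pool.Agent.T2h52.SO

variable {d : ℕ} {P : Set (E d)} {a : ℝ}

theorem vol0 (hP : Bn P a) : volume P ≠ 0 :=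
  (Measure.measure_pos_of_mem_nhds volume (mem_interior_iff_mem_nhds.1 hP.int)).ne'

theorem prob (hP : Bn P a) : IsProbabilityMeasure (mP P) :=
  mP_prob (vol0 hP) hP.comp.measure_lt_top.ne

theorem intc (hP : Bn P a) {f : E d → ℝ} (hf : Continuous f) : Integrable f (mP P) :=
  int_K hP.comp (vol0 hP) hf

/-- Cauchy-Schwarz on a set -/
theorem cs (hP : Bn P a) {f : E d → ℝ} (hf : Continuous f) (A : Set (E d)) :
    (∫ x in A, f x ∂(mP P)) ^ 2 ≤ ((mP P) A).toReal * ∫ x in A, f x ^ 2 ∂(mP P) := by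
  have := prob hP
  have i1 : IntegrableOn f A (mP P) := (intc hP hf).integrableOn
  have i2 : IntegrableOn (fun x => f x ^ 2) A (mP P) := (intc hP (hf.pow 2)).integrableOn
  have key : ∀ t : ℝ, 0 ≤ ((mP P) A).toReal * (t * t) + (-2 * ∫ x in A, f x ∂(mP P)) * t +
      ∫ x in A, f x ^ 2 ∂(mP P) := by
    intro t
    have h1 : 0 ≤ ∫ x in A, (f x - t) ^ 2 ∂(mP P) := integral_nonneg fun x => sq_nonneg _
    have h2 : ∀ x, (f x - t) ^ 2 = (f x ^ 2 - 2 * t * f x) + t ^ 2 := fun x => by ring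
    have h4 : ∫ x in A, (f x - t) ^ 2 ∂(mP P) = ((∫ x in A, f x ^ 2 ∂(mP P)) -
        2 * t * ∫ x in A, f x ∂(mP P)) + ((mP P) A).toReal * t ^ 2 := by
      simp_rw [h2]
      rw [integral_add, integral_sub, integral_const_mul, setIntegral_const, smul_eq_mul]
      · rfl
      · exact i2
      · exact i1.const_mul _
      · exact i2.sub (i1.const_mul _)
      · exact (integrable_const _)
    rw [h4] at h1
    linarith
  have h := discrim_le_zero key
  unfold discrim at h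
  nlinarith

/-- the mean over a set and over its complement -/
theorem compl_mean (hP : Bn P a) (hI : Iso P) {B : Set (E d)} (hB : MeasurableSet B) (θ : E d) :
    (∫ x in B, ⟪x, θ⟫_ℝ ∂(mP P)) ^ 2 ≤ ((mP P) Bᶜ).toReal * ‖θ‖ ^ 2 := by
  have := prob hP
  have hc : Continuous fun x : E d => ⟪x, θ⟫_ℝ := by fun_prop
  have h1 : ∫ x in B, ⟪x, θ⟫_ℝ ∂(mP P) = - ∫ x in Bᶜ, ⟪x, θ⟫_ℝ ∂(mP P) := by
    have h2 := integral_add_compl hB (intc hP hc)
    rw [hP.bar θ] at h2
    linarith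
  rw [h1, neg_sq]
  refine (cs hP hc Bᶜ).trans (mul_le_mul_of_nonneg_left ?_ ENNReal.toReal_nonneg)
  rw [← hI θ]
  refine setIntegral_le_integral (intc hP (hc.pow 2)) (Eventually.of_forall fun x => sq_nonneg _)

/-- the set integral of a nonnegative function is at most the integral -/
theorem set_le (hP : Bn P a) {f : E d → ℝ} (hf : Continuous f) (h0 : ∀ x, 0 ≤ f x)
    (B : Set (E d)) : ∫ x in B, f x ∂(mP P) ≤ ∫ x, f x ∂(mP P) :=
  setIntegral_le_integral (intc hP hf) (Eventually.of_forall h0)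

theorem exp_sub_one (T : ℝ) : |Real.exp T - 1| ≤ |T| * Real.exp |T| := by
  rcases le_total 0 T with h | h
  · have h1 : 1 ≤ Real.exp T := Real.one_le_exp h
    rw [abs_of_nonneg (by linarith), abs_of_nonneg h]
    have h2 := Real.add_one_le_exp (-T)
    have h3 : Real.exp T * Real.exp (-T) = 1 := by
      rw [← Real.exp_add]
      simp
    nlinarith [Real.exp_pos T]
  · have h1 : Real.exp T ≤ 1 := Real.exp_le_one_iff.2 h
    rw [abs_of_nonpos (by linarith), abs_of_nonpos h]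
    have h2 := Real.add_one_le_exp T
    have h3 : 1 ≤ Real.exp (-T) := Real.one_le_exp (by linarith)
    nlinarith

theorem sq_exp (u : ℝ) : u ^ 2 ≤ 8 * Real.exp (|u| / 2) := by
  have h1 := Real.pow_div_factorial_le_exp (x := |u| / 2) (by positivity) 2
  have h2 : ((2 : ℕ).factorial : ℝ) = 2 := by norm_num
  rw [h2] at h1
  have h3 : u ^ 2 = |u| ^ 2 := (sq_abs u).symm
  rw [h3]
  nlinarith

theorem cube_exp (u : ℝ) : |u| ^ 3 ≤ 48 * Real.exp (|u| / 2) := by
  have h1 := Real.pow_div_factorial_le_exp (x := |u| / 2) (by positivity) 3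
  have h2 : ((3 : ℕ).factorial : ℝ) = 6 := by norm_num [Nat.factorial]
  rw [h2] at h1
  nlinarith

/-- bound for the square of `exp T - 1` -/
theorem b2 {τ : ℝ} (h0 : 0 ≤ τ) (h1 : τ ≤ 1 / 4) (u : ℝ) :
    (Real.exp (τ * u) - 1) ^ 2 ≤ 8 * τ ^ 2 * Real.exp |u| := by
  have e1 := exp_sub_one (τ * u)
  rw [abs_mul, abs_of_nonneg h0] at e1
  have e2 : Real.exp (τ * |u|) ≤ Real.exp (|u| / 4) := by
    apply Real.exp_le_exp.2
    nlinarith [abs_nonneg u]
  have e3 : (Real.exp (τ * u) - 1) ^ 2 ≤ (τ * |u| * Real.exp (|u| / 4)) ^ 2 := by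
    rw [← sq_abs (Real.exp (τ * u) - 1)]
    refine pow_le_pow_left₀ (abs_nonneg _) (e1.trans ?_) 2
    exact mul_le_mul_of_nonneg_left e2 (by positivity)
  refine e3.trans ?_
  have e4 : (τ * |u| * Real.exp (|u| / 4)) ^ 2 = τ ^ 2 * u ^ 2 * Real.exp (|u| / 2) := by
    rw [mul_pow, mul_pow, sq_abs, ← Real.exp_nat_mul]
    congr 2
    push_cast
    ring
  rw [e4]
  have e5 : Real.exp |u| = Real.exp (|u| / 2) * Real.exp (|u| / 2) := by
    rw [← Real.exp_add]
    congr 1
    ring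
  rw [e5]
  have e6 := sq_exp u
  calc τ ^ 2 * u ^ 2 * Real.exp (|u| / 2) ≤
      τ ^ 2 * (8 * Real.exp (|u| / 2)) * Real.exp (|u| / 2) := by gcongr
    _ = _ := by ring

/-- bound for `T (exp T - 1)` -/
theorem b3 {τ : ℝ} (h0 : 0 ≤ τ) (h1 : τ ≤ 1 / 4) (u : ℝ) :
    τ * u * (Real.exp (τ * u) - 1) ≤ (τ * u) ^ 2 + 48 * τ ^ 3 * Real.exp |u| := by
  set T := τ * u with hT
  have e1 := exp_sub_one T
  have e2 : T * (Real.exp T - 1) ≤ |T| * (|T| * Real.exp |T|) := by
    calc T * (Real.exp T - 1) ≤ |T * (Real.exp T - 1)| := le_abs_self _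
      _ = |T| * |Real.exp T - 1| := abs_mul _ _
      _ ≤ _ := mul_le_mul_of_nonneg_left e1 (abs_nonneg _)
  have e3 : Real.exp |T| ≤ 1 + |T| * Real.exp |T| := by
    have := exp_sub_one |T|
    rw [abs_abs] at this
    have h2 := le_abs_self (Real.exp |T| - 1)
    linarith
  have e4 : |T| * (|T| * Real.exp |T|) ≤ T ^ 2 + |T| ^ 3 * Real.exp |T| := by
    have h2 : T ^ 2 = |T| ^ 2 := (sq_abs T).symm
    rw [h2]
    nlinarith [mul_le_mul_of_nonneg_left e3 (sq_nonneg |T|)]
  have e5 : |T| ^ 3 * Real.exp |T| ≤ 48 * τ ^ 3 * Real.exp |u| := by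
    rw [hT, abs_mul, abs_of_nonneg h0, mul_pow]
    have h2 : Real.exp (τ * |u|) ≤ Real.exp (|u| / 2) := by
      apply Real.exp_le_exp.2
      nlinarith [abs_nonneg u]
    have h3 := cube_exp u
    have h4 : Real.exp |u| = Real.exp (|u| / 2) * Real.exp (|u| / 2) := by
      rw [← Real.exp_add]
      congr 1
      ring
    rw [h4]
    calc τ ^ 3 * |u| ^ 3 * Real.exp (τ * |u|) ≤
        τ ^ 3 * (48 * Real.exp (|u| / 2)) * Real.exp (|u| / 2) := by gcongr
      _ = _ := by ring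
  linarith

/-- continuous functions are integrable on products of truncated bodies -/
theorem int_prod (hP : Bn P a) {B : Set (E d)} (hB : MeasurableSet B) (hBP : B ⊆ P)
    {F : E d × E d → ℝ} (hF : Continuous F) :
    Integrable F (((mP P).restrict B).prod ((mP P).restrict B)) := by
  have := prob hP
  obtain ⟨C, hC⟩ := (hP.comp.prod hP.comp).exists_bound_of_continuousOn hF.continuousOn
  rw [Measure.prod_restrict]
  refine Integrable.of_bound hF.aestronglyMeasurable C ?_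
  filter_upwards [ae_restrict_mem (hB.prod hB)] with z hz
  exact hC z ⟨hBP hz.1, hBP hz.2⟩

theorem log_big {d : ℕ} (hd : 10 ^ 50 ≤ d) : 100 ≤ Real.log ((d : ℝ) + 1) := by
  have h1 : (10 : ℝ) ^ 50 ≤ d := by exact_mod_cast hd
  have h2 : (2 : ℝ) ≤ Real.log 10 := by
    rw [Real.le_log_iff_exp_le (by norm_num)]
    have h3 := Real.exp_one_lt_d9
    have h4 : Real.exp 2 = Real.exp 1 * Real.exp 1 := by
      rw [← Real.exp_add]
      norm_num
    rw [h4]
    nlinarith [Real.exp_pos 1]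
  calc (100 : ℝ) ≤ 50 * Real.log 10 := by linarith
    _ = Real.log (10 ^ 50) := by rw [Real.log_pow]; norm_num
    _ ≤ Real.log ((d : ℝ) + 1) := Real.log_le_log (by positivity) (by linarith)

end Pool.Agent.T2h52.FC.MXaux
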