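import Pool.Agent.T2h52.FC.Stm

/-!
# Project FC: task RPT (replicas: the tilted product measure)
-/

set_option autoImplicit false

namespace Pool.Agent.T2h52.FC

open MeasureTheory Set Filter Topology ProbabilityTheory
open scoped ENNReal InnerProductSpace Pointwise
open Pool.Agent.R755.KF (PB)
open Pool.Agent.T2h52.SP

namespace RPT

theorem prod_exp {X : Type} {n : ℕ} (f : X → ℝ) (x : Fin n → X) :
    Real.exp (∑ a, f (x a)) = ∏ a, Real.exp (f (x a)) := Real.exp_sum _ _

/-- the product of tilted measures -/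
theorem pi_tilted {X : Type} [MeasurableSpace X] (μ : Measure X) [IsProbabilityMeasure μ]
    (f : X → ℝ) (hf : Integrable (fun x => Real.exp (f x)) μ) (n : ℕ) :
    (Measure.pi fun _ : Fin n => μ.tilted f) =
      (Measure.pi fun _ : Fin n => μ).tilted (fun x => ∑ a, f (x a)) := by
  have hp : IsProbabilityMeasure (μ.tilted f) := isProbabilityMeasure_tilted hf
  have hI : ∫ x : Fin n → X, Real.exp (∑ a, f (x a)) ∂(Measure.pi fun _ => μ) =
      (∫ x, Real.exp (f x) ∂μ) ^ n := by
    simp only [prod_exp]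
    rw [integral_fintype_prod_eq_prod (fun _ : Fin n => fun x : X => Real.exp (f x))]
    simp
  refine Measure.pi_eq fun s hs => ?_
  rw [tilted_apply_eq_ofReal_integral' _ (MeasurableSet.univ_pi hs), hI, Measure.restrict_pi_pi]
  have h1 : ∀ x : Fin n → X, Real.exp (∑ a, f (x a)) / (∫ x, Real.exp (f x) ∂μ) ^ n =
      ∏ a, (Real.exp (f (x a)) / ∫ x, Real.exp (f x) ∂μ) := by
    intro x
    rw [prod_exp, Finset.prod_div_distrib]
    simp
  simp only [h1]
  rw [integral_fintype_prod_eq_prod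
    (fun _ : Fin n => fun x : X => Real.exp (f x) / ∫ x, Real.exp (f x) ∂μ),
    ENNReal.ofReal_prod_of_nonneg]
  · refine Finset.prod_congr rfl fun i _ => ?_
    rw [tilted_apply_eq_ofReal_integral' _ (hs i)]
  · intro i _
    exact integral_nonneg fun x => div_nonneg (Real.exp_pos _).le
      (integral_nonneg fun x => (Real.exp_pos _).le)

theorem ex_eq {d : ℕ} (s : ℝ) (w x : E d) :
    ex s (I1 d) w x = ⟪x, Real.sqrt s • w⟫_ℝ - s / 2 * ‖x‖ ^ 2 := by
  rw [ex, inner_smul_right]
  rfl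

end RPT

open RPT in
/-- RPT -/
theorem rpt (d n : ℕ) (B : ℝ) (μ : Measure (E d)) (F : (Fin n → E d) → ℝ) (hB : 0 ≤ B)
    (hμ : PB B μ) (_hF : Continuous F) (s : ℝ) (w : E d) (hs : 0 < s) :
    ∫ x, F x ∂(Measure.pi fun _ : Fin n => nu μ s (I1 d) w) =
      KN μ n F (s, Real.sqrt s • w) / KZ μ (s, Real.sqrt s • w) ^ n ∧
    Z μ s (I1 d) w = KZ μ (s, Real.sqrt s • w) ∧ 0 < KZ μ (s, Real.sqrt s • w) := by
  haveI := hμ.prob
  have hZ : Z μ s (I1 d) w = KZ μ (s, Real.sqrt s • w) := by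
    rw [Z, KZ]
    simp only [ex_eq]
  have hint : Integrable (fun x => Real.exp (ex s (I1 d) w x)) μ := by
    refine Integrable.of_bound (C := Real.exp (Real.sqrt s * B * ‖w‖)) ?_ ?_
    · have : Continuous fun x : E d => Real.exp (ex s (I1 d) w x) := by
        unfold ex
        fun_prop
      exact this.aestronglyMeasurable
    · filter_upwards [hμ.bdd] with x hx
      rw [Real.norm_eq_abs, Real.abs_exp, Real.exp_le_exp, ex]
      have h1 : ⟪(I1 d) x, w⟫_ℝ ≤ B * ‖w‖ := (real_inner_le_norm _ _).trans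
        (mul_le_mul_of_nonneg_right hx (norm_nonneg _))
      have h2 : Real.sqrt s * ⟪(I1 d) x, w⟫_ℝ ≤ Real.sqrt s * (B * ‖w‖) :=
        mul_le_mul_of_nonneg_left h1 (Real.sqrt_nonneg _)
      have h3 : 0 ≤ s / 2 * ‖(I1 d) x‖ ^ 2 := by positivity
      nlinarith
  have hpos : 0 < KZ μ (s, Real.sqrt s • w) := by
    rw [← hZ, Z]
    exact integral_exp_pos hint
  refine ⟨?_, hZ, hpos⟩
  have h1 : (Measure.pi fun _ : Fin n => nu μ s (I1 d) w) =
      (Measure.pi fun _ : Fin n => μ).tilted (fun x => ∑ a, ex s (I1 d) w (x a)) :=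
    pi_tilted μ _ hint n
  have hI : ∫ x : Fin n → E d, Real.exp (∑ a, ex s (I1 d) w (x a)) ∂(Measure.pi fun _ => μ) =
      KZ μ (s, Real.sqrt s • w) ^ n := by
    simp only [prod_exp]
    rw [integral_fintype_prod_eq_prod (fun _ : Fin n => fun x : E d => Real.exp (ex s (I1 d) w x)),
      ← hZ, Z]
    simp
  rw [h1, integral_tilted, hI, KN, ← integral_div]
  refine integral_congr_ae (Eventually.of_forall fun x => ?_)
  simp only [ex_eq, smul_eq_mul]
  ring

end Pool.Agent.T2h52.FC
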