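import Pool.Agent.T2h52.FC.Stm

/-! The trivial bound for the Gaussian mean (task SMA of project FC). -/

set_option autoImplicit false

namespace Pool.Agent.T2h52.FC

open MeasureTheory Set Filter Topology ProbabilityTheory
open scoped ENNReal InnerProductSpace Pointwise
open Pool.Agent.R755.KF (PB)
open Pool.Agent.N555.RZ (mP Spr)
open Pool.Agent.T2h52.SP
open Pool.Agent.T2h52.SQ
open Pool.Agent.T2h52.SO

namespace SMAA

/-- second moments of the coordinates -/
theorem sec (d : ℕ) (i : Fin d) : Integrable (fun w : E d => w i ^ 2) (ga d) ∧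
    ∫ w : E d, w i ^ 2 ∂(ga d) = 1 := by
  set L : StrongDual ℝ (E d) := innerSL ℝ (EuclideanSpace.single i (1 : ℝ)) with hL
  have hLw : ∀ w : E d, L w = w i := by
    intro w
    rw [hL, innerSL_apply_apply, PiLp.inner_apply, Finset.sum_eq_single i]
    · simp
    · intro j _ hj
      simp [hj]
    · intro h
      exact absurd (Finset.mem_univ _) h
  have hM : MemLp L 2 (ga d) := IsGaussian.memLp_dual _ L 2 (by simp)
  have hn : ‖L‖ = 1 := by
    rw [hL, innerSL_apply_norm]
    simp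
  have hv := variance_dual_stdGaussian L
  rw [variance_eq_sub hM, integral_strongDual_stdGaussian, hn] at hv
  constructor
  · have h1 := hM.integrable_sq
    simpa only [hLw] using h1
  · have h2 : ∫ w, (L w) ^ 2 ∂(ga d) = 1 := by
      have h3 : ∫ w, ((L : E d → ℝ) ^ 2) w ∂(ga d) = ∫ w, (L w) ^ 2 ∂(ga d) := rfl
      rw [← h3]
      simpa using hv
    simpa only [hLw] using h2

theorem norm_sq_int (d : ℕ) : Integrable (fun w : E d => ‖w‖ ^ 2) (ga d) ∧
    ∫ w : E d, ‖w‖ ^ 2 ∂(ga d) = d := by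
  have h1 : (fun w : E d => ‖w‖ ^ 2) = fun w => ∑ i, w i ^ 2 := by
    funext w
    rw [EuclideanSpace.norm_sq_eq]
    exact Finset.sum_congr rfl fun i _ => by rw [Real.norm_eq_abs, sq_abs]
  rw [h1]
  refine ⟨integrable_finsetSum _ fun i _ => (sec d i).1, ?_⟩
  rw [integral_finsetSum _ fun i _ => (sec d i).1]
  simp [(sec d _).2]

theorem norm_mean (d : ℕ) : Integrable (fun w : E d => ‖w‖) (ga d) ∧
    ∫ w : E d, ‖w‖ ∂(ga d) ≤ Real.sqrt d := by
  obtain ⟨h1, h2⟩ := norm_sq_int d
  have hM : MemLp (fun w : E d => ‖w‖) 2 (ga d) :=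
    (memLp_two_iff_integrable_sq continuous_norm.aestronglyMeasurable).2 h1
  refine ⟨hM.integrable one_le_two, ?_⟩
  have hv := variance_eq_sub hM
  have hv0 : 0 ≤ variance (fun w : E d => ‖w‖) (ga d) := variance_nonneg _ _
  have h3 : ∫ w : E d, ((fun w : E d => ‖w‖) ^ 2) w ∂(ga d) = d := h2
  rw [h3] at hv
  apply Real.le_sqrt_of_sq_le
  linarith

/-- the unit ball is in `Q` -/
theorem ball_sub {d : ℕ} {P Q : Set (E d)} {a : ℝ} (hP : Bn P a) (hI : Iso P) (hQ : Bd Q)
    (hPQ : ∀ u, gauge Q u ≤ gauge P u) : Metric.ball (0 : E d) 1 ⊆ Q := by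
  have hQ0 : Q ∈ 𝓝 (0 : E d) := mem_interior_iff_mem_nhds.1 hQ.int
  have hsub : P ⊆ Q := by
    intro x hx
    have h1 := (hPQ x).trans (gauge_le_one_of_mem hx)
    rw [gauge_le_one_iff_mem_closure hQ.conv hQ0, hQ.comp.isClosed.closure_eq] at h1
    exact h1
  intro v hv
  by_contra hvQ
  obtain ⟨f, u, h1, h2⟩ := geometric_hahn_banach_closed_point hQ.conv hQ.comp.isClosed hvQ
  have hu : 0 < u := by
    have := h1 0 (interior_subset hQ.int)
    rwa [map_zero] at this
  set y : E d := (InnerProductSpace.toDual ℝ (E d)).symm f with hy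
  have hf : ∀ x, f x = ⟪x, y⟫_ℝ := by
    intro x
    rw [real_inner_comm, hy, InnerProductSpace.toDual_symm_apply]
  have hfin : volume P ≠ ⊤ := hP.comp.measure_lt_top.ne
  have hne : volume P ≠ 0 :=
    ((isOpen_interior.measure_pos volume ⟨0, hP.int⟩).trans_le
      (measure_mono interior_subset)).ne'
  have := Pool.Agent.N555.RZ.mP_prob hne hfin
  have hI2 : ∫ z, ⟪z, y⟫_ℝ ^ 2 ∂(mP P) ≤ ∫ _z : E d, u ^ 2 ∂(mP P) := by
    refine integral_mono_of_nonneg (Eventually.of_forall fun z => sq_nonneg _)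
      (integrable_const _) ?_
    filter_upwards [Pool.Agent.N555.RZ.mP_ae hP.comp.isClosed.measurableSet] with z hz
    have h3 := h1 z (hsub hz)
    have h4 := h1 (-z) (hQ.sym z (hsub hz))
    rw [map_neg] at h4
    rw [hf] at h3 h4
    exact sq_le_sq' (by linarith) h3.le
  rw [hI y, integral_const] at hI2
  rw [probReal_univ, smul_eq_mul, one_mul] at hI2
  have hyu : ‖y‖ ≤ u := (pow_le_pow_iff_left₀ (norm_nonneg _) hu.le two_ne_zero).1 hI2
  have h5 : f v ≤ u := by
    rw [hf]
    have h6 := real_inner_le_norm v y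
    have h7 : ‖v‖ < 1 := by simpa using hv
    have h8 : ‖v‖ * ‖y‖ ≤ 1 * u := mul_le_mul h7.le hyu (norm_nonneg _) zero_le_one
    linarith
  linarith

end SMAA

open SMAA in
theorem sma : X_SMA := by
  intro d P Q a hP hI hQ hPQ
  have hb := ball_sub hP hI hQ hPQ
  have hg : ∀ w : E d, gauge Q w ≤ ‖w‖ := by
    intro w
    have h1 := gauge_mono (absorbent_ball_zero (zero_lt_one : (0 : ℝ) < 1)) hb w
    rwa [gauge_unit_ball] at h1
  refine le_trans ?_ (norm_mean d).2
  exact integral_mono_of_nonneg (Eventually.of_forall fun w => gauge_nonneg _)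
    (norm_mean d).1 (Eventually.of_forall hg)

end Pool.Agent.T2h52.FC
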