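import Pool.Agent.T2h52.FC.Stm

/-!
# (VAR) the variance of the truncated partition function
-/

set_option autoImplicit false

namespace Pool.Agent.T2h52.FC

open MeasureTheory Set Filter Topology ProbabilityTheory
open scoped ENNReal InnerProductSpace Pointwise
open Pool.Agent.R755.KF (PB)
open Pool.Agent.N555.RZ (mP Spr)
open Pool.Agent.T2h52.SP
open Pool.Agent.T2h52.SQ
open Pool.Agent.T2h52.SO

namespace VAR

variable {d : ℕ}

/-- projections -/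
theorem pj_inner {k : ℕ} {p : E d →L[ℝ] E d} (hp : Pj p k) :
    (∀ x y, ⟪p x, y⟫_ℝ = ⟪x, p y⟫_ℝ) ∧ (∀ x y, ⟪p x, p y⟫_ℝ = ⟪p x, y⟫_ℝ) ∧
      ∀ x, ‖p x‖ ≤ ‖x‖ := by
  obtain ⟨b, S, -, h⟩ := hp
  have h1 : ∀ x y, ⟪p x, y⟫_ℝ = ∑ i ∈ S, ⟪b i, x⟫_ℝ * ⟪b i, y⟫_ℝ := by
    intro x y
    rw [h, sum_inner]
    refine Finset.sum_congr rfl fun i _ => ?_
    rw [real_inner_smul_left]
  have h2 : ∀ x y, ⟪p x, y⟫_ℝ = ⟪x, p y⟫_ℝ := by
    intro x y
    have e : ⟪x, p y⟫_ℝ = ⟪p y, x⟫_ℝ := real_inner_comm _ _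
    rw [e, h1, h1]
    exact Finset.sum_congr rfl fun i _ => mul_comm _ _
  have h3 : ∀ y, ∀ i ∈ S, ⟪b i, p y⟫_ℝ = ⟪b i, y⟫_ℝ := by
    intro y i hi
    rw [h, inner_sum]
    rw [Finset.sum_eq_single i]
    · rw [real_inner_smul_right, real_inner_self_eq_norm_sq, b.orthonormal.1 i]
      ring
    · intro j _ hj
      rw [real_inner_smul_right, b.orthonormal.2 (Ne.symm hj), mul_zero]
    · intro hn
      exact absurd hi hn
  have h4 : ∀ x y, ⟪p x, p y⟫_ℝ = ⟪p x, y⟫_ℝ := by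
    intro x y
    rw [h1, h1]
    exact Finset.sum_congr rfl fun i hi => by rw [h3 y i hi]
  refine ⟨h2, h4, fun x => ?_⟩
  have h5 : ‖p x‖ ^ 2 ≤ ‖p x‖ * ‖x‖ := by
    rw [← real_inner_self_eq_norm_sq, h4]
    exact real_inner_le_norm _ _
  rcases (norm_nonneg (p x)).lt_or_eq with h6 | h6
  · rw [sq] at h5
    exact le_of_mul_le_mul_left h5 h6
  · rw [← h6]
    exact norm_nonneg x

theorem exp_le (T : ℝ) : Real.exp T - 1 - T ≤ T ^ 2 * Real.exp |T| := by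
  have h0 : Real.exp T ≤ Real.exp |T| := Real.exp_le_exp.2 (le_abs_self T)
  have h1 : (1 : ℝ) ≤ Real.exp |T| := Real.one_le_exp (abs_nonneg T)
  rcases le_or_gt (-1) T with h | h
  · have h2 : Real.exp T * (1 - T) ≤ 1 := by
      have h3 := Real.add_one_le_exp (-T)
      have h4 : Real.exp T * (1 - T) ≤ Real.exp T * Real.exp (-T) :=
        mul_le_mul_of_nonneg_left (by linarith) (Real.exp_pos T).le
      rwa [← Real.exp_add, add_neg_cancel, Real.exp_zero] at h4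
    have h5 : Real.exp T * (1 - T) * (1 + T) ≤ 1 * (1 + T) :=
      mul_le_mul_of_nonneg_right h2 (by linarith)
    have h6 : T ^ 2 * Real.exp T ≤ T ^ 2 * Real.exp |T| := mul_le_mul_of_nonneg_left h0 (sq_nonneg T)
    nlinarith
  · have h2 : Real.exp T ≤ 1 := Real.exp_le_one_iff.2 (by linarith)
    have h3 : -T ≤ T ^ 2 := by nlinarith
    have h4 : T ^ 2 * 1 ≤ T ^ 2 * Real.exp |T| := mul_le_mul_of_nonneg_left h1 (sq_nonneg T)
    linarith

theorem ptw (τ u : ℝ) (hτ0 : 0 ≤ τ) (hτ : τ ≤ 1 / 2) :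
    Real.exp (τ * u) ≤ 1 + τ * u + 8 * τ ^ 2 * Real.exp |u| := by
  have h1 := exp_le (τ * u)
  have h2 : |τ * u| ≤ |u| / 2 := by
    rw [abs_mul, abs_of_nonneg hτ0]
    nlinarith [abs_nonneg u]
  have h3 : Real.exp |τ * u| ≤ Real.exp (|u| / 2) := Real.exp_le_exp.2 h2
  have h4 : u ^ 2 ≤ 8 * Real.exp (|u| / 2) := by
    have h5 := Real.quadratic_le_exp_of_nonneg (by positivity : 0 ≤ |u| / 2)
    have h6 : u ^ 2 = |u| ^ 2 := (sq_abs u).symm
    rw [h6]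
    nlinarith [abs_nonneg u]
  have h7 : Real.exp |u| = Real.exp (|u| / 2) * Real.exp (|u| / 2) := by
    rw [← Real.exp_add]
    congr 1
    ring
  have h8 : (τ * u) ^ 2 * Real.exp |τ * u| ≤ 8 * τ ^ 2 * Real.exp |u| := by
    calc (τ * u) ^ 2 * Real.exp |τ * u| = τ ^ 2 * (u ^ 2 * Real.exp |τ * u|) := by ring
      _ ≤ τ ^ 2 * (8 * Real.exp (|u| / 2) * Real.exp (|u| / 2)) := by
          refine mul_le_mul_of_nonneg_left ?_ (sq_nonneg τ)
          exact mul_le_mul h4 h3 (Real.exp_pos _).le (by positivity)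
      _ = _ := by
          rw [h7]
          ring
  linarith

/-- Fubini -/
theorem fub (hGEX : X_GEX) {Ω : Type} [MeasurableSpace Ω] (m : Measure Ω) [IsFiniteMeasure m]
    (h : Ω → E d) (c : Ω → ℝ) (hh : Measurable h) (hc : Measurable c) (B : ℝ)
    (hB : ∀ᵐ z ∂m, ‖h z‖ ≤ B ∧ |c z| ≤ B) :
    Integrable (fun w => ∫ z, Real.exp (⟪h z, w⟫_ℝ - c z) ∂m) (ga d) ∧
    ∫ w, ∫ z, Real.exp (⟪h z, w⟫_ℝ - c z) ∂m ∂(ga d) =
      ∫ z, Real.exp (‖h z‖ ^ 2 / 2 - c z) ∂m := by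
  obtain ⟨g1, g2⟩ := hGEX d
  have hmeas : Measurable fun q : E d × Ω => Real.exp (⟪h q.2, q.1⟫_ℝ - c q.2) := by
    have e1 : Measurable fun q : E d × Ω => ⟪h q.2, q.1⟫_ℝ :=
      (hh.comp measurable_snd).inner measurable_fst
    exact (e1.sub (hc.comp measurable_snd)).exp
  have hdom : Integrable (fun q : E d × Ω => Real.exp (B * ‖q.1‖) * Real.exp B)
      ((ga d).prod m) := by
    have e1 : Integrable (fun q : E d × Ω => Real.exp (B * ‖q.1‖) * (fun _ : Ω => Real.exp B) q.2)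
        ((ga d).prod m) := (g1 B).mul_prod (integrable_const _)
    exact e1
  have hint : Integrable (fun q : E d × Ω => Real.exp (⟪h q.2, q.1⟫_ℝ - c q.2))
      ((ga d).prod m) := by
    refine hdom.mono' hmeas.aestronglyMeasurable ?_
    have e1 : ∀ᵐ q : E d × Ω ∂((ga d).prod m), ‖h q.2‖ ≤ B ∧ |c q.2| ≤ B :=
      Measure.quasiMeasurePreserving_snd.ae hB
    filter_upwards [e1] with q hq
    rw [Real.norm_eq_abs, abs_of_pos (Real.exp_pos _), ← Real.exp_add]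
    refine Real.exp_le_exp.2 ?_
    have e2 : ⟪h q.2, q.1⟫_ℝ ≤ B * ‖q.1‖ := (real_inner_le_norm _ _).trans
      (mul_le_mul_of_nonneg_right hq.1 (norm_nonneg _))
    have e3 := (abs_le.1 hq.2).1
    linarith
  refine ⟨hint.integral_prod_left, ?_⟩
  rw [integral_integral_swap hint]
  refine integral_congr_ae (Eventually.of_forall fun z => ?_)
  show ∫ w, Real.exp (⟪h z, w⟫_ℝ - c z) ∂(ga d) = Real.exp (‖h z‖ ^ 2 / 2 - c z)
  have e1 : ∀ w : E d, Real.exp (⟪h z, w⟫_ℝ - c z) = Real.exp ⟪h z, w⟫_ℝ * Real.exp (-c z) := by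
    intro w
    rw [← Real.exp_add]
    congr 1
  simp_rw [e1]
  rw [integral_mul_const, g2, ← Real.exp_add]
  congr 1

/-- continuous functions are integrable -/
theorem intb {ν : Measure (E d)} [IsFiniteMeasure ν] (B : ℝ) (hB : ∀ᵐ x ∂ν, ‖x‖ ≤ B)
    {F : E d × E d → ℝ} (hF : Continuous F) : Integrable F (ν.prod ν) := by
  have hK : IsCompact (Metric.closedBall (0 : E d) B ×ˢ Metric.closedBall (0 : E d) B) :=
    (isCompact_closedBall 0 B).prod (isCompact_closedBall 0 B)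
  obtain ⟨C, hC⟩ := hK.exists_bound_of_continuousOn hF.continuousOn
  refine Integrable.of_bound hF.aestronglyMeasurable C ?_
  have e1 : ∀ᵐ z : E d × E d ∂(ν.prod ν), ‖z.1‖ ≤ B := Measure.quasiMeasurePreserving_fst.ae hB
  have e2 : ∀ᵐ z : E d × E d ∂(ν.prod ν), ‖z.2‖ ≤ B := Measure.quasiMeasurePreserving_snd.ae hB
  filter_upwards [e1, e2] with z h1 h2
  exact hC z ⟨mem_closedBall_zero_iff.2 h1, mem_closedBall_zero_iff.2 h2⟩

theorem intb1 {ν : Measure (E d)} [IsFiniteMeasure ν] (B : ℝ) (hB : ∀ᵐ x ∂ν, ‖x‖ ≤ B)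
    {X : Type} [NormedAddCommGroup X] {F : E d → X} (hF : Continuous F)
    [SecondCountableTopologyEither (E d) X] : Integrable F ν := by
  obtain ⟨C, hC⟩ := (isCompact_closedBall (0 : E d) B).exists_bound_of_continuousOn hF.continuousOn
  refine Integrable.of_bound hF.aestronglyMeasurable C ?_
  filter_upwards [hB] with z h1
  exact hC z (mem_closedBall_zero_iff.2 h1)

/-- the uniform measure on `P` -/
theorem mp_facts {P : Set (E d)} {a : ℝ} (hP : Bn P a) : IsProbabilityMeasure (mP P) ∧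
    ∃ B : ℝ, ∀ᵐ x ∂(mP P), ‖x‖ ≤ B := by
  have hm : MeasurableSet P := hP.comp.isClosed.measurableSet
  have h0 : volume P ≠ 0 := by
    have h1 : 0 < volume (interior P) := isOpen_interior.measure_pos volume ⟨0, hP.int⟩
    exact (h1.trans_le (measure_mono interior_subset)).ne'
  refine ⟨Pool.Agent.N555.RZ.mP_prob h0 hP.comp.measure_lt_top.ne, ?_⟩
  obtain ⟨B, hB⟩ := hP.comp.isBounded.exists_norm_le
  exact ⟨B, (Pool.Agent.N555.RZ.mP_ae hm).mono fun x hx => hB x hx⟩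

/-- the mean over the truncated body -/
theorem mean_le {P A : Set (E d)} {a : ℝ} {p : E d →L[ℝ] E d} {k : ℕ} (hP : Bn P a) (hI : Iso P)
    (hp : Pj p k) (hA : MeasurableSet A) :
    ‖∫ x in A, p x ∂(mP P)‖ ^ 2 ≤ ((mP P) Aᶜ).toReal := by
  obtain ⟨hpr, B, hB⟩ := mp_facts hP
  obtain ⟨p1, p2, p3⟩ := pj_inner hp
  obtain ⟨V, hV⟩ : ∃ V, V = ∫ x in A, p x ∂(mP P) := ⟨_, rfl⟩
  rw [← hV]
  have hB' : ∀ᵐ x ∂((mP P).restrict A), ‖x‖ ≤ B := ae_restrict_of_ae hB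
  have i1 : Integrable (fun x => p x) ((mP P).restrict A) := intb1 B hB' p.continuous
  have i2 : Integrable (fun x => ⟪x, p V⟫_ℝ) (mP P) := intb1 B hB (by fun_prop)
  have i3 : Integrable (fun x => ⟪x, p V⟫_ℝ ^ 2) (mP P) := intb1 B hB (by fun_prop)
  have e1 : ‖V‖ ^ 2 = ∫ x in A, ⟪x, p V⟫_ℝ ∂(mP P) := by
    rw [← real_inner_self_eq_norm_sq]
    have e2 : ⟪V, V⟫_ℝ = ⟪V, ∫ x in A, p x ∂(mP P)⟫_ℝ := by rw [← hV]
    rw [e2, ← integral_inner i1 V]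
    refine integral_congr_ae (Eventually.of_forall fun x => ?_)
    show ⟪V, p x⟫_ℝ = ⟪x, p V⟫_ℝ
    rw [← p1, real_inner_comm]
  have e3 := integral_add_compl hA i2
  rw [hP.bar] at e3
  have e4 : -(∫ x in Aᶜ, ⟪x, p V⟫_ℝ ∂(mP P)) ≤
      ∫ x in Aᶜ, (1 / 2 + 1 / 2 * ⟪x, p V⟫_ℝ ^ 2) ∂(mP P) := by
    rw [← integral_neg]
    refine integral_mono i2.integrableOn.neg
      ((integrable_const _).add (i3.integrableOn.const_mul _)) fun x => ?_
    show -⟪x, p V⟫_ℝ ≤ 1 / 2 + 1 / 2 * ⟪x, p V⟫_ℝ ^ 2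
    nlinarith [sq_nonneg (⟪x, p V⟫_ℝ + 1)]
  rw [integral_add (integrable_const _) (i3.integrableOn.const_mul _), integral_const,
    integral_const_mul, smul_eq_mul, Measure.real, Measure.restrict_apply_univ] at e4
  have e5 : ∫ x in Aᶜ, ⟪x, p V⟫_ℝ ^ 2 ∂(mP P) ≤ ‖p V‖ ^ 2 := by
    rw [← hI (p V)]
    exact setIntegral_le_integral i3 (Eventually.of_forall fun x => sq_nonneg _)
  have e6 : ‖p V‖ ^ 2 ≤ ‖V‖ ^ 2 := pow_le_pow_left₀ (norm_nonneg _) (p3 V) 2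
  linarith

theorem numer (D s L q τ : ℝ) (hD : 10 ^ 50 ≤ D) (hL1 : 1 ≤ L) (hLd : L ≤ D) (hq : 1 ≤ q)
    (hs : 0 < s) (hs1 : s ≤ 1 / (10 ^ 14 * L ^ 3 * q)) (hτ : τ = 8000 * s * L * q) :
    0 ≤ τ ∧ τ ≤ 1 / 2 ∧ s * (1 / D ^ 18) + 32 * τ ^ 2 ≤ (1 / (10 ^ 9 * L)) ^ 2 := by
  have hL0 : 0 < L := by linarith
  have hq0 : 0 < q := by linarith
  have hD0 : 0 < D := by linarith
  have hLsq : 1 ≤ L ^ 2 := one_le_pow₀ hL1
  have hτ0 : 0 ≤ τ := by
    rw [hτ]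
    positivity
  have hτ1 : τ ≤ 8 / (10 ^ 11 * L ^ 2) := by
    calc τ = s * (8000 * L * q) := by
          rw [hτ]
          ring
      _ ≤ 1 / (10 ^ 14 * L ^ 3 * q) * (8000 * L * q) :=
          mul_le_mul_of_nonneg_right hs1 (by positivity)
      _ = _ := by
          field_simp
          norm_num
  refine ⟨hτ0, ?_, ?_⟩
  · refine hτ1.trans ?_
    rw [div_le_div_iff₀ (by positivity) (by norm_num)]
    nlinarith
  have hτsq : τ ^ 2 ≤ 64 / (10 ^ 22 * L ^ 2) := by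
    have e1 : τ ^ 2 ≤ (8 / (10 ^ 11 * L ^ 2)) ^ 2 := pow_le_pow_left₀ hτ0 hτ1 2
    refine e1.trans ?_
    have e2 : (8 / (10 ^ 11 * L ^ 2)) ^ 2 = 64 / (10 ^ 22 * L ^ 2) * (1 / L ^ 2) := by
      field_simp
      norm_num
    rw [e2]
    have e3 : 1 / L ^ 2 ≤ 1 := (div_le_one (by positivity)).2 hLsq
    exact mul_le_of_le_one_right (by positivity) e3
  have e4 : 1 ≤ L ^ 3 * q := by
    have e2 : 1 ≤ L ^ 3 := one_le_pow₀ hL1
    nlinarith
  have hs2 : s ≤ 1 := by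
    refine hs1.trans ?_
    rw [div_le_one (by positivity)]
    have e5 : (10 : ℝ) ^ 14 * L ^ 3 * q = 10 ^ 14 * (L ^ 3 * q) := by ring
    rw [e5]
    linarith
  have hsd : s * (1 / D ^ 18) ≤ 1 / (10 ^ 50 * L ^ 2) := by
    have e5 : 10 ^ 50 * L ^ 2 ≤ D ^ 18 := by
      have e6 : L ^ 2 ≤ D ^ 2 := pow_le_pow_left₀ hL0.le hLd 2
      have e7 : (10 : ℝ) ^ 50 ≤ D ^ 16 :=
        hD.trans (le_self_pow₀ (by linarith) (by norm_num))
      calc 10 ^ 50 * L ^ 2 ≤ D ^ 16 * D ^ 2 :=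
            mul_le_mul e7 e6 (by positivity) (by positivity)
        _ = _ := by ring
    calc s * (1 / D ^ 18) ≤ 1 * (1 / (10 ^ 50 * L ^ 2)) :=
          mul_le_mul hs2 (one_div_le_one_div_of_le (by positivity) e5) (by positivity)
            (by norm_num)
      _ = _ := one_mul _
  have hfin : 1 / (10 ^ 50 * L ^ 2) + 32 * (64 / (10 ^ 22 * L ^ 2)) ≤
      (1 / (10 ^ 9 * L)) ^ 2 := by
    have e1 : 1 / (10 ^ 50 * L ^ 2) + 32 * (64 / (10 ^ 22 * L ^ 2)) =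
        (1 / 10 ^ 50 + 32 * 64 / 10 ^ 22) * (1 / L ^ 2) := by
      field_simp
    have e2 : (1 / (10 ^ 9 * L)) ^ 2 = (1 / (10 ^ 9) ^ 2) * (1 / L ^ 2) := by
      field_simp
    rw [e1, e2]
    refine mul_le_mul_of_nonneg_right ?_ (by positivity)
    norm_num
  linarith

end VAR

open VAR in
theorem var (hGEX : X_GEX) (hEXP : X_EXP) (hTRU : X_TRU) : X_VAR := by
  intro d k P a s p hd hP hI hp hk hs hs1
  obtain ⟨hA, hAc⟩ := hTRU d k P a p hd hP hI hp hk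
  obtain ⟨hpr, B₀, hB₀⟩ := mp_facts hP
  obtain ⟨p1, p2, p3⟩ := pj_inner hp
  obtain ⟨A, hAd⟩ : ∃ A, A = Bt P p k := ⟨_, rfl⟩
  rw [← hAd] at hA hAc ⊢
  obtain ⟨L, hL⟩ : ∃ L, L = Real.log ((d : ℝ) + 1) := ⟨_, rfl⟩
  rw [← hL] at hs1 ⊢
  have hd1 : (1 : ℝ) ≤ d := by
    have h1 : 1 ≤ d := le_trans (by norm_num) hd
    exact_mod_cast h1
  have hd50 : (10 : ℝ) ^ 50 ≤ (d : ℝ) + 1 := by
    have h1 : ((10 ^ 50 : ℕ) : ℝ) ≤ d := by exact_mod_cast hd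
    push_cast at h1
    linarith
  have hL1 : 1 ≤ L := by
    rw [hL, Real.le_log_iff_exp_le (by positivity)]
    have h1 := Real.exp_one_lt_d9
    have h2 : (3 : ℝ) ≤ 10 ^ 50 := by norm_num
    linarith
  have hLd : L ≤ (d : ℝ) + 1 := by
    rw [hL]
    have := Real.log_le_sub_one_of_pos (by positivity : (0 : ℝ) < (d : ℝ) + 1)
    linarith
  have hL0 : 0 < L := by linarith
  have hk0 : (0 : ℝ) < k := by exact_mod_cast hk
  have hsk : 0 < Real.sqrt k := Real.sqrt_pos.2 hk0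
  -- the restricted measure
  obtain ⟨ν, hν⟩ : ∃ ν, ν = (mP P).restrict A := ⟨_, rfl⟩
  have hνf : IsFiniteMeasure ν := by
    rw [hν]
    infer_instance
  have hνA : ∀ᵐ x ∂ν, x ∈ A := by
    rw [hν]
    exact ae_restrict_mem hA
  have hνB : ∀ᵐ x ∂ν, ‖x‖ ≤ B₀ := by
    rw [hν]
    exact ae_restrict_of_ae hB₀
  obtain ⟨b, hb⟩ : ∃ b, b = ((mP P) A).toReal := ⟨_, rfl⟩
  have hb' : ν.real univ = b := by
    rw [hb, hν, Measure.real, Measure.restrict_apply_univ]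
  have hb1 : b ≤ 1 := by
    rw [hb]
    exact measureReal_le_one
  have hb0 : 0 ≤ b := by
    rw [hb]
    exact ENNReal.toReal_nonneg
  rw [← hb]
  -- the first moments
  obtain ⟨G, hG⟩ : ∃ G : E d → ℝ, G = ZB (mP P) A s p := ⟨_, rfl⟩
  have hss : Real.sqrt s * Real.sqrt s = s := Real.mul_self_sqrt hs.le
  have hG1 : ∀ w, G w = ∫ x, Real.exp (⟪Real.sqrt s • p x, w⟫_ℝ - s / 2 * ‖p x‖ ^ 2) ∂ν := by
    intro w
    rw [hG, hν]
    unfold ZB ex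
    refine integral_congr_ae (Eventually.of_forall fun x => ?_)
    show Real.exp (Real.sqrt s * ⟪p x, w⟫_ℝ - s / 2 * ‖p x‖ ^ 2) =
      Real.exp (⟪Real.sqrt s • p x, w⟫_ℝ - s / 2 * ‖p x‖ ^ 2)
    rw [real_inner_smul_left]
  have hns : ∀ x : E d, ‖Real.sqrt s • p x‖ = Real.sqrt s * ‖p x‖ := fun x => by
    rw [norm_smul, Real.norm_eq_abs, abs_of_nonneg (Real.sqrt_nonneg s)]
  have hF1 := fub hGEX ν (fun x => Real.sqrt s • p x) (fun x => s / 2 * ‖p x‖ ^ 2)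
    (by fun_prop) (by fun_prop) (Real.sqrt s * B₀ + s / 2 * B₀ ^ 2) (by
      filter_upwards [hνB] with x hx
      have h1 : ‖p x‖ ≤ B₀ := (p3 x).trans hx
      have h2 : ‖p x‖ ^ 2 ≤ B₀ ^ 2 := pow_le_pow_left₀ (norm_nonneg _) h1 2
      have h3 : Real.sqrt s * ‖p x‖ ≤ Real.sqrt s * B₀ :=
        mul_le_mul_of_nonneg_left h1 (Real.sqrt_nonneg s)
      have h4 : s / 2 * ‖p x‖ ^ 2 ≤ s / 2 * B₀ ^ 2 := mul_le_mul_of_nonneg_left h2 (by positivity)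
      have h5 : 0 ≤ s / 2 * ‖p x‖ ^ 2 := by positivity
      have h6 : 0 ≤ Real.sqrt s * ‖p x‖ := by positivity
      constructor
      · rw [hns]
        linarith
      · rw [abs_of_nonneg h5]
        linarith)
  obtain ⟨f1, f2⟩ := hF1
  have hGf : (fun w => ∫ z, Real.exp (⟪Real.sqrt s • p z, w⟫_ℝ - s / 2 * ‖p z‖ ^ 2) ∂ν) = G :=
    funext fun w => (hG1 w).symm
  rw [hGf] at f1 f2
  have hmean : ∫ w, G w ∂(ga d) = b := by
    rw [f2, ← hb']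
    have e1 : ∀ z : E d, Real.exp (‖Real.sqrt s • p z‖ ^ 2 / 2 - s / 2 * ‖p z‖ ^ 2) = 1 := by
      intro z
      rw [Real.exp_eq_one_iff, hns, mul_pow, sq (Real.sqrt s), hss]
      ring
    simp_rw [e1]
    rw [integral_const, smul_eq_mul, mul_one]
  -- the second moments
  have hG2 : ∀ w, G w ^ 2 = ∫ z : E d × E d, Real.exp (⟪Real.sqrt s • (p z.1 + p z.2), w⟫_ℝ -
      s / 2 * (‖p z.1‖ ^ 2 + ‖p z.2‖ ^ 2)) ∂(ν.prod ν) := by
    intro w
    rw [sq, hG1, ← integral_prod_mul]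
    refine integral_congr_ae (Eventually.of_forall fun z => ?_)
    show Real.exp (⟪Real.sqrt s • p z.1, w⟫_ℝ - s / 2 * ‖p z.1‖ ^ 2) *
      Real.exp (⟪Real.sqrt s • p z.2, w⟫_ℝ - s / 2 * ‖p z.2‖ ^ 2) =
      Real.exp (⟪Real.sqrt s • (p z.1 + p z.2), w⟫_ℝ - s / 2 * (‖p z.1‖ ^ 2 + ‖p z.2‖ ^ 2))
    rw [← Real.exp_add, smul_add, inner_add_left]
    congr 1
    ring
  have hB2 : ∀ᵐ z : E d × E d ∂(ν.prod ν), ‖z.1‖ ≤ B₀ ∧ ‖z.2‖ ≤ B₀ :=
    (Measure.quasiMeasurePreserving_fst.ae hνB).and (Measure.quasiMeasurePreserving_snd.ae hνB)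
  have hF2 := fub hGEX (ν.prod ν) (fun z : E d × E d => Real.sqrt s • (p z.1 + p z.2))
    (fun z => s / 2 * (‖p z.1‖ ^ 2 + ‖p z.2‖ ^ 2)) (by fun_prop) (by fun_prop)
    (2 * (Real.sqrt s * B₀) + s * B₀ ^ 2) (by
      filter_upwards [hB2] with z hz
      have h1 : ‖p z.1‖ ≤ B₀ := (p3 _).trans hz.1
      have h1' : ‖p z.2‖ ≤ B₀ := (p3 _).trans hz.2
      have h2 : ‖p z.1‖ ^ 2 ≤ B₀ ^ 2 := pow_le_pow_left₀ (norm_nonneg _) h1 2
      have h2' : ‖p z.2‖ ^ 2 ≤ B₀ ^ 2 := pow_le_pow_left₀ (norm_nonneg _) h1' 2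
      have h0 : 0 ≤ B₀ := (norm_nonneg _).trans h1
      have h3 : ‖Real.sqrt s • (p z.1 + p z.2)‖ ≤ Real.sqrt s * (B₀ + B₀) := by
        rw [norm_smul, Real.norm_eq_abs, abs_of_nonneg (Real.sqrt_nonneg s)]
        exact mul_le_mul_of_nonneg_left ((norm_add_le _ _).trans (add_le_add h1 h1'))
          (Real.sqrt_nonneg s)
      have h4 : s / 2 * (‖p z.1‖ ^ 2 + ‖p z.2‖ ^ 2) ≤ s / 2 * (B₀ ^ 2 + B₀ ^ 2) :=
        mul_le_mul_of_nonneg_left (add_le_add h2 h2') (by positivity)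
      have h5 : 0 ≤ s / 2 * (‖p z.1‖ ^ 2 + ‖p z.2‖ ^ 2) := by positivity
      have h6 : 0 ≤ Real.sqrt s * B₀ := by positivity
      have h7 : 0 ≤ s * B₀ ^ 2 := by positivity
      constructor
      · linarith
      · rw [abs_of_nonneg h5]
        linarith)
  obtain ⟨k1, k2⟩ := hF2
  have hGf2 : (fun w => ∫ z : E d × E d, Real.exp (⟪Real.sqrt s • (p z.1 + p z.2), w⟫_ℝ -
      s / 2 * (‖p z.1‖ ^ 2 + ‖p z.2‖ ^ 2)) ∂(ν.prod ν)) = fun w => G w ^ 2 :=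
    funext fun w => (hG2 w).symm
  rw [hGf2] at k1 k2
  have hsec : ∫ w, G w ^ 2 ∂(ga d) = ∫ z : E d × E d, Real.exp (s * ⟪p z.1, p z.2⟫_ℝ)
      ∂(ν.prod ν) := by
    rw [k2]
    refine integral_congr_ae (Eventually.of_forall fun z => ?_)
    show Real.exp (‖Real.sqrt s • (p z.1 + p z.2)‖ ^ 2 / 2 -
      s / 2 * (‖p z.1‖ ^ 2 + ‖p z.2‖ ^ 2)) = Real.exp (s * ⟪p z.1, p z.2⟫_ℝ)
    congr 1
    rw [norm_smul, Real.norm_eq_abs, abs_of_nonneg (Real.sqrt_nonneg s), mul_pow,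
      sq (Real.sqrt s), hss, norm_add_sq_real]
    ring
  have hvar : ∫ w, (G w - b) ^ 2 ∂(ga d) =
      ∫ z : E d × E d, Real.exp (s * ⟪p z.1, p z.2⟫_ℝ) ∂(ν.prod ν) - b ^ 2 := by
    have e1 : ∀ w, (G w - b) ^ 2 = (G w ^ 2 - 2 * b * G w) + b ^ 2 := fun w => by ring
    simp_rw [e1]
    have e2 : Integrable (fun w => G w ^ 2 - 2 * b * G w) (ga d) := k1.sub (f1.const_mul _)
    rw [integral_add e2 (integrable_const _), integral_sub k1 (f1.const_mul _),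
      integral_const_mul, hmean, hsec, integral_const, smul_eq_mul, probReal_univ]
    ring
  -- the pointwise bound
  obtain ⟨τ, hτ⟩ : ∃ τ, τ = 8000 * s * L * Real.sqrt k := ⟨_, rfl⟩
  have hsk1 : 1 ≤ Real.sqrt k := by
    rw [Real.one_le_sqrt]
    exact_mod_cast hk
  obtain ⟨hτ0, hτ2, hnum⟩ := numer ((d : ℝ) + 1) s L (Real.sqrt k) τ hd50 hL1 hLd hsk1 hs hs1 hτ
  obtain ⟨c, hc⟩ : ∃ c, c = (400 * L * Real.sqrt k)⁻¹ := ⟨_, rfl⟩
  have hc0 : 0 < c := by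
    rw [hc]
    positivity
  obtain ⟨u, hu⟩ : ∃ u : E d × E d → ℝ, u = fun z => ⟪z.2, c • p z.1⟫_ℝ / 20 := ⟨_, rfl⟩
  have hTu : ∀ z : E d × E d, s * ⟪p z.1, p z.2⟫_ℝ = τ * u z := by
    intro z
    have e1 : u z = ⟪z.2, c • p z.1⟫_ℝ / 20 := by rw [hu]
    have e2 : ⟪z.2, c • p z.1⟫_ℝ = c * ⟪p z.1, z.2⟫_ℝ := by
      rw [real_inner_smul_right, real_inner_comm]
    rw [e1, e2, p2, hτ, hc]
    field_simp
    ring
  have iT : Integrable (fun z : E d × E d => ⟪p z.1, p z.2⟫_ℝ) (ν.prod ν) :=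
    intb B₀ hνB (by fun_prop)
  have iu : Integrable (fun z : E d × E d => Real.exp |u z|) (ν.prod ν) := by
    refine intb B₀ hνB ?_
    rw [hu]
    fun_prop
  have iE : Integrable (fun z : E d × E d => Real.exp (s * ⟪p z.1, p z.2⟫_ℝ)) (ν.prod ν) :=
    intb B₀ hνB (by fun_prop)
  have hbd : ∫ z : E d × E d, Real.exp (s * ⟪p z.1, p z.2⟫_ℝ) ∂(ν.prod ν) ≤
      b ^ 2 + s * (∫ z : E d × E d, ⟪p z.1, p z.2⟫_ℝ ∂(ν.prod ν)) +
        8 * τ ^ 2 * ∫ z : E d × E d, Real.exp |u z| ∂(ν.prod ν) := by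
    have e1 : ∫ z : E d × E d, Real.exp (s * ⟪p z.1, p z.2⟫_ℝ) ∂(ν.prod ν) ≤
        ∫ z : E d × E d, ((1 + s * ⟪p z.1, p z.2⟫_ℝ) + 8 * τ ^ 2 * Real.exp |u z|)
          ∂(ν.prod ν) := by
      refine integral_mono iE (((integrable_const _).add (iT.const_mul _)).add
        (iu.const_mul _)) fun z => ?_
      show Real.exp (s * ⟪p z.1, p z.2⟫_ℝ) ≤
        (1 + s * ⟪p z.1, p z.2⟫_ℝ) + 8 * τ ^ 2 * Real.exp |u z|
      rw [hTu]
      exact ptw τ (u z) hτ0 hτ2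
    have e2 : Integrable (fun z : E d × E d => 1 + s * ⟪p z.1, p z.2⟫_ℝ) (ν.prod ν) :=
      (integrable_const _).add (iT.const_mul _)
    rw [integral_add e2 (iu.const_mul _), integral_add (integrable_const _) (iT.const_mul _),
      integral_const_mul, integral_const_mul, integral_const, smul_eq_mul, mul_one] at e1
    have e3 : (ν.prod ν).real univ = b ^ 2 := by
      rw [← univ_prod_univ, measureReal_prod_prod, hb', sq]
    rw [e3] at e1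
    exact e1
  -- the linear part
  have hlin : ∫ z : E d × E d, ⟪p z.1, p z.2⟫_ℝ ∂(ν.prod ν) = ‖∫ x in A, p x ∂(mP P)‖ ^ 2 := by
    rw [integral_prod _ iT, ← hν]
    have i1 : Integrable (fun x => p x) ν := intb1 B₀ hνB p.continuous
    have e1 : ∀ x : E d, ∫ y, ⟪p x, p y⟫_ℝ ∂ν = ⟪∫ y, p y ∂ν, p x⟫_ℝ := by
      intro x
      rw [integral_inner i1 (p x), real_inner_comm]
    simp_rw [e1]
    rw [integral_inner i1, real_inner_self_eq_norm_sq]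
  have hlin2 : s * (∫ z : E d × E d, ⟪p z.1, p z.2⟫_ℝ ∂(ν.prod ν)) ≤
      s * (1 / ((d : ℝ) + 1) ^ 18) := by
    rw [hlin]
    exact mul_le_mul_of_nonneg_left ((mean_le hP hI hp hA).trans hAc) hs.le
  -- the exponential part
  have hexp : ∫ z : E d × E d, Real.exp |u z| ∂(ν.prod ν) ≤ 4 := by
    rw [integral_prod _ iu]
    have e1 : ∫ x, ∫ y, Real.exp |u (x, y)| ∂ν ∂ν ≤ ∫ x, (4 : ℝ) ∂ν := by
      refine integral_mono_ae iu.integral_prod_left (integrable_const _) ?_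
      filter_upwards [hνA] with x hx
      have hx3 : ‖p x‖ ≤ 400 * L * Real.sqrt k := by
        rw [hAd] at hx
        have := hx.2.2
        rwa [← hL] at this
      have hcx : ‖c • p x‖ ≤ 1 := by
        rw [norm_smul, Real.norm_eq_abs, abs_of_pos hc0, hc, inv_mul_le_iff₀ (by positivity),
          mul_one]
        exact hx3
      have h1 := hEXP d P a hP hI (c • p x) hcx
      have h2 : Integrable (fun y => Real.exp (|⟪y, c • p x⟫_ℝ| / 20)) (mP P) :=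
        intb1 B₀ hB₀ (by fun_prop)
      have h3 : ∫ y, Real.exp |u (x, y)| ∂ν ≤ ∫ y, Real.exp (|⟪y, c • p x⟫_ℝ| / 20) ∂(mP P) := by
        rw [hν]
        have h4 : ∀ y, Real.exp |u (x, y)| = Real.exp (|⟪y, c • p x⟫_ℝ| / 20) := by
          intro y
          rw [hu]
          show Real.exp |⟪y, c • p x⟫_ℝ / 20| = _
          rw [abs_div, abs_of_pos (by norm_num : (0 : ℝ) < 20)]
        simp_rw [h4]
        exact setIntegral_le_integral h2 (Eventually.of_forall fun y => (Real.exp_pos _).le)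
      exact h3.trans h1
    rw [integral_const, hb', smul_eq_mul] at e1
    linarith
  rw [hG] at hvar
  rw [hvar]
  have hx : 8 * τ ^ 2 * ∫ z : E d × E d, Real.exp |u z| ∂(ν.prod ν) ≤ 32 * τ ^ 2 := by
    have := mul_le_mul_of_nonneg_left hexp (by positivity : 0 ≤ 8 * τ ^ 2)
    linarith
  linarith

end Pool.Agent.T2h52.FC
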